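import Pool.Agent.U847.TI
import Pool.Agent.N625.DY.H

set_option autoImplicit false

/-! Nested words: from probabilities to numbers. -/

namespace Pool.Agent.U847.BT
open Finset
open Pool.Agent.N625.DY (Alphabet brackets BrC br_count brs_count)

open Classical in
/-- from the class to the number of the words, one integer -/
theorem br_num {b : ℕ} {P : Finset (ℕ × ℕ)} {E : Finset ℕ} (hA : Alphabet b P E) {k U : ℕ} (Q : ℕ → Prop)
    (h : ∀ p, BrC b P E k p → ∑ v ∈ range (b ^ k), (if Q v then 0 else p v) ≤ 1 / (k : ℝ) ^ U) :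
    (((brackets b P E k).filter fun v => ¬ Q v).card : ℝ) ≤ (brackets b P E k).card / (k : ℝ) ^ U := by
  have h1 := br_count k Q _ hA h
  rw [mul_one_div] at h1
  exact h1

open Classical in
/-- from the class to the number of the words, several integers -/
theorem br_nums {s b : ℕ} {P : Fin s → Finset (ℕ × ℕ)} {E : Fin s → Finset ℕ} (hA : ∀ i, Alphabet b (P i) (E i)) {k U : ℕ}
    (Q : (Fin s → ℕ) → Prop)
    (h : ∀ p : Fin s → ℕ → ℝ, (∀ i, BrC b (P i) (E i) k (p i)) →
      ∑ v ∈ Fintype.piFinset (fun _ : Fin s => range (b ^ k)), (if Q v then 0 else ∏ i, p i (v i)) ≤ 1 / (k : ℝ) ^ U) :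
    (((Fintype.piFinset fun i => brackets b (P i) (E i) k).filter fun v => ¬ Q v).card : ℝ) ≤
      (Fintype.piFinset fun i => brackets b (P i) (E i) k).card / (k : ℝ) ^ U := by
  have h1 := brs_count (fun _ => b) P E hA (fun _ => k) Q (1 / (k : ℝ) ^ U) (by positivity) (fun hk => by
    refine le_trans (le_of_eq ?_) (h (fun i v => if v ∈ brackets b (P i) (E i) k then 1 / ((brackets b (P i) (E i) k).card : ℝ) else 0)
      (fun i => ⟨hk i, rfl⟩))
    apply sum_congr rfl
    intro v _
    by_cases hv : Q v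
    · rw [if_neg (not_not.2 hv), if_pos hv]
    · rw [if_pos hv, if_neg hv])
  rw [mul_one_div] at h1
  exact h1

end Pool.Agent.U847.BT
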