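import Pool.Agent.U847.WT
import Pool.Agent.U847.BT

set_option autoImplicit false

/-! From probabilities to numbers, with an arbitrary bound. -/

namespace Pool.Agent.U847.XW
open Finset
open Pool.Agent.N625.GW (Graph walks Rho WC w_sub card_pos' unif_count)
open Pool.Agent.N625.DY (Alphabet brackets BrC br_count brs_count)
open Pool.Agent.U847.WK (unif_one)

open Classical in
/-- from the class to the number of the walks, one integer -/
theorem w_num {X : Type} {b : ℕ} {δ : X → ℕ → Option X} {x y : X} {ρ : ℝ} (hρ : 0 < ρ) {D k : ℕ} {ε : ℝ} (hk : 1 ≤ k)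
    (hy : ρ ^ k / (k : ℝ) ^ D ≤ (walks b δ k x y).card) (Q : ℕ → Prop)
    (h : ∀ p, WC b δ x ρ D k p → ∑ v ∈ range (b ^ k), (if Q v then p v else 0) ≤ ε) :
    (((walks b δ k x y).filter fun v => Q v).card : ℝ) ≤ ε * (walks b δ k x y).card := by
  have hk1 : (0 : ℝ) < (k : ℝ) ^ D := by
    have : (0 : ℝ) < k := by exact_mod_cast hk
    positivity
  have hy' : ρ ^ k ≤ (k : ℝ) ^ D * (walks b δ k x y).card := by
    rw [div_le_iff₀ hk1, mul_comm] at hy
    exact hy
  have h1 := h (fun v => if v ∈ walks b δ k x y then 1 / ((walks b δ k x y).card : ℝ) else 0) ⟨y, hy', rfl⟩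
  have h2 := unif_one (range (b ^ k)) (walks b δ k x y) (w_sub _ _ _) (card_pos' hρ hy') (fun v => ¬ Q v) ε (by
    refine le_trans (le_of_eq ?_) h1
    apply sum_congr rfl
    intro v _
    by_cases hv : Q v
    · rw [if_neg (not_not.2 hv), if_pos hv]
    · rw [if_pos hv, if_neg hv])
  simp only [not_not] at h2
  rw [mul_comm] at h2
  exact h2

open Classical in
/-- from the class to the number of the walks, several integers -/
theorem w_nums {s b : ℕ} {X : Fin s → Type} {δ : ∀ i, X i → ℕ → Option (X i)} {x y : ∀ i, X i} {ρ : Fin s → ℝ}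
    (hρ : ∀ i, 0 < ρ i) {D k : ℕ} {ε : ℝ} (hk : 1 ≤ k)
    (hy : ∀ i, ρ i ^ k / (k : ℝ) ^ D ≤ (walks b (δ i) k (x i) (y i)).card) (Q : (Fin s → ℕ) → Prop)
    (h : ∀ p : Fin s → ℕ → ℝ, (∀ i, WC b (δ i) (x i) (ρ i) D k (p i)) →
      ∑ v ∈ Fintype.piFinset (fun _ : Fin s => range (b ^ k)), (if Q v then 0 else ∏ i, p i (v i)) ≤ ε) :
    (((Fintype.piFinset fun i => walks b (δ i) k (x i) (y i)).filter fun v => ¬ Q v).card : ℝ) ≤
      ε * (Fintype.piFinset fun i => walks b (δ i) k (x i) (y i)).card := by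
  have hk1 : (0 : ℝ) < (k : ℝ) ^ D := by
    have : (0 : ℝ) < k := by exact_mod_cast hk
    positivity
  have hy' : ∀ i, ρ i ^ k ≤ (k : ℝ) ^ D * (walks b (δ i) k (x i) (y i)).card := by
    intro i
    have := hy i
    rw [div_le_iff₀ hk1, mul_comm] at this
    exact this
  have h1 := h (fun i v => if v ∈ walks b (δ i) k (x i) (y i) then 1 / ((walks b (δ i) k (x i) (y i)).card : ℝ) else 0)
    (fun i => ⟨y i, hy' i, rfl⟩)
  have h2 := unif_count (fun _ => range (b ^ k)) (fun i => walks b (δ i) k (x i) (y i)) (fun i => w_sub _ _ _)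
    (fun i => card_pos' (hρ i) (hy' i)) Q _ h1
  rw [mul_comm] at h2
  exact h2

open Classical in
/-- from the class to the number of the words, one integer -/
theorem br_num {b : ℕ} {P : Finset (ℕ × ℕ)} {E : Finset ℕ} (hA : Alphabet b P E) {k : ℕ} {ε : ℝ} (Q : ℕ → Prop)
    (h : ∀ p, BrC b P E k p → ∑ v ∈ range (b ^ k), (if Q v then p v else 0) ≤ ε) :
    (((brackets b P E k).filter fun v => Q v).card : ℝ) ≤ ε * (brackets b P E k).card := by
  have h1 := br_count k (fun v => ¬ Q v) ε hA (fun p hp => by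
    refine le_trans (le_of_eq ?_) (h p hp)
    apply sum_congr rfl
    intro v _
    by_cases hv : Q v
    · rw [if_neg (not_not.2 hv), if_pos hv]
    · rw [if_pos hv, if_neg hv])
  simp only [not_not] at h1
  rw [mul_comm] at h1
  exact h1

open Classical in
/-- from the class to the number of the words, several integers -/
theorem br_nums {s b : ℕ} {P : Fin s → Finset (ℕ × ℕ)} {E : Fin s → Finset ℕ} (hA : ∀ i, Alphabet b (P i) (E i)) {k : ℕ}
    {ε : ℝ} (hε : 0 ≤ ε) (Q : (Fin s → ℕ) → Prop)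
    (h : ∀ p : Fin s → ℕ → ℝ, (∀ i, BrC b (P i) (E i) k (p i)) →
      ∑ v ∈ Fintype.piFinset (fun _ : Fin s => range (b ^ k)), (if Q v then 0 else ∏ i, p i (v i)) ≤ ε) :
    (((Fintype.piFinset fun i => brackets b (P i) (E i) k).filter fun v => ¬ Q v).card : ℝ) ≤
      ε * (Fintype.piFinset fun i => brackets b (P i) (E i) k).card := by
  have h1 := brs_count (fun _ => b) P E hA (fun _ => k) Q ε hε (fun hk => by
    refine le_trans (le_of_eq ?_) (h (fun i v => if v ∈ brackets b (P i) (E i) k then 1 / ((brackets b (P i) (E i) k).card : ℝ) else 0)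
      (fun i => ⟨hk i, rfl⟩))
    apply sum_congr rfl
    intro v _
    by_cases hv : Q v
    · rw [if_neg (not_not.2 hv), if_pos hv]
    · rw [if_pos hv, if_neg hv])
  rw [mul_comm] at h1
  exact h1

end Pool.Agent.U847.XW
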