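import Pool.Agent.N625.PT.M
import Pool.Agent.Y885.PD1

set_option autoImplicit false

/-! Classes of distributions of random integers given by digits: prime pairs in arithmetic progressions whose difference is
near a multiple of a neighbour of a random integer. -/

namespace Pool.Agent.U847.GD
open Finset
open Pool.Agent.N625.PT
open Pool.Agent.Y885 (TLaw tl_goodD)
open Pool.Agent.W93.PP (GoodD)

variable {b : ℕ} {κ : ℤ} {C : ℕ → (ℕ → ℝ) → Prop}

lemma log_bound (b : ℕ) (hb : 2 ≤ b) (J₂ : ℕ) : ∃ k₀ : ℕ, ∀ k : ℕ, k₀ ≤ k → ∀ X : ℕ, 1 ≤ X → X ≤ k ^ J₂ * b ^ k →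
    Real.log X ≤ 2 * Real.log b * k := by
  obtain ⟨k4, h4⟩ := pow_le_pow_digits b hb J₂
  refine ⟨k4, fun k hk X hX1 hX2 => ?_⟩
  have h1 : X ≤ b ^ (2 * k) := by
    calc X ≤ k ^ J₂ * b ^ k := hX2
      _ ≤ b ^ k * b ^ k := Nat.mul_le_mul_right _ (h4 k hk)
      _ = b ^ (2 * k) := by rw [← pow_add]; congr 1; ring
  have h2 : (X : ℝ) ≤ (b : ℝ) ^ (2 * k) := by exact_mod_cast h1
  have h3 := Real.log_le_log (by exact_mod_cast hX1) h2
  rw [Real.log_pow] at h3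
  push_cast at h3
  linarith

open Classical in
/-- prime pairs in progressions: the differences near all the multiples of the integers near a random integer -/
theorem t_goodD (hC : TCls b κ C) (B J A₁ A₂ E J₂ W U : ℕ) : ∃ k₀ : ℕ, ∀ k : ℕ, k₀ ≤ k → ∀ p, C k p →
    ∀ c : ℤ, |c| ≤ B * (b : ℤ) ^ k → ∀ X : ℕ, k ^ (J + E + 7) * b ^ k ≤ X → X ≤ k ^ J₂ * b ^ k →
    ∀ Q : ℕ → Prop, (∀ v, ¬ Q v → ∃ h : ℕ, 1 ≤ h ∧ h ≤ k ^ J ∧ ∃ s : ℤ, |s| ≤ (k : ℤ) ^ W ∧
      0 ≤ (h : ℤ) * (c + s + κ * v) ∧ ¬ GoodD A₁ A₂ E X ((h : ℤ) * (c + s + κ * v)).toNat) →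
    ∑ v ∈ range (b ^ k), (if Q v then 0 else p v) ≤ 1 / (k : ℝ) ^ U := by
  have hb := hC.two
  have hbr : (2 : ℝ) ≤ b := by exact_mod_cast hb
  obtain ⟨F, hF, hlaw⟩ := hC.law
  obtain ⟨U', hU'⟩ : ∃ U', U' = U + J + W + 1 := ⟨_, rfl⟩
  obtain ⟨cc, m₀, hlaw⟩ := hlaw (3 * (J₂ + 1) + 2) (2 * (A₁ + 2 * A₂ + E + 9 + (E + 3) + U' + 1 + 2) + 6)
  obtain ⟨K₀, hmain⟩ := tl_goodD b 15 A₁ A₂ E U' (6 * b) hb (by norm_num) cc
  obtain ⟨k4, h4⟩ := pow_le_pow_digits b hb W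
  obtain ⟨k5, h5⟩ := log_bound b hb J₂
  obtain ⟨k6, h6⟩ := exists_nat_ge ((2 * Real.log b) ^ (E + 5))
  refine ⟨m₀ + K₀ + k4 + k5 + k6 + F + B + κ.natAbs + 4, fun k hk p hp c hc X hX1 hX2 Q hQ => ?_⟩
  have hk3 : (3 : ℝ) ≤ k := by exact_mod_cast (by omega : 3 ≤ k)
  have hk0 : (0 : ℝ) < k := by linarith
  have hbk : 0 < b ^ k := by positivity
  have hX0 : 0 < X := lt_of_lt_of_le (Nat.mul_pos (Nat.pow_pos (by omega)) hbk) hX1
  refine Pool.Agent.N625.PT.union J W U k (by omega) (b ^ k) p (hC.nonneg k p hp)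
    (fun h s v => 0 ≤ (h : ℤ) * (c + s + κ * v) ∧ ¬ GoodD A₁ A₂ E X ((h : ℤ) * (c + s + κ * v)).toNat) Q hQ ?_
  intro h hh1 hh2 s hs
  have hlX : k ^ (J + E + 6 + 1) * b ^ k ≤ 2 * X := by
    calc k ^ (J + E + 6 + 1) * b ^ k = k ^ (J + E + 7) * b ^ k := by rw [show J + E + 6 + 1 = J + E + 7 by ring]
      _ ≤ X := hX1
      _ ≤ 2 * X := by omega
  have hlX2 : 2 * X ≤ k ^ (J₂ + 1) * b ^ k := by
    calc 2 * X ≤ 2 * (k ^ J₂ * b ^ k) := Nat.mul_le_mul_left _ hX2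
      _ ≤ k * (k ^ J₂ * b ^ k) := Nat.mul_le_mul_right _ (by omega)
      _ = k ^ (J₂ + 1) * b ^ k := by ring
  obtain ⟨e, he1, he2, he3, he4⟩ := level b hb (J + E + 6) (J₂ + 1) k (2 * X) (by omega) hlX hlX2
  have heW : (e : ℝ) ≤ ((3 * (J₂ + 1) + 2 : ℕ) : ℝ) * Real.log k := by
    refine le_trans ?_ (ex_le b (J₂ + 1) 2 hb k (by omega))
    exact_mod_cast he3
  have hlog : Nat.log b (F * h) ≤ e := by
    have g1 : F * h ≤ b ^ e := by
      refine le_trans ?_ he4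
      calc F * h ≤ k * k ^ J := Nat.mul_le_mul (by omega) hh2
        _ = k ^ (J + 1) := by ring
        _ ≤ k ^ (J + E + 6 + 1) := Nat.pow_le_pow_right (by omega) (by omega)
    calc Nat.log b (F * h) ≤ Nat.log b (b ^ e) := Nat.log_mono_right g1
      _ = e := Nat.log_pow (by omega) _
  have t := hlaw k (by omega) e heW h hh1 hlog p hp (c + s)
  have hsz : ∀ v ∈ range (b ^ k), |(h : ℤ) * (c + s + κ * (v : ℕ))| ≤ ((k ^ (J + 1) * b ^ k : ℕ) : ℤ) := by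
    intro v hv
    rw [mem_range] at hv
    exact multiple_size b J B W κ k (k ^ (J + 1) * b ^ k) (by omega) (h4 k (by omega)) le_rfl c s hc hs h hh2 v hv
  have hXl : ((k ^ (J + 1) * b ^ k : ℕ) : ℝ) ≤ X / Real.log X ^ (E + 5) := by
    have hl0 : 0 < Real.log X := by
      apply Real.log_pos
      have : k ≤ X := by
        calc k = k ^ 1 * 1 := by ring
          _ ≤ k ^ (J + E + 7) * b ^ k := Nat.mul_le_mul (Nat.pow_le_pow_right (by omega) (by omega)) hbk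
          _ ≤ X := hX1
      have : (3 : ℝ) ≤ X := hk3.trans (by exact_mod_cast this)
      linarith
    rw [le_div_iff₀ (pow_pos hl0 _)]
    have g1 : Real.log X ^ (E + 5) ≤ (2 * Real.log b * k) ^ (E + 5) :=
      pow_le_pow_left₀ hl0.le (h5 k (by omega) X (by omega) hX2) _
    have g2 : (2 * Real.log b * (k : ℝ)) ^ (E + 5) ≤ k * (k : ℝ) ^ (E + 5) := by
      rw [mul_pow]
      apply mul_le_mul_of_nonneg_right _ (by positivity)
      refine h6.trans ?_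
      exact_mod_cast (by omega : k6 ≤ k)
    calc ((k ^ (J + 1) * b ^ k : ℕ) : ℝ) * Real.log X ^ (E + 5) ≤ ((k ^ (J + 1) * b ^ k : ℕ) : ℝ) * (k * (k : ℝ) ^ (E + 5)) :=
          mul_le_mul_of_nonneg_left (g1.trans g2) (Nat.cast_nonneg _)
      _ = ((k ^ (J + E + 7) * b ^ k : ℕ) : ℝ) := by
          push_cast
          ring
      _ ≤ X := by exact_mod_cast hX1
  have key := hmain (k + e) (by omega) ℕ (range (b ^ k)) p (fun v : ℕ => (h : ℤ) * (c + s + κ * v)) t X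
    (by calc b ^ (k + e) ≤ 3 * b * (2 * X) := he2
          _ = 6 * b * X := by ring)
    (by omega)
    (fun v hv => (hsz v hv).trans (by
      have g1 : k ^ (J + 1) * b ^ k ≤ X := by
        refine le_trans ?_ hX1
        exact Nat.mul_le_mul_right _ (Nat.pow_le_pow_right (by omega) (by omega))
      exact_mod_cast g1))
    (fun v => 0 ≤ (h : ℤ) * (c + s + κ * v) ∧ ¬ GoodD A₁ A₂ E X ((h : ℤ) * (c + s + κ * v)).toNat)
    (fun _ => Classical.propDecidable _) (by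
      intro v hv hbad
      refine ⟨hbad.1, ?_, hbad.2⟩
      refine le_trans ?_ hXl
      have g2 := (le_abs_self _).trans (hsz v hv)
      exact_mod_cast g2)
  rw [← hU']
  refine key.trans ?_
  apply one_div_le_one_div_of_le (by positivity)
  apply pow_le_pow_left₀ hk0.le
  exact_mod_cast (by omega : k ≤ k + e)

end Pool.Agent.U847.GD
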