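import Pool.Agent.N625.PT.P

set_option autoImplicit false

/-! Correlations with several random shifts, all the multiples: products of values of several functions, one of which is fine;
the other functions can be unbounded. -/

namespace Pool.Agent.U847.MV
open Finset
open Pool.Agent.N625.PT
open Pool.Agent.Y885 (Fine)
open Pool.Agent.H373R2.T7 (exI)

variable {b : ℕ} {κ : ℤ} {C : ℕ → (ℕ → ℝ) → Prop}

open Classical in
/-- one coordinate, one fine function -/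
lemma one_coordT {m : ℕ} (q₀ : Fin m) (θ : ℕ → ℝ) (hθ : Fine θ) (hC : TCls b κ C) (s B A J T W U : ℕ) :
    ∃ k₀ : ℕ, ∀ k : ℕ, k₀ ≤ k → ∀ G : Fin m → ℤ → ℂ, (∀ e z, ‖G e z‖ ≤ (k : ℝ) ^ T) →
    (∀ z, G q₀ z = exI (fun n => ((θ n : ℝ) : ℂ)) z) → ∀ p, C k p → ∀ c : ℤ, |c| ≤ B * (b : ℤ) ^ k → ∀ L : ℕ, L ≤ k ^ A → ∀ (i : Fin s) (a : Fin L → Fin s → ℕ)
      (g : Fin L → ℕ → ℂ), (∀ l j, 1 ≤ a l j) → (∀ l n, ‖g l n‖ ≤ (k : ℝ) ^ A) → ∀ z : Fin s → ℤ,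
      ∑ w ∈ range (b ^ k), (if ∃ (y : Fin s → ℤ) (h : Fin s → ℕ), (∀ j, j ≠ i → |y j - z j| ≤ (k : ℤ) ^ W) ∧
        |y i - (c + κ * (w : ℕ))| ≤ (k : ℤ) ^ W ∧ (∀ j, 1 ≤ h j ∧ h j ≤ k ^ J) ∧
        ∃ e : Fin s → Fin m, e i = q₀ ∧ ∃ l, ∃ X : ℕ, a l i * X ≤ k ^ A * b ^ k ∧
          (b : ℝ) ^ k / (k : ℝ) ^ U < ‖∑ n ∈ Icc 1 X, g l n * ∏ j, G (e j) (((a l j * n : ℕ) : ℤ) + h j * y j)‖ then p w else 0) ≤
        1 / (k : ℝ) ^ U := by
  obtain ⟨A', hA'⟩ : ∃ A' : ℕ, A' = A + m * s + (W + 2) * s + J * s + T * s := ⟨_, rfl⟩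
  obtain ⟨k₀, h0⟩ := t_off hC θ hθ B A' J W U
  refine ⟨k₀ + 3, fun k hk G hG hq₀ p hp c hc L hL i a g ha hg z => ?_⟩
  have hk2 : 2 ≤ k := by omega
  have hkr : (2 : ℝ) ≤ k := by exact_mod_cast hk2
  obtain ⟨Jt, hJt⟩ : ∃ Jt : Finset (Fin L × (Fin s → Fin m) × (Fin s → ℤ) × (Fin s → ℕ)), Jt = univ ×ˢ univ ×ˢ
    Fintype.piFinset (fun _ : Fin s => Icc (-((k : ℤ) ^ W)) ((k : ℤ) ^ W)) ×ˢ
    Fintype.piFinset (fun _ : Fin s => Icc 1 (k ^ J)) := ⟨_, rfl⟩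
  have hJc : Jt.card ≤ k ^ A' := by
    have hc0 : Fintype.card (Fin s → Fin m) = m ^ s := by
      rw [Fintype.card_pi_const, Fintype.card_fin]
    rw [hJt, card_product, card_product, card_product, card_univ, card_univ, hc0, Fintype.card_fin,
      Fintype.card_piFinset_const, Fintype.card_piFinset_const, Int.card_Icc, Nat.card_Icc, Nat.add_sub_cancel]
    have e1 : ((k : ℤ) ^ W + 1 - -((k : ℤ) ^ W)).toNat ≤ k ^ (W + 2) := by
      have e2 : (((k : ℤ) ^ W + 1 - -((k : ℤ) ^ W)).toNat : ℤ) = 2 * (k : ℤ) ^ W + 1 := by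
        have e0 : (0 : ℤ) ≤ (k : ℤ) ^ W := by positivity
        rw [Int.toNat_of_nonneg (by linarith)]
        ring
      have e3 : ((k : ℤ) ^ W + 1 - -((k : ℤ) ^ W)).toNat = 2 * k ^ W + 1 := by exact_mod_cast e2
      rw [e3, pow_add]
      have e4 : 1 ≤ k ^ W := Nat.one_le_pow _ _ (by omega)
      have e5 : 4 ≤ k ^ 2 := by nlinarith
      have e6 : k ^ W * 4 ≤ k ^ W * k ^ 2 := Nat.mul_le_mul_left _ e5
      omega
    have e5 : m ^ s ≤ k ^ (m * s) := by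
      rw [pow_mul]
      apply Nat.pow_le_pow_left
      exact (Nat.lt_two_pow_self (n := m)).le.trans (Nat.pow_le_pow_left hk2 m)
    calc L * (m ^ s * ((((k : ℤ) ^ W + 1 - -((k : ℤ) ^ W)).toNat) ^ s * (k ^ J) ^ s)) ≤
          k ^ A * (k ^ (m * s) * ((k ^ (W + 2)) ^ s * (k ^ J) ^ s)) :=
          Nat.mul_le_mul hL (Nat.mul_le_mul e5 (Nat.mul_le_mul_right _ (Nat.pow_le_pow_left e1 s)))
      _ = k ^ (A + m * s + (W + 2) * s + J * s) := by rw [← pow_mul, ← pow_mul, ← pow_add, ← pow_add, ← pow_add]; congr 1; ring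
      _ ≤ k ^ A' := Nat.pow_le_pow_right (by omega) (by rw [hA']; omega)
  have hAA : k ^ A ≤ k ^ A' := Nat.pow_le_pow_right (by omega) (by omega)
  have key := h0 k (by omega) p hp c hc (↥Jt) (by rw [Fintype.card_coe]; exact hJc)
    (fun r => a r.1.1 i)
    (fun r n => g r.1.1 n * ∏ j ∈ univ.erase i, G (r.1.2.1 j) (((a r.1.1 j * n : ℕ) : ℤ) + r.1.2.2.2 j * (z j + r.1.2.2.1 j)))
    (fun _ => 1) (fun _ => 0) (fun _ => ha _ i) (fun r n => by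
      rw [norm_mul, norm_prod]
      have hk1 : (1 : ℝ) ≤ (k : ℝ) ^ T := one_le_pow₀ (by linarith)
      calc _ ≤ (k : ℝ) ^ A * ((k : ℝ) ^ T) ^ s := by
            apply mul_le_mul (hg _ _) _ (prod_nonneg fun _ _ => norm_nonneg _) (by positivity)
            calc ∏ j ∈ univ.erase i, ‖G (r.1.2.1 j) (((a r.1.1 j * n : ℕ) : ℤ) + r.1.2.2.2 j * (z j + r.1.2.2.1 j))‖
                ≤ ∏ _j ∈ univ.erase i, (k : ℝ) ^ T := prod_le_prod (fun _ _ => norm_nonneg _) fun _ _ => hG _ _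
              _ = ((k : ℝ) ^ T) ^ (univ.erase i).card := prod_const _
              _ ≤ ((k : ℝ) ^ T) ^ s := by
                apply pow_le_pow_right₀ hk1
                rw [card_erase_of_mem (mem_univ _), card_univ, Fintype.card_fin]
                omega
        _ = (k : ℝ) ^ (A + T * s) := by rw [← pow_mul, ← pow_add]
        _ ≤ _ := pow_le_pow_right₀ (by linarith) (by rw [hA']; omega)) (fun _ => Or.inl rfl) (fun _ => by rw [abs_zero]; positivity)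
  refine le_trans (sum_le_sum fun w _ => ?_) key
  have hp0 := hC.nonneg k p hp w
  by_cases hS : ∀ q : ℤ, |q - (c + κ * (w : ℕ))| ≤ (k : ℤ) ^ W → ∀ h : ℕ, 1 ≤ h → h ≤ k ^ J → ∀ (r : ↥Jt), ∀ X : ℕ,
        a r.1.1 i * X ≤ k ^ A' * b ^ k →
        ‖∑ n ∈ Icc 1 X, (g r.1.1 n * ∏ j ∈ univ.erase i, G (r.1.2.1 j) (((a r.1.1 j * n : ℕ) : ℤ) + r.1.2.2.2 j * (z j + r.1.2.2.1 j))) *
          exI (fun n => ((θ n : ℝ) : ℂ)) (((a r.1.1 i * n : ℕ) : ℤ) + (1 * (h * q) + 0))‖ ≤ (b : ℝ) ^ k / (k : ℝ) ^ U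
  · rw [if_pos hS, if_neg]
    rintro ⟨y, h, h1, h2, hh, e, heq, l, X, hX, hbig⟩
    obtain ⟨t, ht⟩ : ∃ t : Fin s → ℤ, t = fun j => if j = i then 0 else y j - z j := ⟨_, rfl⟩
    have hmem : (l, e, t, h) ∈ Jt := by
      rw [hJt, mem_product, mem_product, mem_product, Fintype.mem_piFinset, Fintype.mem_piFinset]
      refine ⟨mem_univ _, mem_univ _, fun j => ?_, fun j => mem_Icc.2 (hh j)⟩
      rw [mem_Icc, ← abs_le, ht]
      simp only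
      split_ifs with hj
      · rw [abs_zero]; positivity
      · exact h1 j hj
    have h3 := hS (y i) h2 (h i) (hh i).1 (hh i).2 ⟨(l, e, t, h), hmem⟩ X (hX.trans (Nat.mul_le_mul_right _ hAA))
    simp only at h3
    apply absurd h3 (not_le.2 ?_)
    refine lt_of_lt_of_eq hbig ?_
    congr 1
    apply sum_congr rfl
    intro n _
    rw [← mul_prod_erase univ _ (mem_univ i), heq, hq₀, mul_comm (exI _ _), ← mul_assoc]
    congr 2
    · apply prod_congr rfl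
      intro j hj
      rw [mem_erase] at hj
      rw [ht]
      simp only [if_neg hj.1]
      congr 2
      ring
    · ring
  · rw [if_neg hS]
    split_ifs
    · exact le_rfl
    · exact hp0

open Classical in
/-- **correlations of several functions with all the multiples of several random integers** -/
theorem t_multi (s m : ℕ) (b : ℕ) (κ : Fin s → ℤ) (C : Fin s → ℕ → (ℕ → ℝ) → Prop) (hC : ∀ i, TCls b (κ i) (C i))
    (good : Finset (Fin m)) (θ : Fin m → ℕ → ℝ) (hθ : ∀ e ∈ good, Fine (θ e)) (B A J T W U : ℕ) :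
    ∃ k₀ : ℕ, ∀ k : ℕ, k₀ ≤ k → ∀ G : Fin m → ℤ → ℂ, (∀ e z, ‖G e z‖ ≤ (k : ℝ) ^ T) →
      (∀ e ∈ good, ∀ z, G e z = exI (fun n => ((θ e n : ℝ) : ℂ)) z) → ∀ p : Fin s → ℕ → ℝ, (∀ i, C i k (p i)) → ∀ c : Fin s → ℤ, (∀ i, |c i| ≤ B * (b : ℤ) ^ k) →
      ∀ L : ℕ, L ≤ k ^ A → ∀ (a : Fin L → Fin s → ℕ) (g : Fin L → ℕ → ℂ), (∀ l j, 1 ≤ a l j) →
      (∀ l n, ‖g l n‖ ≤ (k : ℝ) ^ A) →
      ∑ v ∈ Fintype.piFinset (fun _ : Fin s => range (b ^ k)),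
        (if ∀ q : Fin s → ℤ, (∀ i, |q i - (c i + κ i * v i)| ≤ (k : ℤ) ^ W) → ∀ h : Fin s → ℕ, (∀ i, 1 ≤ h i ∧ h i ≤ k ^ J) →
          ∀ e : Fin s → Fin m, ∀ i, e i ∈ good → ∀ l, ∀ X : ℕ, a l i * X ≤ k ^ A * b ^ k →
          ‖∑ n ∈ Icc 1 X, g l n * ∏ j, G (e j) (((a l j * n : ℕ) : ℤ) + h j * q j)‖ ≤ (b : ℝ) ^ k / (k : ℝ) ^ U
        then 0 else ∏ i, p i (v i)) ≤ 1 / (k : ℝ) ^ U := by
  have h' : ∀ (i : Fin s) (q : Fin m), ∃ k₀ : ℕ, q ∈ good → ∀ k : ℕ, k₀ ≤ k →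
    ∀ G : Fin m → ℤ → ℂ, (∀ e z, ‖G e z‖ ≤ (k : ℝ) ^ T) → (∀ z, G q z = exI (fun n => ((θ q n : ℝ) : ℂ)) z) → ∀ p, C i k p → ∀ c : ℤ, |c| ≤ B * (b : ℤ) ^ k → ∀ L : ℕ, L ≤ k ^ A → ∀ (i' : Fin s) (a : Fin L → Fin s → ℕ)
      (g : Fin L → ℕ → ℂ), (∀ l j, 1 ≤ a l j) → (∀ l n, ‖g l n‖ ≤ (k : ℝ) ^ A) → ∀ z : Fin s → ℤ,
      ∑ w ∈ range (b ^ k), (if ∃ (y : Fin s → ℤ) (h : Fin s → ℕ), (∀ j, j ≠ i' → |y j - z j| ≤ (k : ℤ) ^ W) ∧
        |y i' - (c + κ i * (w : ℕ))| ≤ (k : ℤ) ^ W ∧ (∀ j, 1 ≤ h j ∧ h j ≤ k ^ J) ∧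
        ∃ e : Fin s → Fin m, e i' = q ∧ ∃ l, ∃ X : ℕ, a l i' * X ≤ k ^ A * b ^ k ∧
          (b : ℝ) ^ k / (k : ℝ) ^ (U + 2) < ‖∑ n ∈ Icc 1 X, g l n * ∏ j, G (e j) (((a l j * n : ℕ) : ℤ) + h j * y j)‖ then p w else 0) ≤
        1 / (k : ℝ) ^ (U + 2) := by
    intro i q
    by_cases hq : q ∈ good
    · obtain ⟨k₀, h⟩ := one_coordT q (θ q) (hθ q hq) (hC i) s B A J T W (U + 2)
      exact ⟨k₀, fun _ => h⟩
    · exact ⟨0, fun h => absurd h hq⟩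
  choose k₀ h0 using h'
  refine ⟨∑ i, ∑ q, k₀ i q + s + m + 1, fun k hk G hG hGθ p hp c hc L hL a g ha hg => ?_⟩
  have hk1 : (1 : ℝ) ≤ k := by exact_mod_cast (by omega : 1 ≤ k)
  have hk0 : ∀ i q, k₀ i q ≤ k := fun i q => by
    have h1 : k₀ i q ≤ ∑ q, k₀ i q := single_le_sum (f := fun q => k₀ i q) (fun _ _ => Nat.zero_le _) (mem_univ q)
    have h2 : ∑ q, k₀ i q ≤ ∑ i, ∑ q, k₀ i q :=
      single_le_sum (f := fun i => ∑ q, k₀ i q) (fun _ _ => Nat.zero_le _) (mem_univ i)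
    omega
  have hsk : (s : ℝ) ≤ k := by exact_mod_cast (by omega : s ≤ k)
  have hmk : (m : ℝ) ≤ k := by exact_mod_cast (by omega : m ≤ k)
  obtain ⟨E, hE⟩ : ∃ E : Fin s × Fin m → (Fin s → ℕ) → Prop, E = fun r v => ∃ (y : Fin s → ℤ) (h : Fin s → ℕ),
      (∀ j, |y j - (c j + κ j * (v j : ℕ))| ≤ (k : ℤ) ^ W) ∧ (∀ j, 1 ≤ h j ∧ h j ≤ k ^ J) ∧
        ∃ e : Fin s → Fin m, e r.1 = r.2 ∧ ∃ l, ∃ X : ℕ, a l r.1 * X ≤ k ^ A * b ^ k ∧
          (b : ℝ) ^ k / (k : ℝ) ^ (U + 2) < ‖∑ n ∈ Icc 1 X, g l n * ∏ j, G (e j) (((a l j * n : ℕ) : ℤ) + h j * y j)‖ := ⟨_, rfl⟩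
  have hfub : ∀ r : Fin s × Fin m, r.2 ∈ good →
      ∑ v ∈ Fintype.piFinset (fun _ : Fin s => range (b ^ k)), (if E r v then ∏ j, p j (v j) else 0) ≤ 1 / (k : ℝ) ^ (U + 2) := by
    rintro ⟨i, q⟩ hq
    apply cond_one (fun _ => range (b ^ k)) p (fun j v _ => (hC j).nonneg k _ (hp j) v) (fun j => (hC j).sum k _ (hp j)) i (E (i, q))
    intro v _
    refine le_trans (sum_le_sum fun w _ => ?_) (h0 i q hq k (hk0 i q) G hG (hGθ q hq) (p i) (hp i) (c i) (hc i) L hL i a g ha hg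
      (fun j => c j + κ j * (v j : ℕ)))
    have hp0 := (hC i).nonneg k _ (hp i) w
    by_cases hEw : E (i, q) (Function.update v i w)
    · rw [if_pos hEw, if_pos]
      rw [hE] at hEw
      obtain ⟨y, h, h1, hh, e, h2⟩ := hEw
      refine ⟨y, h, fun j hj => ?_, ?_, hh, e, h2⟩
      · have := h1 j
        rwa [Function.update_of_ne hj] at this
      · have := h1 i
        rwa [Function.update_self] at this
    · rw [if_neg hEw]
      split_ifs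
      · exact hp0
      · exact le_rfl
  have key := union_gen (Fintype.piFinset (fun _ : Fin s => range (b ^ k))) (fun v => ∏ i, p i (v i))
    (fun v _ => prod_nonneg fun i _ => (hC i).nonneg k _ (hp i) _) ((univ : Finset (Fin s)) ×ˢ good) E
    (fun v => ∀ q : Fin s → ℤ, (∀ i, |q i - (c i + κ i * v i)| ≤ (k : ℤ) ^ W) → ∀ h : Fin s → ℕ, (∀ i, 1 ≤ h i ∧ h i ≤ k ^ J) →
          ∀ e : Fin s → Fin m, ∀ i, e i ∈ good → ∀ l, ∀ X : ℕ, a l i * X ≤ k ^ A * b ^ k →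
          ‖∑ n ∈ Icc 1 X, g l n * ∏ j, G (e j) (((a l j * n : ℕ) : ℤ) + h j * q j)‖ ≤ (b : ℝ) ^ k / (k : ℝ) ^ U)
    (fun v _ hv => by
      push Not at hv
      obtain ⟨y, h1, h, hh, e, i, hi, l, X, hX, hbig⟩ := hv
      refine ⟨(i, e i), mem_product.2 ⟨mem_univ _, hi⟩, ?_⟩
      rw [hE]
      refine ⟨y, h, h1, hh, e, rfl, l, X, hX, lt_of_le_of_lt ?_ hbig⟩
      apply div_le_div_of_nonneg_left (by positivity) (by positivity)
      exact pow_le_pow_right₀ hk1 (by omega)) (1 / (k : ℝ) ^ (U + 2)) (fun r hr => hfub r (mem_product.1 hr).2)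
  refine key.trans ?_
  rw [card_product, card_univ, Fintype.card_fin]
  have hc1 : ((s * good.card : ℕ) : ℝ) ≤ (k : ℝ) ^ 2 := by
    push_cast
    have : (good.card : ℝ) ≤ m := by
      have := card_le_univ good
      rw [Fintype.card_fin] at this
      exact_mod_cast this
    nlinarith [Nat.cast_nonneg (α := ℝ) s, Nat.cast_nonneg (α := ℝ) good.card]
  rw [pow_add]
  have hkU : (0 : ℝ) < (k : ℝ) ^ U := by positivity
  have hk2 : (0 : ℝ) < (k : ℝ) ^ 2 := by positivity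
  rw [mul_one_div, div_le_div_iff₀ (by positivity) (by positivity), one_mul]
  nlinarith

end Pool.Agent.U847.MV
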