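import Pool.Agent.U847.XM
import Pool.Agent.N625.PT.X16

set_option autoImplicit false

/-! Chains of primes for affine maps with random translations: all the primes, all the lengths. -/

namespace Pool.Agent.U847.XP
open Finset
open Pool.Agent.N625.PT
open Pool.Agent.H373R2.T7 (pz mem_pz Vz Vz_pos Vz_le_one ev_L')

/-- the primes in a progression are a dense set -/
lemma primes_ap_dense (b C E : ℕ) (hb : 2 ≤ b) : ∃ k₀ : ℕ, ∀ k : ℕ, k₀ ≤ k → ∀ X : ℕ, b ^ k ≤ X * k ^ C → X ≤ b ^ k * k ^ C →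
    ∀ D : ℕ, 1 ≤ D → D ≤ k ^ E → ∀ a : ℕ, a.Coprime D →
    (X : ℝ) ≤ (((Icc 1 X).filter (fun p : ℕ => p.Prime ∧ p ≡ a [MOD D])).card : ℝ) * (k : ℝ) ^ (E + 3) := by
  obtain ⟨X₀, h0⟩ := ap_low (2 * E)
  obtain ⟨k₁, h1⟩ := X_large b C hb
  obtain ⟨k₂, h2⟩ := log_X b C hb
  obtain ⟨k₃, h3⟩ := log_low b C hb
  refine ⟨max (max k₁ k₂) (max k₃ (max X₀ 16)), fun k hk X hX1 hX2 D hD1 hD2 a ha => ?_⟩
  have b1 := h1 k (by omega) X hX1
  have b2 := h2 k (by omega) X hX2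
  have b3 := h3 k (by omega) X hX1
  have hkr : (16 : ℝ) ≤ k := by exact_mod_cast (by omega : 16 ≤ k)
  have hDr : (D : ℝ) ≤ (k : ℝ) ^ E := by exact_mod_cast hD2
  have hD1r : (1 : ℝ) ≤ D := by exact_mod_cast hD1
  have hL : 4 ≤ Real.log X := by linarith
  have hkL : (k : ℝ) ≤ Real.log X ^ 2 := by nlinarith
  have hDL : (D : ℝ) ≤ Real.log X ^ (2 * E) := by
    calc (D : ℝ) ≤ (k : ℝ) ^ E := hDr
      _ ≤ (Real.log X ^ 2) ^ E := pow_le_pow_left₀ (by linarith) hkL _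
      _ = _ := by rw [← pow_mul]
  have h4 := h0 X (by omega) D hD1 hDL a ha
  obtain ⟨m, hm⟩ : ∃ m : ℝ, m = (((Icc 1 X).filter (fun p : ℕ => p.Prime ∧ p ≡ a [MOD D])).card : ℝ) := ⟨_, rfl⟩
  rw [← hm] at h4 ⊢
  have hm0 : 0 ≤ m := by rw [hm]; exact Nat.cast_nonneg _
  rw [div_le_iff₀ (by positivity)] at h4
  refine h4.trans (mul_le_mul_of_nonneg_left ?_ hm0)
  calc 4 * (D : ℝ) * Real.log X ≤ k * (k : ℝ) ^ E * (k : ℝ) ^ 2 := by
        apply mul_le_mul _ b2 (by linarith) (by positivity)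
        exact mul_le_mul (by linarith) hDr (by linarith) (by linarith)
    _ = _ := by ring

open Classical in
/-- the primes `p ≤ X` such that `T^j p`, `1 ≤ j ≤ s`, are prime to `D`, where `T x = α x + β` -/
noncomputable def AdmC (α : ℕ) (β : ℤ) (D s X : ℕ) : Finset ℕ :=
  (Icc 1 X).filter (fun p : ℕ => p.Prime ∧ ∀ j : ℕ, 1 ≤ j → j ≤ s → IsCoprime (orb α β (fun _ => 0) (p : ℤ) j) (D : ℤ))

open Classical in
/-- the primes `p ≤ X` such that the first `s` numbers of the orbit are primes -/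
noncomputable def GoodC (α : ℕ) (β : ℤ) (N : ℕ → ℤ) (s X : ℕ) : Finset ℕ :=
  (Icc 1 X).filter (fun p : ℕ => p.Prime ∧ ∀ j : ℕ, 1 ≤ j → j ≤ s → (orb α β N (p : ℤ) j).toNat.Prime)

/-- a chain of primes is admissible -/
lemma good_adm (α : ℕ) (β : ℤ) (hα : 1 ≤ α) (hβ : 1 ≤ α + β) (N : ℕ → ℤ) (D s : ℕ) (hD : 1 ≤ D)
    (hN : ∀ l < s, (D : ℤ) ∣ N l ∧ 0 < N l) (p : ℕ) (hp : 1 ≤ p) (hs : ∀ j : ℕ, 1 ≤ j → j ≤ s → (orb α β N (p : ℤ) j).toNat.Prime) :
    ∀ j : ℕ, 1 ≤ j → j ≤ s → IsCoprime (orb α β (fun _ => 0) (p : ℤ) j) (D : ℤ) := by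
  intro j hj1 hj2
  have hp1 : (1 : ℤ) ≤ (p : ℤ) := by exact_mod_cast hp
  have h1 := orb_pos α β hα hβ (fun _ => 0) (p : ℤ) hp1 j (fun _ _ => le_rfl)
  obtain ⟨w, hw⟩ : ∃ w : ℕ, orb α β (fun _ => 0) (p : ℤ) j = w := ⟨_, (Int.toNat_of_nonneg (by linarith)).symm⟩
  rw [hw, Nat.isCoprime_iff_coprime]
  by_contra hcon
  obtain ⟨q, hq, hqw, hqD⟩ := Nat.Prime.not_coprime_iff_dvd.1 hcon
  have h2 := orb_mod α β N (p : ℤ) (D : ℤ) j (fun l hl => (hN l (by omega)).1)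
  have h3 : (q : ℤ) ∣ orb α β N (p : ℤ) j := by
    have h4 : (q : ℤ) ∣ orb α β N (p : ℤ) j - orb α β (fun _ => 0) (p : ℤ) j := (Int.natCast_dvd_natCast.2 hqD).trans h2
    have h5 : (q : ℤ) ∣ orb α β (fun _ => 0) (p : ℤ) j := by rw [hw]; exact Int.natCast_dvd_natCast.2 hqw
    have := dvd_add h4 h5
    rwa [sub_add_cancel] at this
  have h6 := orb_pos α β hα hβ N (p : ℤ) hp1 (j - 1) (fun l hl => (hN l (by omega)).2.le)
  have h7 : orb α β N (p : ℤ) j = α * orb α β N (p : ℤ) (j - 1) + β + N (j - 1) := by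
    obtain ⟨i, rfl⟩ : ∃ i, j = i + 1 := ⟨j - 1, by omega⟩
    rfl
  have h8 : (D : ℤ) ≤ N (j - 1) := Int.le_of_dvd (hN (j - 1) (by omega)).2 (hN (j - 1) (by omega)).1
  have h9 : (α : ℤ) * 1 ≤ α * orb α β N (p : ℤ) (j - 1) := mul_le_mul_of_nonneg_left h6 (by positivity)
  have h10 : (D : ℤ) < orb α β N (p : ℤ) j := by linarith
  have hD0 : (0 : ℤ) < D := by exact_mod_cast hD
  have h11 : q ∣ (orb α β N (p : ℤ) j).toNat := by
    rw [← Int.natCast_dvd_natCast, Int.toNat_of_nonneg (by linarith)]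
    exact h3
  have h12 := (Nat.prime_dvd_prime_iff_eq hq (hs j hj1 hj2)).1 h11
  have h13 : q ≤ D := Nat.le_of_dvd hD hqD
  have h14 : (q : ℤ) = orb α β N (p : ℤ) j := by rw [h12, Int.toNat_of_nonneg (by linarith)]
  have h15 : (q : ℤ) ≤ D := by exact_mod_cast h13
  linarith

set_option maxHeartbeats 1000000 in
open Classical in
/-- chains, all the primes, all the lengths -/
theorem chain_all (b q₀ : ℕ) (hb : 2 ≤ b) (r : ℕ) (Cl : Fin r → ℕ → (ℕ → ℝ) → Prop) (hC : ∀ j, SCls b q₀ (Cl j)) (κ : Fin r → ℤ)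
    (hκ : ∀ j, κ j ≠ 0) (α : ℕ) (β : ℤ) (hα : 1 ≤ α) (hβ : 1 ≤ α + β) (B J A C K₁ : ℕ) (θ : ℝ) (hθ : 0 < θ) (ε : ℝ) (hε : 0 < ε)
    (hε1 : ε ≤ 1) :
    ∃ k₀ : ℕ, ∀ k : ℕ, k₀ ≤ k → ∀ p : Fin r → ℕ → ℝ, (∀ j, Cl j k (p j)) →
    ∀ y : ℕ, θ * Real.log k ≤ y → y ≤ K₁ * Real.log k → ∀ c : Fin r → ℤ, (∀ j, |c j| ≤ B * (b : ℤ) ^ k) →
    ∀ h : ℕ, 1 ≤ h → h ≤ k ^ J → ∀ X : ℕ, b ^ k ≤ X * k ^ C → X ≤ b ^ k * k ^ C →
    (∀ s ≤ r, (X : ℝ) ≤ (AdmC α β (primorial y * h) s X).card * (k : ℝ) ^ A) →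
    ∑ v ∈ Fintype.piFinset (fun _ : Fin r => range (b ^ k)),
      (if (∀ j, 0 < Nm y h (c j) (κ j) (v j)) → ∀ s : ℕ, s ≤ r →
        |((GoodC α β (Nr y h c κ v) s X).card : ℝ) - (AdmC α β (primorial y * h) s X).card / (Vz y * (k * Real.log b)) ^ s| ≤
          ε * ((AdmC α β (primorial y * h) s X).card / (Vz y * (k * Real.log b)) ^ s) then 0 else ∏ j, p j (v j)) ≤ ε := by
  obtain ⟨δ, hδ⟩ : ∃ δ : ℝ, δ = ε / (r + 1) := ⟨_, rfl⟩
  have hr0 : (0 : ℝ) ≤ r := Nat.cast_nonneg r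
  have hδ0 : 0 < δ := by rw [hδ]; positivity
  have hδε : δ ≤ ε := by rw [hδ]; exact div_le_self hε.le (by linarith)
  have hrδ : (r : ℝ) * δ ≤ ε := by
    rw [hδ, mul_div_assoc', div_le_iff₀ (by positivity)]
    nlinarith
  obtain ⟨k₀, h0⟩ := chain_law b q₀ hb r Cl hC κ hκ α β hα hβ B J A C K₁ θ hθ δ hδ0 (hδε.trans hε1)
  refine ⟨max k₀ 2, fun k hk p hp y hy1 hy2 c hc h hh1 hhJ X hX1 hX2 hlow => ?_⟩
  have hD1 : 1 ≤ primorial y * h := Nat.mul_pos (primorial_pos y) hh1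
  obtain ⟨Q, hQ⟩ : ∃ Q : ℝ, Q = Vz y * (k * Real.log b) := ⟨_, rfl⟩
  have hQ0 : 0 ≤ Q := by rw [hQ]; exact mul_nonneg (Vz_pos y).le (mul_nonneg (Nat.cast_nonneg _) (Real.log_natCast_nonneg b))
  have hw0 : ∀ v ∈ Fintype.piFinset (fun _ : Fin r => range (b ^ k)), 0 ≤ ∏ j, p j (v j) := fun v _ =>
    prod_nonneg fun j _ => (hC j).nonneg _ _ (hp j) _
  obtain ⟨Bad, hBad⟩ : ∃ Bad : ℕ → (Fin r → ℕ) → Prop, ∀ s v, Bad s v ↔ ¬ ((∀ j, 0 < Nm y h (c j) (κ j) (v j)) → ∀ t : ℕ, t ≤ s →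
        |(((AdmC α β (primorial y * h) s X).filter (fun i : ℕ => ∀ j : ℕ, 1 ≤ j → j ≤ t → (orb α β (Nr y h c κ v) (i : ℤ) j).toNat.Prime)).card : ℝ) -
          (AdmC α β (primorial y * h) s X).card / Q ^ t| ≤ δ * ((AdmC α β (primorial y * h) s X).card / Q ^ t)) := ⟨_, fun _ _ => Iff.rfl⟩
  obtain ⟨Qp, hQp⟩ : ∃ Qp : (Fin r → ℕ) → Prop, ∀ v, Qp v ↔ ((∀ j, 0 < Nm y h (c j) (κ j) (v j)) → ∀ s : ℕ, s ≤ r →
        |((GoodC α β (Nr y h c κ v) s X).card : ℝ) - (AdmC α β (primorial y * h) s X).card / Q ^ s| ≤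
          ε * ((AdmC α β (primorial y * h) s X).card / Q ^ s)) := ⟨_, fun _ => Iff.rfl⟩
  have hB : ∀ s ∈ Icc 1 r, ∑ v ∈ Fintype.piFinset (fun _ : Fin r => range (b ^ k)), (if Bad s v then ∏ j, p j (v j) else 0) ≤ δ := by
    intro s hs
    rw [mem_Icc] at hs
    have h1 := h0 k (by omega) p hp y hy1 hy2 c hc h hh1 hhJ X hX1 hX2 s hs.1 hs.2 (AdmC α β (primorial y * h) s X)
      (by unfold AdmC; exact filter_subset _ _) (by
        intro i hi
        unfold AdmC at hi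
        exact (mem_filter.1 hi).2.2) (hlow s hs.2)
    refine le_trans (le_of_eq ?_) h1
    apply sum_congr rfl
    intro v _
    rw [← hQ]
    by_cases hq : Bad s v
    · rw [if_pos hq, if_neg]
      exact (hBad s v).1 hq
    · rw [if_neg hq, if_pos]
      by_contra hcon
      exact hq ((hBad s v).2 hcon)
  have hsub : ∀ v ∈ Fintype.piFinset (fun _ : Fin r => range (b ^ k)), ¬ Qp v → ∃ s ∈ Icc 1 r, Bad s v := by
    intro v _ hnot
    by_contra hcon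
    push Not at hcon
    apply hnot
    rw [hQp]
    intro hpos s hs
    rcases Nat.eq_zero_or_pos s with h1 | h1
    · subst h1
      have e1 : GoodC α β (Nr y h c κ v) 0 X = AdmC α β (primorial y * h) 0 X := by
        unfold GoodC AdmC
        apply filter_congr
        intro i _
        constructor
        · rintro ⟨g1, -⟩
          exact ⟨g1, fun j hj1 hj2 => by omega⟩
        · rintro ⟨g1, -⟩
          exact ⟨g1, fun j hj1 hj2 => by omega⟩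
      rw [e1, pow_zero, div_one, sub_self, abs_zero]
      exact mul_nonneg hε.le (Nat.cast_nonneg _)
    · have h2 := hcon s (mem_Icc.2 ⟨h1, hs⟩)
      rw [hBad, not_not] at h2
      have h3 := h2 hpos s le_rfl
      have e1 : GoodC α β (Nr y h c κ v) s X =
          (AdmC α β (primorial y * h) s X).filter (fun i : ℕ => ∀ j : ℕ, 1 ≤ j → j ≤ s → (orb α β (Nr y h c κ v) (i : ℤ) j).toNat.Prime) := by
        unfold GoodC AdmC
        rw [filter_filter]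
        apply filter_congr
        intro i hi
        constructor
        · rintro ⟨g1, g2⟩
          refine ⟨⟨g1, good_adm α β hα hβ (Nr y h c κ v) (primorial y * h) s hD1 (fun l hl => ?_) i (mem_Icc.1 hi).1 g2⟩, g2⟩
          have hlr : l < r := by omega
          unfold Nr
          rw [dif_pos hlr]
          refine ⟨?_, hpos _⟩
          unfold Nm
          exact dvd_mul_right _ _
        · rintro ⟨⟨g1, -⟩, g2⟩
          exact ⟨g1, g2⟩
      rw [e1]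
      refine h3.trans (mul_le_mul_of_nonneg_right hδε ?_)
      positivity
  have main : ∑ v ∈ Fintype.piFinset (fun _ : Fin r => range (b ^ k)), (if Qp v then 0 else ∏ j, p j (v j)) ≤ ε := by
    refine (union_gen (Fintype.piFinset (fun _ : Fin r => range (b ^ k))) (fun v => ∏ j, p j (v j)) hw0 (Icc 1 r) Bad Qp hsub δ hB).trans ?_
    rw [Nat.card_Icc, Nat.add_sub_cancel]
    exact hrδ
  rw [← hQ]
  refine le_trans (le_of_eq ?_) main
  apply sum_congr rfl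
  intro v _
  by_cases hq : Qp v
  · rw [if_pos hq, if_pos ((hQp v).1 hq)]
  · rw [if_neg hq, if_neg (fun h => hq ((hQp v).2 h))]

/-- for a fixed point `±1` of the map the admissible primes are a dense set -/
lemma adm_fixed (α : ℕ) (β e : ℤ) (he : e = 1 ∨ e = -1) (hfix : α * e + β = e) (b C E : ℕ) (hb : 2 ≤ b) :
    ∃ k₀ : ℕ, ∀ k : ℕ, k₀ ≤ k → ∀ X : ℕ, b ^ k ≤ X * k ^ C → X ≤ b ^ k * k ^ C →
    ∀ D : ℕ, 1 ≤ D → D ≤ k ^ E → ∀ s : ℕ, (X : ℝ) ≤ (AdmC α β D s X).card * (k : ℝ) ^ (E + 3) := by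
  obtain ⟨k₀, h0⟩ := primes_ap_dense b C E hb
  refine ⟨k₀, fun k hk X hX1 hX2 D hD1 hD2 s => ?_⟩
  obtain ⟨a, ha⟩ : ∃ a : ℕ, (D : ℤ) ∣ (a : ℤ) - e := by
    refine ⟨((e + D) : ℤ).toNat, ?_⟩
    have h1 : (1 : ℤ) ≤ D := by exact_mod_cast hD1
    rw [Int.toNat_of_nonneg (by rcases he with rfl | rfl <;> linarith)]
    exact ⟨1, by ring⟩
  have hecop : ∀ x : ℤ, (D : ℤ) ∣ x - e → IsCoprime x (D : ℤ) := by
    intro x hx
    obtain ⟨m, hm⟩ := hx
    have e1 : x = e + (D : ℤ) * m := by linarith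
    rw [e1]
    apply IsCoprime.add_mul_left_left
    rcases he with rfl | rfl
    · exact isCoprime_one_left
    · exact isCoprime_one_left.neg_left
  have hacop : a.Coprime D := by
    rw [← Nat.isCoprime_iff_coprime]
    exact hecop _ ha
  refine (h0 k hk X hX1 hX2 D hD1 hD2 a hacop).trans (mul_le_mul_of_nonneg_right ?_ (by positivity))
  apply Nat.cast_le.2
  apply card_le_card
  intro p hp
  rw [mem_filter] at hp
  unfold AdmC
  rw [mem_filter]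
  refine ⟨hp.1, hp.2.1, ?_⟩
  have h1 : (D : ℤ) ∣ (p : ℤ) - e := by
    have h2 : (D : ℤ) ∣ (a : ℤ) - p := by
      have := (Nat.modEq_iff_dvd.1 hp.2.2)
      exact this
    have := dvd_sub ha h2
    have e2 : (a : ℤ) - e - (a - p) = p - e := by ring
    rwa [e2] at this
  have h3 : ∀ j : ℕ, (D : ℤ) ∣ orb α β (fun _ => 0) (p : ℤ) j - e := by
    intro j
    induction j with
    | zero => exact h1
    | succ j ih =>
      have e3 : orb α β (fun _ => 0) (p : ℤ) (j + 1) - e = α * (orb α β (fun _ => 0) (p : ℤ) j - e) := by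
        simp only [orb]
        linear_combination hfix
      rw [e3]
      exact ih.mul_left _
  intro j _ _
  exact hecop _ (h3 j)

end Pool.Agent.U847.XP
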