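import Pool.Agent.U847.XC

set_option autoImplicit false

/-! Random integers whose characteristic functions decay exponentially in the number of the positions `j` such that
`M b^j θ` is far from the integers: the criterion, and the families which satisfy it. -/

namespace Pool.Agent.U847.XR
open Finset
open Pool.Agent.H807R2.Dav
open Pool.Agent.W93.AU
open Pool.Agent.W93.DG
open Pool.Agent.H491R3.AM (gd_far)
open Pool.Agent.N625.PT (TCls)
open Pool.Agent.U847.XP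
open Pool.Agent.U847.TG (CharGood tcls_of)

open Classical in
/-- the number of the positions `j < k` for which `M b^j θ` has distance at least `δ` from all the integers -/
noncomputable def farPos (b M k : ℕ) (δ θ : ℝ) : ℕ :=
  ((range k).filter (fun j : ℕ => ∀ n : ℤ, δ ≤ |(M : ℝ) * (b : ℝ) ^ j * θ - n|)).card

/-- a family of laws of random integers `v < b^k`: `C k p` says that the law `p` belongs to it.  The characteristic functions
decay exponentially in the number of the far positions. -/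
structure Decay (b M : ℕ) (C : ℕ → (ℕ → ℝ) → Prop) : Prop where
  nonneg : ∀ k p, C k p → ∀ v, 0 ≤ p v
  sum : ∀ k p, C k p → ∑ v ∈ range (b ^ k), p v = 1
  decay : ∀ δ : ℝ, 0 < δ → ∃ (μ : ℝ) (T : ℕ), 0 < μ ∧ μ < 1 ∧ ∀ k p, C k p → ∀ θ : ℝ,
    ‖∑ v ∈ range (b ^ k), (p v : ℂ) * Complex.exp (2 * Real.pi * Complex.I * (v * θ))‖ ≤ ((k : ℝ) + 2) ^ T * μ ^ farPos b M k δ θ

lemma sum_ee (s : Finset ℕ) (p : ℕ → ℝ) (θ : ℝ) :
    ∑ v ∈ s, (p v : ℂ) * Complex.exp (2 * Real.pi * Complex.I * (v * θ)) = ∑ v ∈ s, (p v : ℂ) * ee (v * θ) := by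
  apply sum_congr rfl
  intro v _
  unfold ee
  push_cast
  rfl

lemma norm_le_one (s : Finset ℕ) (p : ℕ → ℝ) (θ : ℝ) (h0 : ∀ v, 0 ≤ p v) (h1 : ∑ v ∈ s, p v = 1) :
    ‖∑ v ∈ s, (p v : ℂ) * ee (v * θ)‖ ≤ 1 := by
  refine (norm_sum_le _ _).trans ?_
  rw [← h1]
  apply sum_le_sum
  intro v _
  rw [norm_mul, norm_ee, mul_one, Complex.norm_real, Real.norm_eq_abs, abs_of_nonneg (h0 v)]

/-- good positions are far -/
lemma far_of_gd (b : ℕ) (hb : 2 ≤ b) (c x : ℝ) (h : Gd b c x) (n : ℤ) : c / 7 ≤ |x - n| := by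
  have h1 := h 0 1 (by norm_num) (by omega)
  have h2 : ‖ee (x - n) - 1‖ ≤ 2 * Real.pi * |x - n| := by
    have h0 := Pool.Agent.H807R2.Dav.ee_eq (x - n)
    rw [h0]
    have h3 := Real.norm_exp_I_mul_ofReal_sub_one_le (x := 2 * Real.pi * (x - n))
    rw [mul_comm] at h3
    refine h3.trans ?_
    rw [Real.norm_eq_abs, abs_mul, abs_of_pos (by positivity)]
  have h3 : ee (x - n) = ee x := by
    have h4 : ee x = ee ((x - n) + n) := by
      congr 1
      ring
    rw [h4, ee_add]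
    have h5 : ee (n : ℝ) = 1 := by
      unfold ee
      have := Complex.exp_int_mul_two_pi_mul_I n
      rw [← this]
      congr 1
      push_cast
      ring
    rw [h5, mul_one]
  rw [h3] at h2
  have e0 : ee (((0 : ℕ) : ℝ) * x) = 1 := by
    unfold ee
    simp
  have e1 : ee (((1 : ℕ) : ℝ) * x) = ee x := by
    congr 1
    push_cast
    ring
  rw [e0, e1] at h1
  have h6 : (2 : ℝ) ≤ ‖(1 : ℂ) + ee x‖ + ‖ee x - 1‖ := by
    have h7 : ((1 : ℂ) + ee x) - (ee x - 1) = 2 := by ring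
    have h8 := norm_sub_le ((1 : ℂ) + ee x) (ee x - 1)
    rw [h7] at h8
    simpa using h8
  have h9 : c ≤ 2 * Real.pi * |x - n| := by linarith
  have h10 : 2 * Real.pi ≤ 7 := by
    have := Real.pi_lt_d2
    linarith
  have h11 : 2 * Real.pi * |x - n| ≤ 7 * |x - n| := mul_le_mul_of_nonneg_right h10 (abs_nonneg _)
  linarith

lemma pow_two_T (m T : ℕ) (hm : 2 ≤ m) : ((m : ℝ) + 2) ^ T ≤ (m : ℝ) ^ (2 * T) := by
  have h1 : (2 : ℝ) ≤ m := by exact_mod_cast hm
  rw [pow_mul]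
  apply pow_le_pow_left₀ (by positivity)
  nlinarith

/-- the criterion implies exponential decay in the good positions -/
theorem Decay.charExp {b M : ℕ} {C : ℕ → (ℕ → ℝ) → Prop} (hb : 2 ≤ b) (h : Decay b M C) : CharExp b M C := by
  classical
  intro c hc0 hc1
  obtain ⟨μ, T, hμ0, hμ1, h1⟩ := h.decay (c / 7) (by positivity)
  refine ⟨μ, 2 * T, 2, hμ0, hμ1, by norm_num, fun m p hp θ n ht => ?_⟩
  have hcard : ((range m).filter (fun j : ℕ => Gd b c ((b : ℝ) ^ j * ((M : ℝ) * θ)))).card ≤ farPos b M m (c / 7) θ := by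
    unfold farPos
    apply card_le_card
    intro j hj
    rw [mem_filter] at hj ⊢
    refine ⟨hj.1, fun n => ?_⟩
    have h2 := far_of_gd b hb c _ hj.2 n
    have e1 : (b : ℝ) ^ j * ((M : ℝ) * θ) = (M : ℝ) * (b : ℝ) ^ j * θ := by ring
    rw [e1] at h2
    exact h2
  have hm : 2 ≤ m := by
    have h2 := card_filter_le (range m) (fun j : ℕ => Gd b c ((b : ℝ) ^ j * ((M : ℝ) * θ)))
    rw [card_range] at h2
    omega
  have h2 := h1 m p hp θ
  rw [sum_ee] at h2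
  refine h2.trans ?_
  apply mul_le_mul (pow_two_T m T hm) _ (by positivity) (by positivity)
  apply pow_le_pow_of_le_one hμ0.le hμ1.le
  omega

/-- exponential decay gives the smallness at the frequencies with many good positions -/
theorem good_of_exp {b M : ℕ} {C : ℕ → (ℕ → ℝ) → Prop} (hb : 2 ≤ b) (h : CharExp b M C) : CharGood b M C := by
  classical
  intro c hc0 hc1 V
  obtain ⟨μ, T, D, hμ0, hμ1, hD, h1⟩ := h c hc0 hc1
  have hb0 : (0 : ℝ) < b := by exact_mod_cast (by omega : 0 < b)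
  obtain ⟨D', hD'⟩ := exists_pow_lt_of_lt_one (show 0 < (1 / (b : ℝ)) ^ (V + T) by positivity) hμ1
  refine ⟨D * (D' + 1), 1, fun K hK m hmK p hp θ ht => ?_⟩
  obtain ⟨Lg, hLg⟩ : ∃ Lg, Lg = Nat.log b K + 1 := ⟨_, rfl⟩
  have hLg1 : 1 ≤ Lg := by omega
  rw [← hLg] at ht
  have hn : D * (D' * Lg + 1) ≤ ((range m).filter (fun j : ℕ => Gd b c ((b : ℝ) ^ j * ((M : ℝ) * θ)))).card := by
    refine le_trans ?_ ht
    rw [mul_assoc]
    apply Nat.mul_le_mul_left
    have : (D' + 1) * Lg = D' * Lg + Lg := by ring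
    omega
  have h2 := h1 m p hp θ _ hn
  refine h2.trans ?_
  have hKr : (1 : ℝ) ≤ K := by exact_mod_cast hK
  have h3 : μ ^ (D' * Lg) ≤ 1 / (K : ℝ) ^ (V + T) := by
    rw [hLg]
    exact pow_log_le b hb μ hμ0.le _ D' hD'.le K hK
  have h4 : (m : ℝ) ^ T ≤ (K : ℝ) ^ T := by
    apply pow_le_pow_left₀ (Nat.cast_nonneg _)
    exact_mod_cast hmK
  calc (m : ℝ) ^ T * μ ^ (D' * Lg) ≤ (K : ℝ) ^ T * (1 / (K : ℝ) ^ (V + T)) := mul_le_mul h4 h3 (by positivity) (by positivity)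
    _ = 1 / (K : ℝ) ^ V := by
        rw [pow_add]
        field_simp

/-- the criterion gives the law for all the multiples -/
theorem Decay.tcls {b M : ℕ} {C : ℕ → (ℕ → ℝ) → Prop} (hb : 2 ≤ b) (hM : 1 ≤ M) (h : Decay b M C) (κ : ℤ) (hκ : κ ≠ 0) :
    TCls b κ C :=
  tcls_of b M hb hM C h.nonneg h.sum (good_of_exp hb (h.charExp hb)) κ hκ

/-- the criterion gives the class of distributions -/
theorem Decay.scls {b M : ℕ} {C : ℕ → (ℕ → ℝ) → Prop} (hb : 2 ≤ b) (hM : 1 ≤ M) (h : Decay b M C) :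
    SCls b (b.factorial * M) C :=
  ⟨hb, h.nonneg, h.sum, rat_of b M hb hM C (h.charExp hb), fun κ hκ => h.tcls hb hM κ hκ⟩

/-- exponential decay in the good positions implies the criterion with the factor `b! M` -/
theorem decay_of_exp {b M : ℕ} {C : ℕ → (ℕ → ℝ) → Prop} (hb : 2 ≤ b) (hnn : ∀ k p, C k p → ∀ v, 0 ≤ p v)
    (hsum : ∀ k p, C k p → ∑ v ∈ range (b ^ k), p v = 1) (h : CharExp b M C) : Decay b (b.factorial * M) C := by
  classical
  refine ⟨hnn, hsum, fun δ hδ => ?_⟩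
  have hF2 : (2 : ℝ) ≤ (b.factorial : ℝ) := by exact_mod_cast hb.trans (Nat.self_le_factorial b)
  obtain ⟨κ, hκ⟩ : ∃ κ, κ = min (δ / 2) (1 / 4) := ⟨_, rfl⟩
  have hκ0 : 0 < κ := by rw [hκ]; exact lt_min (by linarith) (by norm_num)
  have hκδ : κ < δ := by
    have := min_le_left (δ / 2) (1 / 4 : ℝ)
    rw [← hκ] at this
    linarith
  have hκ4 : κ ≤ 1 / 4 := by rw [hκ]; exact min_le_right _ _
  obtain ⟨c, hc⟩ : ∃ c, c = 4 * (κ / (b.factorial : ℝ)) ^ 2 := ⟨_, rfl⟩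
  have hc0 : 0 < c := by rw [hc]; positivity
  have hc1 : c ≤ 1 / 4 := by
    have e1 : κ / (b.factorial : ℝ) ≤ 1 / 4 := (div_le_self hκ0.le (by linarith)).trans hκ4
    have e2 : 0 ≤ κ / (b.factorial : ℝ) := by positivity
    rw [hc]
    nlinarith
  obtain ⟨μ, T, D, hμ0, hμ1, hD, h1⟩ := h c hc0 hc1
  have hDr : (1 : ℝ) ≤ D := by exact_mod_cast hD
  obtain ⟨ν, hν⟩ : ∃ ν, ν = 1 - (1 - μ) / D := ⟨_, rfl⟩
  have hq0 : 0 < (1 - μ) / D := by
    apply div_pos <;> linarith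
  have hq1 : (1 - μ) / D < 1 := by
    rw [div_lt_one (by linarith)]
    linarith
  have hν0 : 0 < ν := by rw [hν]; linarith
  have hν1 : ν < 1 := by rw [hν]; linarith
  have hνμ : μ ≤ ν ^ D := by
    have h2 := one_add_mul_le_pow (a := -((1 - μ) / D)) (by linarith) D
    have e1 : (1 : ℝ) + D * (-((1 - μ) / D)) = μ := by
      field_simp
      ring
    rw [e1] at h2
    rw [hν, sub_eq_add_neg]
    exact h2
  obtain ⟨S, hS⟩ : ∃ S : ℕ, (1 / μ) ^ 2 ≤ (2 : ℝ) ^ S := by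
    obtain ⟨S, hS⟩ := pow_unbounded_of_one_lt ((1 / μ) ^ 2) (by norm_num : (1 : ℝ) < 2)
    exact ⟨S, hS.le⟩
  refine ⟨ν, T + S, hν0, hν1, fun k p hp θ => ?_⟩
  rw [sum_ee]
  obtain ⟨G, hG⟩ : ∃ G, G = ((range k).filter (fun j : ℕ => Gd b c ((b : ℝ) ^ j * ((M : ℝ) * θ)))).card := ⟨_, rfl⟩
  have hfG : farPos b (b.factorial * M) k δ θ ≤ G := by
    rw [hG]
    unfold farPos
    apply card_le_card
    intro j hj
    rw [mem_filter] at hj ⊢
    refine ⟨hj.1, ?_⟩
    rw [hc]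
    refine gd_far b hb κ hκ0.le (((b.factorial * M : ℕ) : ℝ) * (b : ℝ) ^ j * θ) _ ?_ ?_
    · congr 1
      push_cast
      ring
    · exact hκδ.trans_le (hj.2 _)
  have hk2 : (2 : ℝ) ≤ (k : ℝ) + 2 := by
    have : (0 : ℝ) ≤ k := Nat.cast_nonneg _
    linarith
  have hpS : (1 / μ) ^ 2 ≤ ((k : ℝ) + 2) ^ S := hS.trans (pow_le_pow_left₀ (by norm_num) hk2 S)
  have hνf : ν ^ G ≤ ν ^ farPos b (b.factorial * M) k δ θ := pow_le_pow_of_le_one hν0.le hν1.le hfG
  have hpT : (1 : ℝ) ≤ ((k : ℝ) + 2) ^ T := one_le_pow₀ (by linarith)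
  by_cases hGD : D ≤ G
  · obtain ⟨n, hn⟩ : ∃ n, n + 1 = G / D := by
      have : 1 ≤ G / D := (Nat.one_le_div_iff (by omega)).2 hGD
      exact ⟨G / D - 1, by omega⟩
    have hle : D * (n + 1) ≤ G := by
      rw [hn]
      exact Nat.mul_div_le G D
    have hge : G ≤ D * (n + 2) := by
      have h3 := Nat.lt_mul_div_succ G (show 0 < D by omega)
      rw [← hn] at h3
      have e1 : D * (n + 1 + 1) = D * (n + 2) := by ring
      omega
    have h2 := h1 k p hp θ n (by rw [← hG]; exact hle)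
    refine h2.trans ?_
    have h3 : μ ^ (n + 2) ≤ ν ^ G := by
      calc μ ^ (n + 2) ≤ (ν ^ D) ^ (n + 2) := pow_le_pow_left₀ hμ0.le hνμ _
        _ = ν ^ (D * (n + 2)) := by rw [← pow_mul]
        _ ≤ ν ^ G := pow_le_pow_of_le_one hν0.le hν1.le hge
    have h4 : μ ^ n = (1 / μ) ^ 2 * μ ^ (n + 2) := by
      rw [pow_add]
      field_simp
    have h5 : (k : ℝ) ^ T ≤ ((k : ℝ) + 2) ^ T := pow_le_pow_left₀ (Nat.cast_nonneg _) (by linarith) T
    calc (k : ℝ) ^ T * μ ^ n ≤ ((k : ℝ) + 2) ^ T * (((k : ℝ) + 2) ^ S * ν ^ farPos b (b.factorial * M) k δ θ) := by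
          apply mul_le_mul h5 _ (by positivity) (by positivity)
          rw [h4]
          exact mul_le_mul hpS (h3.trans hνf) (by positivity) (by positivity)
      _ = _ := by rw [pow_add]; ring
  · push Not at hGD
    refine (norm_le_one _ p θ (hnn k p hp) (hsum k p hp)).trans ?_
    have h3 : μ ≤ ν ^ farPos b (b.factorial * M) k δ θ :=
      hνμ.trans ((pow_le_pow_of_le_one hν0.le hν1.le hGD.le).trans hνf)
    have h4 : 1 ≤ (1 / μ) ^ 2 * μ := by
      have e1 : (1 / μ) ^ 2 * μ = 1 / μ := by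
        field_simp
      rw [e1, one_le_div hμ0]
      exact hμ1.le
    calc (1 : ℝ) ≤ (1 / μ) ^ 2 * μ := h4
      _ ≤ ((k : ℝ) + 2) ^ S * ν ^ farPos b (b.factorial * M) k δ θ := mul_le_mul hpS h3 hμ0.le (by positivity)
      _ ≤ ((k : ℝ) + 2) ^ T * (((k : ℝ) + 2) ^ S * ν ^ farPos b (b.factorial * M) k δ θ) :=
          le_mul_of_one_le_left (by positivity) hpT
      _ = _ := by rw [pow_add]; ring

/-- walks on graphs satisfy the criterion -/
theorem w_decay {X : Type} {b : ℕ} {δ : X → ℕ → Option X} (hG : Pool.Agent.N625.GW.Graph b δ) (x : X) (ρ : ℝ) (hρ : 0 < ρ)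
    (hR : Pool.Agent.N625.GW.Rho b δ x ρ) (D₀ : ℕ) :
    Decay b (b.factorial * (b ^ 2).factorial) (Pool.Agent.N625.GW.WC b δ x ρ D₀) :=
  decay_of_exp (w_scls hG x ρ hρ hR D₀).two (w_scls hG x ρ hρ hR D₀).nonneg (w_scls hG x ρ hρ hR D₀).sum
    (w_exp hG x ρ hρ hR D₀)

/-- random fields with flexible digits satisfy the criterion -/
theorem gf_decay (b Δ : ℕ) (η : ℝ) (hb : 2 ≤ b) (hη : 0 < η) :
    Decay b (b.factorial * 1) (Pool.Agent.N213.GF.GC b Δ η) :=
  decay_of_exp hb (gf_scls b Δ η hb hη).nonneg (gf_scls b Δ η hb hη).sum (gf_exp hb Δ η hη)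

/-- nested words satisfy the criterion -/
theorem br_decay {b : ℕ} {P : Finset (ℕ × ℕ)} {E : Finset ℕ} (hA : Pool.Agent.N625.DY.Alphabet b P E) :
    Decay b (b.factorial * (b - 1)) (Pool.Agent.N625.DY.BrC b P E) :=
  decay_of_exp (br_scls hA).two (br_scls hA).nonneg (br_scls hA).sum (br_exp hA)

end Pool.Agent.U847.XR
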