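import Pool.Agent.U847.PV
import Pool.Agent.N469.GG.Deg

set_option autoImplicit false

/-! Goldbach graphs: the vertices which are multiples of the neighbours of a random integer have many neighbours. -/

namespace Pool.Agent.U847.VT
open Finset
open Pool.Agent.N625.PT
open Pool.Agent.U847.PV
open Pool.Agent.W93.TD (HLs)
open Pool.Agent.W93.PG (WinP)
open Pool.Agent.N469.GG (Nb)

variable {b : ℕ} {κ : ℤ} {C : ℕ → (ℕ → ℝ) → Prop}

lemma ite_nn {P : Prop} {hd : Decidable P} {x : ℝ} (hx : 0 ≤ x) : 0 ≤ @ite ℝ P hd 0 x := by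
  split_ifs
  · exact le_rfl
  · exact hx

open Classical in
theorem t_vert (hC : TCls b κ C) (B J J₂ M W U : ℕ) (c₁ : ℝ) (hc₁ : 0 < c₁) (n₁ : ℕ)
    (hdeg : ∀ n : ℕ, n₁ ≤ n →
      (c₁ * (n / Real.log n ^ 2) ≤ ((Nb n 0).card : ℝ)) ∧
      (∀ U a : ℕ, Even a → 2 ≤ a → a ≤ n → HLs (1 / 2) U (n / 2) (fun _ : Fin 1 => a) → c₁ * (n / Real.log n ^ 2) ≤ ((Nb n a).card : ℝ)) ∧
      (∀ a : ℕ, Even a → n < a → a ≤ 2 * n → WinP (1 / 2) 1 a → c₁ * (n / Real.log n ^ 2) ≤ ((Nb n a).card : ℝ))) :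
    ∃ k₀ : ℕ, ∀ k : ℕ, k₀ ≤ k → ∀ p, C k p → ∀ c : ℤ, |c| ≤ B * (b : ℤ) ^ k → ∀ n : ℕ, b ^ k ≤ M * n → n ≤ k ^ J₂ * b ^ k →
    ∀ Q : ℕ → Prop, (∀ v, ¬ Q v → ∃ h : ℕ, 1 ≤ h ∧ h ≤ k ^ J ∧ h * b ^ k ≤ M * n ∧ ∃ (q : ℤ) (a : ℕ), |q - (c + κ * v)| ≤ (k : ℤ) ^ W ∧
      (a : ℤ) = h * q ∧ Even a ∧ a ≤ 2 * n ∧ ((Nb n a).card : ℝ) < c₁ * (n / Real.log n ^ 2)) →
    ∑ v ∈ range (b ^ k), (if Q v then 0 else p v) ≤ 1 / (k : ℝ) ^ U := by
  have hb := hC.two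
  obtain ⟨k1, h1⟩ := t_windows hC B J W 1 (U + 1) 0 (1 / 2) (by norm_num) (fun m => WinP (1 / 2) 1 m) (fun m _ _ h => h)
  obtain ⟨k2, h2⟩ := t_pair hC B J J₂ (3 * M) W (U + 1) (1 / 2) (by norm_num)
  refine ⟨k1 + k2 + M * (n₁ + 3) + 3, fun k hk p hp c hc n hn1 hn2 Q hQ => ?_⟩
  have hk3 : (3 : ℝ) ≤ k := by exact_mod_cast (by omega : 3 ≤ k)
  have hk0 : (0 : ℝ) < k := by linarith
  have hkb : k < b ^ k := Nat.lt_pow_self (by omega)
  have hn3 : n₁ + 3 ≤ n := by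
    by_contra hcon
    push Not at hcon
    have : M * n ≤ M * (n₁ + 3) := Nat.mul_le_mul_left _ hcon.le
    omega
  have hhalf : M * n ≤ 3 * M * (n / 2) := by
    have : n ≤ 3 * (n / 2) := by omega
    calc M * n ≤ M * (3 * (n / 2)) := Nat.mul_le_mul_left _ this
      _ = 3 * M * (n / 2) := by ring
  obtain ⟨d0, d1, d2⟩ := hdeg n (by omega)
  have g1 := h1 k (by omega) p hp c hc (fun v => ∀ h : ℕ, 1 ≤ h → h ≤ k ^ J → ∀ s : ℤ, |s| ≤ (k : ℤ) ^ W →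
    0 < (h : ℤ) * (c + s + κ * v) → 2 ∣ (h : ℤ) * (c + s + κ * v) → WinP (1 / 2) 1 ((h : ℤ) * (c + s + κ * v)).toNat) (by
      intro v hv
      push Not at hv
      obtain ⟨h, q1, q2, s, q3, q4, q5, q6⟩ := hv
      exact ⟨h, q1, q2, s, q3, q4, q5, q6⟩)
  have g2 := h2 k (by omega) p hp c hc (n / 2) (hn1.trans hhalf) ((Nat.div_le_self n 2).trans hn2)
    (fun v => ∀ h : ℕ, 1 ≤ h → h ≤ k ^ J → h * b ^ k ≤ 3 * M * (n / 2) → ∀ s : ℤ, |s| ≤ (k : ℤ) ^ W →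
    0 ≤ (h : ℤ) * (c + s + κ * v) → HLs (1 / 2) (U + 1 + J + W + 1) (n / 2)
      (fun _ : Fin 1 => ((h : ℤ) * (c + s + κ * v)).toNat)) (by
      intro v hv
      push Not at hv
      obtain ⟨h, q1, q2, q3, s, q4, q5, q6⟩ := hv
      exact ⟨h, q1, q2, q3, s, q4, q5, q6⟩)
  have hsum : ∑ v ∈ range (b ^ k), (if Q v then 0 else p v) ≤ 1 / (k : ℝ) ^ (U + 1) + 1 / (k : ℝ) ^ (U + 1) := by
    refine le_trans ?_ (add_le_add g1 g2)
    rw [← sum_add_distrib]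
    apply sum_le_sum
    intro v _
    have hpv := hC.nonneg k p hp v
    by_cases hv : Q v
    · rw [if_pos hv]
      apply add_nonneg
      · split_ifs
        · exact le_rfl
        · exact hpv
      · split_ifs
        · exact le_rfl
        · exact hpv
    · rw [if_neg hv]
      obtain ⟨h, hh1, hh2, hh3, q, a, hq, hae, hev, ha2, hbad⟩ := hQ v hv
      have e1 : (h : ℤ) * (c + (q - (c + κ * v)) + κ * v) = (a : ℤ) := by rw [hae]; ring
      obtain ⟨r, hr⟩ := hev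
      rcases Nat.eq_zero_or_pos a with h0 | h0
      · exfalso
        rw [h0] at hbad
        linarith
      rcases le_or_gt a n with h5 | h5
      · have hn : ¬ ∀ h : ℕ, 1 ≤ h → h ≤ k ^ J → h * b ^ k ≤ 3 * M * (n / 2) → ∀ s : ℤ, |s| ≤ (k : ℤ) ^ W →
            0 ≤ (h : ℤ) * (c + s + κ * v) → HLs (1 / 2) (U + 1 + J + W + 1) (n / 2)
            (fun _ : Fin 1 => ((h : ℤ) * (c + s + κ * v)).toNat) := by
          intro hall
          have h6 := hall h hh1 hh2 (hh3.trans hhalf) (q - (c + κ * v)) hq (by rw [e1]; exact Int.natCast_nonneg _)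
          rw [e1, Int.toNat_natCast] at h6
          have := d1 _ a ⟨r, hr⟩ (by omega) h5 h6
          linarith
        rw [if_neg hn]
        exact le_add_of_nonneg_left (ite_nn hpv)
      · have hn : ¬ ∀ h : ℕ, 1 ≤ h → h ≤ k ^ J → ∀ s : ℤ, |s| ≤ (k : ℤ) ^ W →
          0 < (h : ℤ) * (c + s + κ * v) → 2 ∣ (h : ℤ) * (c + s + κ * v) →
          WinP (1 / 2) 1 ((h : ℤ) * (c + s + κ * v)).toNat := by
          intro hall
          have h6 := hall h hh1 hh2 (q - (c + κ * v)) hq (by rw [e1]; exact_mod_cast h0) (by rw [e1]; omega)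
          rw [e1, Int.toNat_natCast] at h6
          have := d2 a ⟨r, hr⟩ h5 ha2 h6
          linarith
        rw [if_neg hn]
        exact le_add_of_nonneg_right (ite_nn hpv)
  refine hsum.trans ?_
  rw [← add_div, div_le_div_iff₀ (by positivity) (by positivity), pow_succ]
  have : 0 < (k : ℝ) ^ U := by positivity
  nlinarith

end Pool.Agent.U847.VT
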