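import Pool.Agent.U847.XJ

set_option autoImplicit false

/-! Markov's inequality, arbitrary index set. -/

namespace Pool.Agent.U847.XK
open Finset

open Classical in
/-- Markov's inequality -/
lemma markov {ι α : Type} (R : Finset ι) (w : ι → ℝ) (hw : ∀ v, 0 ≤ w v) (hs : ∑ v ∈ R, w v ≤ 1) (I E : Finset α)
    (Bd : α → ι → Prop) (a e T ε : ℝ) (hE : (E.card : ℝ) ≤ a) (he : 0 ≤ e)
    (h : ∀ n ∈ I, n ∉ E → ∑ v ∈ R, (if Bd n v then w v else 0) ≤ e) (hT : 0 < T) (hTa : a + e * I.card ≤ ε * T) :
    ∑ v ∈ R, (if ((I.filter (fun n => Bd n v)).card : ℝ) ≤ T then 0 else w v) ≤ ε := by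
  have hcnt : ∀ v, ((I.filter (fun n => Bd n v)).card : ℝ) = ∑ n ∈ I, (if Bd n v then (1 : ℝ) else 0) := by
    intro v
    rw [sum_boole]
  have h1 : ∑ v ∈ R, w v * ((I.filter (fun n => Bd n v)).card : ℝ) ≤ a + e * I.card := by
    have e1 : ∀ v, w v * ((I.filter (fun n => Bd n v)).card : ℝ) = ∑ n ∈ I, (if Bd n v then w v else 0) := by
      intro v
      rw [hcnt, mul_sum]
      apply sum_congr rfl
      intro n _
      split_ifs <;> simp
    simp_rw [e1]
    rw [sum_comm]
    have e2 : ∀ n ∈ I, ∑ v ∈ R, (if Bd n v then w v else 0) ≤ e + (if n ∈ E then 1 else 0) := by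
      intro n hn
      by_cases hnE : n ∈ E
      · rw [if_pos hnE]
        have e3 : ∑ v ∈ R, (if Bd n v then w v else 0) ≤ ∑ v ∈ R, w v := by
          apply sum_le_sum
          intro v _
          split_ifs
          · exact le_rfl
          · exact hw v
        linarith
      · rw [if_neg hnE]
        linarith [h n hn hnE]
    refine (sum_le_sum e2).trans ?_
    rw [sum_add_distrib, sum_const, nsmul_eq_mul, sum_boole]
    have e4 : ((I.filter (fun n => n ∈ E)).card : ℝ) ≤ E.card := by
      exact_mod_cast card_le_card (fun n hn => (mem_filter.1 hn).2)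
    linarith
  have h2 : (∑ v ∈ R, (if ((I.filter (fun n => Bd n v)).card : ℝ) ≤ T then 0 else w v)) * T ≤ ε * T := by
    refine le_trans ?_ (h1.trans hTa)
    rw [sum_mul]
    apply sum_le_sum
    intro v _
    split_ifs with hv
    · rw [zero_mul]
      exact mul_nonneg (hw v) (Nat.cast_nonneg _)
    · exact mul_le_mul_of_nonneg_left (not_le.1 hv).le (hw v)
  exact le_of_mul_le_mul_right h2 hT

end Pool.Agent.U847.XK
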