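import Pool.Agent.U847.XI
import Pool.Agent.Results.MP_dd84fd_nt.QuadraticNeighbourhoods

set_option autoImplicit false

/-! Almost all even integers have many Goldbach representations; Markov's inequality. -/

namespace Pool.Agent.U847.XJ
open Finset

/-- the primes `p ≤ n` with `n - p` prime -/
def Gold (n : ℕ) : Finset ℕ := (range (n + 1)).filter (fun p : ℕ => p.Prime ∧ (n - p).Prime)

lemma gold_card (n : ℕ) : (Gold n).card = Pool.Agent.H560R3.GB.g n := by
  unfold Gold Pool.Agent.H560R3.GB.g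
  rw [Finset.Nat.antidiagonal_eq_map, filter_map, card_map]
  rfl

lemma energy_two (x : ℕ) : Pool.Agent.H560R3.GB.energy 1 x (fun m => 2 * m) ≤ x := by
  unfold Pool.Agent.H560R3.GB.energy
  have h1 : (((Fintype.piFinset fun _ : Fin 1 => Icc 1 x) ×ˢ (Fintype.piFinset fun _ : Fin 1 => Icc 1 x)).filter
    (fun q => ∑ i, 2 * (q.1 i) = ∑ i, 2 * (q.2 i))) ⊆ (Icc 1 x).image (fun m => ((fun _ : Fin 1 => m), (fun _ : Fin 1 => m))) := by
    intro q hq
    rw [mem_filter, mem_product, Fintype.mem_piFinset, Fintype.mem_piFinset] at hq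
    rw [mem_image]
    obtain ⟨⟨h2, h3⟩, h4⟩ := hq
    rw [Fin.sum_univ_one, Fin.sum_univ_one] at h4
    refine ⟨q.1 0, h2 0, ?_⟩
    obtain ⟨q1, q2⟩ := q
    simp only at h4
    simp only [Prod.mk.injEq]
    constructor
    · funext i
      rw [Subsingleton.elim i 0]
    · funext i
      rw [Subsingleton.elim i 0]
      omega
  exact (card_le_card h1).trans (card_image_le.trans (by rw [Nat.card_Icc]; omega))

theorem gold_dense : ∃ X₀ : ℕ, ∀ X : ℕ, X₀ ≤ X →
    (((Icc 1 X).filter (fun n : ℕ => Even n ∧ ((Gold n).card : ℝ) < n / Real.log n ^ 2)).card : ℝ) ≤ X / Real.log X := by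
  classical
  obtain ⟨N₀, h0⟩ := Pool.Agent.TH935.GF.fam_win 1 1 1 1 1 3 le_rfl (min 1 (1 / 200)) (by norm_num)
    (fun m => ((m : ℝ) / Real.log m ^ 2) ≤ Pool.Agent.H560R3.GB.g m) (by
      intro m hm _ hw
      have h1 := (Pool.Agent.Results.MP_dd84fd_nt.QuadraticNeighbourhoods.holds_of 1 1 m hm hw).1
      have : (0 : ℝ) ≤ m / Real.log m ^ 2 := by positivity
      linarith)
  refine ⟨max N₀ 60, fun X hX => ?_⟩
  have hX60 : 60 ≤ X := by omega
  have hXr : (60 : ℝ) ≤ X := by exact_mod_cast hX60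
  have hlog : 4 ≤ Real.log X := by
    rw [Real.le_log_iff_exp_le (by linarith)]
    have := Real.exp_one_lt_d9
    have h2 : Real.exp 4 = Real.exp 1 ^ 4 := by rw [← Real.exp_nat_mul]; norm_num
    rw [h2]
    calc Real.exp 1 ^ 4 ≤ 2.7182818286 ^ 4 := pow_le_pow_left₀ (Real.exp_pos 1).le this.le 4
      _ ≤ 60 := by norm_num
      _ ≤ _ := hXr
  obtain ⟨x, hx⟩ : ∃ x, x = X / 2 := ⟨_, rfl⟩
  have hx1 : X ≤ 2 * x + 1 := by omega
  have hx2 : 2 * x ≤ X := by omega
  have hx1r : (X : ℝ) ≤ 2 * x + 1 := by exact_mod_cast hx1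
  have hx2r : 2 * (x : ℝ) ≤ X := by exact_mod_cast hx2
  have h1 := h0 X (by omega) x (fun m => 2 * m) (by
    intro m hm
    rw [mem_Icc] at hm
    exact ⟨by omega, dvd_mul_right 2 m⟩) (by
    have := energy_two x
    have h2 : (Pool.Agent.H560R3.GB.energy 1 x (fun m => 2 * m) : ℝ) ≤ x := by exact_mod_cast this
    have hxr : (29 : ℝ) ≤ x := by exact_mod_cast (by omega : 29 ≤ x)
    calc (Pool.Agent.H560R3.GB.energy 1 x (fun m => 2 * m) : ℝ) * X ≤ x * X := mul_le_mul_of_nonneg_right h2 (by linarith)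
      _ ≤ x * (4 * x) := mul_le_mul_of_nonneg_left (by linarith) (by linarith)
      _ = 4 * x ^ 2 := by ring
      _ ≤ Real.log X * x ^ 2 := mul_le_mul_of_nonneg_right hlog (by positivity)
      _ = _ := by rw [pow_one])
    ((Icc 1 x).filter (fun m => ¬ (((2 * m : ℕ) : ℝ) / Real.log (2 * m : ℕ) ^ 2) ≤ Pool.Agent.H560R3.GB.g (2 * m)))
    (filter_subset _ _) (by
      intro m hm
      exact (mem_filter.1 hm).2)
  have h2 : ((Icc 1 X).filter (fun n : ℕ => Even n ∧ ((Gold n).card : ℝ) < n / Real.log n ^ 2)) ⊆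
      ((Icc 1 x).filter (fun m => ¬ (((2 * m : ℕ) : ℝ) / Real.log (2 * m : ℕ) ^ 2) ≤ Pool.Agent.H560R3.GB.g (2 * m))).image (fun m => 2 * m) := by
    intro n hn
    rw [mem_filter, mem_Icc] at hn
    obtain ⟨⟨h3, h4⟩, ⟨m, hm⟩, h6⟩ := hn
    rw [mem_image]
    have e : n = 2 * m := by omega
    refine ⟨m, ?_, e.symm⟩
    rw [mem_filter, mem_Icc]
    refine ⟨by omega, ?_⟩
    rw [← e, not_le, ← gold_card]
    exact h6
  have h3 := (card_le_card h2).trans card_image_le
  have h4 : (((Icc 1 X).filter (fun n : ℕ => Even n ∧ ((Gold n).card : ℝ) < n / Real.log n ^ 2)).card : ℝ) ≤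
    ((Icc 1 x).filter (fun m => ¬ (((2 * m : ℕ) : ℝ) / Real.log (2 * m : ℕ) ^ 2) ≤ Pool.Agent.H560R3.GB.g (2 * m))).card := by
    exact_mod_cast h3
  refine h4.trans (h1.trans ?_)
  rw [pow_one]
  apply div_le_div_of_nonneg_right _ (by linarith)
  linarith

open Classical in
/-- Markov's inequality -/
lemma markov {ι : Type} (R : Finset ι) (w : ι → ℝ) (hw : ∀ v, 0 ≤ w v) (hs : ∑ v ∈ R, w v ≤ 1) (I E : Finset ℕ)
    (Bd : ℕ → ι → Prop) (a e T ε : ℝ) (hE : (E.card : ℝ) ≤ a) (he : 0 ≤ e)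
    (h : ∀ n ∈ I, n ∉ E → ∑ v ∈ R, (if Bd n v then w v else 0) ≤ e) (hT : 0 < T) (hTa : a + e * I.card ≤ ε * T) :
    ∑ v ∈ R, (if ((I.filter (fun n => Bd n v)).card : ℝ) ≤ T then 0 else w v) ≤ ε := by
  have hcnt : ∀ v, ((I.filter (fun n => Bd n v)).card : ℝ) = ∑ n ∈ I, (if Bd n v then (1 : ℝ) else 0) := by
    intro v
    rw [sum_boole]
  have h1 : ∑ v ∈ R, w v * ((I.filter (fun n => Bd n v)).card : ℝ) ≤ a + e * I.card := by
    have e1 : ∀ v, w v * ((I.filter (fun n => Bd n v)).card : ℝ) = ∑ n ∈ I, (if Bd n v then w v else 0) := by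
      intro v
      rw [hcnt, mul_sum]
      apply sum_congr rfl
      intro n _
      split_ifs <;> simp
    simp_rw [e1]
    rw [sum_comm]
    have e2 : ∀ n ∈ I, ∑ v ∈ R, (if Bd n v then w v else 0) ≤ e + (if n ∈ E then 1 else 0) := by
      intro n hn
      by_cases hnE : n ∈ E
      · rw [if_pos hnE]
        have e3 : ∑ v ∈ R, (if Bd n v then w v else 0) ≤ ∑ v ∈ R, w v := by
          apply sum_le_sum
          intro v _
          split_ifs
          · exact le_rfl
          · exact hw v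
        linarith
      · rw [if_neg hnE]
        linarith [h n hn hnE]
    refine (sum_le_sum e2).trans ?_
    rw [sum_add_distrib, sum_const, nsmul_eq_mul, sum_boole]
    have e4 : ((I.filter (fun n => n ∈ E)).card : ℝ) ≤ E.card := by
      exact_mod_cast card_le_card (fun n hn => (mem_filter.1 hn).2)
    linarith
  have h2 : (∑ v ∈ R, (if ((I.filter (fun n => Bd n v)).card : ℝ) ≤ T then 0 else w v)) * T ≤ ε * T := by
    refine le_trans ?_ (h1.trans hTa)
    rw [sum_mul]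
    apply sum_le_sum
    intro v _
    split_ifs with hv
    · rw [zero_mul]
      exact mul_nonneg (hw v) (Nat.cast_nonneg _)
    · exact mul_le_mul_of_nonneg_left (not_le.1 hv).le (hw v)
  exact le_of_mul_le_mul_right h2 hT

/-- the sum of the product weights -/
lemma prod_sum {r : ℕ} (b k : ℕ) (μ : Fin r → ℕ → ℝ) (hμ : ∀ j, ∑ v ∈ range (b ^ k), μ j v = 1) :
    ∑ v ∈ Fintype.piFinset (fun _ : Fin r => range (b ^ k)), ∏ j, μ j (v j) = 1 := by
  rw [← prod_univ_sum]
  exact prod_eq_one fun j _ => hμ j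

end Pool.Agent.U847.XJ
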