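import Pool.Agent.N625.PT.M

set_option autoImplicit false

/-! Classes of distributions of random integers given by digits: the Liouville function at the values of an arbitrary
polynomial times any number of linear factors whose constant terms are multiples of integers near independent random
integers. -/

namespace Pool.Agent.U847.LF
open Finset
open Pool.Agent.N625.PT (TCls t_corr)
open Pool.Agent.Y885 (laR fine_lam)
open Pool.Agent.H373R2.T7 (exI)

/-- the Liouville function on the integers, `λ(-m) = λ(m)` and `λ(0) = 0` -/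
def lam (m : ℤ) : ℤ := if m = 0 then 0 else (-1) ^ ArithmeticFunction.cardFactors m.natAbs

lemma lam_mul (a b : ℤ) : lam (a * b) = lam a * lam b := by
  unfold lam
  by_cases ha : a = 0
  · simp [ha]
  · by_cases hb : b = 0
    · simp [hb]
    · rw [if_neg ha, if_neg hb, if_neg (mul_ne_zero ha hb), Int.natAbs_mul,
        ArithmeticFunction.cardFactors_mul (Int.natAbs_ne_zero.2 ha) (Int.natAbs_ne_zero.2 hb), pow_add]

lemma lam_one : lam 1 = 1 := by
  unfold lam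
  rw [if_neg one_ne_zero]
  simp

lemma lam_prod {ι : Type} (I : Finset ι) (f : ι → ℤ) : lam (∏ i ∈ I, f i) = ∏ i ∈ I, lam (f i) := by
  classical
  induction I using Finset.induction_on with
  | empty => rw [prod_empty, prod_empty, lam_one]
  | insert a s ha ih => rw [prod_insert ha, prod_insert ha, lam_mul, ih]

lemma lam_norm (m : ℤ) : ‖(lam m : ℂ)‖ ≤ 1 := by
  unfold lam
  split_ifs
  · simp
  · push_cast
    rw [norm_pow, norm_neg, norm_one, one_pow]

lemma lam_exI (z : ℤ) (hz : 1 ≤ z) : exI (fun n => ((laR n : ℝ) : ℂ)) z = (lam z : ℂ) := by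
  unfold exI lam laR
  rw [if_pos hz, if_neg (by omega)]
  have : z.natAbs = z.toNat := by omega
  rw [this]
  push_cast
  rfl

/-- The sum of `λ(f(n) ∏_{i ∈ I} (α n + a i))` over the `n ≡ r mod m` with `u < n ≤ w`. -/
noncomputable def linSum {s : ℕ} (f : Polynomial ℤ) (α : ℕ) (a : Fin s → ℤ) (I : Finset (Fin s)) (m r u w : ℕ) : ℤ :=
  ∑ n ∈ (Ioc u w).filter (fun n : ℕ => n ≡ r [MOD m]), lam (f.eval (n : ℤ) * ∏ i ∈ I, (α * n + a i))

/-- the weights: the residue class and the polynomial -/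
noncomputable def gg (M K : ℕ) (f : Fin M → Polynomial ℤ) (x : Fin (M * (K * K))) (n : ℕ) : ℂ :=
  if n % (((finProdFinEquiv.symm (finProdFinEquiv.symm x).2).1 : ℕ) + 1) = ((finProdFinEquiv.symm (finProdFinEquiv.symm x).2).2 : ℕ)
    then (lam ((f (finProdFinEquiv.symm x).1).eval (n : ℤ)) : ℂ) else 0

lemma gg_norm (M K : ℕ) (f : Fin M → Polynomial ℤ) (x : Fin (M * (K * K))) (n : ℕ) : ‖gg M K f x n‖ ≤ 1 := by
  unfold gg
  split_ifs
  · exact lam_norm _
  · simp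

lemma gg_eq (M K : ℕ) (f : Fin M → Polynomial ℤ) (l : Fin M) (m r : Fin K) (n : ℕ) :
    gg M K f (finProdFinEquiv (l, finProdFinEquiv (m, r))) n =
      if n % ((m : ℕ) + 1) = (r : ℕ) then (lam ((f l).eval (n : ℤ)) : ℂ) else 0 := by
  unfold gg
  simp only [Equiv.symm_apply_apply]

lemma linSum_eq {s : ℕ} (M K : ℕ) (f : Fin M → Polynomial ℤ) (α : ℕ) (a : Fin s → ℤ) (ha : ∀ i, 0 ≤ a i) (hα : 1 ≤ α)
    (I : Finset (Fin s)) (l : Fin M) (m r u w : ℕ) (hm : 1 ≤ m) (hmK : m ≤ K) (huw : u ≤ w) :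
    ∃ x : Fin (M * (K * K)), (finProdFinEquiv.symm x).1 = l ∧ ((linSum (f l) α a I m r u w : ℤ) : ℂ) =
      ∑ n ∈ Icc 1 w, gg M K f x n * ∏ i ∈ I, exI (fun n => ((laR n : ℝ) : ℂ)) (((α * n : ℕ) : ℤ) + a i) -
      ∑ n ∈ Icc 1 u, gg M K f x n * ∏ i ∈ I, exI (fun n => ((laR n : ℝ) : ℂ)) (((α * n : ℕ) : ℤ) + a i) := by
  have hr : r % m < K := (Nat.mod_lt _ (by omega)).trans_le hmK
  refine ⟨finProdFinEquiv (l, finProdFinEquiv (⟨m - 1, by omega⟩, ⟨r % m, hr⟩)), by rw [Equiv.symm_apply_apply], ?_⟩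
  have h1 : Icc 1 w = Icc 1 u ∪ Ioc u w := by
    ext n
    rw [mem_union, mem_Icc, mem_Icc, mem_Ioc]
    omega
  have h2 : Disjoint (Icc 1 u) (Ioc u w) := by
    rw [disjoint_left]
    intro n hn hn'
    rw [mem_Icc] at hn
    rw [mem_Ioc] at hn'
    omega
  rw [h1, sum_union h2, add_sub_cancel_left]
  unfold linSum
  rw [sum_filter]
  push_cast
  apply sum_congr rfl
  intro n hn
  rw [mem_Ioc] at hn
  rw [gg_eq]
  simp only
  rw [show m - 1 + 1 = m by omega]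
  by_cases h : n ≡ r [MOD m]
  · have h' : n % m = r % m := h
    rw [if_pos h, if_pos h', lam_mul, lam_prod]
    push_cast
    congr 1
    apply prod_congr rfl
    intro i _
    have hz : 1 ≤ ((α : ℤ) * n + a i) := by
      have := ha i
      have h3 : 0 < (α : ℤ) * n := by
        have : 0 < α * n := Nat.mul_pos hα (by omega)
        exact_mod_cast this
      omega
    rw [← lam_exI _ hz]
  · have h' : ¬ n % m = r % m := h
    rw [if_neg h, if_neg h', zero_mul]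

open Classical in
/-- **Any number of linear factors.** -/
theorem t_lin {b : ℕ} (s : ℕ) (hb : 2 ≤ b) (κ : Fin s → ℤ) (C : Fin s → ℕ → (ℕ → ℝ) → Prop) (hC : ∀ i, TCls b (κ i) (C i))
    (B A T J W U : ℕ) : ∃ k₀ : ℕ, ∀ k : ℕ, k₀ ≤ k → ∀ p : Fin s → ℕ → ℝ, (∀ i, C i k (p i)) →
    ∀ c : Fin s → ℤ, (∀ i, |c i| ≤ B * (b : ℤ) ^ k) →
    ∀ M : ℕ, M ≤ k ^ T → ∀ (f : Fin M → Polynomial ℤ) (α : Fin M → ℕ), (∀ l, 1 ≤ α l) →
    ∑ v ∈ Fintype.piFinset (fun _ : Fin s => range (b ^ k)), (if ∀ q : Fin s → ℕ, (∀ i, |(q i : ℤ) - (c i + κ i * v i)| ≤ (k : ℤ) ^ W) →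
      ∀ h : Fin s → ℕ, (∀ i, 1 ≤ h i ∧ h i ≤ k ^ J) → ∀ l, ∀ I : Finset (Fin s), I.Nonempty → ∀ m r u w : ℕ, 1 ≤ m → m ≤ k ^ T →
        u ≤ w → α l * w ≤ k ^ A * b ^ k →
        |((linSum (f l) (α l) (fun i => (h i : ℤ) * q i) I m r u w : ℤ) : ℝ)| ≤ (b : ℝ) ^ k / (k : ℝ) ^ U
      then 0 else ∏ i, p i (v i)) ≤ 1 / (k : ℝ) ^ U := by
  obtain ⟨k₀, hmain⟩ := t_corr s hb κ C hC (fun _ => laR) (fun _ => fine_lam) B (A + 3 * T) J W (U + 1)
  refine ⟨k₀ + 2, fun k hk p hp c hc M hM f α hα => ?_⟩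
  have hk2 : (2 : ℝ) ≤ k := by exact_mod_cast (by omega : 2 ≤ k)
  have hk1 : (1 : ℝ) ≤ k := by linarith
  have hk0 : (0 : ℝ) < k := by linarith
  have hL : M * (k ^ T * k ^ T) ≤ k ^ (A + 3 * T) := by
    calc M * (k ^ T * k ^ T) ≤ k ^ T * (k ^ T * k ^ T) := Nat.mul_le_mul_right _ hM
      _ = k ^ (3 * T) := by ring
      _ ≤ k ^ (A + 3 * T) := Nat.pow_le_pow_right (by omega) (by omega)
  have h1 := hmain k (by omega) p hp c hc (M * (k ^ T * k ^ T)) hL (fun x => α (finProdFinEquiv.symm x).1)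
    (gg M (k ^ T) f) (fun x => hα _) (fun x n => (gg_norm M (k ^ T) f x n).trans (one_le_pow₀ hk1))
  have h0 : 1 / (k : ℝ) ^ (U + 1) ≤ 1 / (k : ℝ) ^ U :=
    one_div_le_one_div_of_le (by positivity) (pow_le_pow_right₀ hk1 (by omega))
  refine le_trans (sum_le_sum ?_) (h1.trans h0)
  intro v _
  have hpv : 0 ≤ ∏ i, p i (v i) := prod_nonneg fun i _ => (hC i).nonneg k (p i) (hp i) _
  split_ifs with h2 h3 h3
  · exact le_rfl
  · exact hpv
  · exfalso
    apply h2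
    intro q hq h hh l I hI m r u w hm1 hm2 huw hw
    obtain ⟨x, hx1, hx2⟩ := linSum_eq M (k ^ T) f (α l) (fun i => (h i : ℤ) * q i) (fun i => by positivity) (hα l) I l m r u w
      hm1 hm2 huw
    have hA : α l * w ≤ k ^ (A + 3 * T) * b ^ k := by
      refine hw.trans (Nat.mul_le_mul_right _ (Nat.pow_le_pow_right (by omega) (by omega)))
    have hA' : α l * u ≤ k ^ (A + 3 * T) * b ^ k := (Nat.mul_le_mul_left _ huw).trans hA
    have h4 := h3 (fun i => (q i : ℤ)) hq h hh x I hI w (by rw [hx1]; exact hA)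
    have h5 := h3 (fun i => (q i : ℤ)) hq h hh x I hI u (by rw [hx1]; exact hA')
    rw [hx1] at h4 h5
    have h6 : ‖((linSum (f l) (α l) (fun i => (h i : ℤ) * q i) I m r u w : ℤ) : ℂ)‖ ≤ (b : ℝ) ^ k / (k : ℝ) ^ (U + 1) +
        (b : ℝ) ^ k / (k : ℝ) ^ (U + 1) := by
      rw [hx2]
      exact (norm_sub_le _ _).trans (add_le_add h4 h5)
    rw [← Real.norm_eq_abs, ← Complex.norm_real, Complex.ofReal_intCast]
    refine h6.trans ?_
    rw [← add_div, pow_succ, ← mul_two, div_le_div_iff₀ (by positivity) (by positivity)]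
    have h7 : 0 ≤ (b : ℝ) ^ k * (k : ℝ) ^ U := by positivity
    nlinarith
  · exact le_rfl

end Pool.Agent.U847.LF
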