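import Pool.Agent.U847.MX
import Pool.Agent.TH893.CL.Twist

set_option autoImplicit false

/-! Products of `K` consecutive values of the Liouville function, where the length `K` is near a random integer. -/

namespace Pool.Agent.U847.LN
open Finset
open Pool.Agent.W93.LM (nice_liR)
open Pool.Agent.H373R2.T7 (exI liR)
open Pool.Agent.N625.DY (Cls)
open Pool.Agent.U847.MX (SmallF cls_nice)
open Pool.Agent.TH893.CL (Pk twist_le l_abs)

/-- The Liouville function along a progression. -/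
noncomputable def lr (a d n : ℕ) : ℝ := (-1 : ℝ) ^ ArithmeticFunction.cardFactors (a * n + d)

lemma lr_pm (a d n : ℕ) : lr a d n = 1 ∨ lr a d n = -1 := neg_one_pow_eq_or ℝ _

lemma exI_liR {m : ℤ} {k : ℕ} (hk : 1 ≤ k) (h : m = k) :
    exI liR m = (((-1 : ℝ) ^ ArithmeticFunction.cardFactors k : ℝ) : ℂ) := by
  subst h
  unfold exI liR
  rw [if_pos (by exact_mod_cast hk)]
  simp

lemma sum_Ioc_sub {E : Type*} [AddCommGroup E] (f : ℕ → E) {Y X : ℕ} (h : Y ≤ X) :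
    ∑ n ∈ Ioc Y X, f n = ∑ n ∈ Icc 1 X, f n - ∑ n ∈ Icc 1 Y, f n := by
  have h1 : ∀ Z : ℕ, Icc 1 Z = Ioc 0 Z := by intro Z; ext n; simp only [mem_Icc, mem_Ioc]; omega
  rw [h1, h1, ← sum_Ioc_consecutive f (Nat.zero_le Y) h]
  abel

/-- half of the trivial bound, for all the lengths near `y`, all the weights and all the intervals -/
def HalfNear (a d B U W N k : ℕ) {L : ℕ} (ξ : Fin L → ℕ → ℂ) (y : ℤ) : Prop :=
  ∀ K : ℕ, |(K : ℤ) - y| ≤ (k : ℤ) ^ W → ∀ l, ∀ Y X : ℕ, Y ≤ X → X ≤ B * N →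
    ‖∑ n ∈ Ioc Y X, ξ l n * (Pk (lr a d) K n : ℂ)‖ ≤ ((X : ℝ) - Y) / 2 + N / (k : ℝ) ^ U

/-- the four real weights of a complex one -/
noncomputable def wt (a d : ℕ) (ξ : ℕ → ℂ) (j : Fin 4) (n : ℕ) : ℝ :=
  (if j.1 < 2 then (ξ n).re else (ξ n).im) * (if j.1 % 2 = 0 then (ξ (n + 1)).re else (ξ (n + 1)).im) * lr a d n

lemma wt_le (a d : ℕ) {ξ : ℕ → ℂ} (hξ : ∀ n, ‖ξ n‖ ≤ 1) (j : Fin 4) (n : ℕ) : |wt a d ξ j n| ≤ 1 := by
  have hre : ∀ n, |(ξ n).re| ≤ 1 := fun n => (Complex.abs_re_le_norm _).trans (hξ n)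
  have him : ∀ n, |(ξ n).im| ≤ 1 := fun n => (Complex.abs_im_le_norm _).trans (hξ n)
  unfold wt
  rw [abs_mul, l_abs (lr_pm a d), mul_one, abs_mul]
  apply mul_le_one₀ _ (abs_nonneg _)
  · split_ifs
    · exact hre _
    · exact him _
  · split_ifs
    · exact hre _
    · exact him _

open Classical in
theorem cls_half {b a : ℕ} {κ : ℤ} {C : ℕ → (ℕ → ℝ) → Prop} (ha : 1 ≤ a) (hC : Cls b (a * κ) C) (B T W U : ℕ) :
    ∃ k₀ : ℕ, ∀ k : ℕ, k₀ ≤ k → ∀ p, C k p → ∀ c : ℤ, |c| ≤ B * (b : ℤ) ^ k → ∀ d : ℕ, d ≤ B * b ^ k →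
      ∀ L : ℕ, (L : ℝ) ≤ (k : ℝ) ^ T → ∀ ξ : Fin L → ℕ → ℂ, (∀ l n, ‖ξ l n‖ ≤ 1) →
      ∑ v ∈ range (b ^ k), (if HalfNear a d B U W (b ^ k) k ξ (c + κ * (v : ℕ)) then 0 else p v) ≤ 1 / (k : ℝ) ^ U := by
  have hb := hC.two
  obtain ⟨B', hB'⟩ : ∃ B' : ℕ, B' = a * B + B := ⟨_, rfl⟩
  obtain ⟨k₁, h1⟩ := cls_nice hC liR nice_liR B' (T + 2) (W + 1) (U + 3)
  obtain ⟨k₂, h2⟩ : ∃ k₂ : ℕ, ∀ k : ℕ, k₂ ≤ k → 2 * (k : ℝ) ^ U ≤ (b : ℝ) ^ k := by
    have h3 := (isLittleO_pow_const_const_pow_of_one_lt (R := ℝ) U (by norm_num : (1 : ℝ) < 2)).bound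
      (by norm_num : (0 : ℝ) < 1 / 2)
    obtain ⟨k₂, hk₂⟩ := Filter.eventually_atTop.1 h3
    refine ⟨k₂, fun k hk => ?_⟩
    have h4 := hk₂ k hk
    rw [Real.norm_of_nonneg (by positivity), Real.norm_of_nonneg (by positivity)] at h4
    have h5 : (2 : ℝ) ^ k ≤ (b : ℝ) ^ k := pow_le_pow_left₀ (by norm_num) (by exact_mod_cast hb) k
    linarith
  refine ⟨k₁ + k₂ + a + 2, fun k hk p hp c hc d hd L hL ξ hξ => ?_⟩
  have hk2 : 2 ≤ k := by omega
  have hkr : (2 : ℝ) ≤ k := by exact_mod_cast hk2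
  have hak : (a : ℤ) ≤ k := by exact_mod_cast (by omega : a ≤ k)
  have hdz : (d : ℤ) ≤ B * (b : ℤ) ^ k := by exact_mod_cast hd
  have hc' : |(a : ℤ) * c + d| ≤ B' * (b : ℤ) ^ k := by
    have e1 : |(a : ℤ) * c + d| ≤ |(a : ℤ) * c| + |(d : ℤ)| := abs_add_le _ _
    rw [abs_mul, abs_of_nonneg (Int.natCast_nonneg a), abs_of_nonneg (Int.natCast_nonneg d)] at e1
    have e2 : (a : ℤ) * |c| ≤ a * (B * (b : ℤ) ^ k) := mul_le_mul_of_nonneg_left hc (Int.natCast_nonneg a)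
    rw [hB']
    push_cast
    linarith
  have hL' : ((L * 4 : ℕ) : ℝ) ≤ (k : ℝ) ^ (T + 2) := by
    push_cast
    rw [pow_add]
    have : (4 : ℝ) ≤ (k : ℝ) ^ 2 := by nlinarith
    exact mul_le_mul hL this (by norm_num) (by positivity)
  have key := h1 k (by omega) p hp (a * c + d) hc' (L * 4) hL' (fun _ => a)
    (fun r n => ((wt a d (ξ (finProdFinEquiv.symm r).1) (finProdFinEquiv.symm r).2 n : ℝ) : ℂ))
    (fun _ => ha) (fun r n _ _ => by
      rw [Complex.norm_real, Real.norm_eq_abs]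
      exact (wt_le a d (hξ _) _ _).trans (one_le_pow₀ (by linarith)))
  refine le_trans (sum_le_sum fun v _ => ?_) (key.trans ?_)
  · have hp0 := hC.nonneg k p hp v
    by_cases hS : SmallF liR B' (U + 3) (W + 1) (b ^ k) k (fun _ : Fin (L * 4) => a)
        (fun r n => ((wt a d (ξ (finProdFinEquiv.symm r).1) (finProdFinEquiv.symm r).2 n : ℝ) : ℂ))
        (a * c + d + a * κ * (v : ℕ))
    · rw [if_pos hS, if_pos]
      intro K hK l Y X hYX hX
      have hbk : (0 : ℝ) < ((b ^ k : ℕ) : ℝ) := by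
        have : 0 < b ^ k := by positivity
        exact_mod_cast this
      -- the correlations
      have hcor : ∀ j : Fin 4, |∑ n ∈ Ioc Y X, wt a d (ξ l) j n * lr a d (n + K)| ≤
          2 * (((b ^ k : ℕ) : ℝ) / (k : ℝ) ^ (U + 3)) := by
        intro j
        have hnear : |((a * K + d : ℕ) : ℤ) - (a * c + d + a * κ * (v : ℕ))| ≤ (k : ℤ) ^ (W + 1) := by
          have e1 : ((a * K + d : ℕ) : ℤ) - (a * c + d + a * κ * (v : ℕ)) = a * ((K : ℤ) - (c + κ * (v : ℕ))) := by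
            push_cast
            ring
          rw [e1, abs_mul, abs_of_nonneg (Int.natCast_nonneg a), pow_succ, mul_comm]
          exact mul_le_mul hK hak (Int.natCast_nonneg a) (by positivity)
        have hZ : ∀ Z : ℕ, Z ≤ B * b ^ k →
            ‖∑ n ∈ Icc 1 Z, ((wt a d (ξ l) j n * lr a d (n + K) : ℝ) : ℂ)‖ ≤ ((b ^ k : ℕ) : ℝ) / (k : ℝ) ^ (U + 3) := by
          intro Z hZ
          have h3 := hS ((a * K + d : ℕ) : ℤ) hnear (finProdFinEquiv (l, j)) Z (by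
            rw [hB']
            have : a * Z ≤ a * (B * b ^ k) := Nat.mul_le_mul_left a hZ
            nlinarith [Nat.zero_le (B * b ^ k)])
          simp only [Equiv.symm_apply_apply] at h3
          refine le_trans (le_of_eq ?_) h3
          congr 1
          apply sum_congr rfl
          intro n hn
          rw [mem_Icc] at hn
          rw [exI_liR (k := a * (n + K) + d) (by nlinarith) (by push_cast; ring)]
          unfold lr
          push_cast
          ring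
        have e2 := sum_Ioc_sub (fun n => ((wt a d (ξ l) j n * lr a d (n + K) : ℝ) : ℂ)) hYX
        have e3 : ‖∑ n ∈ Ioc Y X, ((wt a d (ξ l) j n * lr a d (n + K) : ℝ) : ℂ)‖ ≤
            2 * (((b ^ k : ℕ) : ℝ) / (k : ℝ) ^ (U + 3)) := by
          rw [e2]
          refine (norm_sub_le _ _).trans ?_
          have := hZ X hX
          have := hZ Y (hYX.trans hX)
          linarith
        rw [← Complex.ofReal_sum, Complex.norm_real, Real.norm_eq_abs] at e3
        exact e3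
      have h4 := twist_le (lr_pm a d) K (hξ l) hYX (M := 2 * (((b ^ k : ℕ) : ℝ) / (k : ℝ) ^ (U + 3)))
        (by simpa [wt] using hcor 0) (by simpa [wt] using hcor 1) (by simpa [wt] using hcor 2) (by simpa [wt] using hcor 3)
      refine h4.trans ?_
      have h5 : 2 * (2 * (((b ^ k : ℕ) : ℝ) / (k : ℝ) ^ (U + 3))) + 1 ≤ ((b ^ k : ℕ) : ℝ) / (k : ℝ) ^ U := by
        have e1 := h2 k (by omega)
        have e2 : (1 : ℝ) ≤ ((b ^ k : ℕ) : ℝ) / (k : ℝ) ^ U / 2 := by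
          rw [le_div_iff₀ (by norm_num), le_div_iff₀ (by positivity)]
          push_cast
          linarith
        have e3 : 2 * (2 * (((b ^ k : ℕ) : ℝ) / (k : ℝ) ^ (U + 3))) ≤ ((b ^ k : ℕ) : ℝ) / (k : ℝ) ^ U / 2 := by
          rw [pow_add, ← div_div]
          have e4 : 0 ≤ ((b ^ k : ℕ) : ℝ) / (k : ℝ) ^ U := by positivity
          have e5 : (8 : ℝ) ≤ (k : ℝ) ^ 3 := by
            calc (8 : ℝ) = 2 ^ 3 := by norm_num
              _ ≤ (k : ℝ) ^ 3 := pow_le_pow_left₀ (by norm_num) hkr 3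
          have e6 : ((b ^ k : ℕ) : ℝ) / (k : ℝ) ^ U / (k : ℝ) ^ 3 ≤ ((b ^ k : ℕ) : ℝ) / (k : ℝ) ^ U / 8 :=
            div_le_div_of_nonneg_left e4 (by norm_num) e5
          linarith
        linarith
      linarith
    · rw [if_neg hS]
      split_ifs
      · exact hp0
      · exact le_rfl
  · rw [pow_add]
    apply one_div_le_one_div_of_le (by positivity)
    exact le_mul_of_one_le_right (by positivity) (one_le_pow₀ (by linarith))

end Pool.Agent.U847.LN
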