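import Pool.Agent.U847.XN

/-!
Library U847 (helper847): the admissible primes for the two kinds of Cunningham chains are equally many.
-/

set_option autoImplicit false

namespace Pool.Agent.U847.ChK

open Finset
open Pool.Agent.H373R2.T7 (lam_ap ev_L')
open Pool.Agent.N625.PT (pp_one pow_le_pow_digits)
open Pool.Agent.U847.XP (orb AdmC orb_sub)

/-- summation by parts -/
lemma abel_bound (w g : ℕ → ℝ) (Δ : ℝ) (N : ℕ) (hN : 2 ≤ N) (hg : ∀ n, 2 ≤ n → g (n + 1) ≤ g n) (hg0 : ∀ n, 2 ≤ n → 0 ≤ g n)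
    (hW : ∀ n, n ≤ N → |∑ i ∈ Icc 2 n, w i| ≤ Δ) : |∑ i ∈ Icc 2 N, w i * g i| ≤ Δ * g 2 := by
  have key : ∀ n, 2 ≤ n → n ≤ N → |∑ i ∈ Icc 2 n, w i * g i - (∑ i ∈ Icc 2 n, w i) * g n| ≤ Δ * (g 2 - g n) := by
    intro n hn
    induction n, hn using Nat.le_induction with
    | base => intro _; simp
    | succ n hn ih =>
      intro h1
      have h2 := ih (by omega)
      rw [sum_Icc_succ_top (by omega), sum_Icc_succ_top (by omega)]
      have h3 := hW n (by omega)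
      have h4 := hg n hn
      have e : ∑ i ∈ Icc 2 n, w i * g i + w (n + 1) * g (n + 1) - (∑ i ∈ Icc 2 n, w i + w (n + 1)) * g (n + 1) =
          (∑ i ∈ Icc 2 n, w i * g i - (∑ i ∈ Icc 2 n, w i) * g n) + (∑ i ∈ Icc 2 n, w i) * (g n - g (n + 1)) := by ring
      rw [e]
      have h5 : |(∑ i ∈ Icc 2 n, w i) * (g n - g (n + 1))| ≤ Δ * (g n - g (n + 1)) := by
        rw [abs_mul, abs_of_nonneg (by linarith : 0 ≤ g n - g (n + 1))]
        exact mul_le_mul_of_nonneg_right h3 (by linarith)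
      calc _ ≤ |∑ i ∈ Icc 2 n, w i * g i - (∑ i ∈ Icc 2 n, w i) * g n| + |(∑ i ∈ Icc 2 n, w i) * (g n - g (n + 1))| :=
            abs_add_le _ _
        _ ≤ Δ * (g 2 - g n) + Δ * (g n - g (n + 1)) := add_le_add h2 h5
        _ = _ := by ring
  have h1 := key N hN le_rfl
  have h2 : |(∑ i ∈ Icc 2 N, w i) * g N| ≤ Δ * g N := by
    rw [abs_mul, abs_of_nonneg (hg0 N hN)]
    exact mul_le_mul_of_nonneg_right (hW N le_rfl) (hg0 N hN)
  calc |∑ i ∈ Icc 2 N, w i * g i| = |(∑ i ∈ Icc 2 N, w i * g i - (∑ i ∈ Icc 2 N, w i) * g N) + (∑ i ∈ Icc 2 N, w i) * g N| := by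
        ring_nf
    _ ≤ _ := abs_add_le _ _
    _ ≤ Δ * (g 2 - g N) + Δ * g N := add_le_add h1 h2
    _ = _ := by ring

/-- the primes up to `X` in a class -/
def PA (X q c : ℕ) : Finset ℕ := (Icc 1 X).filter (fun p : ℕ => p.Prime ∧ p ≡ c [MOD q])

/-- the logarithm at the primes of a class -/
noncomputable def th (q c i : ℕ) : ℝ := if i.Prime ∧ i ≡ c [MOD q] then Real.log i else 0

lemma PA_card (X q c : ℕ) : ((PA X q c).card : ℝ) = ∑ i ∈ Icc 2 X, th q c i * (1 / Real.log i) := by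
  have e1 : PA X q c = (Icc 2 X).filter (fun p : ℕ => p.Prime ∧ p ≡ c [MOD q]) := by
    unfold PA
    ext p
    rw [mem_filter, mem_filter, mem_Icc, mem_Icc]
    constructor
    · rintro ⟨h1, h2⟩
      exact ⟨⟨h2.1.two_le, h1.2⟩, h2⟩
    · rintro ⟨h1, h2⟩
      exact ⟨⟨by omega, h1.2⟩, h2⟩
  rw [e1, card_filter]
  push_cast
  refine sum_congr rfl fun i hi => ?_
  rw [mem_Icc] at hi
  unfold th
  split_ifs with h
  · have : Real.log i ≠ 0 := (Real.log_pos (by exact_mod_cast (by omega : 1 < i))).ne'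
    field_simp
  · simp

lemma th_sum (X n q c : ℕ) (hX : 1 ≤ X) (hn : n ≤ X) :
    |∑ i ∈ (Icc 1 n).filter (fun i => i ≡ c [MOD q]), ArithmeticFunction.vonMangoldt i - ∑ i ∈ Icc 2 n, th q c i| ≤
      2 * √(X : ℝ) * Real.log X := by
  have e1 : ∑ i ∈ Icc 2 n, th q c i = ∑ i ∈ (Icc 1 n).filter (fun i => i ≡ c [MOD q]), (if i.Prime then Real.log i else 0) := by
    rw [sum_filter]
    have e2 : ∑ i ∈ Icc 1 n, (if i ≡ c [MOD q] then (if i.Prime then Real.log i else 0) else 0) =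
        ∑ i ∈ Icc 1 n, th q c i := by
      refine sum_congr rfl fun i _ => ?_
      unfold th
      by_cases h1 : i ≡ c [MOD q] <;> by_cases h2 : i.Prime <;> simp [h1, h2]
    rw [e2]
    refine sum_subset (fun i hi => ?_) (fun i hi1 hi2 => ?_)
    · rw [mem_Icc] at hi ⊢
      omega
    · rw [mem_Icc] at hi1 hi2
      have : i = 1 := by omega
      subst this
      unfold th
      rw [if_neg (fun h => Nat.not_prime_one h.1)]
  rw [e1, ← sum_sub_distrib]
  have e3 : ∀ i ∈ (Icc 1 n).filter (fun i => i ≡ c [MOD q]),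
      ArithmeticFunction.vonMangoldt i - (if i.Prime then Real.log i else 0) =
        (if i.Prime then (0 : ℝ) else ArithmeticFunction.vonMangoldt i) := by
    intro i _
    by_cases h : i.Prime
    · rw [if_pos h, if_pos h, ArithmeticFunction.vonMangoldt_apply_prime h, sub_self]
    · rw [if_neg h, if_neg h, sub_zero]
  rw [sum_congr rfl e3]
  have h0 : 0 ≤ ∑ i ∈ (Icc 1 n).filter (fun i => i ≡ c [MOD q]), (if i.Prime then (0 : ℝ) else ArithmeticFunction.vonMangoldt i) := by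
    refine sum_nonneg fun i _ => ?_
    split_ifs
    · exact le_rfl
    · exact ArithmeticFunction.vonMangoldt_nonneg
  rw [abs_of_nonneg h0]
  refine pp_one X hX ((Icc 1 n).filter (fun i => i ≡ c [MOD q])) (fun i => i) (fun a _ b _ h => h) ?_
  intro s hs
  rw [mem_filter, mem_Icc] at hs
  omega

/-- the primes are equally distributed in the classes -/
lemma class_diff (K U : ℕ) : ∃ X₀ : ℕ, ∀ X : ℕ, X₀ ≤ X → ∀ q : ℕ, 1 ≤ q → (q : ℝ) ≤ Real.log X ^ K → ∀ c c' : ℕ,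
    c.Coprime q → c'.Coprime q →
    |((PA X q c).card : ℝ) - (PA X q c').card| ≤ 2 * (2 * (X / Real.log X ^ U) + 4 * √(X : ℝ) * Real.log X) := by
  obtain ⟨N0, h0⟩ := lam_ap K U
  refine ⟨max N0 2, fun X hX q hq hqX c c' hc hc' => ?_⟩
  have hX2 : 2 ≤ X := by omega
  rw [PA_card, PA_card, ← sum_sub_distrib]
  have e1 : ∀ i ∈ Icc 2 X, th q c i * (1 / Real.log i) - th q c' i * (1 / Real.log i) =
      (th q c i - th q c' i) * (1 / Real.log i) := fun i _ => by ring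
  rw [sum_congr rfl e1]
  set Δ : ℝ := 2 * (X / Real.log X ^ U) + 4 * √(X : ℝ) * Real.log X with hΔ
  have hW : ∀ n, n ≤ X → |∑ i ∈ Icc 2 n, (th q c i - th q c' i)| ≤ Δ := by
    intro n hn
    rw [sum_sub_distrib]
    have g1 := h0 X (by omega) q hq hqX c n hn
    have g2 := h0 X (by omega) q hq hqX c' n hn
    have g3 := th_sum X n q c (by omega) hn
    have g4 := th_sum X n q c' (by omega) hn
    rw [if_pos hc] at g1
    rw [if_pos hc'] at g2
    rw [abs_le] at g1 g2 g3 g4 ⊢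
    rw [hΔ]
    constructor <;> linarith [g1.1, g1.2, g2.1, g2.2, g3.1, g3.2, g4.1, g4.2]
  have hg : ∀ n : ℕ, 2 ≤ n → 1 / Real.log ((n + 1 : ℕ) : ℝ) ≤ 1 / Real.log (n : ℝ) := by
    intro n hn
    have h1 : (1 : ℝ) < n := by exact_mod_cast (by omega : 1 < n)
    exact one_div_le_one_div_of_le (Real.log_pos h1) (Real.log_le_log (by linarith) (by push_cast; linarith))
  have hg0 : ∀ n : ℕ, 2 ≤ n → 0 ≤ 1 / Real.log (n : ℝ) := by
    intro n hn
    have h1 : (1 : ℝ) < n := by exact_mod_cast (by omega : 1 < n)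
    exact (one_div_pos.mpr (Real.log_pos h1)).le
  have h1 := abel_bound (fun i => th q c i - th q c' i) (fun i => 1 / Real.log (i : ℝ)) Δ X hX2 hg hg0 hW
  refine h1.trans ?_
  have hΔ0 : 0 ≤ Δ := (abs_nonneg _).trans (hW 0 (by omega))
  have h2 : 1 / Real.log ((2 : ℕ) : ℝ) ≤ 2 := by
    have := Real.log_two_gt_d9
    rw [div_le_iff₀ (by push_cast; linarith)]
    push_cast
    linarith
  calc Δ * (1 / Real.log ((2 : ℕ) : ℝ)) ≤ Δ * 2 := mul_le_mul_of_nonneg_left h2 hΔ0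
    _ = 2 * Δ := by ring

/-- the admissible classes -/
def Cl (β : ℤ) (D s c : ℕ) : Prop := ∀ j : ℕ, 1 ≤ j → j ≤ s → IsCoprime (orb 2 β (fun _ => 0) (c : ℤ) j) (D : ℤ)

lemma orb_neg (β p : ℤ) (j : ℕ) : orb 2 (-β) (fun _ => 0) (-p) j = - orb 2 β (fun _ => 0) p j := by
  induction j with
  | zero => rfl
  | succ j ih =>
    have e1 : orb 2 (-β) (fun _ => 0) (-p) (j + 1) = ((2 : ℕ) : ℤ) * orb 2 (-β) (fun _ => 0) (-p) j + -β + 0 := rfl
    have e2 : orb 2 β (fun _ => 0) p (j + 1) = ((2 : ℕ) : ℤ) * orb 2 β (fun _ => 0) p j + β + 0 := rfl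
    rw [e1, e2, ih]
    ring

lemma cop_congr (β : ℤ) (D : ℕ) (p p' : ℤ) (h : (D : ℤ) ∣ p - p') (j : ℕ) :
    IsCoprime (orb 2 β (fun _ => 0) p j) (D : ℤ) ↔ IsCoprime (orb 2 β (fun _ => 0) p' j) (D : ℤ) := by
  have h1 := orb_sub 2 β (fun _ => 0) p p' j
  obtain ⟨m, hm⟩ := h
  rw [hm] at h1
  have h2 : orb 2 β (fun _ => 0) p j = orb 2 β (fun _ => 0) p' j + (D : ℤ) * (((2 : ℕ) : ℤ) ^ j * m) := by linarith
  rw [h2]
  exact IsCoprime.add_mul_left_left_iff

open Classical in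
/-- the admissible primes prime to `D` and the classes -/
lemma adm_classes (β : ℤ) (D s X : ℕ) (hD : 1 ≤ D) :
    |((AdmC 2 β D s X).card : ℝ) - ∑ c ∈ (range D).filter (fun c => c.Coprime D ∧ Cl β D s c), ((PA X D c).card : ℝ)| ≤ D := by
  set A := AdmC 2 β D s X with hA
  set A1 := A.filter (fun p => p.Coprime D) with hA1
  set A2 := A.filter (fun p => ¬ p.Coprime D) with hA2
  have h1 : A1.card + A2.card = A.card := by
    rw [hA1, hA2]
    exact card_filter_add_card_filter_not _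
  have h2 : A2.card ≤ D := by
    have : A2 ⊆ Icc 1 D := by
      intro p hp
      rw [hA2, mem_filter, hA] at hp
      unfold AdmC at hp
      rw [mem_filter, mem_Icc] at hp
      have hd : p ∣ D := by
        by_contra hcon
        exact hp.2 ((Nat.Prime.coprime_iff_not_dvd hp.1.2.1).mpr hcon)
      rw [mem_Icc]
      exact ⟨hp.1.1.1, Nat.le_of_dvd hD hd⟩
    refine (card_le_card this).trans ?_
    rw [Nat.card_Icc]
    omega
  have h3 : A1.card = ∑ c ∈ (range D).filter (fun c => c.Coprime D ∧ Cl β D s c), (PA X D c).card := by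
    have hmap : ∀ p ∈ A1, p % D ∈ (range D).filter (fun c => c.Coprime D ∧ Cl β D s c) := by
      intro p hp
      rw [hA1, mem_filter, hA] at hp
      unfold AdmC at hp
      rw [mem_filter] at hp
      rw [mem_filter, mem_range]
      refine ⟨Nat.mod_lt _ hD, ?_, ?_⟩
      · exact (Nat.ModEq.gcd_eq (Nat.mod_modEq p D)).trans hp.2
      · intro j hj1 hj2
        refine (cop_congr β D _ _ ?_ j).mp (hp.1.2.2 j hj1 hj2)
        refine ⟨(p / D : ℕ), ?_⟩
        have := Nat.div_add_mod p D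
        have h4 : ((D * (p / D) + p % D : ℕ) : ℤ) = p := by exact_mod_cast this
        push_cast at h4 ⊢
        linarith
    rw [card_eq_sum_card_fiberwise hmap]
    refine sum_congr rfl fun c hc => ?_
    rw [mem_filter, mem_range] at hc
    congr 1
    ext p
    rw [mem_filter, hA1, mem_filter, hA]
    unfold AdmC PA
    rw [mem_filter, mem_filter]
    constructor
    · rintro ⟨⟨⟨g1, g2, g3⟩, g4⟩, g5⟩
      refine ⟨g1, g2, ?_⟩
      change p % D = c % D
      rw [g5, Nat.mod_eq_of_lt hc.1]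
    · rintro ⟨g1, g2, g3⟩
      have g5 : p % D = c := by
        have : p % D = c % D := g3
        rw [this, Nat.mod_eq_of_lt hc.1]
      refine ⟨⟨⟨g1, g2, ?_⟩, ?_⟩, g5⟩
      · intro j hj1 hj2
        refine (cop_congr β D _ _ ?_ j).mpr (hc.2.2 j hj1 hj2)
        exact (Nat.modEq_iff_dvd.mp g3.symm)
      · exact (Nat.ModEq.gcd_eq g3).trans hc.2.1
  have h4 : ((A.card : ℕ) : ℝ) = A1.card + A2.card := by exact_mod_cast h1.symm
  have h5 : ((A1.card : ℕ) : ℝ) = ∑ c ∈ (range D).filter (fun c => c.Coprime D ∧ Cl β D s c), ((PA X D c).card : ℝ) := by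
    rw [h3]
    push_cast
    rfl
  rw [h4, ← h5, add_sub_cancel_left, abs_of_nonneg (Nat.cast_nonneg _)]
  exact_mod_cast h2

/-- the class of `-c` -/
def ng (D c : ℕ) : ℕ := (D - c) % D

lemma ng_dvd (D c : ℕ) (hc : c < D) : (D : ℤ) ∣ ((ng D c : ℕ) : ℤ) - (-(c : ℤ)) := by
  unfold ng
  have h1 : ((D - c : ℕ) : ℤ) = D - c := by
    rw [Nat.cast_sub hc.le]
  have h2 := Nat.div_add_mod (D - c) D
  have h3 : ((D * ((D - c) / D) + (D - c) % D : ℕ) : ℤ) = ((D - c : ℕ) : ℤ) := by exact_mod_cast h2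
  refine ⟨1 - ((D - c) / D : ℕ), ?_⟩
  rw [h1] at h3
  push_cast at h3 ⊢
  linarith

lemma ng_lt (D c : ℕ) (hD : 1 ≤ D) : ng D c < D := Nat.mod_lt _ hD

lemma ng_ng (D c : ℕ) (hD : 1 ≤ D) (hc : c < D) : ng D (ng D c) = c := by
  unfold ng
  rcases Nat.eq_zero_or_pos c with rfl | h
  · simp
  · rw [Nat.mod_eq_of_lt (by omega : D - c < D)]
    rw [Nat.sub_sub_self hc.le, Nat.mod_eq_of_lt hc]

lemma ng_cop (D c : ℕ) (hD : 1 ≤ D) (hc : c < D) (h : c.Coprime D) : (ng D c).Coprime D := by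
  unfold ng
  have h1 : Nat.gcd ((D - c) % D) D = Nat.gcd (D - c) D := Nat.ModEq.gcd_eq (Nat.mod_modEq _ _)
  rw [Nat.Coprime, h1]
  exact (Nat.coprime_comm.mp ((Nat.coprime_self_sub_right hc.le).mpr h.symm))

lemma ng_cl (β : ℤ) (D s c : ℕ) (hc : c < D) (h : Cl β D s c) : Cl (-β) D s (ng D c) := by
  intro j hj1 hj2
  refine (cop_congr (-β) D _ _ (ng_dvd D c hc) j).mpr ?_
  rw [orb_neg]
  exact (h j hj1 hj2).neg_left

open Classical in
lemma class_bij (β : ℤ) (D s X : ℕ) (hD : 1 ≤ D) :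
    ∑ c ∈ (range D).filter (fun c => c.Coprime D ∧ Cl (-β) D s c), ((PA X D c).card : ℝ) =
      ∑ c ∈ (range D).filter (fun c => c.Coprime D ∧ Cl β D s c), ((PA X D (ng D c)).card : ℝ) := by
  symm
  refine sum_bij' (fun c _ => ng D c) (fun c _ => ng D c) ?_ ?_ ?_ ?_ ?_
  · intro c hc
    rw [mem_filter, mem_range] at hc ⊢
    exact ⟨ng_lt D c hD, ng_cop D c hD hc.1 hc.2.1, ng_cl β D s c hc.1 hc.2.2⟩
  · intro c hc
    rw [mem_filter, mem_range] at hc ⊢
    refine ⟨ng_lt D c hD, ng_cop D c hD hc.1 hc.2.1, ?_⟩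
    have := ng_cl (-β) D s c hc.1 hc.2.2
    rwa [neg_neg] at this
  · intro c hc
    rw [mem_filter, mem_range] at hc
    exact ng_ng D c hD hc.1
  · intro c hc
    rw [mem_filter, mem_range] at hc
    exact ng_ng D c hD hc.1
  · intro c hc
    rfl

/-- the two kinds have equally many admissible primes -/
lemma adm_diff (K U : ℕ) : ∃ X₀ : ℕ, ∀ X : ℕ, X₀ ≤ X → ∀ D : ℕ, 1 ≤ D → (D : ℝ) ≤ Real.log X ^ K → ∀ (β : ℤ) (s : ℕ),
    |((AdmC 2 β D s X).card : ℝ) - (AdmC 2 (-β) D s X).card| ≤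
      D * (2 + 2 * (2 * (X / Real.log X ^ U) + 4 * √(X : ℝ) * Real.log X)) := by
  classical
  obtain ⟨X₀, h0⟩ := class_diff K U
  refine ⟨X₀, fun X hX D hD hDX β s => ?_⟩
  have h1 := adm_classes β D s X hD
  have h2 := adm_classes (-β) D s X hD
  rw [class_bij β D s X hD] at h2
  set R := (range D).filter (fun c => c.Coprime D ∧ Cl β D s c) with hR
  set Δ : ℝ := 2 * (2 * (X / Real.log X ^ U) + 4 * √(X : ℝ) * Real.log X) with hΔ
  have h3 : |∑ c ∈ R, ((PA X D c).card : ℝ) - ∑ c ∈ R, ((PA X D (ng D c)).card : ℝ)| ≤ D * Δ := by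
    rw [← sum_sub_distrib]
    have h5 : ∀ c ∈ R, |((PA X D c).card : ℝ) - (PA X D (ng D c)).card| ≤ Δ := by
      intro c hc
      rw [hR, mem_filter, mem_range] at hc
      exact h0 X hX D hD hDX c (ng D c) hc.2.1 (ng_cop D c hD hc.1 hc.2.1)
    have hΔ0 : 0 ≤ Δ := by
      rw [hΔ]
      have := Real.log_natCast_nonneg X
      positivity
    calc |∑ c ∈ R, (((PA X D c).card : ℝ) - (PA X D (ng D c)).card)| ≤ ∑ c ∈ R, |((PA X D c).card : ℝ) - (PA X D (ng D c)).card| :=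
          abs_sum_le_sum_abs _ _
      _ ≤ ∑ c ∈ R, Δ := sum_le_sum h5
      _ = R.card * Δ := by rw [sum_const, nsmul_eq_mul]
      _ ≤ D * Δ := by
          refine mul_le_mul_of_nonneg_right ?_ hΔ0
          have : R.card ≤ D := (card_filter_le _ _).trans (by rw [card_range])
          exact_mod_cast this
  rw [abs_le] at h1 h2 h3 ⊢
  constructor <;> nlinarith [h1.1, h1.2, h2.1, h2.2, h3.1, h3.2]

/-- in terms of the number of digits -/
lemma adm_near (b C E W : ℕ) (hb : 2 ≤ b) : ∃ k₀ : ℕ, ∀ k : ℕ, k₀ ≤ k → ∀ X : ℕ, b ^ k ≤ X * k ^ C → X ≤ b ^ k * k ^ C →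
    ∀ D : ℕ, 1 ≤ D → D ≤ k ^ E → ∀ (β : ℤ) (s : ℕ),
    |((AdmC 2 β D s X).card : ℝ) - (AdmC 2 (-β) D s X).card| * (k : ℝ) ^ W ≤ X := by
  set U : ℕ := E + W + 1 with hU
  obtain ⟨X₀, h0⟩ := adm_diff (2 * E) U
  obtain ⟨k1, h1⟩ := pow_le_pow_digits b hb (C + 2 * (E + W + 3) + X₀ + 1)
  obtain ⟨m, hm⟩ := exists_nat_ge (64 * (2 : ℝ) ^ U + 64 * (Real.log b + C))
  -- `log X ≥ k / 2`
  obtain ⟨k2, h2⟩ := pow_le_pow_digits 2 le_rfl (4 * C + 4)
  refine ⟨max (max k1 k2) (max (m + 4) (X₀ + 4)), fun k hk X hX1 hX2 D hD hDk β s => ?_⟩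
  have hk4 : 4 ≤ k := by omega
  have hkX : X₀ + 4 ≤ k := by omega
  have hkm : m + 4 ≤ k := by omega
  have hkr : (4 : ℝ) ≤ k := by exact_mod_cast hk4
  have hk0 : (0 : ℝ) < k := by linarith
  have hk1 : (1 : ℝ) ≤ k := by linarith
  have b1 := h1 k (by omega)
  have hbr : (2 : ℝ) ≤ b := by exact_mod_cast hb
  have hX3 : k ^ (2 * (E + W + 3) + X₀ + 1) ≤ X := by
    have e : k ^ (C + 2 * (E + W + 3) + X₀ + 1) = k ^ (2 * (E + W + 3) + X₀ + 1) * k ^ C := by
      rw [← pow_add]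
      congr 1
      omega
    have h3 : k ^ (2 * (E + W + 3) + X₀ + 1) * k ^ C ≤ X * k ^ C := by
      rw [← e]
      exact b1.trans hX1
    exact Nat.le_of_mul_le_mul_right h3 (pow_pos (by omega) C)
  have hXbig : X₀ ≤ X := by
    have h3 : k ^ 1 ≤ k ^ (2 * (E + W + 3) + X₀ + 1) := Nat.pow_le_pow_right (by omega) (by omega)
    rw [pow_one] at h3
    omega
  have hX0 : 0 < X := lt_of_lt_of_le (pow_pos (by omega) _) hX3
  have hXr : (0 : ℝ) < X := by exact_mod_cast hX0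
  -- upper bound for the logarithm
  have hL2 : Real.log X ≤ k * (Real.log b + C) := by
    have h3 : (X : ℝ) ≤ (b : ℝ) ^ k * (k : ℝ) ^ C := by exact_mod_cast hX2
    calc Real.log X ≤ Real.log ((b : ℝ) ^ k * (k : ℝ) ^ C) := Real.log_le_log hXr h3
      _ = k * Real.log b + C * Real.log k := by
          rw [Real.log_mul (by positivity) (by positivity), Real.log_pow, Real.log_pow]
      _ ≤ k * (Real.log b + C) := by
          have h4 : Real.log k ≤ k := (Real.log_le_sub_one_of_pos hk0).trans (by linarith)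
          have h5 : (C : ℝ) * Real.log k ≤ C * k := mul_le_mul_of_nonneg_left h4 (Nat.cast_nonneg _)
          linarith
  -- lower bound for the logarithm
  have hL1 : (k : ℝ) / 2 ≤ Real.log X := by
    have h3 : (b : ℝ) ^ k ≤ X * (k : ℝ) ^ C := by exact_mod_cast hX1
    have h4 : (k : ℝ) * Real.log b ≤ Real.log X + C * Real.log k := by
      have := Real.log_le_log (by positivity) h3
      rw [Real.log_mul hXr.ne' (by positivity), Real.log_pow, Real.log_pow] at this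
      exact this
    have h5 : Real.log 2 ≤ Real.log b := Real.log_le_log (by norm_num) hbr
    have h6 := Real.log_two_gt_d9
    have h7 := h2 k (by omega)
    have h8 : (4 * C + 4 : ℕ) * Real.log k ≤ k * Real.log 2 := by
      have h9 : (k : ℝ) ^ (4 * C + 4) ≤ 2 ^ k := by exact_mod_cast h7
      have := Real.log_le_log (by positivity) h9
      rwa [Real.log_pow, Real.log_pow] at this
    push_cast at h8
    have h10 : 0 ≤ Real.log k := Real.log_nonneg hk1
    have h11 : (k : ℝ) * Real.log 2 ≤ k * Real.log b := mul_le_mul_of_nonneg_left h5 hk0.le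
    nlinarith
  have hDlog : (D : ℝ) ≤ Real.log X ^ (2 * E) := by
    have h3 : (D : ℝ) ≤ (k : ℝ) ^ E := by exact_mod_cast hDk
    refine h3.trans ?_
    rw [pow_mul]
    refine pow_le_pow_left₀ hk0.le ?_ E
    have : (k : ℝ) ≤ (k / 2) ^ 2 := by nlinarith
    exact this.trans (pow_le_pow_left₀ (by linarith) hL1 2)
  have h3 := h0 X hXbig D hD hDlog β s
  have hLpos : 0 < Real.log X := by linarith
  have hDr : (D : ℝ) ≤ (k : ℝ) ^ E := by exact_mod_cast hDk
  have hkU : (k : ℝ) ^ U ≤ 2 ^ U * Real.log X ^ U := by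
    rw [← mul_pow]
    exact pow_le_pow_left₀ hk0.le (by linarith) U
  have hmk : 64 * (2 : ℝ) ^ U + 64 * (Real.log b + C) ≤ k := hm.trans (by exact_mod_cast (by omega : m ≤ k))
  have hlb : 0 ≤ Real.log b := Real.log_nonneg (by linarith)
  have hC0 : (0 : ℝ) ≤ C := Nat.cast_nonneg _
  -- the three parts
  have hXk : (k : ℝ) ^ (2 * (E + W + 3)) ≤ X := by
    have h4 : k ^ (2 * (E + W + 3)) ≤ X := (Nat.pow_le_pow_right (by omega) (by omega)).trans hX3
    exact_mod_cast h4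
  have hsq : (k : ℝ) ^ (E + W + 3) ≤ √(X : ℝ) := by
    apply Real.le_sqrt_of_sq_le
    rw [← pow_mul]
    refine le_trans (le_of_eq ?_) hXk
    congr 1
    ring
  have hs0 : 0 < √(X : ℝ) := Real.sqrt_pos.mpr hXr
  have hss : √(X : ℝ) * √(X : ℝ) = X := Real.mul_self_sqrt hXr.le
  have p1 : (k : ℝ) ^ (E + W) * 2 ≤ X / 4 := by
    have h4 : (k : ℝ) ^ (E + W) * k * k * k ≤ √(X : ℝ) := by
      have : (k : ℝ) ^ (E + W + 3) = (k : ℝ) ^ (E + W) * k * k * k := by ring
      rw [← this]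
      exact hsq
    have h5 : (1 : ℝ) ≤ √(X : ℝ) := by
      refine le_trans ?_ hsq
      exact one_le_pow₀ hk1
    have h6 : √(X : ℝ) ≤ X := by nlinarith
    have h7 : (0 : ℝ) < (k : ℝ) ^ (E + W) := by positivity
    have h8 : (k : ℝ) ^ (E + W) * 64 ≤ (k : ℝ) ^ (E + W) * k * k * k := by
      have : (64 : ℝ) ≤ k * k * k := by nlinarith
      nlinarith
    linarith
  have p2 : (k : ℝ) ^ (E + W) * (4 * (X / Real.log X ^ U)) ≤ X / 4 := by
    have h4 : (0 : ℝ) < Real.log X ^ U := pow_pos hLpos U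
    have h5 : (k : ℝ) ^ (E + W) * k = (k : ℝ) ^ U := by
      rw [hU, pow_succ]
    have h6 : (k : ℝ) ^ (E + W) * 16 ≤ Real.log X ^ U := by
      have h7 : (k : ℝ) ^ (E + W) * (64 * (2 : ℝ) ^ U) ≤ (k : ℝ) ^ (E + W) * k :=
        mul_le_mul_of_nonneg_left (by nlinarith) (by positivity)
      rw [h5] at h7
      have h8 := h7.trans hkU
      have h9 : (0 : ℝ) < 2 ^ U := by positivity
      have h10 : (k : ℝ) ^ (E + W) * 64 ≤ Real.log X ^ U := by
        refine le_of_mul_le_mul_left ?_ h9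
        linarith
      have h11 : (0 : ℝ) < (k : ℝ) ^ (E + W) := by positivity
      linarith
    rw [← mul_div_assoc, ← mul_div_assoc, div_le_div_iff₀ h4 (by norm_num)]
    nlinarith
  have p3 : (k : ℝ) ^ (E + W) * (8 * √(X : ℝ) * Real.log X) ≤ X / 4 := by
    have h4 : (k : ℝ) ^ (E + W) * (32 * Real.log X) ≤ √(X : ℝ) := by
      refine le_trans ?_ hsq
      have h5 : 32 * Real.log X ≤ k * k := by
        calc 32 * Real.log X ≤ 32 * (k * (Real.log b + C)) := by linarith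
          _ ≤ k * k := by nlinarith [pow_pos (by norm_num : (0 : ℝ) < 2) U]
      calc (k : ℝ) ^ (E + W) * (32 * Real.log X) ≤ (k : ℝ) ^ (E + W) * (k * k) :=
            mul_le_mul_of_nonneg_left h5 (by positivity)
        _ ≤ (k : ℝ) ^ (E + W) * (k * k) * k := by
            have : (0 : ℝ) ≤ (k : ℝ) ^ (E + W) * (k * k) := by positivity
            nlinarith
        _ = _ := by ring
    calc (k : ℝ) ^ (E + W) * (8 * √(X : ℝ) * Real.log X) = (k : ℝ) ^ (E + W) * (32 * Real.log X) * √(X : ℝ) / 4 := by ring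
      _ ≤ √(X : ℝ) * √(X : ℝ) / 4 := by
          have := mul_le_mul_of_nonneg_right h4 hs0.le
          linarith
      _ = X / 4 := by rw [hss]
  have hT0 : 0 ≤ 2 + 2 * (2 * ((X : ℝ) / Real.log X ^ U) + 4 * √(X : ℝ) * Real.log X) := by positivity
  calc |((AdmC 2 β D s X).card : ℝ) - (AdmC 2 (-β) D s X).card| * (k : ℝ) ^ W
      ≤ ((k : ℝ) ^ E * (2 + 2 * (2 * (X / Real.log X ^ U) + 4 * √(X : ℝ) * Real.log X))) * (k : ℝ) ^ W :=
        mul_le_mul_of_nonneg_right (h3.trans (mul_le_mul_of_nonneg_right hDr hT0)) (by positivity)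
    _ = (k : ℝ) ^ (E + W) * 2 + (k : ℝ) ^ (E + W) * (4 * (X / Real.log X ^ U)) +
        (k : ℝ) ^ (E + W) * (8 * √(X : ℝ) * Real.log X) := by
        rw [pow_add]
        ring
    _ ≤ X / 4 + X / 4 + X / 4 := add_le_add (add_le_add p1 p2) p3
    _ ≤ X := by linarith

end Pool.Agent.U847.ChK
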