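import Pool.Agent.U847.ChK

/-!
Library U847 (helper847): primes of a progression in the windows of Q1 of MP_39a890_nt.
-/

set_option autoImplicit false

namespace Pool.Agent.U847.ChW

open Finset
open Pool.Agent.H373R2.T7 (lam_ap ev_L')
open Pool.Agent.N625.PT (pp_one pow_le_pow_digits)
open Pool.Agent.U847.XP (orb AdmC orb_sub)
open Pool.Agent.U847.ChK

/-- bounds in terms of the number of digits -/
lemma params (b C E W X₀ : ℕ) (hb : 2 ≤ b) : ∃ k₀ : ℕ, ∀ k : ℕ, k₀ ≤ k → ∀ X : ℕ, b ^ k ≤ X * k ^ C → X ≤ b ^ k * k ^ C →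
    X₀ ≤ X ∧ 4 ≤ X ∧ (k : ℝ) / 2 ≤ Real.log X ∧ Real.log X ≤ k ^ 2 / 64 ∧
    (∀ D : ℕ, D ≤ k ^ E → (D : ℝ) ≤ Real.log X ^ (2 * E)) ∧
    (k : ℝ) ^ (E + W) * (2 * (2 * (X / Real.log X ^ (E + W + 1)) + 4 * √(X : ℝ) * Real.log X)) ≤ X / 2 := by
  set U : ℕ := E + W + 1 with hU
  obtain ⟨k1, h1⟩ := pow_le_pow_digits b hb (C + 2 * (E + W + 3) + X₀ + 1)
  obtain ⟨m, hm⟩ := exists_nat_ge (64 * (2 : ℝ) ^ U + 64 * (Real.log b + C))
  -- `log X ≥ k / 2`
  obtain ⟨k2, h2⟩ := pow_le_pow_digits 2 le_rfl (4 * C + 4)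
  refine ⟨max (max k1 k2) (max (m + 4) (X₀ + 4)), fun k hk X hX1 hX2 => ?_⟩
  have hk4 : 4 ≤ k := by omega
  have hkX : X₀ + 4 ≤ k := by omega
  have hkm : m + 4 ≤ k := by omega
  have hkr : (4 : ℝ) ≤ k := by exact_mod_cast hk4
  have hk0 : (0 : ℝ) < k := by linarith
  have hk1 : (1 : ℝ) ≤ k := by linarith
  have b1 := h1 k (by omega)
  have hbr : (2 : ℝ) ≤ b := by exact_mod_cast hb
  have hX3 : k ^ (2 * (E + W + 3) + X₀ + 1) ≤ X := by
    have e : k ^ (C + 2 * (E + W + 3) + X₀ + 1) = k ^ (2 * (E + W + 3) + X₀ + 1) * k ^ C := by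
      rw [← pow_add]
      congr 1
      omega
    have h3 : k ^ (2 * (E + W + 3) + X₀ + 1) * k ^ C ≤ X * k ^ C := by
      rw [← e]
      exact b1.trans hX1
    exact Nat.le_of_mul_le_mul_right h3 (pow_pos (by omega) C)
  have hXbig : X₀ ≤ X := by
    have h3 : k ^ 1 ≤ k ^ (2 * (E + W + 3) + X₀ + 1) := Nat.pow_le_pow_right (by omega) (by omega)
    rw [pow_one] at h3
    omega
  have hX0 : 0 < X := lt_of_lt_of_le (pow_pos (by omega) _) hX3
  have hXr : (0 : ℝ) < X := by exact_mod_cast hX0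
  -- upper bound for the logarithm
  have hL2 : Real.log X ≤ k * (Real.log b + C) := by
    have h3 : (X : ℝ) ≤ (b : ℝ) ^ k * (k : ℝ) ^ C := by exact_mod_cast hX2
    calc Real.log X ≤ Real.log ((b : ℝ) ^ k * (k : ℝ) ^ C) := Real.log_le_log hXr h3
      _ = k * Real.log b + C * Real.log k := by
          rw [Real.log_mul (by positivity) (by positivity), Real.log_pow, Real.log_pow]
      _ ≤ k * (Real.log b + C) := by
          have h4 : Real.log k ≤ k := (Real.log_le_sub_one_of_pos hk0).trans (by linarith)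
          have h5 : (C : ℝ) * Real.log k ≤ C * k := mul_le_mul_of_nonneg_left h4 (Nat.cast_nonneg _)
          linarith
  -- lower bound for the logarithm
  have hL1 : (k : ℝ) / 2 ≤ Real.log X := by
    have h3 : (b : ℝ) ^ k ≤ X * (k : ℝ) ^ C := by exact_mod_cast hX1
    have h4 : (k : ℝ) * Real.log b ≤ Real.log X + C * Real.log k := by
      have := Real.log_le_log (by positivity) h3
      rw [Real.log_mul hXr.ne' (by positivity), Real.log_pow, Real.log_pow] at this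
      exact this
    have h5 : Real.log 2 ≤ Real.log b := Real.log_le_log (by norm_num) hbr
    have h6 := Real.log_two_gt_d9
    have h7 := h2 k (by omega)
    have h8 : (4 * C + 4 : ℕ) * Real.log k ≤ k * Real.log 2 := by
      have h9 : (k : ℝ) ^ (4 * C + 4) ≤ 2 ^ k := by exact_mod_cast h7
      have := Real.log_le_log (by positivity) h9
      rwa [Real.log_pow, Real.log_pow] at this
    push_cast at h8
    have h10 : 0 ≤ Real.log k := Real.log_nonneg hk1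
    have h11 : (k : ℝ) * Real.log 2 ≤ k * Real.log b := mul_le_mul_of_nonneg_left h5 hk0.le
    nlinarith
  have hDlog : ∀ D : ℕ, D ≤ k ^ E → (D : ℝ) ≤ Real.log X ^ (2 * E) := by
    intro D hDk
    have h3 : (D : ℝ) ≤ (k : ℝ) ^ E := by exact_mod_cast hDk
    refine h3.trans ?_
    rw [pow_mul]
    refine pow_le_pow_left₀ hk0.le ?_ E
    have : (k : ℝ) ≤ (k / 2) ^ 2 := by nlinarith
    exact this.trans (pow_le_pow_left₀ (by linarith) hL1 2)
  have hLpos : 0 < Real.log X := by linarith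
  have hkU : (k : ℝ) ^ U ≤ 2 ^ U * Real.log X ^ U := by
    rw [← mul_pow]
    exact pow_le_pow_left₀ hk0.le (by linarith) U
  have hmk : 64 * (2 : ℝ) ^ U + 64 * (Real.log b + C) ≤ k := hm.trans (by exact_mod_cast (by omega : m ≤ k))
  have hlb : 0 ≤ Real.log b := Real.log_nonneg (by linarith)
  have hC0 : (0 : ℝ) ≤ C := Nat.cast_nonneg _
  -- the three parts
  have hXk : (k : ℝ) ^ (2 * (E + W + 3)) ≤ X := by
    have h4 : k ^ (2 * (E + W + 3)) ≤ X := (Nat.pow_le_pow_right (by omega) (by omega)).trans hX3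
    exact_mod_cast h4
  have hsq : (k : ℝ) ^ (E + W + 3) ≤ √(X : ℝ) := by
    apply Real.le_sqrt_of_sq_le
    rw [← pow_mul]
    refine le_trans (le_of_eq ?_) hXk
    congr 1
    ring
  have hs0 : 0 < √(X : ℝ) := Real.sqrt_pos.mpr hXr
  have hss : √(X : ℝ) * √(X : ℝ) = X := Real.mul_self_sqrt hXr.le
  have p1 : (k : ℝ) ^ (E + W) * 2 ≤ X / 4 := by
    have h4 : (k : ℝ) ^ (E + W) * k * k * k ≤ √(X : ℝ) := by
      have : (k : ℝ) ^ (E + W + 3) = (k : ℝ) ^ (E + W) * k * k * k := by ring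
      rw [← this]
      exact hsq
    have h5 : (1 : ℝ) ≤ √(X : ℝ) := by
      refine le_trans ?_ hsq
      exact one_le_pow₀ hk1
    have h6 : √(X : ℝ) ≤ X := by nlinarith
    have h7 : (0 : ℝ) < (k : ℝ) ^ (E + W) := by positivity
    have h8 : (k : ℝ) ^ (E + W) * 64 ≤ (k : ℝ) ^ (E + W) * k * k * k := by
      have : (64 : ℝ) ≤ k * k * k := by nlinarith
      nlinarith
    linarith
  have p2 : (k : ℝ) ^ (E + W) * (4 * (X / Real.log X ^ U)) ≤ X / 4 := by
    have h4 : (0 : ℝ) < Real.log X ^ U := pow_pos hLpos U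
    have h5 : (k : ℝ) ^ (E + W) * k = (k : ℝ) ^ U := by
      rw [hU, pow_succ]
    have h6 : (k : ℝ) ^ (E + W) * 16 ≤ Real.log X ^ U := by
      have h7 : (k : ℝ) ^ (E + W) * (64 * (2 : ℝ) ^ U) ≤ (k : ℝ) ^ (E + W) * k :=
        mul_le_mul_of_nonneg_left (by nlinarith) (by positivity)
      rw [h5] at h7
      have h8 := h7.trans hkU
      have h9 : (0 : ℝ) < 2 ^ U := by positivity
      have h10 : (k : ℝ) ^ (E + W) * 64 ≤ Real.log X ^ U := by
        refine le_of_mul_le_mul_left ?_ h9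
        linarith
      have h11 : (0 : ℝ) < (k : ℝ) ^ (E + W) := by positivity
      linarith
    rw [← mul_div_assoc, ← mul_div_assoc, div_le_div_iff₀ h4 (by norm_num)]
    nlinarith
  have p3 : (k : ℝ) ^ (E + W) * (8 * √(X : ℝ) * Real.log X) ≤ X / 4 := by
    have h4 : (k : ℝ) ^ (E + W) * (32 * Real.log X) ≤ √(X : ℝ) := by
      refine le_trans ?_ hsq
      have h5 : 32 * Real.log X ≤ k * k := by
        calc 32 * Real.log X ≤ 32 * (k * (Real.log b + C)) := by linarith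
          _ ≤ k * k := by nlinarith [pow_pos (by norm_num : (0 : ℝ) < 2) U]
      calc (k : ℝ) ^ (E + W) * (32 * Real.log X) ≤ (k : ℝ) ^ (E + W) * (k * k) :=
            mul_le_mul_of_nonneg_left h5 (by positivity)
        _ ≤ (k : ℝ) ^ (E + W) * (k * k) * k := by
            have : (0 : ℝ) ≤ (k : ℝ) ^ (E + W) * (k * k) := by positivity
            nlinarith
        _ = _ := by ring
    calc (k : ℝ) ^ (E + W) * (8 * √(X : ℝ) * Real.log X) = (k : ℝ) ^ (E + W) * (32 * Real.log X) * √(X : ℝ) / 4 := by ring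
      _ ≤ √(X : ℝ) * √(X : ℝ) / 4 := by
          have := mul_le_mul_of_nonneg_right h4 hs0.le
          linarith
      _ = X / 4 := by rw [hss]
  have hL3 : Real.log X ≤ k ^ 2 / 64 := by
    have h5 : 64 * Real.log X ≤ k * k := by
      calc 64 * Real.log X ≤ 64 * (k * (Real.log b + C)) := by linarith
        _ ≤ k * k := by nlinarith [pow_pos (by norm_num : (0 : ℝ) < 2) U]
    nlinarith
  have hX4 : 4 ≤ X := by
    have h3 : k ^ 1 ≤ k ^ (2 * (E + W + 3) + X₀ + 1) := Nat.pow_le_pow_right (by omega) (by omega)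
    rw [pow_one] at h3
    omega
  refine ⟨hXbig, hX4, hL1, hL3, hDlog, ?_⟩
  calc (k : ℝ) ^ (E + W) * (2 * (2 * (X / Real.log X ^ U) + 4 * √(X : ℝ) * Real.log X)) =
        (k : ℝ) ^ (E + W) * (4 * (X / Real.log X ^ U)) + (k : ℝ) ^ (E + W) * (8 * √(X : ℝ) * Real.log X) := by ring
    _ ≤ X / 4 + X / 4 := add_le_add p2 p3
    _ = X / 2 := by ring

/-- the primes `q` of a progression with `N ≤ 2 q - 1 ≤ 2 N` -/
lemma window_dense (b C E : ℕ) (hb : 2 ≤ b) : ∃ k₀ : ℕ, ∀ k : ℕ, k₀ ≤ k → ∀ N : ℕ, b ^ k ≤ N * k ^ C → N ≤ b ^ k * k ^ C →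
    ∀ D : ℕ, 1 ≤ D → D ≤ k ^ E → ∀ a : ℕ, a.Coprime D →
    (N : ℝ) ≤ (((Icc 1 N).filter (fun q : ℕ => (q.Prime ∧ N ≤ 2 * q - 1) ∧ q ≡ a [MOD D])).card : ℝ) * (k : ℝ) ^ (E + 3) := by
  obtain ⟨N0, h0⟩ := lam_ap (2 * E) (E + 0 + 1)
  obtain ⟨k₀, h1⟩ := params b C E 0 N0 hb
  refine ⟨max k₀ 4, fun k hk N hN1 hN2 D hD hDk a ha => ?_⟩
  obtain ⟨c1, c2, c3, c4, c5, c6⟩ := h1 k (by omega) N hN1 hN2
  have hkr : (4 : ℝ) ≤ k := by exact_mod_cast (by omega : 4 ≤ k)
  have hk0 : (0 : ℝ) < k := by linarith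
  have hNr : (4 : ℝ) ≤ N := by exact_mod_cast c2
  have hL0 : 0 < Real.log N := by linarith
  have g1 := h0 N c1 D hD (c5 D hDk) a N le_rfl
  have g2 := h0 N c1 D hD (c5 D hDk) a (N / 2) (Nat.div_le_self _ _)
  have g3 := th_sum N N D a (by omega) le_rfl
  have g4 := th_sum N (N / 2) D a (by omega) (Nat.div_le_self _ _)
  rw [if_pos ha] at g1 g2
  rw [add_zero] at c6 g1 g2
  have hDr : (1 : ℝ) ≤ D := by exact_mod_cast hD
  have hφ : (Nat.totient D : ℝ) ≤ D := by exact_mod_cast Nat.totient_le D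
  have hφ0 : (0 : ℝ) < Nat.totient D := by exact_mod_cast Nat.totient_pos.2 (by omega)
  have hhalf : ((N / 2 : ℕ) : ℝ) ≤ N / 2 := Nat.cast_div_le
  obtain ⟨Δ, hΔ⟩ : ∃ Δ : ℝ, Δ = 2 * (N / Real.log N ^ (E + 1)) + 4 * √(N : ℝ) * Real.log N := ⟨_, rfl⟩
  have g5 : (N : ℝ) / 2 / Nat.totient D - Δ ≤ ∑ i ∈ Icc 2 N, th D a i - ∑ i ∈ Icc 2 (N / 2), th D a i := by
    have e1 : (N : ℝ) / Nat.totient D - ((N / 2 : ℕ) : ℝ) / Nat.totient D ≥ N / 2 / Nat.totient D := by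
      rw [← sub_div, ge_iff_le]
      exact div_le_div_of_nonneg_right (by linarith) hφ0.le
    rw [abs_le] at g1 g2 g3 g4
    rw [hΔ]
    linarith [g1.1, g2.2, g3.2, g4.1]
  have g6 : (N : ℝ) / (2 * D) ≤ N / 2 / Nat.totient D := by
    rw [← div_div]
    exact div_le_div_of_nonneg_left (by linarith) hφ0 hφ
  have hkE : (D : ℝ) ≤ (k : ℝ) ^ E := by exact_mod_cast hDk
  have g7 : Δ ≤ N / (4 * D) := by
    rw [le_div_iff₀ (by positivity)]
    have h5 : (k : ℝ) ^ E * (2 * Δ) ≤ N / 2 := by rw [hΔ]; exact c6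
    have h6 : 0 ≤ Δ := by rw [hΔ]; positivity
    have h7 : D * (2 * Δ) ≤ (k : ℝ) ^ E * (2 * Δ) := mul_le_mul_of_nonneg_right hkE (by linarith)
    linarith
  have g8 : ∑ i ∈ Icc 2 N, th D a i - ∑ i ∈ Icc 2 (N / 2), th D a i ≤
      (((Icc 1 N).filter (fun q : ℕ => (q.Prime ∧ N ≤ 2 * q - 1) ∧ q ≡ a [MOD D])).card : ℝ) * Real.log N := by
    have hsub : Icc 2 (N / 2) ⊆ Icc 2 N := Icc_subset_Icc le_rfl (Nat.div_le_self _ _)
    rw [← sum_sdiff hsub, add_sub_cancel_right, card_filter]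
    push_cast
    rw [sum_mul]
    have hsub2 : Icc 2 N \ Icc 2 (N / 2) ⊆ Icc 1 N := by
      intro i hi
      rw [mem_sdiff, mem_Icc] at hi
      rw [mem_Icc]
      omega
    refine le_trans ?_ (sum_le_sum_of_subset_of_nonneg hsub2 (fun i _ _ => ?_))
    · refine sum_le_sum fun i hi => ?_
      rw [mem_sdiff, mem_Icc, mem_Icc] at hi
      unfold th
      by_cases h : i.Prime ∧ i ≡ a [MOD D]
      · rw [if_pos h, if_pos ⟨⟨h.1, by omega⟩, h.2⟩, one_mul]
        exact Real.log_le_log (by exact_mod_cast (by omega : 0 < i)) (by exact_mod_cast hi.1.2)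
      · rw [if_neg h]
        split_ifs <;> simp [hL0.le]
    · split_ifs <;> simp [hL0.le]
  obtain ⟨m, hm⟩ : ∃ m : ℝ, m = (((Icc 1 N).filter (fun q : ℕ => (q.Prime ∧ N ≤ 2 * q - 1) ∧ q ≡ a [MOD D])).card : ℝ) := ⟨_, rfl⟩
  rw [← hm] at g8 ⊢
  have hm0 : 0 ≤ m := by rw [hm]; exact Nat.cast_nonneg _
  have g9 : (N : ℝ) / (4 * D) ≤ m * Real.log N := by
    have e2 : (N : ℝ) / (2 * D) = 2 * (N / (4 * D)) := by
      field_simp
      ring
    linarith
  rw [div_le_iff₀ (by positivity)] at g9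
  refine g9.trans ?_
  have g10 : Real.log N * (4 * D) ≤ (k : ℝ) ^ (E + 3) := by
    calc Real.log N * (4 * D) ≤ (k ^ 2 / 64) * (4 * (k : ℝ) ^ E) := by
          apply mul_le_mul c4 (by linarith) (by positivity) (by positivity)
      _ = (k : ℝ) ^ (E + 2) / 16 := by ring
      _ ≤ (k : ℝ) ^ (E + 2) * k := by
          have : (0 : ℝ) < (k : ℝ) ^ (E + 2) := by positivity
          nlinarith
      _ = _ := by ring
  calc m * Real.log N * (4 * D) = m * (Real.log N * (4 * D)) := by ring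
    _ ≤ m * (k : ℝ) ^ (E + 3) := mul_le_mul_of_nonneg_left g10 hm0

end Pool.Agent.U847.ChW
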