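import Pool.Agent.U847.NM

/-!
Local means of products over progressions, of `k` and of `k + 2` factors, for functions with values `1` and `-1` with
the two point theorem at almost all scales.
-/

set_option autoImplicit false

namespace Pool.Agent.U847.FA

open Finset
open Pool.Agent.R509.TT (Pm)
open Pool.Agent.Y958.U (LZ)
open Pool.Agent.U847.NL (cls cls_wt cls_per T key log_parts log_bound T_one)

/-- the product of the `k` terms `f (n + i d)` -/
noncomputable def P (f : ℕ → ℝ) (d k n : ℕ) : ℝ := ∏ i ∈ range k, f (n + i * d)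

/-- the two point theorem outside `E` -/
def Two (f : ℕ → ℝ) (E : Set ℕ) : Prop := ∀ q c u w : ℕ, 1 ≤ q → u ≠ w → ∀ δ : ℝ, 0 < δ →
  ∃ N₀ : ℕ, ∀ N : ℕ, N₀ ≤ N → N ∉ E → |T (cls q c) (fun n => f (n + u) * f (n + w)) N| ≤ δ * N

lemma two_unif {f : ℕ → ℝ} {E : Set ℕ} (hE : Two f E) {q : ℕ} (hq : 1 ≤ q) (c K : ℕ) (δ : ℝ) (hδ : 0 < δ) :
    ∃ N₀ : ℕ, ∀ N : ℕ, N₀ ≤ N → N ∉ E → ∀ u ≤ K, ∀ w ≤ K, u ≠ w →
      |T (cls q c) (fun n => f (n + u) * f (n + w)) N| ≤ δ * N := by
  have h1 : ∀ p : ℕ × ℕ, ∃ N₀ : ℕ, ∀ N : ℕ, N₀ ≤ N → N ∉ E → p.1 ≠ p.2 →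
      |T (cls q c) (fun n => f (n + p.1) * f (n + p.2)) N| ≤ δ * N := by
    intro p
    by_cases hp : p.1 = p.2
    · exact ⟨0, fun N _ _ h => absurd hp h⟩
    · obtain ⟨N₀, h⟩ := hE q c p.1 p.2 hq hp δ hδ
      exact ⟨N₀, fun N hN hNE _ => h N hN hNE⟩
  choose N₀ h2 using h1
  refine ⟨∑ p ∈ range (K + 1) ×ˢ range (K + 1), N₀ p, fun N hN hNE u hu w hw huw => ?_⟩
  refine h2 (u, w) N ?_ hNE huw
  refine le_trans ?_ hN
  exact single_le_sum (f := N₀) (fun _ _ => Nat.zero_le _)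
    (mem_product.2 ⟨mem_range.2 (by simpa using Nat.lt_succ_of_le hu), mem_range.2 (by simpa using Nat.lt_succ_of_le hw)⟩)

section

variable {f : ℕ → ℝ} (hf : Pm f)
include hf

lemma P_pm (d k : ℕ) : Pm (P f d k) := by
  intro n
  unfold P
  induction k with
  | zero => left; simp
  | succ k ih =>
    rw [prod_range_succ]
    rcases ih with h | h <;> rcases hf (n + k * d) with h' | h' <;> rw [h, h'] <;> norm_num

omit hf in
lemma P_succ (d k n : ℕ) : P f d (k + 1) n = P f d k n * f (n + k * d) := prod_range_succ _ _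

omit hf in
lemma P_succ' (d k n : ℕ) : P f d (k + 1) n = f n * P f d k (n + d) := by
  unfold P
  rw [prod_range_succ']
  rw [mul_comm]
  congr 1
  · simp
  · apply prod_congr rfl
    intro i _
    rw [show n + (i + 1) * d = n + d + i * d by ring]

lemma P_shift (d k n : ℕ) : P f d k (n + d) = f n * P f d k n * f (n + k * d) := by
  have h1 := P_succ (f := f) d k n
  rw [P_succ'] at h1
  have h2 := hf.sq n
  calc P f d k (n + d) = (f n * f n) * P f d k (n + d) := by rw [h2, one_mul]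
    _ = f n * (f n * P f d k (n + d)) := by ring
    _ = f n * P f d k n * f (n + k * d) := by rw [h1]; ring

end

/-- sums over windows -/
lemma win_shift (g : ℕ → ℝ) (hg : ∀ n, |g n| ≤ 1) (m H : ℕ) :
    |∑ h ∈ range H, g (h + m) - ∑ h ∈ range H, g h| ≤ 2 * m := by
  have h3 : ∑ h ∈ range (H + m), g h = ∑ h ∈ range H, g h + ∑ i ∈ range m, g (H + i) := sum_range_add _ _ _
  have h4 : ∑ h ∈ range (m + H), g h = ∑ h ∈ range m, g h + ∑ i ∈ range H, g (m + i) := sum_range_add _ _ _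
  have h5 : ∑ h ∈ range H, g (h + m) = ∑ h ∈ range H, g (m + h) := sum_congr rfl fun h _ => by rw [add_comm]
  have h6 : |∑ i ∈ range m, g (H + i)| ≤ m := by
    refine (abs_sum_le_sum_abs _ _).trans ((sum_le_sum fun i _ => hg _).trans (le_of_eq ?_))
    simp
  have h7 : |∑ i ∈ range m, g i| ≤ m := by
    refine (abs_sum_le_sum_abs _ _).trans ((sum_le_sum fun i _ => hg _).trans (le_of_eq ?_))
    simp
  rw [h5]
  rw [add_comm m H] at h4
  have h8 : ∑ h ∈ range H, g (m + h) - ∑ h ∈ range H, g h = ∑ i ∈ range m, g (H + i) - ∑ i ∈ range m, g i := by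
    linarith
  rw [h8]
  have := abs_sub (∑ i ∈ range m, g (H + i)) (∑ i ∈ range m, g i)
  linarith

/-- the sum of the products over a window with step `d` -/
noncomputable def V (f : ℕ → ℝ) (d k H n : ℕ) : ℝ := ∑ h ∈ range H, P f d k (n + h * d)

/-- the products of two values which occur -/
noncomputable def pt (f : ℕ → ℝ) (d k : ℕ) (τ : ℝ) (n : ℕ) : ℝ :=
  2 * (τ * (f (n + 0 * d) * f (n + 1 * d))) + f (n + 0 * d) * f (n + k * d) - τ * (f (n + 1 * d) * f (n + k * d)) +
      τ * (f (n + k * d) * f (n + (k + 1) * d)) + 3 * (τ * (f (n + 0 * d) * f (n + (k + 1) * d))) +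
      2 * (f (n + 1 * d) * f (n + (k + 1) * d)) + 2 * (τ * (f (n + (k + 1) * d) * f (n + (k + 2) * d))) +
      2 * (f (n + 0 * d) * f (n + (k + 2) * d)) + 3 * (τ * (f (n + 1 * d) * f (n + (k + 2) * d))) -
      f (n + k * d) * f (n + (k + 2) * d) + τ * (f (n + (k + 2) * d) * f (n + (k + 3) * d)) -
      τ * (f (n + 0 * d) * f (n + (k + 3) * d)) + f (n + 1 * d) * f (n + (k + 3) * d) -
      f (n + (k + 1) * d) * f (n + (k + 3) * d)

lemma key' {f : ℕ → ℝ} (hf : Pm f) (d k : ℕ) (σ τ : ℝ) (hσ : σ = 1 ∨ σ = -1) (hτ : τ = 1 ∨ τ = -1) (n : ℕ) :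
    0 ≤ 10 - 2 * (σ * P f d k n) - 5 * (σ * P f d k (n + d)) - 5 * (σ * P f d k (n + d + d)) -
      5 * (σ * τ * P f d (k + 2) n) - 5 * (σ * τ * P f d (k + 2) (n + d)) -
      2 * (σ * τ * P f d (k + 2) (n + d + d)) + pt f d k τ n := by
  have e1 : P f d k (n + d) = f (n + 0 * d) * P f d k n * f (n + k * d) := by
    rw [P_shift hf]
    simp only [Nat.zero_mul, Nat.add_zero]
  have e2 : P f d k (n + d + d) = f (n + 1 * d) * (f (n + 0 * d) * P f d k n * f (n + k * d)) *
      f (n + (k + 1) * d) := by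
    rw [P_shift hf, e1, one_mul, show n + d + k * d = n + (k + 1) * d by ring]
  have e3 : P f d (k + 2) n = P f d k n * f (n + k * d) * f (n + (k + 1) * d) := by
    rw [P_succ, P_succ]
  have e4 : P f d (k + 2) (n + d) = f (n + 0 * d) * (P f d k n * f (n + k * d) * f (n + (k + 1) * d)) *
      f (n + (k + 2) * d) := by
    rw [P_shift hf, e3]
    simp only [Nat.zero_mul, Nat.add_zero]
  have e5 : P f d (k + 2) (n + d + d) = f (n + 1 * d) * (f (n + 0 * d) * (P f d k n * f (n + k * d) *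
      f (n + (k + 1) * d)) * f (n + (k + 2) * d)) * f (n + (k + 3) * d) := by
    rw [P_shift hf, e4, one_mul, show n + d + (k + 2) * d = n + (k + 3) * d by ring]
  rw [e1, e2, e3, e4, e5]
  unfold pt
  have pw := P_pm hf d k n
  have q0 := hf (n + 0 * d)
  have q1 := hf (n + 1 * d)
  have r0 := hf (n + k * d)
  have r1 := hf (n + (k + 1) * d)
  have r2 := hf (n + (k + 2) * d)
  have r3 := hf (n + (k + 3) * d)
  have hs : ∀ {s x : ℝ}, (s = 1 ∨ s = -1) → (x = 1 ∨ x = -1) → (s * x = 1 ∨ s * x = -1) := by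
    intro s x h h'
    rcases h with rfl | rfl <;> rcases h' with rfl | rfl <;> norm_num
  have hk' := key (σ * P f d k n) (f (n + 0 * d)) (τ * f (n + 1 * d)) (f (n + k * d)) (τ * f (n + (k + 1) * d))
    (f (n + (k + 2) * d)) (τ * f (n + (k + 3) * d)) (hs hσ pw) q0 (hs hτ q1) r0 (hs hτ r1) r2 (hs hτ r3)
  refine le_trans hk' (le_of_eq ?_)
  rcases hτ with rfl | rfl <;> ring

/-- the inequality in one window -/
lemma local_pair {f : ℕ → ℝ} (hf : Pm f) (d k H : ℕ) (τ : ℝ) (hτ : τ = 1 ∨ τ = -1) (n : ℕ) :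
    12 * |V f d k H n + τ * V f d (k + 2) H n| ≤ 10 * H + 48 + ∑ h ∈ range H, pt f d k τ (n + h * d) := by
  have main : ∀ σ : ℝ, (σ = 1 ∨ σ = -1) → 12 * (σ * (V f d k H n + τ * V f d (k + 2) H n)) ≤
      10 * H + 48 + ∑ h ∈ range H, pt f d k τ (n + h * d) := by
    intro σ hσ
    have h1 := sum_nonneg (s := range H) fun h _ => key' hf d k σ τ hσ hτ (n + h * d)
    have e : ∑ h ∈ range H, (10 - 2 * (σ * P f d k (n + h * d)) - 5 * (σ * P f d k (n + h * d + d)) -
        5 * (σ * P f d k (n + h * d + d + d)) - 5 * (σ * τ * P f d (k + 2) (n + h * d)) -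
        5 * (σ * τ * P f d (k + 2) (n + h * d + d)) - 2 * (σ * τ * P f d (k + 2) (n + h * d + d + d)) +
        pt f d k τ (n + h * d)) =
        10 * H - 2 * (σ * V f d k H n) - 5 * (σ * ∑ h ∈ range H, P f d k (n + (h + 1) * d)) -
        5 * (σ * ∑ h ∈ range H, P f d k (n + (h + 2) * d)) - 5 * (σ * τ * V f d (k + 2) H n) -
        5 * (σ * τ * ∑ h ∈ range H, P f d (k + 2) (n + (h + 1) * d)) -
        2 * (σ * τ * ∑ h ∈ range H, P f d (k + 2) (n + (h + 2) * d)) + ∑ h ∈ range H, pt f d k τ (n + h * d) := by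
      unfold V
      simp only [mul_sum, sum_add_distrib, sum_sub_distrib, sum_const, card_range, nsmul_eq_mul]
      have r1 : ∀ h : ℕ, n + h * d + d = n + (h + 1) * d := fun h => by ring
      have r2 : ∀ h : ℕ, n + (h + 1) * d + d = n + (h + 2) * d := fun h => by ring
      simp only [r1, r2]
      ring
    rw [e] at h1
    have hab : ∀ {s x y : ℝ}, (s = 1 ∨ s = -1) → |x| ≤ y → -y ≤ s * x := by
      intro s x y hs hx
      rcases hs with rfl | rfl
      · linarith [neg_abs_le x]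
      · linarith [le_abs_self x]
    have hστ : σ * τ = 1 ∨ σ * τ = -1 := by
      rcases hσ with rfl | rfl <;> rcases hτ with rfl | rfl <;> norm_num
    have b : ∀ k : ℕ, ∀ h : ℕ, |P f d k (n + h * d)| ≤ 1 := fun k h => ((P_pm hf d k).abs _).le
    have s1 := hab hσ (win_shift (fun h => P f d k (n + h * d)) (b k) 1 H)
    have s2 := hab hσ (win_shift (fun h => P f d k (n + h * d)) (b k) 2 H)
    have s3 := hab hστ (win_shift (fun h => P f d (k + 2) (n + h * d)) (b (k + 2)) 1 H)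
    have s4 := hab hστ (win_shift (fun h => P f d (k + 2) (n + h * d)) (b (k + 2)) 2 H)
    rw [mul_sub] at s1 s2 s3 s4
    change _ ≤ _ - σ * V f d k H n at s1
    change _ ≤ _ - σ * V f d k H n at s2
    change _ ≤ _ - σ * τ * V f d (k + 2) H n at s3
    change _ ≤ _ - σ * τ * V f d (k + 2) H n at s4
    push_cast at s1 s2 s3 s4
    have e2 : 12 * (σ * (V f d k H n + τ * V f d (k + 2) H n)) =
        12 * (σ * V f d k H n) + 12 * (σ * τ * V f d (k + 2) H n) := by ring
    rw [e2]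
    linarith
  rcases abs_cases (V f d k H n + τ * V f d (k + 2) H n) with ⟨e, _⟩ | ⟨e, _⟩ <;> rw [e]
  · have := main 1 (Or.inl rfl)
    linarith
  · have := main (-1) (Or.inr rfl)
    linarith

/-- the tent inequality in one window -/
lemma tent (g : ℕ → ℝ) (hg : ∀ n, g n = 1 ∨ g n = -1) (m H : ℕ) :
    |∑ h ∈ range H, g h| ≤ (H + ∑ h ∈ range H, g h * g (h + m)) / 2 + m := by
  have hb : ∀ n, |g n| ≤ 1 := fun n => by rcases hg n with h | h <;> rw [h] <;> norm_num
  have h1 := win_shift g hb m H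
  have h2 : |∑ h ∈ range H, (g h + g (h + m))| ≤ ∑ h ∈ range H, (1 + g h * g (h + m)) := by
    refine (abs_sum_le_sum_abs _ _).trans (sum_le_sum fun h _ => ?_)
    rcases hg h with e | e <;> rcases hg (h + m) with e' | e' <;> rw [e, e'] <;> norm_num
  rw [sum_add_distrib, sum_add_distrib, sum_const, card_range, nsmul_eq_mul, mul_one] at h2
  set A := ∑ h ∈ range H, g h with hA
  set B := ∑ h ∈ range H, g (h + m) with hB
  have h3 : |A + B| + |B - A| ≥ 2 * |A| := by
    have e : 2 * A = (A + B) - (B - A) := by ring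
    have := abs_sub (A + B) (B - A)
    rw [← e, abs_mul, abs_two] at this
    linarith
  linarith

end Pool.Agent.U847.FA
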