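import Pool.Agent.U847.FA

/-!
The mean bounds for the local means of products over progressions.
-/

set_option autoImplicit false

namespace Pool.Agent.U847.FA

open Finset
open Pool.Agent.R509.TT (Pm)
open Pool.Agent.Y958.U (LZ)
open Pool.Agent.U847.NL (cls cls_wt cls_per T key log_parts log_bound T_one)

lemma cls_nonneg (q c n : ℕ) : 0 ≤ cls q c n := (cls_wt q c).nonneg n

lemma T_mono {v F G : ℕ → ℝ} (hv : ∀ n, 0 ≤ v n) (h : ∀ n, F n ≤ G n) (N : ℕ) : T v F N ≤ T v G N :=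
  sum_le_sum fun n _ => mul_le_mul_of_nonneg_left (h n) (hv n)

lemma T_sum (v : ℕ → ℝ) (F : ℕ → ℕ → ℝ) (H N : ℕ) : T v (fun n => ∑ h ∈ range H, F h n) N =
    ∑ h ∈ range H, T v (F h) N := by
  unfold T
  rw [sum_comm]
  apply sum_congr rfl
  intro n _
  rw [mul_sum]

lemma pt_mean (f : ℕ → ℝ) (v : ℕ → ℝ) (d k h K : ℕ) (hk : 2 ≤ k) (hd : 1 ≤ d) (hK : (h + k + 3) * d ≤ K) (N : ℕ) (B : ℝ)
    (hB : ∀ u ≤ K, ∀ w ≤ K, u ≠ w → |T v (fun n => f (n + u) * f (n + w)) N| ≤ B) (τ : ℝ)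
    (hτ : τ = 1 ∨ τ = -1) : T v (fun n => pt f d k τ (n + h * d)) N ≤ 22 * B := by
  have hm : ∀ i j : ℕ, i < j → j ≤ k + 3 → |T v (fun n => f (n + h * d + i * d) * f (n + h * d + j * d)) N| ≤ B := by
    intro i j hij hj
    have h1 : h * d + j * d ≤ K := by
      refine le_trans ?_ hK
      rw [← add_mul]
      exact Nat.mul_le_mul_right d (by omega)
    have h2 : h * d + i * d ≤ K := by
      refine le_trans ?_ hK
      rw [← add_mul]
      exact Nat.mul_le_mul_right d (by omega)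
    have h3 : h * d + i * d ≠ h * d + j * d := by
      intro e
      have := Nat.eq_of_mul_eq_mul_right (by omega : 0 < d) (Nat.add_left_cancel e)
      omega
    have h4 := hB _ h2 _ h1 h3
    simpa only [← add_assoc] using h4
  have hexp : T v (fun n => pt f d k τ (n + h * d)) N =
      2 * (τ * T v (fun n => f (n + h * d + 0 * d) * f (n + h * d + 1 * d)) N) +
      T v (fun n => f (n + h * d + 0 * d) * f (n + h * d + k * d)) N -
      τ * T v (fun n => f (n + h * d + 1 * d) * f (n + h * d + k * d)) N +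
      τ * T v (fun n => f (n + h * d + k * d) * f (n + h * d + (k + 1) * d)) N +
      3 * (τ * T v (fun n => f (n + h * d + 0 * d) * f (n + h * d + (k + 1) * d)) N) +
      2 * T v (fun n => f (n + h * d + 1 * d) * f (n + h * d + (k + 1) * d)) N +
      2 * (τ * T v (fun n => f (n + h * d + (k + 1) * d) * f (n + h * d + (k + 2) * d)) N) +
      2 * T v (fun n => f (n + h * d + 0 * d) * f (n + h * d + (k + 2) * d)) N +
      3 * (τ * T v (fun n => f (n + h * d + 1 * d) * f (n + h * d + (k + 2) * d)) N) -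
      T v (fun n => f (n + h * d + k * d) * f (n + h * d + (k + 2) * d)) N +
      τ * T v (fun n => f (n + h * d + (k + 2) * d) * f (n + h * d + (k + 3) * d)) N -
      τ * T v (fun n => f (n + h * d + 0 * d) * f (n + h * d + (k + 3) * d)) N +
      T v (fun n => f (n + h * d + 1 * d) * f (n + h * d + (k + 3) * d)) N -
      T v (fun n => f (n + h * d + (k + 1) * d) * f (n + h * d + (k + 3) * d)) N := by
    unfold T pt
    simp only [mul_sum, ← sum_add_distrib, ← sum_sub_distrib]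
    apply sum_congr rfl
    intro n _
    ring
  rw [hexp]
  have hab : ∀ {s x y : ℝ}, (s = 1 ∨ s = -1) → |x| ≤ y → s * x ≤ y := by
    intro s x y hs hx
    rcases hs with rfl | rfl
    · linarith [le_abs_self x]
    · linarith [neg_abs_le x]
  have hab' : ∀ {s x y : ℝ}, (s = 1 ∨ s = -1) → |x| ≤ y → -y ≤ s * x := by
    intro s x y hs hx
    rcases hs with rfl | rfl
    · linarith [neg_abs_le x]
    · linarith [le_abs_self x]
  have one : (1 : ℝ) = 1 ∨ (1 : ℝ) = -1 := Or.inl rfl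
  have m1 := hab hτ (hm 0 1 (by omega) (by omega))
  have m2 := hab one (hm 0 k (by omega) (by omega))
  have m3 := hab' hτ (hm 1 k (by omega) (by omega))
  have m4 := hab hτ (hm k (k + 1) (by omega) (by omega))
  have m5 := hab hτ (hm 0 (k + 1) (by omega) (by omega))
  have m6 := hab one (hm 1 (k + 1) (by omega) (by omega))
  have m7 := hab hτ (hm (k + 1) (k + 2) (by omega) (by omega))
  have m8 := hab one (hm 0 (k + 2) (by omega) (by omega))
  have m9 := hab hτ (hm 1 (k + 2) (by omega) (by omega))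
  have m10 := hab' one (hm k (k + 2) (by omega) (by omega))
  have m11 := hab hτ (hm (k + 2) (k + 3) (by omega) (by omega))
  have m12 := hab' hτ (hm 0 (k + 3) (by omega) (by omega))
  have m13 := hab one (hm 1 (k + 3) (by omega) (by omega))
  have m14 := hab' one (hm (k + 1) (k + 3) (by omega) (by omega))
  rw [one_mul] at m2 m6 m8 m10 m13 m14
  linarith

/-- the mean of the local sums of two neighbouring lengths -/
theorem pair_mean {f : ℕ → ℝ} (hf : Pm f) {E : Set ℕ} (hE : Two f E) (k d q c H : ℕ) (hk : 2 ≤ k) (hd : 1 ≤ d)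
    (hq : 1 ≤ q) (ε : ℝ) (hε : 0 < ε) :
    ∃ N₀ : ℕ, ∀ N : ℕ, N₀ ≤ N → N ∉ E → ∀ τ : ℝ, (τ = 1 ∨ τ = -1) →
      T (cls q c) (fun n => |V f d k H n + τ * V f d (k + 2) H n|) N ≤
        (5 / 6 * H + 4) * T (cls q c) (fun _ => 1) N + ε * N := by
  have hH : (0 : ℝ) ≤ H := Nat.cast_nonneg H
  obtain ⟨N₀, h2⟩ := two_unif hE hq c ((H + k + 3) * d) (ε / (2 * (H + 1))) (by positivity)
  refine ⟨N₀, fun N hN hNE τ hτ => ?_⟩
  have h3 := h2 N hN hNE
  set v := cls q c with hv
  set B : ℝ := ε / (2 * (H + 1)) * N with hB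
  have h4 : ∀ h ∈ range H, T v (fun n => pt f d k τ (n + h * d)) N ≤ 22 * B := by
    intro h hh
    rw [mem_range] at hh
    exact pt_mean f v d k h ((H + k + 3) * d) hk hd (Nat.mul_le_mul_right d (by omega)) N B h3 τ hτ
  have h5 : T v (fun n => |V f d k H n + τ * V f d (k + 2) H n|) N ≤
      T v (fun n => (5 / 6 * H + 4) * 1 + 1 / 12 * ∑ h ∈ range H, pt f d k τ (n + h * d)) N := by
    apply T_mono (cls_nonneg q c)
    intro n
    have := local_pair hf d k H τ hτ n
    linarith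
  have h6 : T v (fun n => (5 / 6 * H + 4) * 1 + 1 / 12 * ∑ h ∈ range H, pt f d k τ (n + h * d)) N =
      (5 / 6 * H + 4) * T v (fun _ => 1) N + 1 / 12 * ∑ h ∈ range H, T v (fun n => pt f d k τ (n + h * d)) N := by
    rw [← T_sum]
    unfold T
    rw [mul_sum, mul_sum, ← sum_add_distrib]
    apply sum_congr rfl
    intro n _
    ring
  rw [h6] at h5
  have h7 := sum_le_sum h4
  rw [sum_const, card_range, nsmul_eq_mul] at h7
  have h8 : (H : ℝ) * (22 * B) ≤ 12 * (ε * N) := by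
    have h9 : (H : ℝ) * B ≤ ε / 2 * N := by
      have h10 : (H : ℝ) / (H + 1) ≤ 1 := by
        rw [div_le_one (by positivity)]
        linarith
      have h11 : (H : ℝ) * B = (H : ℝ) / (H + 1) * (ε / 2 * N) := by
        rw [hB]
        field_simp
      rw [h11]
      exact mul_le_of_le_one_left (by positivity) h10
    have h12 : 0 ≤ ε * N := by positivity
    linarith
  linarith

/-- the local sum of the products of two values at distance `m d` -/
noncomputable def Z (f : ℕ → ℝ) (d m H n : ℕ) : ℝ := ∑ h ∈ range H, f (n + h * d) * f (n + h * d + m * d)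

lemma Z_abs {f : ℕ → ℝ} (hf : Pm f) (d m H n : ℕ) : |Z f d m H n| ≤ H := by
  unfold Z
  refine (abs_sum_le_sum_abs _ _).trans ((sum_le_sum (g := fun _ => (1 : ℝ)) fun h _ => ?_).trans (le_of_eq ?_))
  · rw [abs_mul, hf.abs, hf.abs]
    norm_num
  · simp

lemma Z_mean (f : ℕ → ℝ) (v : ℕ → ℝ) (d m H K : ℕ) (hd : 1 ≤ d) (hm : 1 ≤ m) (hK : (H + m) * d ≤ K) (N : ℕ) (B : ℝ)
    (hB : ∀ u ≤ K, ∀ w ≤ K, u ≠ w → |T v (fun n => f (n + u) * f (n + w)) N| ≤ B) :
    T v (Z f d m H) N ≤ H * B := by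
  have h1 : T v (Z f d m H) N = ∑ h ∈ range H, T v (fun n => f (n + h * d) * f (n + h * d + m * d)) N := by
    rw [← T_sum]
    rfl
  rw [h1]
  have h2 : ∀ h ∈ range H, T v (fun n => f (n + h * d) * f (n + h * d + m * d)) N ≤ B := by
    intro h hh
    rw [mem_range] at hh
    have h3 : h * d + m * d ≤ K := by
      refine le_trans ?_ hK
      rw [← add_mul]
      exact Nat.mul_le_mul_right d (by omega)
    have h4 : h * d ≠ h * d + m * d := by
      have : 0 < m * d := Nat.mul_pos hm hd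
      omega
    have h5 := hB (h * d) (by omega) _ h3 h4
    simp only [← add_assoc] at h5
    exact (le_abs_self _).trans h5
  refine (sum_le_sum h2).trans (le_of_eq ?_)
  rw [sum_const, card_range, nsmul_eq_mul]

lemma tent_Z {f : ℕ → ℝ} (hf : Pm f) (d m H n : ℕ) : |Z f d m H n| ≤ (H + Z f d (2 * m) H n) / 2 + m := by
  have h1 := tent (fun h => f (n + h * d) * f (n + h * d + m * d)) (fun h => by
    rcases hf (n + h * d) with e | e <;> rcases hf (n + h * d + m * d) with e' | e' <;> simp [e, e']) m H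
  have h2 : ∀ h : ℕ, (fun h => f (n + h * d) * f (n + h * d + m * d)) h *
      (fun h => f (n + h * d) * f (n + h * d + m * d)) (h + m) = f (n + h * d) * f (n + h * d + 2 * m * d) := by
    intro h
    have e1 : n + (h + m) * d = n + h * d + m * d := by ring
    have e2 : n + h * d + m * d + m * d = n + h * d + 2 * m * d := by ring
    simp only
    rw [e1, e2]
    have e3 := hf.sq (n + h * d + m * d)
    calc f (n + h * d) * f (n + h * d + m * d) * (f (n + h * d + m * d) * f (n + h * d + 2 * m * d)) =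
          f (n + h * d) * (f (n + h * d + m * d) * f (n + h * d + m * d)) * f (n + h * d + 2 * m * d) := by ring
      _ = _ := by rw [e3, mul_one]
  rw [sum_congr rfl fun h _ => h2 h] at h1
  exact h1

lemma tent_V {f : ℕ → ℝ} (hf : Pm f) (d k H n : ℕ) : |V f d k H n| ≤ (H + Z f d k H n) / 2 + 1 := by
  have h1 := tent (fun h => P f d k (n + h * d)) (fun h => P_pm hf d k _) 1 H
  have h2 : ∀ h : ℕ, (fun h => P f d k (n + h * d)) h * (fun h => P f d k (n + h * d)) (h + 1) =
      f (n + h * d) * f (n + h * d + k * d) := by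
    intro h
    simp only
    rw [show n + (h + 1) * d = n + h * d + d by ring, P_shift hf]
    have e3 := (P_pm hf d k).sq (n + h * d)
    calc P f d k (n + h * d) * (f (n + h * d) * P f d k (n + h * d) * f (n + h * d + k * d)) =
          (P f d k (n + h * d) * P f d k (n + h * d)) * (f (n + h * d) * f (n + h * d + k * d)) := by ring
      _ = _ := by rw [e3, one_mul]
  rw [sum_congr rfl fun h _ => h2 h] at h1
  push_cast at h1
  exact h1

/-- the mean square for two points -/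
lemma msq {f : ℕ → ℝ} (hf : Pm f) (v : ℕ → ℝ) (hv : ∀ n, 0 ≤ v n) (d H K : ℕ) (hd : 1 ≤ d) (hH : 1 ≤ H) (N : ℕ) (B : ℝ)
    (hB0 : 0 ≤ B) (hB : ∀ u ≤ K, ∀ w ≤ K, u ≠ w → |T v (fun n => f (n + u) * f (n + w)) N| ≤ B)
    (hK : 3 * H * d ≤ K) : ∀ j m : ℕ, 1 ≤ m → H ≤ m + j →
      T v (fun n => Z f d m H n ^ 2) N ≤ (1 / 3 * H ^ 2 + 6 * m * H) * T v (fun _ => 1) N + B * H ^ 2 := by
  have hH0 : (1 : ℝ) ≤ H := by exact_mod_cast hH
  have hT0 : 0 ≤ T v (fun _ => 1) N := sum_nonneg fun n _ => mul_nonneg (hv n) zero_le_one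
  have triv : ∀ m : ℕ, 1 ≤ m → H ≤ m →
      T v (fun n => Z f d m H n ^ 2) N ≤ (1 / 3 * H ^ 2 + 6 * m * H) * T v (fun _ => 1) N + B * H ^ 2 := by
    intro m hm hHm
    have h1 : T v (fun n => Z f d m H n ^ 2) N ≤ T v (fun _ => (H : ℝ) ^ 2 * 1) N := by
      apply T_mono hv
      intro n
      rw [mul_one, ← sq_abs]
      exact pow_le_pow_left₀ (abs_nonneg _) (Z_abs hf d m H n) 2
    have h2 : T v (fun _ => (H : ℝ) ^ 2 * 1) N = (H : ℝ) ^ 2 * T v (fun _ => 1) N := by
      unfold T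
      rw [mul_sum]
      apply sum_congr rfl
      intro n _
      ring
    rw [h2] at h1
    have h3 : (H : ℝ) ≤ m := by exact_mod_cast hHm
    have h4 : (H : ℝ) ^ 2 ≤ 1 / 3 * H ^ 2 + 6 * m * H := by nlinarith
    have h5 := mul_le_mul_of_nonneg_right h4 hT0
    have h6 : 0 ≤ B * (H : ℝ) ^ 2 := by positivity
    linarith
  intro j
  induction j with
  | zero =>
    intro m hm hj
    exact triv m hm (by omega)
  | succ j ih =>
    intro m hm hj
    by_cases hmH : H ≤ m
    · exact triv m hm hmH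
    · have hm' : m ≤ H := by omega
      have hmr : (m : ℝ) ≤ H := by exact_mod_cast hm'
      have hm0 : (1 : ℝ) ≤ m := by exact_mod_cast hm
      have h1 := ih (2 * m) (by omega) (by omega)
      have h2 : T v (Z f d (2 * m) H) N ≤ H * B := Z_mean f v d (2 * m) H K hd (by omega) (by
        refine le_trans (Nat.mul_le_mul_right d ?_) hK
        omega) N B hB
      have h3 : ∀ n, Z f d m H n ^ 2 ≤ (1 / 4 * (H : ℝ) ^ 2 + 3 * m * H) * 1 + H / 2 * Z f d (2 * m) H n +
          1 / 4 * Z f d (2 * m) H n ^ 2 := by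
        intro n
        have e1 := tent_Z hf d m H n
        have e2 := abs_le.1 (Z_abs hf d (2 * m) H n)
        have e3 : 0 ≤ (H + Z f d (2 * m) H n) / 2 := by linarith
        have e4 : (H + Z f d (2 * m) H n) / 2 ≤ H := by linarith
        have e5 := pow_le_pow_left₀ (abs_nonneg _) e1 2
        rw [sq_abs] at e5
        have e6 : ((H + Z f d (2 * m) H n) / 2 + (m : ℝ)) ^ 2 = (H + Z f d (2 * m) H n) ^ 2 / 4 +
          2 * m * ((H + Z f d (2 * m) H n) / 2) + m ^ 2 := by ring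
        rw [e6] at e5
        have e7 : (m : ℝ) * ((H + Z f d (2 * m) H n) / 2) ≤ m * H := mul_le_mul_of_nonneg_left e4 (by linarith)
        have e8 : (m : ℝ) ^ 2 ≤ m * H := by nlinarith
        have e9 : (H + Z f d (2 * m) H n) ^ 2 / 4 = 1 / 4 * (H : ℝ) ^ 2 + H / 2 * Z f d (2 * m) H n +
          1 / 4 * Z f d (2 * m) H n ^ 2 := by ring
        rw [e9] at e5
        linarith
      have h4 := T_mono hv h3 N
      have h5 : T v (fun n => (1 / 4 * (H : ℝ) ^ 2 + 3 * m * H) * 1 + H / 2 * Z f d (2 * m) H n +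
          1 / 4 * Z f d (2 * m) H n ^ 2) N = (1 / 4 * (H : ℝ) ^ 2 + 3 * m * H) * T v (fun _ => 1) N +
          H / 2 * T v (Z f d (2 * m) H) N + 1 / 4 * T v (fun n => Z f d (2 * m) H n ^ 2) N := by
        unfold T
        simp only [mul_sum, ← sum_add_distrib]
        apply sum_congr rfl
        intro n _
        ring
      rw [h5] at h4
      push_cast at h1
      have h6 : (H : ℝ) / 2 * T v (Z f d (2 * m) H) N ≤ H / 2 * (H * B) :=
        mul_le_mul_of_nonneg_left h2 (by linarith)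
      have h7 : 0 ≤ B * (H : ℝ) ^ 2 := by positivity
      nlinarith

/-- the mean square and the mean of the local sums of the products over progressions -/
theorem moments {f : ℕ → ℝ} (hf : Pm f) {E : Set ℕ} (hE : Two f E) (k d q c H : ℕ) (hk : 2 ≤ k) (hd : 1 ≤ d)
    (hq : 1 ≤ q) (hH : 1 ≤ H) (ε : ℝ) (hε : 0 < ε) :
    ∃ N₀ : ℕ, ∀ N : ℕ, N₀ ≤ N → N ∉ E →
      T (cls q c) (fun n => |V f d k H n|) N ≤ (1 / 2 * H + 1) * T (cls q c) (fun _ => 1) N + ε * N ∧
      T (cls q c) (fun n => V f d k H n ^ 2) N ≤ (1 / 3 * H ^ 2 + 3 * k * H) * T (cls q c) (fun _ => 1) N + ε * N := by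
  have hH0 : (1 : ℝ) ≤ H := by exact_mod_cast hH
  have hk0 : (2 : ℝ) ≤ k := by exact_mod_cast hk
  obtain ⟨N₀, h2⟩ := two_unif hE hq c ((3 * H + k) * d) (ε / H ^ 2) (by positivity)
  refine ⟨N₀, fun N hN hNE => ?_⟩
  have h3 := h2 N hN hNE
  set v := cls q c with hv
  have hv0 : ∀ n, 0 ≤ v n := cls_nonneg q c
  set B : ℝ := ε / H ^ 2 * N with hBdef
  have hB0 : 0 ≤ B := by positivity
  have hBH : B * (H : ℝ) ^ 2 = ε * N := by
    rw [hBdef]
    field_simp
  have hT0 : 0 ≤ T v (fun _ => 1) N := sum_nonneg fun n _ => mul_nonneg (hv0 n) zero_le_one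
  have hZ : T v (Z f d k H) N ≤ H * B := Z_mean f v d k H _ hd (by omega)
    (Nat.mul_le_mul_right d (by omega)) N B h3
  have hBH1 : (H : ℝ) * B ≤ ε * N := by
    rw [← hBH]
    have h0 : (H : ℝ) ≤ H ^ 2 := by nlinarith
    have h1 := mul_le_mul_of_nonneg_left h0 hB0
    linarith
  constructor
  · have h4 : T v (fun n => |V f d k H n|) N ≤ T v (fun n => (1 / 2 * H + 1) * 1 + 1 / 2 * Z f d k H n) N := by
      apply T_mono hv0
      intro n
      have := tent_V hf d k H n
      linarith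
    have h5 : T v (fun n => (1 / 2 * H + 1) * 1 + 1 / 2 * Z f d k H n) N =
        (1 / 2 * H + 1) * T v (fun _ => 1) N + 1 / 2 * T v (Z f d k H) N := by
      unfold T
      simp only [mul_sum, ← sum_add_distrib]
      apply sum_congr rfl
      intro n _
      ring
    rw [h5] at h4
    have h6 : 0 ≤ ε * N := by positivity
    linarith
  · have h1 := msq hf v hv0 d H ((3 * H + k) * d) hd hH N B hB0 h3 (Nat.mul_le_mul_right d (by omega)) H k (by omega)
      (by omega)
    have h4 : ∀ n, V f d k H n ^ 2 ≤ (1 / 4 * (H : ℝ) ^ 2 + 3 * H) * 1 + H / 2 * Z f d k H n +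
        1 / 4 * Z f d k H n ^ 2 := by
      intro n
      have e1 := tent_V hf d k H n
      have e2 := abs_le.1 (Z_abs hf d k H n)
      have e3 : 0 ≤ (H + Z f d k H n) / 2 := by linarith
      have e4 : (H + Z f d k H n) / 2 ≤ H := by linarith
      have e5 := pow_le_pow_left₀ (abs_nonneg _) e1 2
      rw [sq_abs] at e5
      have e6 : ((H + Z f d k H n) / 2 + 1) ^ 2 = (H + Z f d k H n) ^ 2 / 4 +
        2 * ((H + Z f d k H n) / 2) + 1 := by ring
      rw [e6] at e5
      have e9 : (H + Z f d k H n) ^ 2 / 4 = 1 / 4 * (H : ℝ) ^ 2 + H / 2 * Z f d k H n +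
        1 / 4 * Z f d k H n ^ 2 := by ring
      rw [e9] at e5
      linarith
    have h5 := T_mono hv0 h4 N
    have h6 : T v (fun n => (1 / 4 * (H : ℝ) ^ 2 + 3 * H) * 1 + H / 2 * Z f d k H n +
        1 / 4 * Z f d k H n ^ 2) N = (1 / 4 * (H : ℝ) ^ 2 + 3 * H) * T v (fun _ => 1) N +
        H / 2 * T v (Z f d k H) N + 1 / 4 * T v (fun n => Z f d k H n ^ 2) N := by
      unfold T
      simp only [mul_sum, ← sum_add_distrib]
      apply sum_congr rfl
      intro n _
      ring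
    rw [h6] at h5
    have h7 : (H : ℝ) / 2 * T v (Z f d k H) N ≤ H / 2 * (H * B) :=
      mul_le_mul_of_nonneg_left hZ (by linarith)
    have h8 : (3 * (H : ℝ)) * T v (fun _ => 1) N ≤ 3 / 2 * k * H * T v (fun _ => 1) N :=
      mul_le_mul_of_nonneg_right (by nlinarith) hT0
    have h9 : (H : ℝ) / 2 * (H * B) = 1 / 2 * (ε * N) := by rw [← hBH]; ring
    rw [h9] at h7
    rw [hBH] at h1
    have h10 : 0 ≤ ε * N := by positivity
    nlinarith

/-- the logarithmic means -/
lemma log_mean {E : Set ℕ} (hE : LZ E) (F : ℕ → ℝ) (hF2 : ∀ n, F n ≤ 2) (κ ε : ℝ) (hκ : 0 ≤ κ)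
    (hε : 0 < ε) (h : ∃ N₀ : ℕ, ∀ N : ℕ, N₀ ≤ N → N ∉ E → ∑ n ∈ Icc 1 N, F n ≤ κ * N) :
    ∃ N₁ : ℕ, ∀ X : ℕ, N₁ ≤ X → ∑ n ∈ Icc 1 X, F n / n ≤ (κ + ε) * Real.log X := by
  have hB : ∀ N : ℕ, ∑ n ∈ Icc 1 N, F n ≤ 2 * N := by
    intro N
    refine (sum_le_sum fun n _ => hF2 n).trans (le_of_eq ?_)
    rw [sum_const, Nat.card_Icc, Nat.add_sub_cancel, nsmul_eq_mul]
    ring
  obtain ⟨N₁, h1⟩ := log_bound hE (fun N => ∑ n ∈ Icc 1 N, F n) hB κ ε hκ hε h
  refine ⟨N₁, fun X hX => ?_⟩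
  rw [log_parts]
  refine le_trans ?_ (h1 X hX)
  have h2 : (∑ n ∈ Icc 1 X, F n) / ((X : ℝ) + 1) ≤ 2 := by
    rw [div_le_iff₀ (by positivity)]
    have := hB X
    linarith
  linarith

/-- from `range` to `Icc` -/
lemma T_Icc (v F : ℕ → ℝ) (N : ℕ) (A : ℝ) (h : ∀ n, |v n * F n| ≤ A) :
    |∑ n ∈ Icc 1 N, v n * F n - T v F N| ≤ 2 * A := by
  unfold T
  have h1 : ∑ n ∈ Icc 1 N, v n * F n = ∑ n ∈ range (N + 1), v n * F n - v 0 * F 0 := by
    rw [range_eq_Ico, sum_eq_sum_Ico_succ_bot (by omega : 0 < N + 1)]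
    have : Icc 1 N = Ico (0 + 1) (N + 1) := by
      ext n
      rw [mem_Icc, mem_Ico]
      omega
    rw [this]
    ring
  rw [h1, sum_range_succ]
  have h2 := h 0
  have h3 := h N
  have h4 : ∑ n ∈ range N, v n * F n + v N * F N - v 0 * F 0 - ∑ n ∈ range N, v n * F n = v N * F N - v 0 * F 0 := by
    ring
  rw [h4]
  have := abs_sub (v N * F N) (v 0 * F 0)
  linarith

end Pool.Agent.U847.FA
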