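import Pool.Agent.U847.FB

/-!
From the local means to the sums of the products.
-/

set_option autoImplicit false

namespace Pool.Agent.U847.FA

open Finset
open Pool.Agent.R509.TT (Pm)
open Pool.Agent.Y958.U (LZ)
open Pool.Agent.U847.NL (cls cls_wt cls_per T key log_parts log_bound T_one)

lemma cls_abs (q c n : ℕ) : |cls q c n| ≤ 1 := by
  unfold cls
  split_ifs <;> norm_num

lemma T_shiftS (v F : ℕ → ℝ) (hv : ∀ n, |v n| ≤ 1) (hF : ∀ n, |F n| ≤ 1) (s : ℕ) (hs : ∀ n, v (n + s) = v n) (N : ℕ) :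
    |T v (fun n => F (n + s)) N - T v F N| ≤ 2 * s := by
  have h1 := win_shift (fun n => v n * F n) (fun n => by
    rw [abs_mul]
    exact mul_le_one₀ (hv n) (abs_nonneg _) (hF n)) s N
  have h2 : ∑ h ∈ range N, v (h + s) * F (h + s) = T v (fun n => F (n + s)) N := by
    unfold T
    apply sum_congr rfl
    intro n _
    rw [hs]
  rw [h2] at h1
  exact h1

lemma cls_dvd {q d : ℕ} (hqd : q ∣ d) (c h n : ℕ) : cls q c (n + h * d) = cls q c n := by
  unfold cls
  obtain ⟨e, rfl⟩ := hqd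
  rw [show n + h * (q * e) = n + q * (h * e) by ring, Nat.add_mul_mod_self_left]

lemma T_V {f : ℕ → ℝ} (hf : Pm f) {q d : ℕ} (hqd : q ∣ d) (c k H N : ℕ) :
    |T (cls q c) (V f d k H) N - H * T (cls q c) (P f d k) N| ≤ 2 * H * (H * d) := by
  have h1 : T (cls q c) (V f d k H) N = ∑ h ∈ range H, T (cls q c) (fun n => P f d k (n + h * d)) N := by
    rw [← T_sum]
    rfl
  have h2 : (H : ℝ) * T (cls q c) (P f d k) N = ∑ h ∈ range H, T (cls q c) (P f d k) N := by
    rw [sum_const, card_range, nsmul_eq_mul]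
  rw [h1, h2, ← sum_sub_distrib]
  refine (abs_sum_le_sum_abs _ _).trans ?_
  have h3 : ∀ h ∈ range H, |T (cls q c) (fun n => P f d k (n + h * d)) N - T (cls q c) (P f d k) N| ≤
      2 * (H * d) := by
    intro h hh
    have h4 := T_shiftS (cls q c) (P f d k) (cls_abs q c) (fun n => ((P_pm hf d k).abs n).le) (h * d)
      (fun n => cls_dvd hqd c h n) N
    refine h4.trans ?_
    have h5 : (((h * d : ℕ) : ℝ)) ≤ H * d := by
      exact_mod_cast Nat.mul_le_mul_right d (mem_range.1 hh).le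
    linarith
  refine (sum_le_sum h3).trans (le_of_eq ?_)
  rw [sum_const, card_range, nsmul_eq_mul]
  ring

/-- the sums of two neighbouring lengths -/
theorem glob {f : ℕ → ℝ} (hf : Pm f) {E : Set ℕ} (hE : Two f E) (k d q c : ℕ) (hk : 2 ≤ k) (hd : 1 ≤ d)
    (hq : 1 ≤ q) (hqd : q ∣ d) (ε : ℝ) (hε : 0 < ε) : ∃ N₀ : ℕ, ∀ N : ℕ, N₀ ≤ N → N ∉ E →
      |T (cls q c) (P f d k) N| + |T (cls q c) (P f d (k + 2)) N| ≤ 5 / 6 * T (cls q c) (fun _ => 1) N + ε * N := by
  obtain ⟨H, hH⟩ := exists_nat_ge (16 / ε + 1)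
  have hHpos : (0 : ℝ) < H := by
    have : 0 < 16 / ε := by positivity
    linarith
  have hH1 : 1 ≤ H := by exact_mod_cast hHpos
  obtain ⟨N₀, h1⟩ := pair_mean hf hE k d q c H hk hd hq (ε / 4) (by positivity)
  obtain ⟨M, hM⟩ := exists_nat_ge (16 * (H * d) / ε)
  refine ⟨N₀ + M, fun N hN hNE => ?_⟩
  have h2 := h1 N (by omega) hNE
  have hNM : 16 * (H * d) / ε ≤ N := hM.trans (by exact_mod_cast (by omega : M ≤ N))
  rw [div_le_iff₀ hε] at hNM
  have hT1 : T (cls q c) (fun _ => 1) N ≤ N := by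
    unfold T
    refine (sum_le_sum (g := fun _ => (1 : ℝ)) fun n _ => ?_).trans (le_of_eq (by simp))
    rw [mul_one]
    exact (le_abs_self _).trans (cls_abs q c n)
  have hT0 : 0 ≤ T (cls q c) (fun _ => 1) N := sum_nonneg fun n _ => mul_nonneg (cls_nonneg q c n) zero_le_one
  have h3 : ∀ τ : ℝ, (τ = 1 ∨ τ = -1) → |T (cls q c) (P f d k) N + τ * T (cls q c) (P f d (k + 2)) N| ≤
      5 / 6 * T (cls q c) (fun _ => 1) N + ε * N := by
    intro τ hτ
    have h4 := h2 τ hτ
    have h5 := T_V hf hqd c k H N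
    have h6 := T_V hf hqd c (k + 2) H N
    have h7 : |T (cls q c) (V f d k H) N + τ * T (cls q c) (V f d (k + 2) H) N| ≤
        T (cls q c) (fun n => |V f d k H n + τ * V f d (k + 2) H n|) N := by
      have e : T (cls q c) (V f d k H) N + τ * T (cls q c) (V f d (k + 2) H) N =
          T (cls q c) (fun n => V f d k H n + τ * V f d (k + 2) H n) N := by
        unfold T
        rw [mul_sum, ← sum_add_distrib]
        apply sum_congr rfl
        intro n _
        ring
      rw [e]
      unfold T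
      refine (abs_sum_le_sum_abs _ _).trans (le_of_eq (sum_congr rfl fun n _ => ?_))
      rw [abs_mul, abs_of_nonneg (cls_nonneg q c n)]
    have hτ1 : |τ| = 1 := by rcases hτ with rfl | rfl <;> norm_num
    have h8 : (H : ℝ) * |T (cls q c) (P f d k) N + τ * T (cls q c) (P f d (k + 2)) N| ≤
        |T (cls q c) (V f d k H) N + τ * T (cls q c) (V f d (k + 2) H) N| + 4 * H * (H * d) := by
      have e : (H : ℝ) * |T (cls q c) (P f d k) N + τ * T (cls q c) (P f d (k + 2)) N| =
          |H * T (cls q c) (P f d k) N + τ * (H * T (cls q c) (P f d (k + 2)) N)| := by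
        rw [← abs_of_pos hHpos, ← abs_mul, abs_of_pos hHpos]
        congr 1
        ring
      rw [e]
      have e2 : H * T (cls q c) (P f d k) N + τ * (H * T (cls q c) (P f d (k + 2)) N) =
          (T (cls q c) (V f d k H) N + τ * T (cls q c) (V f d (k + 2) H) N) -
          ((T (cls q c) (V f d k H) N - H * T (cls q c) (P f d k) N) +
            τ * (T (cls q c) (V f d (k + 2) H) N - H * T (cls q c) (P f d (k + 2)) N)) := by ring
      rw [e2]
      refine (abs_sub _ _).trans ?_
      have e3 := abs_add_le (T (cls q c) (V f d k H) N - H * T (cls q c) (P f d k) N)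
        (τ * (T (cls q c) (V f d (k + 2) H) N - H * T (cls q c) (P f d (k + 2)) N))
      rw [abs_mul, hτ1, one_mul] at e3
      linarith
    have h9 : (H : ℝ) * |T (cls q c) (P f d k) N + τ * T (cls q c) (P f d (k + 2)) N| ≤
        (H : ℝ) * (5 / 6 * T (cls q c) (fun _ => 1) N + ε * N) := by
      have e1 : 4 * T (cls q c) (fun _ => 1) N ≤ ε / 4 * (H * N) := by
        have e2 : 16 ≤ ε * H := by
          have : 16 / ε ≤ H := by linarith
          rw [div_le_iff₀ hε] at this
          linarith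
        have e3 : (16 : ℝ) * N ≤ ε * H * N := mul_le_mul_of_nonneg_right e2 (Nat.cast_nonneg N)
        linarith
      have e4 : 4 * (H : ℝ) * (H * d) ≤ ε / 4 * (H * N) := by
        have := mul_le_mul_of_nonneg_left hNM hHpos.le
        linarith
      have e5 : ε / 4 * (N : ℝ) ≤ ε / 4 * (H * N) := by
        apply mul_le_mul_of_nonneg_left _ (by positivity)
        have : (1 : ℝ) ≤ H := by exact_mod_cast hH1
        have hN0 : (0 : ℝ) ≤ N := Nat.cast_nonneg N
        nlinarith
      have e6 : 0 ≤ ε / 4 * ((H : ℝ) * N) := by positivity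
      linarith
    exact le_of_mul_le_mul_left h9 hHpos
  have a1 := h3 1 (Or.inl rfl)
  have a2 := h3 (-1) (Or.inr rfl)
  have b1 := abs_le.1 a1
  have b2 := abs_le.1 a2
  rcases abs_cases (T (cls q c) (P f d k) N) with ⟨e1, _⟩ | ⟨e1, _⟩ <;>
    rcases abs_cases (T (cls q c) (P f d (k + 2)) N) with ⟨e2, _⟩ | ⟨e2, _⟩ <;> rw [e1, e2] <;>
    linarith [b1.1, b1.2, b2.1, b2.2]

end Pool.Agent.U847.FA
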