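import Pool.Agent.U847.FC
import Pool.Agent.R512.P.PairM

/-!
The two point theorem for aperiodic multiplicative functions with values `1` and `-1`.
-/

set_option autoImplicit false

namespace Pool.Agent.U847.FA

open Finset
open Pool.Agent.R509.TT (Pm)
open Pool.Agent.Y958.U (LZ LZ_bdd diag')
open Pool.Agent.U847.NL (cls cls_wt cls_per T key log_parts log_bound T_one)
open Pool.Agent.R512.P (MS pairMW)
open Pool.Agent.R512.G (NoReal)

/-- one exceptional set -/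
theorem two_ms {g : ℕ → ℤ} (h₁ : MS g) (hN : NoReal (fun n => (g n : ℝ))) (hg0 : g 0 = 1 ∨ g 0 = -1) :
    ∃ E : Set ℕ, LZ E ∧ Two (fun n => (g n : ℝ)) E := by
  classical
  have h1 : ∀ p : ℕ × ℕ × ℕ × ℕ × ℕ, LZ (if p.1 = p.2.1 then ∅ else {N : ℕ | 1 / ((p.2.2.1 : ℝ) + 1) * N <
      |∑ n ∈ Icc 1 N, (fun n => cls (p.2.2.2.1 + 1) p.2.2.2.2 n) n * (g (n + p.1) : ℝ) * (g (n + p.2.1) : ℝ)|}) := by
    intro p
    split_ifs with h
    · exact LZ_bdd ∅ 0 (fun n hn => absurd hn (Set.notMem_empty n))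
    · exact pairMW h₁ hN h₁ p.1 p.2.1 h (p.2.2.2.1 + 1) (by omega) (fun n => cls (p.2.2.2.1 + 1) p.2.2.2.2 n)
        (fun n => cls_abs _ _ n) (fun n => cls_per _ _ n) _ (by positivity)
  obtain ⟨E, hE1, hE2⟩ := diag' _ h1
  refine ⟨E, hE1, fun q c u w hq huw δ hδ => ?_⟩
  obtain ⟨j, hj⟩ := exists_nat_one_div_lt (show (0 : ℝ) < δ / 2 by positivity)
  obtain ⟨N₀, hN₀⟩ := hE2 (u, w, j, q - 1, c)
  obtain ⟨M, hM⟩ := exists_nat_ge (4 / δ)
  refine ⟨N₀ + M, fun N hN hNE => ?_⟩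
  have h2 : ¬ (1 / ((j : ℝ) + 1) * N < |∑ n ∈ Icc 1 N, cls q c n * (g (n + u) : ℝ) * (g (n + w) : ℝ)|) := by
    intro hcon
    apply hNE
    apply hN₀ N _ (by omega)
    simp only
    rw [if_neg huw]
    rw [Set.mem_ofPred_eq, show q - 1 + 1 = q by omega]
    exact hcon
  push Not at h2
  have h3 : ∑ n ∈ Icc 1 N, cls q c n * (g (n + u) : ℝ) * (g (n + w) : ℝ) =
      ∑ n ∈ Icc 1 N, cls q c n * ((g (n + u) : ℝ) * (g (n + w) : ℝ)) := sum_congr rfl fun n _ => by ring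
  rw [h3] at h2
  have hpm : ∀ n, |(g n : ℝ)| = 1 := by
    intro n
    rcases Nat.eq_zero_or_pos n with h | h
    · subst h
      rcases hg0 with h | h <;> rw [h] <;> norm_num
    · rcases h₁.val n h with h | h <;> rw [h] <;> norm_num
  have h4 := T_Icc (cls q c) (fun n => (g (n + u) : ℝ) * (g (n + w) : ℝ)) N 1 (fun n => by
    rw [abs_mul, abs_mul, hpm, hpm, one_mul, mul_one]
    exact cls_abs q c n)
  have h5 : 4 / δ ≤ N := hM.trans (by exact_mod_cast (by omega : M ≤ N))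
  rw [div_le_iff₀ hδ] at h5
  have h6 : 1 / ((j : ℝ) + 1) * N ≤ δ / 2 * N := mul_le_mul_of_nonneg_right hj.le (Nat.cast_nonneg N)
  have h7 := abs_sub_abs_le_abs_sub (T (cls q c) (fun n => (g (n + u) : ℝ) * (g (n + w) : ℝ)) N)
    (∑ n ∈ Icc 1 N, cls q c n * ((g (n + u) : ℝ) * (g (n + w) : ℝ)))
  rw [abs_sub_comm] at h7
  linarith

end Pool.Agent.U847.FA
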