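import Pool.Agent.U847.FC

/-!
The local means of two neighbouring lengths in residue classes, at almost all scales and with logarithmic weights at all
scales.
-/

set_option autoImplicit false

namespace Pool.Agent.U847.FA

open Finset
open Pool.Agent.R509.TT (Pm)
open Pool.Agent.Y958.U (LZ)
open Pool.Agent.U847.NL (cls cls_wt cls_per T key log_parts log_bound T_one)

lemma V_abs {f : ℕ → ℝ} (hf : Pm f) (d k H n : ℕ) : |V f d k H n| ≤ H := by
  unfold V
  refine (abs_sum_le_sum_abs _ _).trans ((sum_le_sum (g := fun _ => (1 : ℝ)) fun h _ => ?_).trans (le_of_eq (by simp)))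
  exact ((P_pm hf d k).abs _).le

lemma VV_abs {f : ℕ → ℝ} (hf : Pm f) (d k H n : ℕ) (τ : ℝ) (hτ : τ = 1 ∨ τ = -1) :
    |V f d k H n + τ * V f d (k + 2) H n| ≤ 2 * H := by
  have h1 := abs_add_le (V f d k H n) (τ * V f d (k + 2) H n)
  have hτ1 : |τ| = 1 := by rcases hτ with rfl | rfl <;> norm_num
  rw [abs_mul, hτ1, one_mul] at h1
  have h2 := V_abs hf d k H n
  have h3 := V_abs hf d (k + 2) H n
  linarith

/-- the sums over a residue class -/
noncomputable def LS (f : ℕ → ℝ) (q c d k H : ℕ) (τ : ℝ) (N : ℕ) : ℝ :=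
  ∑ n ∈ (Icc 1 N).filter (fun n => n % q = c), |V f d k H n + τ * V f d (k + 2) H n|

lemma LS_eq (f : ℕ → ℝ) (q c d k H : ℕ) (τ : ℝ) (N : ℕ) : LS f q c d k H τ N =
    ∑ n ∈ Icc 1 N, cls q c n * |V f d k H n + τ * V f d (k + 2) H n| := by
  unfold LS
  rw [sum_filter]
  apply sum_congr rfl
  intro n _
  unfold cls
  split_ifs <;> simp

theorem pair_loc {f : ℕ → ℝ} (hf : Pm f) {E : Set ℕ} (hTwo : Two f E) (k d q c H : ℕ) (hk : 2 ≤ k) (hd : 1 ≤ d)
    (hq : 1 ≤ q) (hH : 1 ≤ H) (τ : ℝ) (hτ : τ = 1 ∨ τ = -1) (ε : ℝ) (hε : 0 < ε) :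
    ∃ N₀ : ℕ, ∀ N : ℕ, N₀ ≤ N → N ∉ E → LS f q c d k H τ N ≤ (5 / 6 + 4 / H + ε) * (H * (N / q)) := by
  have hH0 : (1 : ℝ) ≤ H := by exact_mod_cast hH
  have hq0 : (0 : ℝ) < q := by exact_mod_cast hq
  obtain ⟨N₀, h⟩ := pair_mean hf hTwo k d q c H hk hd hq (ε * H / (2 * q)) (by positivity)
  obtain ⟨M, hM⟩ := exists_nat_ge (18 * (q : ℝ) / ε)
  refine ⟨N₀ + M, fun N hN hNE => ?_⟩
  have h1 := h N (by omega) hNE τ hτ
  have h2 := T_one hq c N
  have h3 := T_Icc (cls q c) (fun n => |V f d k H n + τ * V f d (k + 2) H n|) N (2 * H) (fun n => by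
    rw [abs_mul, abs_abs]
    have e1 := cls_abs q c n
    have e2 := VV_abs hf d k H n τ hτ
    calc |cls q c n| * |V f d k H n + τ * V f d (k + 2) H n| ≤ 1 * (2 * H) :=
          mul_le_mul e1 e2 (abs_nonneg _) zero_le_one
      _ = 2 * H := one_mul _)
  rw [← LS_eq] at h3
  have h4 := (abs_le.1 h3).2
  have h5 : 18 * (q : ℝ) / ε ≤ N := hM.trans (by exact_mod_cast (by omega : M ≤ N))
  rw [div_le_iff₀ hε] at h5
  have h6 : (5 / 6 * (H : ℝ) + 4) * T (cls q c) (fun _ => 1) N ≤ (5 / 6 * H + 4) * (N / q + 1) :=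
    mul_le_mul_of_nonneg_left h2 (by positivity)
  have h7 : 9 * (H : ℝ) ≤ ε * H / (2 * q) * N := by
    have e : ε * H / (2 * q) * N = H * (N * ε) / (2 * q) := by ring
    rw [e, le_div_iff₀ (by positivity)]
    have := mul_le_mul_of_nonneg_left h5 (by linarith : (0 : ℝ) ≤ H)
    linarith
  have h8 : (5 / 6 + 4 / (H : ℝ) + ε) * (H * (N / q)) = (5 / 6 * H + 4) * (N / q) + ε * H / (2 * q) * N +
      ε * H / (2 * q) * N := by
    field_simp
    ring
  rw [h8]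
  linarith

theorem pair_log {f : ℕ → ℝ} (hf : Pm f) {E : Set ℕ} (hE : LZ E) (hTwo : Two f E) (k d q c H : ℕ) (hk : 2 ≤ k)
    (hd : 1 ≤ d) (hq : 1 ≤ q) (hH : 1 ≤ H) (τ : ℝ) (hτ : τ = 1 ∨ τ = -1) (ε : ℝ) (hε : 0 < ε) :
    ∃ N₀ : ℕ, ∀ N : ℕ, N₀ ≤ N →
      ∑ n ∈ (Icc 1 N).filter (fun n => n % q = c), |V f d k H n + τ * V f d (k + 2) H n| / n ≤
        (5 / 6 + 4 / H + ε) * (H * (Real.log N / q)) := by
  have hH0 : (0 : ℝ) < H := by exact_mod_cast hH
  have hq0 : (0 : ℝ) < q := by exact_mod_cast hq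
  obtain ⟨N₀, h⟩ := pair_loc hf hTwo k d q c H hk hd hq hH τ hτ (ε / 2) (by positivity)
  obtain ⟨N₁, h1⟩ := log_mean hE (fun n => cls q c n * |V f d k H n + τ * V f d (k + 2) H n| / H) (fun n => by
      rw [div_le_iff₀ hH0]
      have e1 := (le_abs_self _).trans (cls_abs q c n)
      have e2 := VV_abs hf d k H n τ hτ
      calc cls q c n * |V f d k H n + τ * V f d (k + 2) H n| ≤ 1 * (2 * H) :=
            mul_le_mul e1 e2 (abs_nonneg _) zero_le_one
        _ = 2 * H := one_mul _) ((5 / 6 + 4 / H + ε / 2) / q) (ε / (2 * q)) (by positivity) (by positivity)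
    ⟨N₀, fun N hN hNE => by
      have h2 := h N hN hNE
      rw [LS_eq] at h2
      rw [← sum_div, div_le_iff₀ hH0]
      refine h2.trans (le_of_eq ?_)
      field_simp⟩
  refine ⟨N₁, fun N hN => ?_⟩
  have h2 := h1 N hN
  have h3 : ∑ n ∈ (Icc 1 N).filter (fun n => n % q = c), |V f d k H n + τ * V f d (k + 2) H n| / n =
      H * ∑ n ∈ Icc 1 N, cls q c n * |V f d k H n + τ * V f d (k + 2) H n| / H / n := by
    rw [sum_filter, mul_sum]
    apply sum_congr rfl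
    intro n _
    unfold cls
    split_ifs
    · field_simp
    · simp
  rw [h3]
  refine (mul_le_mul_of_nonneg_left h2 hH0.le).trans (le_of_eq ?_)
  field_simp
  ring

end Pool.Agent.U847.FA
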