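import Pool.Agent.U847.FE

/-!
The mean bounds for the local means of products over progressions, for functions with nonzero mean: the correlations of
two values are near `μ`.
-/

set_option autoImplicit false

namespace Pool.Agent.U847.FG

open Finset
open Pool.Agent.R509.TT (Pm)
open Pool.Agent.Y958.U (LZ)
open Pool.Agent.U847.NL (cls T)
open Pool.Agent.U847.FA (P P_pm V Z pt local_pair tent tent_V tent_Z Z_abs V_abs VV_abs T_mono T_sum)

/-- the hypothesis -/
def HB (f v : ℕ → ℝ) (K N : ℕ) (μ B : ℝ) : Prop := ∀ u ≤ K, ∀ w ≤ K, u ≠ w →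
  |T v (fun n => f (n + u) * f (n + w)) N - μ * T v (fun _ => 1) N| ≤ B

lemma pt_mean (f : ℕ → ℝ) (v : ℕ → ℝ) (d k h K : ℕ) (hk : 2 ≤ k) (hd : 1 ≤ d) (hK : (h + k + 3) * d ≤ K) (N : ℕ) (μ B : ℝ)
    (hB : HB f v K N μ B) (τ : ℝ)
    (hτ : τ = 1 ∨ τ = -1) : T v (fun n => pt f d k τ (n + h * d)) N ≤ (4 + 10 * τ) * (μ * T v (fun _ => 1) N) + 22 * B := by
  have hm : ∀ i j : ℕ, i < j → j ≤ k + 3 → |T v (fun n => f (n + h * d + i * d) * f (n + h * d + j * d)) N - μ * T v (fun _ => 1) N| ≤ B := by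
    intro i j hij hj
    have h1 : h * d + j * d ≤ K := by
      refine le_trans ?_ hK
      rw [← add_mul]
      exact Nat.mul_le_mul_right d (by omega)
    have h2 : h * d + i * d ≤ K := by
      refine le_trans ?_ hK
      rw [← add_mul]
      exact Nat.mul_le_mul_right d (by omega)
    have h3 : h * d + i * d ≠ h * d + j * d := by
      intro e
      have := Nat.eq_of_mul_eq_mul_right (by omega : 0 < d) (Nat.add_left_cancel e)
      omega
    have h4 := hB _ h2 _ h1 h3
    simpa only [← add_assoc] using h4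
  have hexp : T v (fun n => pt f d k τ (n + h * d)) N =
      2 * (τ * T v (fun n => f (n + h * d + 0 * d) * f (n + h * d + 1 * d)) N) +
      T v (fun n => f (n + h * d + 0 * d) * f (n + h * d + k * d)) N -
      τ * T v (fun n => f (n + h * d + 1 * d) * f (n + h * d + k * d)) N +
      τ * T v (fun n => f (n + h * d + k * d) * f (n + h * d + (k + 1) * d)) N +
      3 * (τ * T v (fun n => f (n + h * d + 0 * d) * f (n + h * d + (k + 1) * d)) N) +
      2 * T v (fun n => f (n + h * d + 1 * d) * f (n + h * d + (k + 1) * d)) N +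
      2 * (τ * T v (fun n => f (n + h * d + (k + 1) * d) * f (n + h * d + (k + 2) * d)) N) +
      2 * T v (fun n => f (n + h * d + 0 * d) * f (n + h * d + (k + 2) * d)) N +
      3 * (τ * T v (fun n => f (n + h * d + 1 * d) * f (n + h * d + (k + 2) * d)) N) -
      T v (fun n => f (n + h * d + k * d) * f (n + h * d + (k + 2) * d)) N +
      τ * T v (fun n => f (n + h * d + (k + 2) * d) * f (n + h * d + (k + 3) * d)) N -
      τ * T v (fun n => f (n + h * d + 0 * d) * f (n + h * d + (k + 3) * d)) N +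
      T v (fun n => f (n + h * d + 1 * d) * f (n + h * d + (k + 3) * d)) N -
      T v (fun n => f (n + h * d + (k + 1) * d) * f (n + h * d + (k + 3) * d)) N := by
    unfold T pt
    simp only [mul_sum, ← sum_add_distrib, ← sum_sub_distrib]
    apply sum_congr rfl
    intro n _
    ring
  rw [hexp]
  have hab : ∀ {s x y : ℝ}, (s = 1 ∨ s = -1) → |x| ≤ y → s * x ≤ y := by
    intro s x y hs hx
    rcases hs with rfl | rfl
    · linarith [le_abs_self x]
    · linarith [neg_abs_le x]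
  have hab' : ∀ {s x y : ℝ}, (s = 1 ∨ s = -1) → |x| ≤ y → -y ≤ s * x := by
    intro s x y hs hx
    rcases hs with rfl | rfl
    · linarith [neg_abs_le x]
    · linarith [le_abs_self x]
  have one : (1 : ℝ) = 1 ∨ (1 : ℝ) = -1 := Or.inl rfl
  have m1 := hab hτ (hm 0 1 (by omega) (by omega))
  have m2 := hab one (hm 0 k (by omega) (by omega))
  have m3 := hab' hτ (hm 1 k (by omega) (by omega))
  have m4 := hab hτ (hm k (k + 1) (by omega) (by omega))
  have m5 := hab hτ (hm 0 (k + 1) (by omega) (by omega))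
  have m6 := hab one (hm 1 (k + 1) (by omega) (by omega))
  have m7 := hab hτ (hm (k + 1) (k + 2) (by omega) (by omega))
  have m8 := hab one (hm 0 (k + 2) (by omega) (by omega))
  have m9 := hab hτ (hm 1 (k + 2) (by omega) (by omega))
  have m10 := hab' one (hm k (k + 2) (by omega) (by omega))
  have m11 := hab hτ (hm (k + 2) (k + 3) (by omega) (by omega))
  have m12 := hab' hτ (hm 0 (k + 3) (by omega) (by omega))
  have m13 := hab one (hm 1 (k + 3) (by omega) (by omega))
  have m14 := hab' one (hm (k + 1) (k + 3) (by omega) (by omega))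
  rw [one_mul] at m2 m6 m8 m10 m13 m14
  rw [mul_sub] at m1 m3 m4 m5 m7 m9 m11 m12
  linarith


/-- the local sums of two neighbouring lengths -/
lemma pair_mu {f : ℕ → ℝ} (hf : Pm f) (v : ℕ → ℝ) (hv : ∀ n, 0 ≤ v n) (d k H K : ℕ) (hk : 2 ≤ k) (hd : 1 ≤ d)
    (hK : (H + k + 3) * d ≤ K) (N : ℕ) (μ B : ℝ) (hB : HB f v K N μ B) (τ : ℝ) (hτ : τ = 1 ∨ τ = -1) :
    T v (fun n => |V f d k H n + τ * V f d (k + 2) H n|) N ≤
      ((5 / 6 + (2 + 5 * τ) / 6 * μ) * H + 4) * T v (fun _ => 1) N + 2 * H * B := by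
  have hB0 : 0 ≤ B := by
    have hK1 : 1 ≤ K := by
      refine le_trans ?_ hK
      exact Nat.mul_pos (by omega) hd
    exact (abs_nonneg _).trans (hB 0 (by omega) 1 hK1 (by omega))
  have h4 : ∀ h ∈ range H, T v (fun n => pt f d k τ (n + h * d)) N ≤
      (4 + 10 * τ) * (μ * T v (fun _ => 1) N) + 22 * B := by
    intro h hh
    rw [mem_range] at hh
    exact pt_mean f v d k h K hk hd ((Nat.mul_le_mul_right d (by omega)).trans hK) N μ B hB τ hτ
  have h5 : T v (fun n => |V f d k H n + τ * V f d (k + 2) H n|) N ≤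
      T v (fun n => (5 / 6 * H + 4) * 1 + 1 / 12 * ∑ h ∈ range H, pt f d k τ (n + h * d)) N := by
    apply T_mono hv
    intro n
    have := local_pair hf d k H τ hτ n
    linarith
  have h6 : T v (fun n => (5 / 6 * H + 4) * 1 + 1 / 12 * ∑ h ∈ range H, pt f d k τ (n + h * d)) N =
      (5 / 6 * H + 4) * T v (fun _ => 1) N + 1 / 12 * ∑ h ∈ range H, T v (fun n => pt f d k τ (n + h * d)) N := by
    rw [← T_sum]
    unfold T
    rw [mul_sum, mul_sum, ← sum_add_distrib]
    apply sum_congr rfl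
    intro n _
    ring
  rw [h6] at h5
  have h7 := sum_le_sum h4
  rw [sum_const, card_range, nsmul_eq_mul] at h7
  have h8 : 0 ≤ (H : ℝ) * B := by positivity
  have h9 : ((5 / 6 + (2 + 5 * τ) / 6 * μ) * H + 4) * T v (fun _ => 1) N = (5 / 6 * H + 4) * T v (fun _ => 1) N +
      1 / 12 * (H * ((4 + 10 * τ) * (μ * T v (fun _ => 1) N))) := by ring
  rw [h9]
  linarith

lemma Z_mu (f : ℕ → ℝ) (v : ℕ → ℝ) (d m H K : ℕ) (hd : 1 ≤ d) (hm : 1 ≤ m) (hK : (H + m) * d ≤ K) (N : ℕ) (μ B : ℝ)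
    (hB : HB f v K N μ B) : T v (Z f d m H) N ≤ H * (μ * T v (fun _ => 1) N + B) := by
  have h1 : T v (Z f d m H) N = ∑ h ∈ range H, T v (fun n => f (n + h * d) * f (n + h * d + m * d)) N := by
    rw [← T_sum]
    rfl
  rw [h1]
  have h2 : ∀ h ∈ range H, T v (fun n => f (n + h * d) * f (n + h * d + m * d)) N ≤ μ * T v (fun _ => 1) N + B := by
    intro h hh
    rw [mem_range] at hh
    have h3 : h * d + m * d ≤ K := by
      refine le_trans ?_ hK
      rw [← add_mul]
      exact Nat.mul_le_mul_right d (by omega)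
    have h4 : h * d ≠ h * d + m * d := by
      have : 0 < m * d := Nat.mul_pos hm hd
      omega
    have h5 := hB (h * d) (by omega) _ h3 h4
    simp only [← add_assoc] at h5
    have := (abs_le.1 h5).2
    linarith
  refine (sum_le_sum h2).trans (le_of_eq ?_)
  rw [sum_const, card_range, nsmul_eq_mul]

/-- the mean square for two points -/
lemma msq_mu {f : ℕ → ℝ} (hf : Pm f) (v : ℕ → ℝ) (hv : ∀ n, 0 ≤ v n) (d H K : ℕ) (hd : 1 ≤ d) (hH : 1 ≤ H) (N : ℕ)
    (μ B : ℝ) (hμ0 : 0 ≤ μ) (hB0 : 0 ≤ B) (hB : HB f v K N μ B)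
    (hK : 3 * H * d ≤ K) : ∀ j m : ℕ, 1 ≤ m → H ≤ m + j →
      T v (fun n => Z f d m H n ^ 2) N ≤ ((1 + 2 * μ) / 3 * H ^ 2 + 6 * m * H) * T v (fun _ => 1) N + B * H ^ 2 := by
  have hH0 : (1 : ℝ) ≤ H := by exact_mod_cast hH
  have hT0 : 0 ≤ T v (fun _ => 1) N := sum_nonneg fun n _ => mul_nonneg (hv n) zero_le_one
  have triv : ∀ m : ℕ, 1 ≤ m → H ≤ m →
      T v (fun n => Z f d m H n ^ 2) N ≤ ((1 + 2 * μ) / 3 * H ^ 2 + 6 * m * H) * T v (fun _ => 1) N + B * H ^ 2 := by
    intro m hm hHm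
    have h1 : T v (fun n => Z f d m H n ^ 2) N ≤ T v (fun _ => (H : ℝ) ^ 2 * 1) N := by
      apply T_mono hv
      intro n
      rw [mul_one, ← sq_abs]
      exact pow_le_pow_left₀ (abs_nonneg _) (Z_abs hf d m H n) 2
    have h2 : T v (fun _ => (H : ℝ) ^ 2 * 1) N = (H : ℝ) ^ 2 * T v (fun _ => 1) N := by
      unfold T
      rw [mul_sum]
      apply sum_congr rfl
      intro n _
      ring
    rw [h2] at h1
    have h3 : (H : ℝ) ≤ m := by exact_mod_cast hHm
    have h4 : (H : ℝ) ^ 2 ≤ (1 + 2 * μ) / 3 * H ^ 2 + 6 * m * H := by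
      have e1 : 0 ≤ (1 + 2 * μ) / 3 * (H : ℝ) ^ 2 := by positivity
      nlinarith
    have h5 := mul_le_mul_of_nonneg_right h4 hT0
    have h6 : 0 ≤ B * (H : ℝ) ^ 2 := by positivity
    linarith
  intro j
  induction j with
  | zero =>
    intro m hm hj
    exact triv m hm (by omega)
  | succ j ih =>
    intro m hm hj
    by_cases hmH : H ≤ m
    · exact triv m hm hmH
    · have hm' : m ≤ H := by omega
      have hmr : (m : ℝ) ≤ H := by exact_mod_cast hm'
      have hm0 : (1 : ℝ) ≤ m := by exact_mod_cast hm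
      have h1 := ih (2 * m) (by omega) (by omega)
      have h2 : T v (Z f d (2 * m) H) N ≤ H * (μ * T v (fun _ => 1) N + B) := Z_mu f v d (2 * m) H K hd (by omega) (by
        refine le_trans (Nat.mul_le_mul_right d ?_) hK
        omega) N μ B hB
      have h3 : ∀ n, Z f d m H n ^ 2 ≤ (1 / 4 * (H : ℝ) ^ 2 + 3 * m * H) * 1 + H / 2 * Z f d (2 * m) H n +
          1 / 4 * Z f d (2 * m) H n ^ 2 := by
        intro n
        have e1 := tent_Z hf d m H n
        have e2 := abs_le.1 (Z_abs hf d (2 * m) H n)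
        have e3 : 0 ≤ (H + Z f d (2 * m) H n) / 2 := by linarith
        have e4 : (H + Z f d (2 * m) H n) / 2 ≤ H := by linarith
        have e5 := pow_le_pow_left₀ (abs_nonneg _) e1 2
        rw [sq_abs] at e5
        have e6 : ((H + Z f d (2 * m) H n) / 2 + (m : ℝ)) ^ 2 = (H + Z f d (2 * m) H n) ^ 2 / 4 +
          2 * m * ((H + Z f d (2 * m) H n) / 2) + m ^ 2 := by ring
        rw [e6] at e5
        have e7 : (m : ℝ) * ((H + Z f d (2 * m) H n) / 2) ≤ m * H := mul_le_mul_of_nonneg_left e4 (by linarith)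
        have e8 : (m : ℝ) ^ 2 ≤ m * H := by nlinarith
        have e9 : (H + Z f d (2 * m) H n) ^ 2 / 4 = 1 / 4 * (H : ℝ) ^ 2 + H / 2 * Z f d (2 * m) H n +
          1 / 4 * Z f d (2 * m) H n ^ 2 := by ring
        rw [e9] at e5
        linarith
      have h4 := T_mono hv h3 N
      have h5 : T v (fun n => (1 / 4 * (H : ℝ) ^ 2 + 3 * m * H) * 1 + H / 2 * Z f d (2 * m) H n +
          1 / 4 * Z f d (2 * m) H n ^ 2) N = (1 / 4 * (H : ℝ) ^ 2 + 3 * m * H) * T v (fun _ => 1) N +
          H / 2 * T v (Z f d (2 * m) H) N + 1 / 4 * T v (fun n => Z f d (2 * m) H n ^ 2) N := by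
        unfold T
        simp only [mul_sum, ← sum_add_distrib]
        apply sum_congr rfl
        intro n _
        ring
      rw [h5] at h4
      push_cast at h1
      have h6 : (H : ℝ) / 2 * T v (Z f d (2 * m) H) N ≤ H / 2 * (H * (μ * T v (fun _ => 1) N + B)) :=
        mul_le_mul_of_nonneg_left h2 (by linarith)
      have h7 : 0 ≤ B * (H : ℝ) ^ 2 := by positivity
      nlinarith

/-- the mean and the mean square of the local sums of the products over progressions -/
theorem moments_mu {f : ℕ → ℝ} (hf : Pm f) (v : ℕ → ℝ) (hv : ∀ n, 0 ≤ v n) (k d H K : ℕ) (hk : 2 ≤ k) (hd : 1 ≤ d)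
    (hH : 1 ≤ H) (hK : (3 * H + k) * d ≤ K) (N : ℕ) (μ B : ℝ) (hμ0 : 0 ≤ μ) (hB0 : 0 ≤ B) (hB : HB f v K N μ B) :
    T v (fun n => |V f d k H n|) N ≤ ((1 + μ) / 2 * H + 1) * T v (fun _ => 1) N + H * B ∧
    T v (fun n => V f d k H n ^ 2) N ≤ ((1 + 2 * μ) / 3 * H ^ 2 + 3 * k * H) * T v (fun _ => 1) N + H ^ 2 * B := by
  have hH0 : (1 : ℝ) ≤ H := by exact_mod_cast hH
  have hk0 : (2 : ℝ) ≤ k := by exact_mod_cast hk
  have hT0 : 0 ≤ T v (fun _ => 1) N := sum_nonneg fun n _ => mul_nonneg (hv n) zero_le_one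
  have hZ : T v (Z f d k H) N ≤ H * (μ * T v (fun _ => 1) N + B) := Z_mu f v d k H K hd (by omega)
    ((Nat.mul_le_mul_right d (by omega)).trans hK) N μ B hB
  have hHB : 0 ≤ (H : ℝ) * B := by positivity
  constructor
  · have h4 : T v (fun n => |V f d k H n|) N ≤ T v (fun n => (1 / 2 * H + 1) * 1 + 1 / 2 * Z f d k H n) N := by
      apply T_mono hv
      intro n
      have := tent_V hf d k H n
      linarith
    have h5 : T v (fun n => (1 / 2 * H + 1) * 1 + 1 / 2 * Z f d k H n) N =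
        (1 / 2 * H + 1) * T v (fun _ => 1) N + 1 / 2 * T v (Z f d k H) N := by
      unfold T
      simp only [mul_sum, ← sum_add_distrib]
      apply sum_congr rfl
      intro n _
      ring
    rw [h5] at h4
    have h6 : ((1 + μ) / 2 * H + 1) * T v (fun _ => 1) N = (1 / 2 * H + 1) * T v (fun _ => 1) N +
      1 / 2 * (H * (μ * T v (fun _ => 1) N)) := by ring
    rw [h6]
    linarith
  · have h1 := msq_mu hf v hv d H K hd hH N μ B hμ0 hB0 hB ((Nat.mul_le_mul_right d (by omega)).trans hK) H k (by omega)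
      (by omega)
    have h4 : ∀ n, V f d k H n ^ 2 ≤ (1 / 4 * (H : ℝ) ^ 2 + 3 * H) * 1 + H / 2 * Z f d k H n +
        1 / 4 * Z f d k H n ^ 2 := by
      intro n
      have e1 := tent_V hf d k H n
      have e2 := abs_le.1 (Z_abs hf d k H n)
      have e3 : 0 ≤ (H + Z f d k H n) / 2 := by linarith
      have e4 : (H + Z f d k H n) / 2 ≤ H := by linarith
      have e5 := pow_le_pow_left₀ (abs_nonneg _) e1 2
      rw [sq_abs] at e5
      have e6 : ((H + Z f d k H n) / 2 + 1) ^ 2 = (H + Z f d k H n) ^ 2 / 4 +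
        2 * ((H + Z f d k H n) / 2) + 1 := by ring
      rw [e6] at e5
      have e9 : (H + Z f d k H n) ^ 2 / 4 = 1 / 4 * (H : ℝ) ^ 2 + H / 2 * Z f d k H n +
        1 / 4 * Z f d k H n ^ 2 := by ring
      rw [e9] at e5
      linarith
    have h5 := T_mono hv h4 N
    have h6 : T v (fun n => (1 / 4 * (H : ℝ) ^ 2 + 3 * H) * 1 + H / 2 * Z f d k H n +
        1 / 4 * Z f d k H n ^ 2) N = (1 / 4 * (H : ℝ) ^ 2 + 3 * H) * T v (fun _ => 1) N +
        H / 2 * T v (Z f d k H) N + 1 / 4 * T v (fun n => Z f d k H n ^ 2) N := by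
      unfold T
      simp only [mul_sum, ← sum_add_distrib]
      apply sum_congr rfl
      intro n _
      ring
    rw [h6] at h5
    have h7 : (H : ℝ) / 2 * T v (Z f d k H) N ≤ H / 2 * (H * (μ * T v (fun _ => 1) N + B)) :=
      mul_le_mul_of_nonneg_left hZ (by linarith)
    have h8 : (3 * (H : ℝ)) * T v (fun _ => 1) N ≤ 3 / 2 * k * H * T v (fun _ => 1) N :=
      mul_le_mul_of_nonneg_right (by nlinarith) hT0
    have h9 : 0 ≤ (H : ℝ) ^ 2 * B := by positivity
    nlinarith

end Pool.Agent.U847.FG
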