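import Pool.Agent.U847.FG
import Pool.Agent.R509.PQ.Om

/-!
The number of the `i < k` with `Ω(n + i d) ∈ A`: its parity.
-/

set_option autoImplicit false

namespace Pool.Agent.U847.FG

open Finset
open Pool.Agent.R509.TT (Pm)
open Pool.Agent.Y958.U (LZ)
open Pool.Agent.U847.NL (cls T)
open Pool.Agent.U847.FA (P P_pm V Z pt local_pair tent tent_V tent_Z Z_abs V_abs VV_abs T_mono T_sum win_shift)
open Pool.Agent.R509.PQ (ff ff_01 ff_nn ff_le dn dn_nn dn_le TP twoP icc_range)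
open ArithmeticFunction (cardFactors)

/-- the signs -/
noncomputable def xx (A : Set ℕ) (n : ℕ) : ℝ := 1 - 2 * ff A n

lemma xx_pm (A : Set ℕ) : Pm (xx A) := by
  intro n
  unfold xx
  rcases ff_01 A n with h | h <;> rw [h] <;> norm_num

lemma T1 (F : ℕ → ℝ) (N : ℕ) : T (cls 1 0) F N = ∑ n ∈ range N, F n := by
  unfold T cls
  simp [Nat.mod_one]

lemma two_om {A E : Set ℕ} (hE : TP A E) (K : ℕ) (δ : ℝ) (hδ : 0 < δ) : ∃ N₀ : ℕ, ∀ N : ℕ, N₀ ≤ N → N ∉ E →
    HB (xx A) (cls 1 0) K N ((1 - 2 * dn A N) ^ 2) (δ * N) := by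
  have h1 : ∀ p : ℕ × ℕ, ∃ N₀ : ℕ, ∀ N : ℕ, N₀ ≤ N → N ∉ E → p.1 ≠ p.2 →
      |∑ n ∈ range N, ff A (n + p.1) * (ff A (n + p.2) - dn A N)| ≤ δ / 8 * N := by
    intro p
    by_cases hp : p.1 = p.2
    · exact ⟨0, fun N _ _ h => absurd hp h⟩
    · obtain ⟨N₀, h⟩ := hE p.1 p.2 hp (δ / 8) (by positivity)
      exact ⟨N₀, fun N hN hNE _ => h N hN hNE⟩
  choose N₀ h2 using h1
  obtain ⟨M, hM⟩ := exists_nat_ge (32 * (K : ℝ) / δ)
  refine ⟨∑ p ∈ range (K + 1) ×ˢ range (K + 1), N₀ p + M + 1, fun N hN hNE u hu w hw huw => ?_⟩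
  have hN' : N₀ (u, w) ≤ N := by
    have h3 : N₀ (u, w) ≤ ∑ p ∈ range (K + 1) ×ˢ range (K + 1), N₀ p :=
      single_le_sum (f := N₀) (fun _ _ => Nat.zero_le _)
        (mem_product.2 ⟨mem_range.2 (by simpa using Nat.lt_succ_of_le hu), mem_range.2 (by simpa using Nat.lt_succ_of_le hw)⟩)
    omega
  have h3 := h2 (u, w) N hN' hNE huw
  simp only at h3
  have hN0 : (0 : ℝ) < N := by exact_mod_cast (by omega : 0 < N)
  have h4 : 32 * (K : ℝ) / δ ≤ N := hM.trans (by exact_mod_cast (by omega : M ≤ N))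
  rw [div_le_iff₀ hδ] at h4
  set α := dn A N with hα
  have hα0 : 0 ≤ α := dn_nn A N
  have hα1 : α ≤ 1 := dn_le A N
  have hsum : ∑ n ∈ range N, ff A n = α * N := by
    rw [hα]
    unfold dn
    field_simp
  have hff : ∀ n, |ff A n| ≤ 1 := fun n => by rw [abs_of_nonneg (ff_nn A n)]; exact ff_le A n
  have sh : ∀ s ≤ K, |∑ n ∈ range N, ff A (n + s) - α * N| ≤ 2 * K := by
    intro s hs
    have h5 := win_shift (ff A) hff s N
    rw [hsum] at h5
    refine h5.trans ?_
    have : (s : ℝ) ≤ K := by exact_mod_cast hs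
    linarith
  have hu' := sh u hu
  have hw' := sh w hw
  have e1 : T (cls 1 0) (fun n => xx A (n + u) * xx A (n + w)) N - (1 - 2 * α) ^ 2 * T (cls 1 0) (fun _ => 1) N =
      (4 * α - 2) * (∑ n ∈ range N, ff A (n + u) - α * N) - 2 * (∑ n ∈ range N, ff A (n + w) - α * N) +
      4 * ∑ n ∈ range N, ff A (n + u) * (ff A (n + w) - α) := by
    rw [T1, T1]
    have e2 : ∑ n ∈ range N, xx A (n + u) * xx A (n + w) = ∑ n ∈ range N, (1 : ℝ) +
        (4 * α - 2) * ∑ n ∈ range N, ff A (n + u) - 2 * ∑ n ∈ range N, ff A (n + w) +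
        4 * ∑ n ∈ range N, ff A (n + u) * (ff A (n + w) - α) := by
      simp only [mul_sum, ← sum_add_distrib, ← sum_sub_distrib]
      apply sum_congr rfl
      intro n _
      unfold xx
      ring
    rw [e2, sum_const, card_range, nsmul_eq_mul]
    ring
  rw [e1]
  have h5 : |(4 * α - 2) * (∑ n ∈ range N, ff A (n + u) - α * N)| ≤ 4 * K := by
    rw [abs_mul]
    have h6 : |4 * α - 2| ≤ 2 := abs_le.2 ⟨by linarith, by linarith⟩
    calc |4 * α - 2| * |∑ n ∈ range N, ff A (n + u) - α * N| ≤ 2 * (2 * K) :=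
          mul_le_mul h6 hu' (abs_nonneg _) (by norm_num)
      _ = 4 * K := by ring
  have h6 := abs_le.1 h5
  have h7 := abs_le.1 hw'
  have h8 := abs_le.1 h3
  rw [abs_le]
  constructor <;> linarith [h6.1, h6.2, h7.1, h7.2, h8.1, h8.2]

open Classical in
/-- the number of the `i < k` with `Ω(n + i d) ∈ A` -/
noncomputable def cnt (A : Set ℕ) (d k n : ℕ) : ℕ := ((range k).filter (fun i => cardFactors (n + i * d) ∈ A)).card

lemma P_cnt (A : Set ℕ) (d k n : ℕ) : P (xx A) d k n = (-1) ^ cnt A d k (n + 1) := by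
  classical
  unfold P cnt
  have h1 : ∀ i, xx A (n + i * d) = if cardFactors (n + 1 + i * d) ∈ A then (-1 : ℝ) else 1 := by
    intro i
    unfold xx ff
    rw [show n + i * d + 1 = n + 1 + i * d by ring]
    split_ifs <;> norm_num
  rw [prod_congr rfl fun i _ => h1 i, prod_ite, prod_const, prod_const_one, mul_one]

open Classical in
/-- the proportion of the `1 ≤ n ≤ N` for which the number of the `i < k` with `Ω(n + i d) ∈ A` is even -/
noncomputable def ev (A : Set ℕ) (d k N : ℕ) : ℝ := (((Icc 1 N).filter (fun n => Even (cnt A d k n))).card : ℝ) / N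

open Classical in
/-- the same proportion in the window `n, n + d, ..., n + (H - 1) d` -/
noncomputable def evW (A : Set ℕ) (d k H n : ℕ) : ℝ :=
  (((range H).filter (fun h => Even (cnt A d k (n + h * d)))).card : ℝ) / H

lemma pow_even (c : ℕ) [Decidable (Even c)] : (-1 : ℝ) ^ c = 2 * (if Even c then (1 : ℝ) else 0) - 1 := by
  split_ifs with h
  · rw [h.neg_one_pow]; norm_num
  · rw [(Nat.not_even_iff_odd.1 h).neg_one_pow]; norm_num

lemma ev_eq (A : Set ℕ) (d k N : ℕ) (hN : 1 ≤ N) : (2 * ev A d k N - 1) * N = T (cls 1 0) (P (xx A) d k) N := by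
  classical
  have hN0 : (0 : ℝ) < N := by exact_mod_cast hN
  rw [T1]
  unfold ev
  rw [← sum_boole, icc_range]
  rw [sum_congr rfl fun n _ => (P_cnt A d k n).trans (pow_even _)]
  rw [sum_sub_distrib, ← mul_sum, sum_const, card_range, nsmul_eq_mul]
  field_simp

lemma evW_eq (A : Set ℕ) (d k H n : ℕ) (hH : 1 ≤ H) : (2 * evW A d k H (n + 1) - 1) * H = V (xx A) d k H n := by
  classical
  have hH0 : (0 : ℝ) < H := by exact_mod_cast hH
  unfold evW V
  rw [← sum_boole]
  rw [sum_congr rfl fun h _ => (P_cnt A d k (n + h * d)).trans (pow_even _)]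
  rw [sum_sub_distrib, ← mul_sum, sum_const, card_range, nsmul_eq_mul]
  have h1 : ∀ h, n + h * d + 1 = n + 1 + h * d := fun h => by ring
  simp only [h1]
  field_simp

end Pool.Agent.U847.FG
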