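import Pool.Agent.N625.DY.N
import Pool.Agent.N625.GW.E

set_option autoImplicit false

/-! Correlations with several random shifts: products of values of several functions, one of which is nice. -/

namespace Pool.Agent.U847.MX
open Finset
open Pool.Agent.W93.AU (Law)
open Pool.Agent.W93.LM (Nice)
open Pool.Agent.H373R2.T7 (exI)
open Pool.Agent.N625.DY (Cls fub val_bd NearT)

variable {b : ℕ} {κ : ℤ} {C : ℕ → (ℕ → ℝ) → Prop}

/-- all the sums near `y` are small -/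
def SmallF (f : ℕ → ℂ) (B U W N k : ℕ) {L : ℕ} (α : Fin L → ℕ) (θ : Fin L → ℕ → ℂ) (y : ℤ) : Prop :=
  ∀ y' : ℤ, |y' - y| ≤ (k : ℤ) ^ W → ∀ l, ∀ x : ℕ, α l * x ≤ B * N →
    ‖∑ n ∈ Icc 1 x, θ l n * exI f (α l * n + y')‖ ≤ N / (k : ℝ) ^ U

open Classical in
/-- one random shift, a nice function, weights of size `k ^ T` -/
theorem cls_nice (hC : Cls b κ C) (f : ℕ → ℂ) (hf : Nice f) (B T W U : ℕ) : ∃ k₀ : ℕ, ∀ k : ℕ, k₀ ≤ k → ∀ p, C k p →
    ∀ c : ℤ, |c| ≤ B * (b : ℤ) ^ k →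
    ∀ L : ℕ, (L : ℝ) ≤ (k : ℝ) ^ T → ∀ (α : Fin L → ℕ) (θ : Fin L → ℕ → ℂ),
      (∀ l, 1 ≤ α l) → (∀ l n, 1 ≤ n → α l * n ≤ B * b ^ k → ‖θ l n‖ ≤ (k : ℝ) ^ T) →
      ∑ v ∈ range (b ^ k), (if SmallF f B U W (b ^ k) k α θ (c + κ * (v : ℕ)) then 0 else p v) ≤ 1 / (k : ℝ) ^ U := by
  classical
  have hb := hC.two
  obtain ⟨F, hF, hlaw⟩ := hC.law
  obtain ⟨e, he⟩ : ∃ e : ℕ, e = 2 * B + κ.natAbs + 2 := ⟨_, rfl⟩
  obtain ⟨V, hV⟩ := Pool.Agent.R459.law_near_k b F hb hF f hf B T W U e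
  obtain ⟨D, K₀, hD⟩ := hlaw e V
  obtain ⟨k₀, h0⟩ := hV D
  refine ⟨K₀ + k₀ + 1, fun k hk p hp c hc L hL α θ hα hθ => ?_⟩
  have key := h0 k (by omega) ℕ (range (b ^ k)) p (fun v => c + κ * (v : ℕ)) (hD (k + e) (by omega) k rfl p hp c)
    (fun v hv => by
      rw [mem_range] at hv
      rw [he]
      exact val_bd hb B κ k c hc v hv) L hL
    (fun l => if hl : l < L then α ⟨l, hl⟩ else 1)
    (fun l n => if hl : l < L then θ ⟨l, hl⟩ n else 0)
    (fun l hl => by simp only [hl, dif_pos]; exact hα _)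
    (fun l hl n hn hnB => by
      simp only [hl, dif_pos] at hnB ⊢
      exact hθ _ n hn hnB)
    (fun v => ¬ SmallF f B U W (b ^ k) k α θ (c + κ * (v : ℕ)))
    (fun v _ hv => by
      unfold SmallF at hv
      push Not at hv
      obtain ⟨y', hy', l, x, hx, h2⟩ := hv
      refine ⟨y' - (c + κ * (v : ℕ)), hy', l, l.2, x, by simpa only [l.2, dif_pos] using hx, ?_⟩
      simp only [l.2, dif_pos]
      push_cast at h2 ⊢
      refine lt_of_lt_of_eq h2 ?_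
      congr 1
      apply sum_congr rfl
      intro n _
      congr 2
      ring)
  refine le_trans (le_of_eq ?_) key
  apply sum_congr rfl
  intro v _
  by_cases hv : SmallF f B U W (b ^ k) k α θ (c + κ * (v : ℕ))
  · rw [if_pos hv, if_neg (not_not.2 hv)]
  · rw [if_neg hv, if_pos hv]

/-- All the correlations of the functions `G e` with a nice one among them are small, also with the weights `θ l`. -/
def SmallG (B U N k : ℕ) {s m L : ℕ} (G : Fin m → ℤ → ℂ) (good : Finset (Fin m)) (a : Fin L → Fin s → ℕ) (θ : Fin L → ℕ → ℂ)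
    (y : Fin s → ℤ) : Prop :=
  ∀ e : Fin s → Fin m, ∀ i, e i ∈ good → ∀ l, ∀ x : ℕ, a l i * x ≤ B * N →
    ‖∑ n ∈ Icc 1 x, θ l n * ∏ j, G (e j) (a l j * n + y j)‖ ≤ N / (k : ℝ) ^ U

open Classical in
/-- one coordinate, one nice function -/
lemma one_coordG {m : ℕ} (G : Fin m → ℤ → ℂ) (hG : ∀ e z, ‖G e z‖ ≤ 1) (q : Fin m) (f : ℕ → ℂ) (hf : Nice f)
    (hq : ∀ z, G q z = exI f z) (hC : Cls b κ C) (s B T W U : ℕ) : ∃ k₀ : ℕ, ∀ k : ℕ, k₀ ≤ k →
    ∀ p, C k p → ∀ c : ℤ, |c| ≤ B * (b : ℤ) ^ k → ∀ L : ℕ, (L : ℝ) ≤ (k : ℝ) ^ T → ∀ (i : Fin s) (a : Fin L → Fin s → ℕ)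
      (θ : Fin L → ℕ → ℂ), (∀ l j, 1 ≤ a l j) →
      (∀ l n, 1 ≤ n → a l i * n ≤ B * b ^ k → ‖θ l n‖ ≤ (k : ℝ) ^ T) → ∀ z : Fin s → ℤ,
      ∑ w ∈ range (b ^ k), (if ∃ y' : Fin s → ℤ, (∀ j, j ≠ i → |y' j - z j| ≤ (k : ℤ) ^ W) ∧ |y' i - (c + κ * (w : ℕ))| ≤ (k : ℤ) ^ W ∧
        ∃ e : Fin s → Fin m, e i = q ∧ ∃ l, ∃ x : ℕ, a l i * x ≤ B * b ^ k ∧
          ((b ^ k : ℕ) : ℝ) / (k : ℝ) ^ U < ‖∑ n ∈ Icc 1 x, θ l n * ∏ j, G (e j) (a l j * n + y' j)‖ then p w else 0) ≤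
        1 / (k : ℝ) ^ U := by
  obtain ⟨k₀, h0⟩ := cls_nice hC f hf B (T + (W + 2) * s + m * s) W U
  refine ⟨k₀ + 2, fun k hk p hp c hc L hL i a θ ha hθ z => ?_⟩
  have hk2 : 2 ≤ k := by omega
  have hkr : (2 : ℝ) ≤ k := by exact_mod_cast hk2
  -- the index set of the weights
  obtain ⟨J, hJ⟩ : ∃ J : Finset (Fin L × (Fin s → Fin m) × (Fin s → ℤ)), J = univ ×ˢ univ ×ˢ
    Fintype.piFinset (fun _ : Fin s => Icc (-((k : ℤ) ^ W)) ((k : ℤ) ^ W)) := ⟨_, rfl⟩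
  have hJc : (J.card : ℝ) ≤ (k : ℝ) ^ (T + (W + 2) * s + m * s) := by
    have hc0 : Fintype.card (Fin s → Fin m) = m ^ s := by
      rw [Fintype.card_pi_const, Fintype.card_fin]
    rw [hJ, card_product, card_product, card_univ, card_univ, hc0, Fintype.card_fin,
      Fintype.card_piFinset_const, Int.card_Icc]
    push_cast
    have e1 : (((k : ℤ) ^ W + 1 - -((k : ℤ) ^ W)).toNat : ℝ) ≤ (k : ℝ) ^ (W + 2) := by
      have e2 : (((k : ℤ) ^ W + 1 - -((k : ℤ) ^ W)).toNat : ℤ) = 2 * (k : ℤ) ^ W + 1 := by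
        have e0 : (0 : ℤ) ≤ (k : ℤ) ^ W := by positivity
        rw [Int.toNat_of_nonneg (by linarith)]
        ring
      have e3 : (((k : ℤ) ^ W + 1 - -((k : ℤ) ^ W)).toNat : ℝ) = 2 * (k : ℝ) ^ W + 1 := by exact_mod_cast e2
      rw [e3, pow_add]
      have e4 : (1 : ℝ) ≤ (k : ℝ) ^ W := one_le_pow₀ (by linarith)
      have e5 : (4 : ℝ) ≤ (k : ℝ) ^ 2 := by nlinarith
      have e6 : (k : ℝ) ^ W * 4 ≤ (k : ℝ) ^ W * (k : ℝ) ^ 2 := mul_le_mul_of_nonneg_left e5 (by linarith)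
      linarith
    have e5 : (m : ℝ) ^ s ≤ (k : ℝ) ^ (m * s) := by
      rw [pow_mul]
      apply pow_le_pow_left₀ (Nat.cast_nonneg _)
      have h1 : (m : ℝ) ≤ (2 : ℝ) ^ m := by exact_mod_cast (Nat.lt_two_pow_self (n := m)).le
      exact h1.trans (pow_le_pow_left₀ (by norm_num) hkr m)
    calc (L : ℝ) * ((m : ℝ) ^ s * (((k : ℤ) ^ W + 1 - -((k : ℤ) ^ W)).toNat : ℝ) ^ s) ≤ (k : ℝ) ^ T * ((k : ℝ) ^ (m * s) * ((k : ℝ) ^ (W + 2)) ^ s) := by
          apply mul_le_mul hL _ (by positivity) (by positivity)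
          apply mul_le_mul e5 _ (by positivity) (by positivity)
          exact pow_le_pow_left₀ (Nat.cast_nonneg _) e1 s
      _ = (k : ℝ) ^ (T + (W + 2) * s + m * s) := by rw [← pow_mul, ← pow_add, ← pow_add]; congr 1; ring
  have key := h0 k (by omega) p hp c hc J.card hJc
    (fun r => a (J.equivFin.symm r).1.1 i)
    (fun r n => θ (J.equivFin.symm r).1.1 n * ∏ j ∈ univ.erase i,
      G ((J.equivFin.symm r).1.2.1 j) (a (J.equivFin.symm r).1.1 j * n + (z j + (J.equivFin.symm r).1.2.2 j)))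
    (fun _ => ha _ i) (fun r n hn hn2 => by
      rw [norm_mul, norm_prod]
      calc _ ≤ (k : ℝ) ^ T * 1 := mul_le_mul (hθ _ _ hn hn2) (prod_le_one (fun _ _ => norm_nonneg _) fun _ _ => hG _ _)
            (prod_nonneg fun _ _ => norm_nonneg _) (by positivity)
        _ = (k : ℝ) ^ T := mul_one _
        _ ≤ _ := pow_le_pow_right₀ (by linarith) (by omega))
  refine le_trans (sum_le_sum fun w _ => ?_) key
  have hp0 := hC.nonneg k p hp w
  by_cases hS : SmallF f B U W (b ^ k) k (fun r => a (J.equivFin.symm r).1.1 i)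
      (fun r n => θ (J.equivFin.symm r).1.1 n * ∏ j ∈ univ.erase i,
      G ((J.equivFin.symm r).1.2.1 j) (a (J.equivFin.symm r).1.1 j * n + (z j + (J.equivFin.symm r).1.2.2 j))) (c + κ * (w : ℕ))
  · rw [if_pos hS, if_neg]
    rintro ⟨y', h1, h2, e, heq, l, x, hx, hbig⟩
    obtain ⟨t, ht⟩ : ∃ t : Fin s → ℤ, t = fun j => if j = i then 0 else y' j - z j := ⟨_, rfl⟩
    have hmem : (l, e, t) ∈ J := by
      rw [hJ, mem_product, mem_product, Fintype.mem_piFinset]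
      refine ⟨mem_univ _, mem_univ _, fun j => ?_⟩
      rw [mem_Icc, ← abs_le, ht]
      simp only
      split_ifs with hj
      · rw [abs_zero]; positivity
      · exact h1 j hj
    have h3 := hS (y' i) h2 (J.equivFin ⟨(l, e, t), hmem⟩) x (by simp only [Equiv.symm_apply_apply]; exact hx)
    simp only [Equiv.symm_apply_apply] at h3
    apply absurd h3 (not_le.2 ?_)
    refine lt_of_lt_of_eq hbig ?_
    congr 1
    apply sum_congr rfl
    intro n _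
    rw [← mul_prod_erase univ _ (mem_univ i), heq, hq, mul_comm (exI f _), ← mul_assoc]
    congr 2
    apply prod_congr rfl
    intro j hj
    rw [mem_erase] at hj
    rw [ht]
    simp only [if_neg hj.1]
    congr 2
    ring
  · rw [if_neg hS]
    split_ifs
    · exact le_rfl
    · exact hp0

open Classical in
/-- **correlations of several functions with several random shifts** -/
theorem cls_multi (s m : ℕ) (b : ℕ) (κ : Fin s → ℤ) (C : Fin s → ℕ → (ℕ → ℝ) → Prop) (hC : ∀ i, Cls b (κ i) (C i))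
    (G : Fin m → ℤ → ℂ) (hG : ∀ e z, ‖G e z‖ ≤ 1) (good : Finset (Fin m))
    (hgood : ∀ e ∈ good, ∃ f, Nice f ∧ ∀ z, G e z = exI f z) (B T W U : ℕ) :
    ∃ k₀ : ℕ, ∀ k : ℕ, k₀ ≤ k → ∀ p : Fin s → ℕ → ℝ, (∀ i, C i k (p i)) → ∀ c : Fin s → ℤ, (∀ i, |c i| ≤ B * (b : ℤ) ^ k) →
      ∀ L : ℕ, (L : ℝ) ≤ (k : ℝ) ^ T → ∀ (a : Fin L → Fin s → ℕ) (θ : Fin L → ℕ → ℂ), (∀ l j, 1 ≤ a l j) →
      (∀ l n i, 1 ≤ n → a l i * n ≤ B * b ^ k → ‖θ l n‖ ≤ (k : ℝ) ^ T) →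
      ∑ v ∈ Fintype.piFinset (fun _ : Fin s => range (b ^ k)),
        (if NearT W k (SmallG B U (b ^ k) k G good a θ) (fun i => c i + κ i * (v i : ℕ)) then 0 else ∏ i, p i (v i)) ≤ 1 / (k : ℝ) ^ U := by
  choose! f hf using hgood
  have h' : ∀ (i : Fin s) (q : Fin m), ∃ k₀ : ℕ, q ∈ good → ∀ k : ℕ, k₀ ≤ k →
    ∀ p, C i k p → ∀ c : ℤ, |c| ≤ B * (b : ℤ) ^ k → ∀ L : ℕ, (L : ℝ) ≤ (k : ℝ) ^ T → ∀ (i' : Fin s) (a : Fin L → Fin s → ℕ)
      (θ : Fin L → ℕ → ℂ), (∀ l j, 1 ≤ a l j) →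
      (∀ l n, 1 ≤ n → a l i' * n ≤ B * b ^ k → ‖θ l n‖ ≤ (k : ℝ) ^ T) → ∀ z : Fin s → ℤ,
      ∑ w ∈ range (b ^ k), (if ∃ y' : Fin s → ℤ, (∀ j, j ≠ i' → |y' j - z j| ≤ (k : ℤ) ^ W) ∧ |y' i' - (c + κ i * (w : ℕ))| ≤ (k : ℤ) ^ W ∧
        ∃ e : Fin s → Fin m, e i' = q ∧ ∃ l, ∃ x : ℕ, a l i' * x ≤ B * b ^ k ∧
          ((b ^ k : ℕ) : ℝ) / (k : ℝ) ^ (U + 2) < ‖∑ n ∈ Icc 1 x, θ l n * ∏ j, G (e j) (a l j * n + y' j)‖ then p w else 0) ≤
        1 / (k : ℝ) ^ (U + 2) := by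
    intro i q
    by_cases hq : q ∈ good
    · obtain ⟨k₀, h⟩ := one_coordG G hG q (f q) (hf q hq).1 (hf q hq).2 (hC i) s B T W (U + 2)
      exact ⟨k₀, fun _ => h⟩
    · exact ⟨0, fun h => absurd h hq⟩
  choose k₀ h0 using h'
  refine ⟨∑ i, ∑ q, k₀ i q + s + m + 1, fun k hk p hp c hc L hL a θ ha hθ => ?_⟩
  have hk1 : (1 : ℝ) ≤ k := by exact_mod_cast (by omega : 1 ≤ k)
  have hk0 : ∀ i q, k₀ i q ≤ k := fun i q => by
    have h1 : k₀ i q ≤ ∑ q, k₀ i q := single_le_sum (f := fun q => k₀ i q) (fun _ _ => Nat.zero_le _) (mem_univ q)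
    have h2 : ∑ q, k₀ i q ≤ ∑ i, ∑ q, k₀ i q :=
      single_le_sum (f := fun i => ∑ q, k₀ i q) (fun _ _ => Nat.zero_le _) (mem_univ i)
    omega
  have hsk : (s : ℝ) ≤ k := by exact_mod_cast (by omega : s ≤ k)
  have hmk : (m : ℝ) ≤ k := by exact_mod_cast (by omega : m ≤ k)
  obtain ⟨E, hE⟩ : ∃ E : Fin s × Fin m → (Fin s → ℕ) → Prop, E = fun r v => ∃ y' : Fin s → ℤ,
      (∀ j, |y' j - (c j + κ j * (v j : ℕ))| ≤ (k : ℤ) ^ W) ∧
        ∃ e : Fin s → Fin m, e r.1 = r.2 ∧ ∃ l, ∃ x : ℕ, a l r.1 * x ≤ B * b ^ k ∧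
          ((b ^ k : ℕ) : ℝ) / (k : ℝ) ^ (U + 2) < ‖∑ n ∈ Icc 1 x, θ l n * ∏ j, G (e j) (a l j * n + y' j)‖ := ⟨_, rfl⟩
  have hfub : ∀ r : Fin s × Fin m, r.2 ∈ good →
      ∑ v ∈ Fintype.piFinset (fun _ : Fin s => range (b ^ k)), (if E r v then ∏ j, p j (v j) else 0) ≤ 1 / (k : ℝ) ^ (U + 2) := by
    rintro ⟨i, q⟩ hq
    apply fub i (range (b ^ k)) p (fun j v => (hC j).nonneg k _ (hp j) v) (fun j => (hC j).sum k _ (hp j)) (E (i, q))
    intro v _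
    refine le_trans (sum_le_sum fun w _ => ?_) (h0 i q hq k (hk0 i q) (p i) (hp i) (c i) (hc i) L hL i a θ ha
      (fun l n hn hn2 => hθ l n i hn hn2) (fun j => c j + κ j * (v j : ℕ)))
    have hp0 := (hC i).nonneg k _ (hp i) w
    by_cases hEw : E (i, q) (Function.update v i w)
    · rw [if_pos hEw, if_pos]
      rw [hE] at hEw
      obtain ⟨y', h1, e, h2⟩ := hEw
      refine ⟨y', fun j hj => ?_, ?_, e, h2⟩
      · have := h1 j
        rwa [Function.update_of_ne hj] at this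
      · have := h1 i
        rwa [Function.update_self] at this
    · rw [if_neg hEw]
      split_ifs
      · exact hp0
      · exact le_rfl
  have hbound : ∀ v ∈ Fintype.piFinset (fun _ : Fin s => range (b ^ k)),
      (if NearT W k (SmallG B U (b ^ k) k G good a θ) (fun i => c i + κ i * (v i : ℕ)) then 0 else ∏ i, p i (v i)) ≤
        ∑ r ∈ (univ : Finset (Fin s)) ×ˢ good, (if E r v then ∏ j, p j (v j) else 0) := by
    intro v _
    have hp0 : 0 ≤ ∏ j, p j (v j) := prod_nonneg fun j _ => (hC j).nonneg k _ (hp j) _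
    have hnn : ∀ r ∈ (univ : Finset (Fin s)) ×ˢ good, 0 ≤ (if E r v then ∏ j, p j (v j) else 0) := fun r _ => by
      split_ifs
      · exact hp0
      · exact le_rfl
    by_cases hS : NearT W k (SmallG B U (b ^ k) k G good a θ) (fun i => c i + κ i * (v i : ℕ))
    · rw [if_pos hS]
      exact sum_nonneg hnn
    · rw [if_neg hS]
      unfold NearT SmallG at hS
      push Not at hS
      obtain ⟨y', h1, e, i, hi, l, x, hx, hbig⟩ := hS
      have hEi : E (i, e i) v := by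
        rw [hE]
        refine ⟨y', h1, e, rfl, l, x, hx, lt_of_le_of_lt ?_ hbig⟩
        apply div_le_div_of_nonneg_left (by positivity) (by positivity)
        exact pow_le_pow_right₀ hk1 (by omega)
      have := single_le_sum (f := fun r => if E r v then ∏ j, p j (v j) else 0) hnn
        (show (i, e i) ∈ (univ : Finset (Fin s)) ×ˢ good from mem_product.2 ⟨mem_univ _, hi⟩)
      simp only [if_pos hEi] at this
      exact this
  refine (sum_le_sum hbound).trans ?_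
  rw [sum_comm]
  refine (sum_le_sum fun r hr => hfub r (mem_product.1 hr).2).trans ?_
  rw [sum_const, nsmul_eq_mul, card_product, card_univ, Fintype.card_fin]
  have hc1 : ((s * good.card : ℕ) : ℝ) ≤ (k : ℝ) ^ 2 := by
    push_cast
    have : (good.card : ℝ) ≤ m := by
      have := card_le_univ good
      rw [Fintype.card_fin] at this
      exact_mod_cast this
    nlinarith [Nat.cast_nonneg (α := ℝ) s, Nat.cast_nonneg (α := ℝ) good.card]
  rw [pow_add]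
  have hkU : (0 : ℝ) < (k : ℝ) ^ U := by positivity
  have hk2 : (0 : ℝ) < (k : ℝ) ^ 2 := by positivity
  rw [mul_one_div, div_le_div_iff₀ (by positivity) (by positivity), one_mul]
  nlinarith

end Pool.Agent.U847.MX
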