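import Pool.Agent.U847.WK

set_option autoImplicit false

/-! Sign patterns of the Liouville function at linear forms with several random shifts. -/

namespace Pool.Agent.U847.PT
open Finset
open Pool.Agent.R459.Shift (lam)

/-- The values `λ (a l j * n + y' j)` behave like independent random signs with respect to the weights `θ l`, for all the
vectors `y'` near `y`. -/
def Pat (B U W N k : ℕ) {s L : ℕ} (a : Fin L → Fin s → ℕ) (θ : Fin L → ℕ → ℂ) (y : Fin s → ℤ) : Prop :=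
  ∀ y' : Fin s → ℤ, (∀ i, |y' i - y i| ≤ (k : ℤ) ^ W) → ∀ l,
    (∀ I : Finset (Fin s), ∀ i ∈ I, ∀ x : ℕ, a l i * x ≤ B * N →
      ‖∑ n ∈ Icc 1 x, θ l n * ∏ j ∈ I, (lam (a l j * n + y' j) : ℂ)‖ ≤ N / (k : ℝ) ^ U) ∧
    ((∀ j, 0 ≤ y' j) → ∀ σ : Fin s → ℤ, (∀ j, σ j = 1 ∨ σ j = -1) → ∀ x : ℕ, (∀ j, a l j * x ≤ B * N) →
      ‖∑ n ∈ (Icc 1 x).filter (fun n : ℕ => ∀ j, lam (a l j * n + y' j) = σ j), θ l n - (∑ n ∈ Icc 1 x, θ l n) / 2 ^ s‖ ≤
        N / (k : ℝ) ^ U)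

/-- the functions `1` and `λ` -/
def gl (e : Fin 2) (z : ℤ) : ℂ := if e = 0 then 1 else (lam z : ℂ)

lemma gl_norm (e : Fin 2) (z : ℤ) : ‖gl e z‖ ≤ 1 := by
  unfold gl
  split_ifs
  · simp
  · exact Pool.Agent.N625.DY.norm_lam z

lemma gl_good : ∀ e ∈ ({1} : Finset (Fin 2)), ∃ f, Pool.Agent.W93.LM.Nice f ∧ ∀ z, gl e z = Pool.Agent.H373R2.T7.exI f z := by
  intro e he
  rw [mem_singleton] at he
  subst he
  refine ⟨Pool.Agent.H373R2.T7.liR, Pool.Agent.W93.LM.nice_liR, fun z => ?_⟩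
  unfold gl
  rw [if_neg (by decide)]
  exact Pool.Agent.R459.Shift.lam_exI z

lemma prod_gl {s : ℕ} (I : Finset (Fin s)) (z : Fin s → ℤ) :
    ∏ j, gl (if j ∈ I then 1 else 0) (z j) = ∏ j ∈ I, (lam (z j) : ℂ) := by
  have h : ∀ j, gl (if j ∈ I then 1 else 0) (z j) = if j ∈ I then (lam (z j) : ℂ) else 1 := by
    intro j
    unfold gl
    by_cases hj : j ∈ I
    · simp [hj]
    · simp [hj]
  rw [prod_congr rfl fun j _ => h j, prod_ite_mem, univ_inter]

lemma lam_pm {z : ℤ} (hz : 1 ≤ z) : lam z = 1 ∨ lam z = -1 := by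
  unfold lam
  rw [if_pos hz]
  exact neg_one_pow_eq_or ℤ _

/-- from the correlations to the patterns -/
theorem pat_of {B U W N k s L : ℕ} (a : Fin L → Fin s → ℕ) (ha : ∀ l j, 1 ≤ a l j) (θ : Fin L → ℕ → ℂ) (y : Fin s → ℤ)
    (h : Pool.Agent.N625.DY.NearT W k (Pool.Agent.U847.MX.SmallG B U N k gl {1} a θ) y) : Pat B U W N k a θ y := by
  intro y' hy' l
  have h1 : ∀ I : Finset (Fin s), ∀ i ∈ I, ∀ x : ℕ, a l i * x ≤ B * N →
      ‖∑ n ∈ Icc 1 x, θ l n * ∏ j ∈ I, (lam (a l j * n + y' j) : ℂ)‖ ≤ N / (k : ℝ) ^ U := by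
    intro I i hi x hx
    have h2 := h y' hy' (fun j => if j ∈ I then 1 else 0) i (by simp [hi]) l x hx
    refine le_trans (le_of_eq ?_) h2
    congr 1
    apply sum_congr rfl
    intro n _
    rw [prod_gl]
  refine ⟨h1, fun hpos σ hσ x hx => ?_⟩
  have hNk : (0 : ℝ) ≤ N / (k : ℝ) ^ U := by positivity
  -- the expansion of the indicator function of the pattern
  have hind : ∀ n ∈ Icc 1 x, (if ∀ j, lam (a l j * n + y' j) = σ j then θ l n else 0) =
      (∑ I : Finset (Fin s), (∏ j ∈ I, (σ j : ℂ)) * (θ l n * ∏ j ∈ I, (lam (a l j * n + y' j) : ℂ))) / 2 ^ s := by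
    intro n hn
    rw [mem_Icc] at hn
    have hl : ∀ j, lam (a l j * n + y' j) = 1 ∨ lam (a l j * n + y' j) = -1 := fun j => lam_pm (by
      have e1 : 1 ≤ (a l j : ℤ) * n := by
        have : 1 ≤ a l j * n := Nat.mul_pos (ha l j) hn.1
        exact_mod_cast this
      have := hpos j
      linarith)
    have e2 : ∑ I : Finset (Fin s), (∏ j ∈ I, (σ j : ℂ)) * (θ l n * ∏ j ∈ I, (lam (a l j * n + y' j) : ℂ)) =
        θ l n * ∏ j, (1 + (σ j : ℂ) * (lam (a l j * n + y' j) : ℂ)) := by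
      rw [prod_one_add, mul_sum, ← Finset.powerset_univ]
      apply sum_congr rfl
      intro I _
      rw [prod_mul_distrib]
      ring
    rw [e2]
    by_cases hc : ∀ j, lam (a l j * n + y' j) = σ j
    · rw [if_pos hc]
      have e3 : ∀ j, 1 + (σ j : ℂ) * (lam (a l j * n + y' j) : ℂ) = 2 := by
        intro j
        rw [hc j]
        rcases hσ j with h3 | h3 <;> rw [h3] <;> norm_num
      rw [prod_congr rfl fun j _ => e3 j, prod_const, card_univ, Fintype.card_fin]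
      field_simp
    · rw [if_neg hc]
      push Not at hc
      obtain ⟨j, hj⟩ := hc
      have e3 : 1 + (σ j : ℂ) * (lam (a l j * n + y' j) : ℂ) = 0 := by
        rcases hσ j with h3 | h3
        · have h4 : lam (a l j * n + y' j) = -1 := by
            rcases hl j with h4 | h4
            · exact absurd (h4.trans h3.symm) hj
            · exact h4
          rw [h3, h4]
          norm_num
        · have h4 : lam (a l j * n + y' j) = 1 := by
            rcases hl j with h4 | h4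
            · exact h4
            · exact absurd (h4.trans h3.symm) hj
          rw [h3, h4]
          norm_num
      rw [prod_eq_zero (mem_univ j) e3, mul_zero, zero_div]
  rw [sum_filter, sum_congr rfl hind, ← sum_div, sum_comm, ← sub_div, norm_div]
  have e4 : ‖(2 : ℂ) ^ s‖ = 2 ^ s := by rw [norm_pow]; norm_num
  rw [e4, div_le_iff₀ (by positivity)]
  have e5 : ∑ I : Finset (Fin s), ∑ n ∈ Icc 1 x, (∏ j ∈ I, (σ j : ℂ)) * (θ l n * ∏ j ∈ I, (lam (a l j * n + y' j) : ℂ)) -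
      ∑ n ∈ Icc 1 x, θ l n =
      ∑ I ∈ (univ : Finset (Finset (Fin s))).erase ∅, (∏ j ∈ I, (σ j : ℂ)) * ∑ n ∈ Icc 1 x, θ l n * ∏ j ∈ I, (lam (a l j * n + y' j) : ℂ) := by
    rw [← add_sum_erase univ _ (mem_univ ∅)]
    simp only [prod_empty, one_mul, mul_one, add_sub_cancel_left]
    apply sum_congr rfl
    intro I _
    rw [mul_sum]
  rw [e5]
  refine (norm_sum_le _ _).trans ?_
  have e6 : ∀ I ∈ (univ : Finset (Finset (Fin s))).erase ∅,
      ‖(∏ j ∈ I, (σ j : ℂ)) * ∑ n ∈ Icc 1 x, θ l n * ∏ j ∈ I, (lam (a l j * n + y' j) : ℂ)‖ ≤ N / (k : ℝ) ^ U := by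
    intro I hI
    rw [mem_erase] at hI
    obtain ⟨i, hi⟩ := nonempty_iff_ne_empty.2 hI.1
    rw [norm_mul, norm_prod]
    have e7 : ∏ j ∈ I, ‖(σ j : ℂ)‖ = 1 := prod_eq_one fun j _ => by
      rcases hσ j with h3 | h3 <;> rw [h3] <;> simp
    rw [e7, one_mul]
    exact h1 I i hi x (hx i)
  refine (sum_le_sum e6).trans ?_
  rw [sum_const, nsmul_eq_mul, mul_comm]
  apply mul_le_mul_of_nonneg_left _ hNk
  have e8 : ((univ : Finset (Finset (Fin s))).erase ∅).card ≤ 2 ^ s := by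
    refine (card_erase_le).trans ?_
    rw [card_univ, Fintype.card_finset, Fintype.card_fin]
  exact_mod_cast e8

open Classical in
/-- patterns with several shifts given by walks -/
theorem w_pat (s b : ℕ) (X : Fin s → Type) (δ : ∀ i, X i → ℕ → Option (X i)) (hG : ∀ i, Pool.Agent.N625.GW.Graph b (δ i))
    (x : ∀ i, X i) (ρ : Fin s → ℝ) (hρ : ∀ i, 0 < ρ i) (hR : ∀ i, Pool.Agent.N625.GW.Rho b (δ i) (x i) (ρ i))
    (D : ℕ) (κ : Fin s → ℤ) (hκ : ∀ i, κ i ≠ 0) (B T W U : ℕ) :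
    ∃ k₀ : ℕ, ∀ k : ℕ, k₀ ≤ k → ∀ y : ∀ i, X i,
      (∀ i, ρ i ^ k ≤ (k : ℝ) ^ D * (Pool.Agent.N625.GW.walks b (δ i) k (x i) (y i)).card) →
      ∀ c : Fin s → ℤ, (∀ i, |c i| ≤ B * (b : ℤ) ^ k) →
      ∀ L : ℕ, (L : ℝ) ≤ (k : ℝ) ^ T → ∀ (a : Fin L → Fin s → ℕ) (θ : Fin L → ℕ → ℂ), (∀ l j, 1 ≤ a l j) →
      (∀ l n i, 1 ≤ n → a l i * n ≤ B * b ^ k → ‖θ l n‖ ≤ (k : ℝ) ^ T) →
      (((Fintype.piFinset fun i => Pool.Agent.N625.GW.walks b (δ i) k (x i) (y i)).filter fun v : Fin s → ℕ =>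
        ¬ Pat B U W (b ^ k) k a θ (fun i => c i + κ i * (v i : ℤ))).card : ℝ) ≤
        (Fintype.piFinset fun i => Pool.Agent.N625.GW.walks b (δ i) k (x i) (y i)).card / (k : ℝ) ^ U := by
  obtain ⟨k₀, h⟩ := Pool.Agent.U847.WK.w_multi s 2 b X δ hG x ρ hρ hR D κ hκ gl gl_norm {1} gl_good B T W U
  refine ⟨k₀, fun k hk y hy c hc L hL a θ ha hθ => ?_⟩
  refine le_trans ?_ (h k hk y hy c hc L hL a θ ha hθ)
  apply Nat.cast_le.2
  apply card_le_card
  intro v hv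
  rw [mem_filter] at hv ⊢
  exact ⟨hv.1, fun hcon => hv.2 (pat_of a ha θ _ hcon)⟩

end Pool.Agent.U847.PT
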