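import Pool.Agent.N625.PT.M

set_option autoImplicit false

/-! Classes of distributions of random integers given by digits: prime pairs whose difference is a multiple of a neighbour of
a random integer, for all the scales comparable with the multiples. -/

namespace Pool.Agent.U847.PV
open Finset
open Pool.Agent.N625.PT
open Pool.Agent.Y885 (TLaw)
open Pool.Agent.W93.TD (HLs)

variable {b : ℕ} {κ : ℤ} {C : ℕ → (ℕ → ℝ) → Prop}

/-- the level for a given scale -/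
lemma level' (b : ℕ) (hb : 2 ≤ b) (T J₂ k N : ℕ) (h1 : b ^ k ≤ T * N) (h2 : N ≤ k ^ J₂ * b ^ k) :
    ∃ e : ℕ, T * N ≤ b ^ (k + e) ∧ b ^ (k + e) ≤ b * T * N ∧ e ≤ J₂ * (Nat.log b k + 1) + T + 1 := by
  have hbk : 0 < b ^ k := by positivity
  have hTN : 0 < T * N := lt_of_lt_of_le hbk h1
  rcases Nat.eq_or_lt_of_le h1 with h0 | h0
  · refine ⟨0, by rw [add_zero, h0], ?_, by omega⟩
    rw [add_zero, h0, mul_assoc]
    exact Nat.le_mul_of_pos_left _ (by omega)
  obtain ⟨K, hK⟩ : ∃ K, K = Nat.clog b (T * N) := ⟨_, rfl⟩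
  have hT1 : 1 < T * N := by omega
  have a1 : T * N ≤ b ^ K := by rw [hK]; exact Nat.le_pow_clog (by omega) _
  have a2 : b ^ K.pred < T * N := by rw [hK]; exact Nat.pow_pred_clog_lt_self (by omega) (by omega)
  have hkK : k < K := by
    have : b ^ k < b ^ K := by omega
    exact (Nat.pow_lt_pow_iff_right (by omega)).1 this
  obtain ⟨e, he⟩ : ∃ e, K = k + e := ⟨K - k, by omega⟩
  refine ⟨e, by rw [← he]; exact a1, ?_, ?_⟩
  · rw [← he]
    have e1 : b ^ K = b * b ^ K.pred := by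
      conv_lhs => rw [← Nat.succ_pred_eq_of_pos (show 0 < K by omega), pow_succ]
      ring
    rw [e1, mul_assoc]
    exact Nat.mul_le_mul_left _ a2.le
  · have h3 : b ^ K.pred < b ^ (k + (J₂ * (Nat.log b k + 1) + T)) := by
      refine lt_of_lt_of_le a2 ?_
      have h4 := pow_ex b J₂ hb k
      have h5 : T ≤ b ^ T := (Nat.lt_pow_self (by omega)).le
      calc T * N ≤ T * (k ^ J₂ * b ^ k) := Nat.mul_le_mul_left _ h2
        _ ≤ b ^ T * (b ^ (J₂ * (Nat.log b k + 1)) * b ^ k) := Nat.mul_le_mul h5 (Nat.mul_le_mul_right _ h4)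
        _ = _ := by rw [← pow_add, ← pow_add]; congr 1; ring
    have h6 := (Nat.pow_lt_pow_iff_right (by omega)).1 h3
    rw [Nat.pred_eq_sub_one] at h6
    omega

lemma pi_one (n : ℕ) (f : ℕ → ℝ) :
    ∑ ω ∈ Fintype.piFinset (fun _ : Fin 1 => range n), f (ω 0) = ∑ v ∈ range n, f v := by
  apply sum_nbij (fun ω => ω 0)
  · intro ω hω
    rw [Fintype.mem_piFinset] at hω
    exact hω 0
  · intro a _ b _ hab
    funext i
    have : i = 0 := Subsingleton.elim _ _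
    rw [this]
    exact hab
  · intro v hv
    refine ⟨fun _ => v, ?_, rfl⟩
    rw [mem_coe, Fintype.mem_piFinset]
    exact fun _ => hv
  · intro ω _
    rfl

open Classical in
/-- prime pairs: the differences are all the multiples of the integers near a random integer, which are not much larger than
the range -/
theorem t_pair (hC : TCls b κ C) (B J J₂ M W U : ℕ) (ε : ℝ) (hε : 0 < ε) : ∃ k₀ : ℕ, ∀ k : ℕ, k₀ ≤ k → ∀ p, C k p →
    ∀ c : ℤ, |c| ≤ B * (b : ℤ) ^ k → ∀ N : ℕ, b ^ k ≤ M * N → N ≤ k ^ J₂ * b ^ k →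
    ∀ Q : ℕ → Prop, (∀ v, ¬ Q v → ∃ h : ℕ, 1 ≤ h ∧ h ≤ k ^ J ∧ h * b ^ k ≤ M * N ∧ ∃ s : ℤ, |s| ≤ (k : ℤ) ^ W ∧
      0 ≤ (h : ℤ) * (c + s + κ * v) ∧ ¬ HLs ε (U + J + W + 1) N (fun _ : Fin 1 => ((h : ℤ) * (c + s + κ * v)).toNat)) →
    ∑ v ∈ range (b ^ k), (if Q v then 0 else p v) ≤ 1 / (k : ℝ) ^ U := by
  have hb := hC.two
  obtain ⟨F, hF, hlaw⟩ := hC.law
  obtain ⟨U', hU'⟩ : ∃ U', U' = U + J + W + 1 := ⟨_, rfl⟩
  obtain ⟨T, hT⟩ : ∃ T, T = 1 + (B + κ.natAbs + 2) * F * M := ⟨_, rfl⟩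
  obtain ⟨cc, m₀, hlaw⟩ := hlaw (3 * J₂ + (T + 1)) (2 * (2 * U' + 5 + 1 + 2) + 6)
  obtain ⟨K₀, hmain⟩ := Pool.Agent.Y885.tl_tuples 1 b 15 cc (b * T) U' le_rfl hb (by norm_num) ε hε
  obtain ⟨k4, h4⟩ := pow_le_pow_digits b hb W
  refine ⟨m₀ + K₀ + k4 + 4, fun k hk p hp c hc N hN1 hN2 Q hQ => ?_⟩
  have hk3 : (3 : ℝ) ≤ k := by exact_mod_cast (by omega : 3 ≤ k)
  have hk0 : (0 : ℝ) < k := by linarith
  have hbk : 0 < b ^ k := by positivity
  have hN0 : 0 < N := by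
    rcases Nat.eq_zero_or_pos N with h0 | h0
    · rw [h0, mul_zero] at hN1
      omega
    · exact h0
  refine Pool.Agent.N625.PT.union J W U k (by omega) (b ^ k) p (hC.nonneg k p hp)
    (fun h s v => h * b ^ k ≤ M * N ∧ 0 ≤ (h : ℤ) * (c + s + κ * v) ∧
      ¬ HLs ε U' N (fun _ : Fin 1 => ((h : ℤ) * (c + s + κ * v)).toNat)) Q (fun v hv => by
      obtain ⟨h, hh1, hh2, hh3, s, hs, h5, h6⟩ := hQ v hv
      exact ⟨h, hh1, hh2, s, hs, hh3, h5, by rw [hU']; exact h6⟩) ?_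
  intro h hh1 hh2 s hs
  by_cases hh3 : h * b ^ k ≤ M * N
  swap
  · refine le_trans (le_of_eq ?_) (by positivity : (0 : ℝ) ≤ 1 / (k : ℝ) ^ (U + J + W + 1))
    apply sum_eq_zero
    intro v _
    rw [if_neg]
    exact fun h => hh3 h.1
  have hM0 : 0 < M := by
    rcases Nat.eq_zero_or_pos M with h0 | h0
    · rw [h0, zero_mul] at hN1
      omega
    · exact h0
  have hMT : M ≤ T := by
    rw [hT]
    have : M ≤ (B + κ.natAbs + 2) * F * M := Nat.le_mul_of_pos_left _ (by positivity)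
    omega
  have hTN : b ^ k ≤ T * N := hN1.trans (Nat.mul_le_mul_right _ hMT)
  obtain ⟨e, he1, he2, he3⟩ := level' b hb T J₂ k N hTN hN2
  have heW : (e : ℝ) ≤ ((3 * J₂ + (T + 1) : ℕ) : ℝ) * Real.log k := by
    refine le_trans ?_ (ex_le b J₂ (T + 1) hb k (by omega))
    unfold ex
    exact_mod_cast (by omega : e ≤ J₂ * (Nat.log b k + 1) + (T + 1))
  have hFh : F * h * b ^ k ≤ b ^ (k + e) := by
    refine le_trans ?_ he1
    calc F * h * b ^ k = F * (h * b ^ k) := by ring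
      _ ≤ F * (M * N) := Nat.mul_le_mul_left _ hh3
      _ = F * M * N := by ring
      _ ≤ T * N := by
          apply Nat.mul_le_mul_right
          rw [hT]
          have : F * M ≤ (B + κ.natAbs + 2) * (F * M) := Nat.le_mul_of_pos_left _ (by omega)
          have e1 : (B + κ.natAbs + 2) * (F * M) = (B + κ.natAbs + 2) * F * M := by ring
          omega
  have hlog : Nat.log b (F * h) ≤ e := by
    have g1 : F * h ≤ b ^ e := by
      rw [pow_add, mul_comm (b ^ k)] at hFh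
      exact Nat.le_of_mul_le_mul_right hFh hbk
    calc Nat.log b (F * h) ≤ Nat.log b (b ^ e) := Nat.log_mono_right g1
      _ = e := Nat.log_pow (by omega) _
  have t := hlaw k (by omega) e heW h hh1 hlog p hp (c + s)
  have hsz : ∀ v ∈ range (b ^ k), |(h : ℤ) * (c + s + κ * (v : ℕ))| + N ≤ (b : ℤ) ^ (k + e) := by
    intro v hv
    rw [mem_range] at hv
    have v0 : (0 : ℤ) ≤ (v : ℤ) := Int.natCast_nonneg _
    have v1 : ((v : ℕ) : ℤ) ≤ (b : ℤ) ^ k := by exact_mod_cast hv.le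
    have hbk0 : (0 : ℤ) ≤ (b : ℤ) ^ k := by positivity
    have hkW' : ((k : ℤ)) ^ W ≤ (b : ℤ) ^ k := by exact_mod_cast h4 k (by omega)
    have q1 := abs_add_le (c + s) (κ * (v : ℤ))
    have q2 := abs_add_le c s
    have q3 : |κ * (v : ℤ)| ≤ (κ.natAbs : ℤ) * (b : ℤ) ^ k := by
      rw [abs_mul, Int.abs_eq_natAbs κ, abs_of_nonneg v0]
      exact mul_le_mul_of_nonneg_left v1 (Int.natCast_nonneg _)
    have q4 : |c + s + κ * (v : ℤ)| ≤ ((B + κ.natAbs + 1 : ℕ) : ℤ) * (b : ℤ) ^ k := by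
      push_cast at q3 ⊢
      linarith
    rw [abs_mul, Nat.abs_cast]
    have q5 : (h : ℤ) * |c + s + κ * (v : ℤ)| ≤ ((B + κ.natAbs + 1 : ℕ) : ℤ) * ((M * N : ℕ) : ℤ) := by
      calc (h : ℤ) * |c + s + κ * (v : ℤ)| ≤ (h : ℤ) * (((B + κ.natAbs + 1 : ℕ) : ℤ) * (b : ℤ) ^ k) :=
            mul_le_mul_of_nonneg_left q4 (Int.natCast_nonneg _)
        _ = ((B + κ.natAbs + 1 : ℕ) : ℤ) * (((h * b ^ k : ℕ)) : ℤ) := by push_cast; ring
        _ ≤ _ := mul_le_mul_of_nonneg_left (by exact_mod_cast hh3) (Int.natCast_nonneg _)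
    have q6 : (B + κ.natAbs + 1) * (M * N) + N ≤ T * N := by
      have g0 : T * N = N + (B + κ.natAbs + 2) * F * M * N := by rw [hT]; ring
      rw [g0]
      have g1 : (B + κ.natAbs + 1) * (M * N) ≤ (B + κ.natAbs + 2) * F * M * N := by
        calc (B + κ.natAbs + 1) * (M * N) ≤ ((B + κ.natAbs + 2) * F) * (M * N) := by
              apply Nat.mul_le_mul_right
              calc B + κ.natAbs + 1 ≤ (B + κ.natAbs + 2) * 1 := by omega
                _ ≤ (B + κ.natAbs + 2) * F := Nat.mul_le_mul_left _ hF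
          _ = _ := by ring
      omega
    have q7 : ((B + κ.natAbs + 1 : ℕ) : ℤ) * ((M * N : ℕ) : ℤ) + N ≤ (b : ℤ) ^ (k + e) := by
      exact_mod_cast q6.trans he1
    linarith
  have key := hmain (k + e) (by omega) ℕ inferInstance (fun _ => range (b ^ k)) (fun _ => p)
    (fun _ v => (h : ℤ) * (c + s + κ * v)) (fun _ => t) (fun _ => hC.sum k p hp) N he2
    (by
      refine le_trans ?_ he1
      exact Nat.le_mul_of_pos_left _ (by omega))
    (fun _ v hv => by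
      have b1 := hsz v hv
      have b2 := abs_nonneg ((h : ℤ) * (c + s + κ * (v : ℕ)))
      have b3 := neg_abs_le ((h : ℤ) * (c + s + κ * (v : ℕ)))
      have b4 := le_abs_self ((h : ℤ) * (c + s + κ * (v : ℕ)))
      have b5 : (0 : ℤ) < N := by exact_mod_cast hN0
      constructor
      · linarith
      · linarith)
    (fun ω => 0 ≤ (h : ℤ) * (c + s + κ * (ω 0 : ℕ)) ∧ ¬ HLs ε U' N (fun _ : Fin 1 => ((h : ℤ) * (c + s + κ * (ω 0 : ℕ))).toNat))
    (fun _ => Classical.propDecidable _) (fun ω _ hω => ⟨fun i => by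
      have : i = 0 := Subsingleton.elim _ _
      rw [this]
      exact hω.1, fun hg => hω.2 (by
        have e : (fun i : Fin 1 => ((h : ℤ) * (c + s + κ * (ω i : ℕ))).toNat) =
            (fun _ : Fin 1 => ((h : ℤ) * (c + s + κ * (ω 0 : ℕ))).toNat) := by
          funext i
          have : i = 0 := Subsingleton.elim _ _
          rw [this]
        rw [← e]
        exact hg)⟩)
  rw [← hU']
  refine (le_trans (le_of_eq ?_) key).trans ?_
  · rw [← pi_one (b ^ k) (fun v : ℕ => @ite ℝ (h * b ^ k ≤ M * N ∧ 0 ≤ (h : ℤ) * (c + s + κ * (v : ℕ)) ∧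
      ¬ HLs ε U' N (fun _ : Fin 1 => ((h : ℤ) * (c + s + κ * (v : ℕ))).toNat)) (Classical.propDecidable _) (p v) 0)]
    apply sum_congr rfl
    intro ω _
    rw [Fin.prod_univ_one]
    by_cases hq : 0 ≤ (h : ℤ) * (c + s + κ * (ω 0 : ℕ)) ∧
      ¬ HLs ε U' N (fun _ : Fin 1 => ((h : ℤ) * (c + s + κ * (ω 0 : ℕ))).toNat)
    · rw [if_pos hq, if_pos ⟨hh3, hq⟩]
    · rw [if_neg hq, if_neg (fun hh => hq hh.2)]
  · apply one_div_le_one_div_of_le (by positivity)
    apply pow_le_pow_left₀ hk0.le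
    exact_mod_cast (by omega : k ≤ k + e)

end Pool.Agent.U847.PV
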