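import Pool.Agent.U847.TG
import Pool.Agent.N625.DY.D2
import Pool.Agent.N625.DY.F
import Pool.Agent.N213.GF.G
import Pool.Agent.N213.GF.H

set_option autoImplicit false

/-! Walks in graphs whose edges carry digits, random fields on the digits, nested words: the law for all the multiples. -/

namespace Pool.Agent.U847.TI
open Finset
open Pool.Agent.H807R2.Dav
open Pool.Agent.W93.AU
open Pool.Agent.W93.DG
open Pool.Agent.N625.DY (act)
open Pool.Agent.N625.PT (TCls)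
open Pool.Agent.U847.TG

section walks
open Pool.Agent.N625.GW

variable {X : Type} {b : ℕ} {δ : X → ℕ → Option X}

/-- walks: the exponential sums are small at the frequencies with many good positions -/
theorem w_good (hG : Graph b δ) (x : X) (ρ : ℝ) (hρ : 0 < ρ) (hR : Rho b δ x ρ) (D₀ : ℕ) :
    CharGood b (b ^ 2).factorial (WC b δ x ρ D₀) := by
  classical
  intro c hc0 hc1 V
  have hb := two_le hG x
  have hB2 : (2 : ℝ) ≤ b := by exact_mod_cast hb
  have hρ2 := rho_two hG hR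
  obtain ⟨M, hM⟩ : ∃ M, M = (b ^ 2).factorial := ⟨_, rfl⟩
  have hM1 : (1 : ℝ) ≤ M := by rw [hM]; exact_mod_cast Nat.factorial_pos _
  obtain ⟨c', hc'⟩ : ∃ c', c' = c / (2 * (M : ℝ) ^ 2) := ⟨_, rfl⟩
  have hc'0 : 0 < c' := by rw [hc']; positivity
  have hc'c : c' ≤ c := by
    rw [hc']
    apply div_le_self hc0.le
    nlinarith
  obtain ⟨μ, hμ⟩ : ∃ μ, μ = Real.sqrt (1 - c' / ρ ^ 2) := ⟨_, rfl⟩
  have hcb : c' / ρ ^ 2 ≤ c' := div_le_self hc'0.le (by linarith)
  have hcb0 : 0 < c' / ρ ^ 2 := by positivity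
  have hμ0 : 0 ≤ μ := by rw [hμ]; exact Real.sqrt_nonneg _
  have hμ1 : μ < 1 := by
    rw [hμ, Real.sqrt_lt' one_pos]
    linarith
  have hμ2 : μ ^ 2 = 1 - c' / ρ ^ 2 := by rw [hμ, Real.sq_sqrt (by linarith)]
  have hμ3 : ρ ^ 2 - c' = ρ ^ 2 * μ ^ 2 := by
    rw [hμ2]
    field_simp
  obtain ⟨D', hD'⟩ := exists_pow_lt_of_lt_one (show 0 < (1 / (b : ℝ)) ^ (V + D₀) by positivity) hμ1
  refine ⟨D' + 1, 1, fun K hK m hmK p hp θ ht => ?_⟩
  obtain ⟨y, hy, rfl⟩ := hp
  rw [← hM] at ht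
  obtain ⟨Lg, hLg⟩ : ∃ Lg, Lg = Nat.log b K + 1 := ⟨_, rfl⟩
  have hLg1 : 1 ≤ Lg := by omega
  obtain ⟨g, hg⟩ : ∃ g : ℕ → Prop, g = fun j => Gq b c' ((b : ℝ) ^ j * θ) := ⟨_, rfl⟩
  have hact : ((range m).filter (fun j : ℕ => Gd b c ((b : ℝ) ^ j * ((M : ℝ) * θ)))).card ≤ act g m + 1 := by
    have h1 : (range m).filter (fun j : ℕ => Gd b c ((b : ℝ) ^ j * ((M : ℝ) * θ))) ⊆
        ((range (m - 1)).filter g) ∪ {m - 1} := by
      intro j hj
      rw [mem_filter, mem_range] at hj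
      rw [mem_union, mem_filter, mem_range, mem_singleton]
      by_cases hjm : j = m - 1
      · exact Or.inr hjm
      · left
        refine ⟨by omega, ?_⟩
        rw [hg]
        simp only
        rw [hc', hM]
        apply gq_of hb c hc0.le (by linarith)
        have e1 : (((b ^ 2).factorial : ℕ) : ℝ) * ((b : ℝ) ^ j * θ) = (b : ℝ) ^ j * ((M : ℝ) * θ) := by
          rw [hM]
          ring
        rw [e1]
        exact hj.2
    refine (card_le_card h1).trans ((card_union_le _ _).trans ?_)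
    rw [card_singleton]
    rfl
  have hact2 : D' * Lg ≤ act g m := by
    rw [← hLg] at ht
    have e2 : (D' + 1) * Lg = D' * Lg + Lg := by ring
    rw [e2] at ht
    omega
  have hpos : (0 : ℝ) < (walks b δ m x y).card := by exact_mod_cast card_pos' hρ hy
  have hN0 : 0 < (walks b δ m x y).card := card_pos' hρ hy
  have h1 := Z_final hG θ y ρ c' μ hρ (tame_reach hG hR m hN0) hc'0.le (by linarith) (by linarith) hμ0 hμ1.le hμ3 g
    (fun j hj => by rw [hg] at hj; exact hj) m x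
  have hKr : (1 : ℝ) ≤ K := by exact_mod_cast hK
  have h3 : μ ^ act g m ≤ 1 / (K : ℝ) ^ (V + D₀) := by
    refine (pow_le_pow_of_le_one hμ0 hμ1.le hact2).trans ?_
    rw [hLg]
    exact pow_log_le b hb μ hμ0 _ D' hD'.le K hK
  have h4 : (m : ℝ) ^ D₀ ≤ (K : ℝ) ^ D₀ := by
    apply pow_le_pow_left₀ (Nat.cast_nonneg _)
    exact_mod_cast hmK
  obtain ⟨N, hN⟩ : ∃ N : ℝ, N = ((walks b δ m x y).card : ℝ) := ⟨_, rfl⟩
  have h5 : ‖Z b δ θ y m x‖ ≤ 1 / (K : ℝ) ^ V * N := by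
    calc ‖Z b δ θ y m x‖ ≤ ρ ^ m * μ ^ act g m := h1
      _ ≤ ((K : ℝ) ^ D₀ * N) * (1 / (K : ℝ) ^ (V + D₀)) := by
          apply mul_le_mul _ h3 (by positivity) (by rw [hN]; positivity)
          rw [hN]
          exact hy.trans (mul_le_mul_of_nonneg_right h4 hpos.le)
      _ = 1 / (K : ℝ) ^ V * N := by
          rw [pow_add]
          field_simp
  have h6 : ∑ v ∈ range (b ^ m), (((if v ∈ walks b δ m x y then 1 / ((walks b δ m x y).card : ℝ) else 0 : ℝ)) : ℂ) * ee (v * θ) =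
      ((1 / N : ℝ) : ℂ) * Z b δ θ y m x := by
    have hZ : Z b δ θ y m x = ∑ v ∈ walks b δ m x y, ee (v * θ) := rfl
    rw [hZ, mul_sum, ← w_sum m, hN]
    apply sum_congr rfl
    intro v _
    split_ifs
    · rfl
    · rw [Complex.ofReal_zero, zero_mul]
  rw [h6, norm_mul, Complex.norm_real, Real.norm_eq_abs, abs_of_pos (by rw [hN]; positivity)]
  have hN1 : 0 < N := by rw [hN]; exact hpos
  calc 1 / N * ‖Z b δ θ y m x‖ ≤ 1 / N * (1 / (K : ℝ) ^ V * N) := mul_le_mul_of_nonneg_left h5 (by positivity)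
    _ = 1 / (K : ℝ) ^ V := by field_simp

/-- walks: the class, with the law for all the multiples -/
theorem w_tcls (hG : Graph b δ) (x : X) (ρ : ℝ) (hρ : 0 < ρ) (hR : Rho b δ x ρ) (D₀ : ℕ) (κ : ℤ) (hκ : κ ≠ 0) :
    TCls b κ (WC b δ x ρ D₀) :=
  tcls_of b (b ^ 2).factorial (two_le hG x) (Nat.factorial_pos _) _
    (w_cls hG x ρ hρ hR D₀ 1 one_ne_zero).nonneg (w_cls hG x ρ hρ hR D₀ 1 one_ne_zero).sum
    (w_good hG x ρ hρ hR D₀) κ hκ

end walks

section fields
open Pool.Agent.N213.GF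

variable {b : ℕ}

/-- random fields: the exponential sums are small at the frequencies with many good positions -/
theorem gf_good (hb : 2 ≤ b) (Δ : ℕ) (η : ℝ) (hη : 0 < η) : CharGood b 1 (GC b Δ η) := by
  classical
  intro c hc0 hc1 V
  rcases le_or_gt η (1 / 2) with hη2 | hη2
  swap
  · refine ⟨1, 1, fun K hK m hm p hp θ ht => ?_⟩
    obtain ⟨A, hF⟩ := hp
    have h1 : 0 < ((range m).filter (fun j : ℕ => Gd b c ((b : ℝ) ^ j * (((1 : ℕ) : ℝ) * θ)))).card := by omega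
    have h2 := card_filter_le (range m) (fun j : ℕ => Gd b c ((b : ℝ) ^ j * (((1 : ℕ) : ℝ) * θ)))
    rw [card_range] at h2
    exact absurd (eta_half hF (by omega)) (by linarith)
  obtain ⟨μ, hμ⟩ : ∃ μ, μ = 1 - η * c := ⟨_, rfl⟩
  have hηc : η * c ≤ 1 / 2 := by nlinarith
  have hηc0 : 0 < η * c := mul_pos hη hc0
  have hμ0 : 0 ≤ μ := by rw [hμ]; linarith
  have hμ1 : μ < 1 := by rw [hμ]; linarith
  obtain ⟨D', hD'⟩ := exists_pow_lt_of_lt_one (show 0 < (1 / (b : ℝ)) ^ V by positivity) hμ1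
  obtain ⟨M, hM⟩ : ∃ M, M = (Δ + 1) ^ 3 := ⟨_, rfl⟩
  refine ⟨M * D', 1, fun K hK m hm p hp θ ht => ?_⟩
  obtain ⟨A, hF⟩ := hp
  obtain ⟨Lg, hLg⟩ : ∃ Lg, Lg = Nat.log b K + 1 := ⟨_, rfl⟩
  rw [Nat.cast_one, one_mul, ← hLg] at ht
  obtain ⟨G, hG⟩ : ∃ G : Finset ℕ, G = (range m).filter (fun j => Gd b c ((b : ℝ) ^ j * θ)) := ⟨_, rfl⟩
  rw [← hG] at ht
  obtain ⟨S, hSG, hS1, hS2⟩ := greedy hF.symm hF.degree G.card G (fun i hi => by
    rw [hG, mem_filter, mem_range] at hi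
    exact hi.1) le_rfl
  have h1 := char_field hb hF c θ hη.le (by linarith) S (fun i hi => by
    have := hSG hi
    rw [hG, mem_filter, mem_range] at this
    exact this.1) hS1 (fun i hi => by
    have := hSG hi
    rw [hG, mem_filter, mem_range] at this
    exact this.2)
  refine h1.trans ?_
  rw [← hμ]
  have h2 : D' * Lg ≤ S.card := by
    rw [← hM] at hS2
    have h3 : M * (D' * Lg) ≤ M * S.card := by
      rw [← mul_assoc]
      exact ht.trans hS2
    exact Nat.le_of_mul_le_mul_left h3 (by rw [hM]; positivity)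
  refine (pow_le_pow_of_le_one hμ0 hμ1.le h2).trans ?_
  rw [hLg]
  exact pow_log_le b hb μ hμ0 _ D' hD'.le K hK

/-- random fields: the class, with the law for all the multiples -/
theorem gf_tcls (b Δ : ℕ) (η : ℝ) (hb : 2 ≤ b) (hη : 0 < η) (κ : ℤ) (hκ : κ ≠ 0) : TCls b κ (GC b Δ η) :=
  tcls_of b 1 hb le_rfl _ (gf_cls b Δ η hb hη 1 one_ne_zero).nonneg (gf_cls b Δ η hb hη 1 one_ne_zero).sum
    (gf_good hb Δ η hη) κ hκ

end fields

section brackets
open Pool.Agent.N625.DY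

variable {b : ℕ} {P : Finset (ℕ × ℕ)} {E : Finset ℕ}

/-- nested words: the exponential sums are small at the frequencies with many good positions -/
theorem br_good (hA : Alphabet b P E) : CharGood b (b - 1) (BrC b P E) := by
  classical
  intro c hc0 hc1 V
  have hb := two_le hA
  have hbe := beta_ge hA
  have hB2 : (2 : ℝ) ≤ b := by exact_mod_cast hb
  obtain ⟨μ, hμ⟩ : ∃ μ, μ = Real.sqrt (1 - c / beta P E ^ 2) := ⟨_, rfl⟩
  have hcb : c / beta P E ^ 2 ≤ c := div_le_self hc0.le (by nlinarith)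
  have hcb0 : 0 < c / beta P E ^ 2 := by positivity
  have hμ0 : 0 ≤ μ := by rw [hμ]; exact Real.sqrt_nonneg _
  have hμ1 : μ < 1 := by
    rw [hμ, Real.sqrt_lt' one_pos]
    linarith
  have hμ2 : μ ^ 2 = 1 - c / beta P E ^ 2 := by rw [hμ, Real.sq_sqrt (by linarith)]
  have hμ3 : beta P E ^ 2 - c = beta P E ^ 2 * μ ^ 2 := by
    rw [hμ2]
    field_simp
  obtain ⟨D', hD'⟩ := exists_pow_lt_of_lt_one (show 0 < (1 / (b : ℝ)) ^ (V + 3) by positivity) hμ1
  obtain ⟨k1, hk1⟩ := poly2 (2 * beta P E) (by linarith)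
  refine ⟨D' + 1, k1 + 1, fun K hK m hmK p hp θ ht => ?_⟩
  obtain ⟨hev, rfl⟩ := hp
  obtain ⟨Lg, hLg⟩ : ∃ Lg, Lg = Nat.log b K + 1 := ⟨_, rfl⟩
  have hLg1 : 1 ≤ Lg := by omega
  obtain ⟨g, hg⟩ : ∃ g : ℕ → Prop, g = fun j => Gd b c ((b : ℝ) ^ j * (((b : ℝ) - 1) * θ)) := ⟨_, rfl⟩
  have hact : ((range m).filter (fun j : ℕ => Gd b c ((b : ℝ) ^ j * (((b - 1 : ℕ) : ℝ) * θ)))).card ≤ act g m + 1 := by
    have h1 : (range m).filter (fun j : ℕ => Gd b c ((b : ℝ) ^ j * (((b - 1 : ℕ) : ℝ) * θ))) ⊆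
        ((range (m - 1)).filter g) ∪ {m - 1} := by
      intro j hj
      rw [mem_filter, mem_range] at hj
      rw [mem_union, mem_filter, mem_range, mem_singleton]
      by_cases hjm : j = m - 1
      · exact Or.inr hjm
      · left
        refine ⟨by omega, ?_⟩
        rw [hg]
        simp only
        have := hj.2
        rw [Nat.cast_sub (by omega), Nat.cast_one] at this
        exact this
    refine (card_le_card h1).trans ((card_union_le _ _).trans ?_)
    rw [card_singleton]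
    rfl
  have hact2 : D' * Lg ≤ act g m := by
    rw [← hLg] at ht
    have e2 : (D' + 1) * Lg = D' * Lg + Lg := by ring
    rw [e2] at ht
    omega
  have h1 := (Z_bound hA (by omega) θ c μ hc0.le (by linarith) hμ0 hμ1.le hμ3 g (fun j hj => by rw [hg] at hj; exact hj) m).1 []
  rw [show hh P [] = 1 from rfl, mul_one] at h1
  have h2 := Nn_big hA m hev
  rw [← card_brackets hA] at h2
  have hpos : (0 : ℝ) < (brackets b P E m).card := by exact_mod_cast card_pos_of hA m hev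
  obtain ⟨N, hN⟩ : ∃ N : ℝ, N = ((brackets b P E m).card : ℝ) := ⟨_, rfl⟩
  rw [← hN] at h2 hpos
  have hN0 : 0 ≤ N := hpos.le
  have hK1 : 1 ≤ K := by omega
  have hKr : (1 : ℝ) ≤ K := by exact_mod_cast hK1
  have h3 : μ ^ act g m ≤ 1 / (K : ℝ) ^ (V + 3) := by
    refine (pow_le_pow_of_le_one hμ0 hμ1.le hact2).trans ?_
    rw [hLg]
    exact pow_log_le b hb μ hμ0 _ D' hD'.le K hK1
  have h4 : 2 * beta P E * ((m : ℝ) + 1) ^ 2 ≤ (K : ℝ) ^ 3 := by
    refine le_trans ?_ (hk1 K (by omega))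
    have e1 : (m : ℝ) ≤ K := by exact_mod_cast (by omega : m ≤ K)
    have e2 : ((m : ℝ) + 1) ^ 2 ≤ ((K : ℝ) + 1) ^ 2 := pow_le_pow_left₀ (by positivity) (by linarith) 2
    exact mul_le_mul_of_nonneg_left e2 (by linarith)
  have h5 : ‖Z b P E θ m []‖ ≤ 1 / (K : ℝ) ^ V * N := by
    calc ‖Z b P E θ m []‖ ≤ beta P E ^ m * μ ^ act g m := h1
      _ ≤ (2 * beta P E * ((m : ℝ) + 1) ^ 2 * N) * (1 / (K : ℝ) ^ (V + 3)) := mul_le_mul h2 h3 (by positivity) (by positivity)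
      _ ≤ ((K : ℝ) ^ 3 * N) * (1 / (K : ℝ) ^ (V + 3)) := by
          apply mul_le_mul_of_nonneg_right _ (by positivity)
          exact mul_le_mul_of_nonneg_right h4 hN0
      _ = 1 / (K : ℝ) ^ V * N := by
          rw [pow_add]
          field_simp
  have h6 : ∑ v ∈ range (b ^ m), (((if v ∈ brackets b P E m then 1 / ((brackets b P E m).card : ℝ) else 0 : ℝ)) : ℂ) * ee (v * θ) =
      ((1 / N : ℝ) : ℂ) * Z b P E θ m [] := by
    rw [Z_nil hA, mul_sum, ← br_sum m, hN]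
    apply sum_congr rfl
    intro v _
    split_ifs
    · rfl
    · rw [Complex.ofReal_zero, zero_mul]
  rw [h6, norm_mul, Complex.norm_real, Real.norm_eq_abs, abs_of_pos (by positivity)]
  calc 1 / N * ‖Z b P E θ m []‖ ≤ 1 / N * (1 / (K : ℝ) ^ V * N) := mul_le_mul_of_nonneg_left h5 (by positivity)
    _ = 1 / (K : ℝ) ^ V := by field_simp

/-- nested words: the class, with the law for all the multiples -/
theorem br_tcls (hA : Alphabet b P E) (κ : ℤ) (hκ : κ ≠ 0) : TCls b κ (BrC b P E) :=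
  tcls_of b (b - 1) (two_le hA) (by have := two_le hA; omega) _
    (br_cls hA 1 one_ne_zero).nonneg (br_cls hA 1 one_ne_zero).sum (br_good hA) κ hκ

end brackets

end Pool.Agent.U847.TI
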