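import Pool.Agent.U847.LN

set_option autoImplicit false

/-! Walks in graphs whose edges carry digits: one random integer, and several functions. -/

namespace Pool.Agent.U847.WK
open Finset
open Pool.Agent.N625.GW (Graph walks Rho WC w_cls w_sub card_pos' unif_count)
open Pool.Agent.N625.DY (NearT)
open Pool.Agent.U847.MX (SmallG cls_multi)
open Pool.Agent.U847.LN (HalfNear cls_half)
open Pool.Agent.W93.LM (Nice)
open Pool.Agent.H373R2.T7 (exI)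

open Classical in
/-- from probabilities to numbers -/
lemma unif_one (R S : Finset ℕ) (hS : S ⊆ R) (hpos : 0 < S.card) (Q : ℕ → Prop) (x : ℝ)
    (h : ∑ v ∈ R, (if Q v then 0 else (if v ∈ S then 1 / (S.card : ℝ) else 0)) ≤ x) :
    ((S.filter fun v => ¬ Q v).card : ℝ) ≤ S.card * x := by
  have hpos' : (0 : ℝ) < S.card := by exact_mod_cast hpos
  have h1 : ((S.filter fun v => ¬ Q v).card : ℝ) / S.card ≤ x := by
    refine le_trans ?_ h
    rw [← mul_one_div, ← nsmul_eq_mul, ← sum_const]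
    have hsub : S.filter (fun v => ¬ Q v) ⊆ R := (filter_subset _ _).trans hS
    refine le_trans (le_of_eq ?_) (sum_le_sum_of_subset_of_nonneg hsub ?_)
    · apply sum_congr rfl
      intro v hv
      rw [mem_filter] at hv
      rw [if_neg hv.2, if_pos hv.1]
    · intro v _ _
      split_ifs
      · exact le_rfl
      · positivity
      · exact le_rfl
  rwa [div_le_iff₀ hpos', mul_comm] at h1

open Classical in
/-- lengths given by walks -/
theorem w_half {X : Type} (b : ℕ) (δ : X → ℕ → Option X) (hG : Graph b δ) (x : X) (ρ : ℝ) (hρ : 0 < ρ) (hR : Rho b δ x ρ)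
    (D a : ℕ) (ha : 1 ≤ a) (κ : ℤ) (hκ : κ ≠ 0) (B T W U : ℕ) :
    ∃ k₀ : ℕ, ∀ k : ℕ, k₀ ≤ k → ∀ y : X, ρ ^ k ≤ (k : ℝ) ^ D * (walks b δ k x y).card →
      ∀ c : ℤ, |c| ≤ B * (b : ℤ) ^ k → ∀ d : ℕ, d ≤ B * b ^ k →
      ∀ L : ℕ, (L : ℝ) ≤ (k : ℝ) ^ T → ∀ ξ : Fin L → ℕ → ℂ, (∀ l n, ‖ξ l n‖ ≤ 1) →
      (((walks b δ k x y).filter fun v => ¬ HalfNear a d B U W (b ^ k) k ξ (c + κ * (v : ℕ))).card : ℝ) ≤
        (walks b δ k x y).card / (k : ℝ) ^ U := by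
  have ha' : (a : ℤ) ≠ 0 := by exact_mod_cast (by omega : a ≠ 0)
  obtain ⟨k₀, h0⟩ := cls_half ha (w_cls hG x ρ hρ hR D (a * κ) (mul_ne_zero ha' hκ)) B T W U
  refine ⟨k₀, fun k hk y hy c hc d hd L hL ξ hξ => ?_⟩
  have h1 := h0 k hk (fun v => if v ∈ walks b δ k x y then 1 / ((walks b δ k x y).card : ℝ) else 0) ⟨y, hy, rfl⟩ c hc d hd L hL ξ hξ
  have h2 := unif_one (range (b ^ k)) (walks b δ k x y) (w_sub _ _ _) (card_pos' hρ hy) _ _ h1
  rw [mul_one_div] at h2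
  exact h2

open Classical in
/-- correlations of several functions with several shifts given by walks -/
theorem w_multi (s m b : ℕ) (X : Fin s → Type) (δ : ∀ i, X i → ℕ → Option (X i)) (hG : ∀ i, Graph b (δ i)) (x : ∀ i, X i)
    (ρ : Fin s → ℝ) (hρ : ∀ i, 0 < ρ i) (hR : ∀ i, Rho b (δ i) (x i) (ρ i)) (D : ℕ) (κ : Fin s → ℤ) (hκ : ∀ i, κ i ≠ 0)
    (G : Fin m → ℤ → ℂ) (hGb : ∀ e z, ‖G e z‖ ≤ 1) (good : Finset (Fin m))
    (hgood : ∀ e ∈ good, ∃ f, Nice f ∧ ∀ z, G e z = exI f z) (B T W U : ℕ) :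
    ∃ k₀ : ℕ, ∀ k : ℕ, k₀ ≤ k → ∀ y : ∀ i, X i, (∀ i, ρ i ^ k ≤ (k : ℝ) ^ D * (walks b (δ i) k (x i) (y i)).card) →
      ∀ c : Fin s → ℤ, (∀ i, |c i| ≤ B * (b : ℤ) ^ k) →
      ∀ L : ℕ, (L : ℝ) ≤ (k : ℝ) ^ T → ∀ (a : Fin L → Fin s → ℕ) (θ : Fin L → ℕ → ℂ), (∀ l j, 1 ≤ a l j) →
      (∀ l n i, 1 ≤ n → a l i * n ≤ B * b ^ k → ‖θ l n‖ ≤ (k : ℝ) ^ T) →
      (((Fintype.piFinset fun i => walks b (δ i) k (x i) (y i)).filter fun v =>
        ¬ NearT W k (SmallG B U (b ^ k) k G good a θ) (fun i => c i + κ i * (v i : ℕ))).card : ℝ) ≤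
        (Fintype.piFinset fun i => walks b (δ i) k (x i) (y i)).card / (k : ℝ) ^ U := by
  obtain ⟨k₀, h0⟩ := cls_multi s m b κ (fun i => WC b (δ i) (x i) (ρ i) D)
    (fun i => w_cls (hG i) (x i) (ρ i) (hρ i) (hR i) D (κ i) (hκ i)) G hGb good hgood B T W U
  refine ⟨k₀, fun k hk y hy c hc L hL a θ ha hθ => ?_⟩
  have h1 := h0 k hk (fun i v => if v ∈ walks b (δ i) k (x i) (y i) then 1 / ((walks b (δ i) k (x i) (y i)).card : ℝ) else 0)
    (fun i => ⟨y i, hy i, rfl⟩) c hc L hL a θ ha hθ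
  have h2 := unif_count (fun _ => range (b ^ k)) (fun i => walks b (δ i) k (x i) (y i)) (fun i => w_sub _ _ _)
    (fun i => card_pos' (hρ i) (hy i)) _ _ h1
  rw [mul_one_div] at h2
  exact h2

end Pool.Agent.U847.WK
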