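import Pool.Agent.U847.TI
import Pool.Agent.N625.PT.X2

set_option autoImplicit false

/-! Classes of distributions of random integers given by digits whose exponential sums decay exponentially in the number of
the good positions: the values at the rational numbers. -/

namespace Pool.Agent.U847.XP
open Finset
open Pool.Agent.TH872
open Pool.Agent.Y958.SP (nn)
open Pool.Agent.H807R2.Dav
open Pool.Agent.W93.AU
open Pool.Agent.W93.DG
open Pool.Agent.H491R3.AM (gd_far)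
open Pool.Agent.N625.PT (TCls far_low nn_rat)
open Pool.Agent.N625.DY (act)

open Classical in
/-- the exponential sums decay exponentially in the number of the good positions of `M θ` -/
def CharExp (b M : ℕ) (C : ℕ → (ℕ → ℝ) → Prop) : Prop :=
  ∀ c : ℝ, 0 < c → c ≤ 1 / 4 → ∃ (μ : ℝ) (T D : ℕ), 0 < μ ∧ μ < 1 ∧ 1 ≤ D ∧ ∀ m p, C m p → ∀ θ : ℝ, ∀ n : ℕ,
    D * (n + 1) ≤ ((range m).filter (fun j : ℕ => Gd b c ((b : ℝ) ^ j * ((M : ℝ) * θ)))).card →
    ‖∑ v ∈ range (b ^ m), (p v : ℂ) * ee (v * θ)‖ ≤ (m : ℝ) ^ T * μ ^ n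

/-- the exponential sums are small at the rational numbers whose denominators have only prime factors above `q₀` -/
def Rat (b q₀ : ℕ) (C : ℕ → (ℕ → ℝ) → Prop) : Prop :=
  ∃ (μ : ℝ) (T D : ℕ), 0 < μ ∧ μ < 1 ∧ 1 ≤ D ∧ ∀ k p, C k p → ∀ S : Finset ℕ, (∀ q ∈ S, q.Prime ∧ q₀ < q) → ∀ m : ℕ, 1 ≤ m →
    ∏ q ∈ S, q < 2 ^ m → m * D ≤ k → ∀ a : ℕ, 1 ≤ a → a < ∏ q ∈ S, q →
    ‖∑ v ∈ range (b ^ k), (p v : ℂ) * ee (v * ((a : ℝ) / ((∏ q ∈ S, q : ℕ) : ℝ)))‖ ≤ (k : ℝ) ^ T * μ ^ (k / (m * D) - 1)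

lemma rat_of (b M : ℕ) (hb : 2 ≤ b) (hM : 1 ≤ M) (C : ℕ → (ℕ → ℝ) → Prop) (hC : CharExp b M C) :
    Rat b (b.factorial * M) C := by
  classical
  have hBr : (2 : ℝ) ≤ b := by exact_mod_cast hb
  have hF1 : (1 : ℝ) ≤ (b.factorial : ℝ) := by exact_mod_cast b.factorial_pos
  obtain ⟨δ, hδ⟩ : ∃ δ : ℝ, δ = 1 / (b : ℝ) ^ 2 := ⟨_, rfl⟩
  have hδ0 : 0 < δ := by rw [hδ]; positivity
  have hδ4 : δ ≤ 1 / 4 := by
    rw [hδ]
    apply one_div_le_one_div_of_le (by norm_num)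
    nlinarith
  obtain ⟨c, hc⟩ : ∃ c : ℝ, c = 4 * (δ / 2 / (b.factorial : ℝ)) ^ 2 := ⟨_, rfl⟩
  have hc0 : 0 < c := by rw [hc]; positivity
  have hc1 : c ≤ 1 / 4 := by
    have e1 : δ / 2 / (b.factorial : ℝ) ≤ 1 / 4 := (div_le_self (by linarith) hF1).trans (by linarith)
    have e2 : 0 ≤ δ / 2 / (b.factorial : ℝ) := by positivity
    rw [hc]
    nlinarith
  obtain ⟨μ, T, D, hμ0, hμ1, hD, h⟩ := hC c hc0 hc1
  refine ⟨μ, T, D, hμ0, hμ1, hD, fun k p hp S hS m hm hd hmk a ha1 ha2 => ?_⟩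
  obtain ⟨d, hdd⟩ : ∃ d, d = ∏ q ∈ S, q := ⟨_, rfl⟩
  rw [← hdd] at hd ha2 ⊢
  have hd1 : 1 ≤ d := by omega
  have hd0 : (0 : ℝ) < d := by exact_mod_cast hd1
  obtain ⟨F, hF⟩ : ∃ F, F = b.factorial * M := ⟨_, rfl⟩
  have hF0 : 1 ≤ F := by rw [hF]; exact Nat.mul_pos b.factorial_pos hM
  have hbF : b ≤ F := by
    rw [hF]
    exact (Nat.self_le_factorial b).trans (Nat.le_mul_of_pos_right _ hM)
  have hcop : ∀ j : ℕ, Nat.Coprime d (F * b ^ j) := by
    intro j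
    rw [hdd]
    apply Nat.Coprime.prod_left
    intro q hq
    obtain ⟨hqp, hqb⟩ := hS q hq
    rw [← hF] at hqb
    rw [Nat.Prime.coprime_iff_not_dvd hqp]
    intro hdv
    rcases (hqp.dvd_mul).1 hdv with h1 | h1
    · have := Nat.le_of_dvd hF0 h1
      omega
    · have h2 := Nat.le_of_dvd (by omega) (hqp.dvd_of_dvd_pow h1)
      omega
  have hfar := far_low b F k m hb ((a : ℝ) / d) (by
    intro j
    have e1 : (F : ℝ) * ((b : ℝ) ^ j * ((a : ℝ) / d)) = (((F * b ^ j * a : ℕ) : ℤ) : ℝ) / d := by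
      push_cast
      ring
    rw [e1]
    refine lt_of_lt_of_le ?_ (nn_rat _ d hd1 ?_)
    · apply one_div_lt_one_div_of_lt hd0
      exact_mod_cast hd
    · intro hdv
      have h1 : d ∣ F * b ^ j * a := by exact_mod_cast hdv
      have h2 := (hcop j).dvd_of_dvd_mul_left h1
      have h3 := Nat.le_of_dvd (by omega) h2
      omega)
  have hcard : Mir.farCount b F k ((a : ℝ) / d) ≤
      ((range k).filter (fun j : ℕ => Gd b c ((b : ℝ) ^ j * ((M : ℝ) * ((a : ℝ) / d))))).card := by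
    unfold Mir.farCount
    apply card_le_card
    intro j hj
    rw [mem_filter] at hj ⊢
    refine ⟨hj.1, ?_⟩
    rw [hc]
    apply gd_far b hb (δ / 2) (by linarith) ((F : ℝ) * ((b : ℝ) ^ j * ((a : ℝ) / d)))
    · congr 1
      rw [hF]
      push_cast
      ring
    · have := hj.2 (round ((F : ℝ) * ((b : ℝ) ^ j * ((a : ℝ) / d))))
      rw [← hδ] at this
      linarith
  have h1 : 1 ≤ k / (m * D) := by
    rw [Nat.one_le_div_iff (Nat.mul_pos hm hD)]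
    exact hmk
  refine h k p hp _ _ ?_
  rw [Nat.sub_add_cancel h1]
  refine le_trans ?_ (hfar.trans hcard)
  rw [← Nat.div_div_eq_div_mul, mul_comm]
  exact Nat.div_mul_le_self _ _

/-- classes of distributions with the law for all the multiples and with small exponential sums at the rational numbers -/
structure SCls (b q₀ : ℕ) (C : ℕ → (ℕ → ℝ) → Prop) : Prop where
  two : 2 ≤ b
  nonneg : ∀ k p, C k p → ∀ v, 0 ≤ p v
  sum : ∀ k p, C k p → ∑ v ∈ range (b ^ k), p v = 1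
  rat : Rat b q₀ C
  tcls : ∀ κ : ℤ, κ ≠ 0 → TCls b κ C

lemma SCls.mono {b q₀ q₁ : ℕ} {C : ℕ → (ℕ → ℝ) → Prop} (h : SCls b q₀ C) (hq : q₀ ≤ q₁) : SCls b q₁ C := by
  refine ⟨h.two, h.nonneg, h.sum, ?_, h.tcls⟩
  obtain ⟨μ, T, D, hμ0, hμ1, hD, h1⟩ := h.rat
  exact ⟨μ, T, D, hμ0, hμ1, hD, fun k p hp S hS => h1 k p hp S (fun q hqS => ⟨(hS q hqS).1, by have := (hS q hqS).2; omega⟩)⟩

section walks
open Pool.Agent.N625.GW

variable {X : Type} {b : ℕ} {δ : X → ℕ → Option X}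

/-- walks: exponential decay -/
theorem w_exp (hG : Graph b δ) (x : X) (ρ : ℝ) (hρ : 0 < ρ) (hR : Rho b δ x ρ) (D₀ : ℕ) :
    CharExp b (b ^ 2).factorial (WC b δ x ρ D₀) := by
  classical
  intro c hc0 hc1
  have hb := two_le hG x
  have hB2 : (2 : ℝ) ≤ b := by exact_mod_cast hb
  have hρ2 := rho_two hG hR
  obtain ⟨M, hM⟩ : ∃ M, M = (b ^ 2).factorial := ⟨_, rfl⟩
  have hM1 : (1 : ℝ) ≤ M := by rw [hM]; exact_mod_cast Nat.factorial_pos _
  obtain ⟨c', hc'⟩ : ∃ c', c' = c / (2 * (M : ℝ) ^ 2) := ⟨_, rfl⟩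
  have hc'0 : 0 < c' := by rw [hc']; positivity
  have hc'c : c' ≤ c := by
    rw [hc']
    apply div_le_self hc0.le
    nlinarith
  obtain ⟨μ, hμ⟩ : ∃ μ, μ = Real.sqrt (1 - c' / ρ ^ 2) := ⟨_, rfl⟩
  have hcb : c' / ρ ^ 2 ≤ c' := div_le_self hc'0.le (by linarith)
  have hcb0 : 0 < c' / ρ ^ 2 := by positivity
  have hμ0 : 0 < μ := by rw [hμ]; exact Real.sqrt_pos.2 (by linarith)
  have hμ1 : μ < 1 := by
    rw [hμ, Real.sqrt_lt' one_pos]
    linarith
  have hμ2 : μ ^ 2 = 1 - c' / ρ ^ 2 := by rw [hμ, Real.sq_sqrt (by linarith)]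
  have hμ3 : ρ ^ 2 - c' = ρ ^ 2 * μ ^ 2 := by
    rw [hμ2]
    field_simp
  refine ⟨μ, D₀, 1, hμ0, hμ1, le_rfl, fun m p hp θ n ht => ?_⟩
  obtain ⟨y, hy, rfl⟩ := hp
  rw [← hM, one_mul] at ht
  obtain ⟨g, hg⟩ : ∃ g : ℕ → Prop, g = fun j => Gq b c' ((b : ℝ) ^ j * θ) := ⟨_, rfl⟩
  have hact : ((range m).filter (fun j : ℕ => Gd b c ((b : ℝ) ^ j * ((M : ℝ) * θ)))).card ≤ act g m + 1 := by
    have h1 : (range m).filter (fun j : ℕ => Gd b c ((b : ℝ) ^ j * ((M : ℝ) * θ))) ⊆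
        ((range (m - 1)).filter g) ∪ {m - 1} := by
      intro j hj
      rw [mem_filter, mem_range] at hj
      rw [mem_union, mem_filter, mem_range, mem_singleton]
      by_cases hjm : j = m - 1
      · exact Or.inr hjm
      · left
        refine ⟨by omega, ?_⟩
        rw [hg]
        simp only
        rw [hc', hM]
        apply gq_of hb c hc0.le (by linarith)
        have e1 : (((b ^ 2).factorial : ℕ) : ℝ) * ((b : ℝ) ^ j * θ) = (b : ℝ) ^ j * ((M : ℝ) * θ) := by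
          rw [hM]
          ring
        rw [e1]
        exact hj.2
    refine (card_le_card h1).trans ((card_union_le _ _).trans ?_)
    rw [card_singleton]
    rfl
  have hact2 : n ≤ act g m := by omega
  have hpos : (0 : ℝ) < (walks b δ m x y).card := by exact_mod_cast card_pos' hρ hy
  have hN0 : 0 < (walks b δ m x y).card := card_pos' hρ hy
  have h1 := Z_final hG θ y ρ c' μ hρ (tame_reach hG hR m hN0) hc'0.le (by linarith) (by linarith) hμ0.le hμ1.le hμ3 g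
    (fun j hj => by rw [hg] at hj; exact hj) m x
  have h3 : μ ^ act g m ≤ μ ^ n := pow_le_pow_of_le_one hμ0.le hμ1.le hact2
  obtain ⟨N, hN⟩ : ∃ N : ℝ, N = ((walks b δ m x y).card : ℝ) := ⟨_, rfl⟩
  have h5 : ‖Z b δ θ y m x‖ ≤ (m : ℝ) ^ D₀ * μ ^ n * N := by
    calc ‖Z b δ θ y m x‖ ≤ ρ ^ m * μ ^ act g m := h1
      _ ≤ ((m : ℝ) ^ D₀ * N) * μ ^ n := by
          apply mul_le_mul _ h3 (by positivity) (by rw [hN]; positivity)
          rw [hN]
          exact hy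
      _ = (m : ℝ) ^ D₀ * μ ^ n * N := by ring
  have h6 : ∑ v ∈ range (b ^ m), (((if v ∈ walks b δ m x y then 1 / ((walks b δ m x y).card : ℝ) else 0 : ℝ)) : ℂ) * ee (v * θ) =
      ((1 / N : ℝ) : ℂ) * Z b δ θ y m x := by
    have hZ : Z b δ θ y m x = ∑ v ∈ walks b δ m x y, ee (v * θ) := rfl
    rw [hZ, mul_sum, ← w_sum m, hN]
    apply sum_congr rfl
    intro v _
    split_ifs
    · rfl
    · rw [Complex.ofReal_zero, zero_mul]
  rw [h6, norm_mul, Complex.norm_real, Real.norm_eq_abs, abs_of_pos (by rw [hN]; positivity)]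
  have hN1 : 0 < N := by rw [hN]; exact hpos
  calc 1 / N * ‖Z b δ θ y m x‖ ≤ 1 / N * ((m : ℝ) ^ D₀ * μ ^ n * N) := mul_le_mul_of_nonneg_left h5 (by positivity)
    _ = (m : ℝ) ^ D₀ * μ ^ n := by field_simp

/-- walks -/
theorem w_scls (hG : Graph b δ) (x : X) (ρ : ℝ) (hρ : 0 < ρ) (hR : Rho b δ x ρ) (D₀ : ℕ) :
    SCls b (b.factorial * (b ^ 2).factorial) (WC b δ x ρ D₀) :=
  ⟨two_le hG x, (w_cls hG x ρ hρ hR D₀ 1 one_ne_zero).nonneg, (w_cls hG x ρ hρ hR D₀ 1 one_ne_zero).sum,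
    rat_of b _ (two_le hG x) (Nat.factorial_pos _) _ (w_exp hG x ρ hρ hR D₀),
    fun κ hκ => Pool.Agent.U847.TI.w_tcls hG x ρ hρ hR D₀ κ hκ⟩

end walks

section fields
open Pool.Agent.N213.GF

variable {b : ℕ}

/-- random fields: exponential decay -/
theorem gf_exp (hb : 2 ≤ b) (Δ : ℕ) (η : ℝ) (hη : 0 < η) : CharExp b 1 (GC b Δ η) := by
  classical
  intro c hc0 hc1
  rcases le_or_gt η (1 / 2) with hη2 | hη2
  swap
  · refine ⟨1 / 2, 0, 1, by norm_num, by norm_num, le_rfl, fun m p hp θ n ht => ?_⟩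
    obtain ⟨A, hF⟩ := hp
    have h1 : 0 < ((range m).filter (fun j : ℕ => Gd b c ((b : ℝ) ^ j * (((1 : ℕ) : ℝ) * θ)))).card := by omega
    have h2 := card_filter_le (range m) (fun j : ℕ => Gd b c ((b : ℝ) ^ j * (((1 : ℕ) : ℝ) * θ)))
    rw [card_range] at h2
    exact absurd (eta_half hF (by omega)) (by linarith)
  obtain ⟨μ, hμ⟩ : ∃ μ, μ = 1 - η * c := ⟨_, rfl⟩
  have hηc : η * c ≤ 1 / 2 := by nlinarith
  have hηc0 : 0 < η * c := mul_pos hη hc0
  have hμ0 : 0 < μ := by rw [hμ]; linarith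
  have hμ1 : μ < 1 := by rw [hμ]; linarith
  obtain ⟨M, hM⟩ : ∃ M, M = (Δ + 1) ^ 3 := ⟨_, rfl⟩
  refine ⟨μ, 0, M, hμ0, hμ1, by rw [hM]; exact Nat.one_le_pow _ _ (by omega), fun m p hp θ n ht => ?_⟩
  obtain ⟨A, hF⟩ := hp
  rw [Nat.cast_one, one_mul] at ht
  obtain ⟨G, hG⟩ : ∃ G : Finset ℕ, G = (range m).filter (fun j => Gd b c ((b : ℝ) ^ j * θ)) := ⟨_, rfl⟩
  rw [← hG] at ht
  obtain ⟨S, hSG, hS1, hS2⟩ := greedy hF.symm hF.degree G.card G (fun i hi => by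
    rw [hG, mem_filter, mem_range] at hi
    exact hi.1) le_rfl
  have h1 := char_field hb hF c θ hη.le (by linarith) S (fun i hi => by
    have := hSG hi
    rw [hG, mem_filter, mem_range] at this
    exact this.1) hS1 (fun i hi => by
    have := hSG hi
    rw [hG, mem_filter, mem_range] at this
    exact this.2)
  refine h1.trans ?_
  rw [← hμ, pow_zero, one_mul]
  have h2 : n ≤ S.card := by
    rw [← hM] at hS2
    have h3 : M * (n + 1) ≤ M * S.card := ht.trans hS2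
    have := Nat.le_of_mul_le_mul_left h3 (by rw [hM]; positivity)
    omega
  exact pow_le_pow_of_le_one hμ0.le hμ1.le h2

/-- random fields -/
theorem gf_scls (b Δ : ℕ) (η : ℝ) (hb : 2 ≤ b) (hη : 0 < η) : SCls b (b.factorial * 1) (GC b Δ η) :=
  ⟨hb, (gf_cls b Δ η hb hη 1 one_ne_zero).nonneg, (gf_cls b Δ η hb hη 1 one_ne_zero).sum,
    rat_of b 1 hb le_rfl _ (gf_exp hb Δ η hη), fun κ hκ => Pool.Agent.U847.TI.gf_tcls b Δ η hb hη κ hκ⟩

end fields

section brackets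
open Pool.Agent.N625.DY

variable {b : ℕ} {P : Finset (ℕ × ℕ)} {E : Finset ℕ}

/-- nested words: exponential decay -/
theorem br_exp (hA : Alphabet b P E) : CharExp b (b - 1) (BrC b P E) := by
  classical
  intro c hc0 hc1
  have hb := two_le hA
  have hbe := beta_ge hA
  have hB2 : (2 : ℝ) ≤ b := by exact_mod_cast hb
  obtain ⟨μ, hμ⟩ : ∃ μ, μ = Real.sqrt (1 - c / beta P E ^ 2) := ⟨_, rfl⟩
  have hcb : c / beta P E ^ 2 ≤ c := div_le_self hc0.le (by nlinarith)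
  have hcb0 : 0 < c / beta P E ^ 2 := by positivity
  have hμ0 : 0 < μ := by rw [hμ]; exact Real.sqrt_pos.2 (by linarith)
  have hμ1 : μ < 1 := by
    rw [hμ, Real.sqrt_lt' one_pos]
    linarith
  have hμ2 : μ ^ 2 = 1 - c / beta P E ^ 2 := by rw [hμ, Real.sq_sqrt (by linarith)]
  have hμ3 : beta P E ^ 2 - c = beta P E ^ 2 * μ ^ 2 := by
    rw [hμ2]
    field_simp
  obtain ⟨a0, ha0⟩ : ∃ a0 : ℕ, 8 * beta P E ≤ 2 ^ a0 := by
    obtain ⟨a0, ha0⟩ := pow_unbounded_of_one_lt (8 * beta P E) (by norm_num : (1 : ℝ) < 2)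
    exact ⟨a0, ha0.le⟩
  -- for `m = 1` there is at most one good position
  refine ⟨μ, a0 + 2, 2, hμ0, hμ1, by norm_num, fun m p hp θ n ht => ?_⟩
  obtain ⟨hev, rfl⟩ := hp
  obtain ⟨g, hg⟩ : ∃ g : ℕ → Prop, g = fun j => Gd b c ((b : ℝ) ^ j * (((b : ℝ) - 1) * θ)) := ⟨_, rfl⟩
  have hm2 : 2 ≤ m := by
    have h1 := card_filter_le (range m) (fun j : ℕ => Gd b c ((b : ℝ) ^ j * (((b - 1 : ℕ) : ℝ) * θ)))
    rw [card_range] at h1
    omega
  have hact : ((range m).filter (fun j : ℕ => Gd b c ((b : ℝ) ^ j * (((b - 1 : ℕ) : ℝ) * θ)))).card ≤ act g m + 1 := by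
    have h1 : (range m).filter (fun j : ℕ => Gd b c ((b : ℝ) ^ j * (((b - 1 : ℕ) : ℝ) * θ))) ⊆
        ((range (m - 1)).filter g) ∪ {m - 1} := by
      intro j hj
      rw [mem_filter, mem_range] at hj
      rw [mem_union, mem_filter, mem_range, mem_singleton]
      by_cases hjm : j = m - 1
      · exact Or.inr hjm
      · left
        refine ⟨by omega, ?_⟩
        rw [hg]
        simp only
        have := hj.2
        rw [Nat.cast_sub (by omega), Nat.cast_one] at this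
        exact this
    refine (card_le_card h1).trans ((card_union_le _ _).trans ?_)
    rw [card_singleton]
    rfl
  have hact2 : n ≤ act g m := by omega
  have h1 := (Z_bound hA (by omega) θ c μ hc0.le (by linarith) hμ0.le hμ1.le hμ3 g (fun j hj => by rw [hg] at hj; exact hj) m).1 []
  rw [show hh P [] = 1 from rfl, mul_one] at h1
  have h2 := Nn_big hA m hev
  rw [← card_brackets hA] at h2
  have hpos : (0 : ℝ) < (brackets b P E m).card := by exact_mod_cast card_pos_of hA m hev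
  obtain ⟨N, hN⟩ : ∃ N : ℝ, N = ((brackets b P E m).card : ℝ) := ⟨_, rfl⟩
  rw [← hN] at h2 hpos
  have hN0 : 0 ≤ N := hpos.le
  have hmr : (2 : ℝ) ≤ m := by exact_mod_cast hm2
  have h3 : μ ^ act g m ≤ μ ^ n := pow_le_pow_of_le_one hμ0.le hμ1.le hact2
  have h4 : 2 * beta P E * ((m : ℝ) + 1) ^ 2 ≤ (m : ℝ) ^ (a0 + 2) := by
    have e2 : ((m : ℝ) + 1) ^ 2 ≤ 4 * (m : ℝ) ^ 2 := by nlinarith
    have e3 : (2 : ℝ) ^ a0 ≤ (m : ℝ) ^ a0 := pow_le_pow_left₀ (by norm_num) hmr a0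
    have e4 : (0 : ℝ) ≤ (m : ℝ) ^ 2 := by positivity
    calc 2 * beta P E * ((m : ℝ) + 1) ^ 2 ≤ 2 * beta P E * (4 * (m : ℝ) ^ 2) := mul_le_mul_of_nonneg_left e2 (by linarith)
      _ = 8 * beta P E * (m : ℝ) ^ 2 := by ring
      _ ≤ (m : ℝ) ^ a0 * (m : ℝ) ^ 2 := mul_le_mul_of_nonneg_right (ha0.trans e3) e4
      _ = _ := by rw [pow_add]
  have h5 : ‖Z b P E θ m []‖ ≤ (m : ℝ) ^ (a0 + 2) * μ ^ n * N := by
    calc ‖Z b P E θ m []‖ ≤ beta P E ^ m * μ ^ act g m := h1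
      _ ≤ (2 * beta P E * ((m : ℝ) + 1) ^ 2 * N) * μ ^ n := mul_le_mul h2 h3 (by positivity) (by positivity)
      _ ≤ ((m : ℝ) ^ (a0 + 2) * N) * μ ^ n := by
          apply mul_le_mul_of_nonneg_right _ (by positivity)
          exact mul_le_mul_of_nonneg_right h4 hN0
      _ = _ := by ring
  have h6 : ∑ v ∈ range (b ^ m), (((if v ∈ brackets b P E m then 1 / ((brackets b P E m).card : ℝ) else 0 : ℝ)) : ℂ) * ee (v * θ) =
      ((1 / N : ℝ) : ℂ) * Z b P E θ m [] := by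
    rw [Z_nil hA, mul_sum, ← br_sum m, hN]
    apply sum_congr rfl
    intro v _
    split_ifs
    · rfl
    · rw [Complex.ofReal_zero, zero_mul]
  rw [h6, norm_mul, Complex.norm_real, Real.norm_eq_abs, abs_of_pos (by positivity)]
  calc 1 / N * ‖Z b P E θ m []‖ ≤ 1 / N * ((m : ℝ) ^ (a0 + 2) * μ ^ n * N) := mul_le_mul_of_nonneg_left h5 (by positivity)
    _ = (m : ℝ) ^ (a0 + 2) * μ ^ n := by field_simp

/-- nested words -/
theorem br_scls (hA : Alphabet b P E) : SCls b (b.factorial * (b - 1)) (BrC b P E) :=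
  ⟨two_le hA, (br_cls hA 1 one_ne_zero).nonneg, (br_cls hA 1 one_ne_zero).sum,
    rat_of b _ (two_le hA) (by have := two_le hA; omega) _ (br_exp hA),
    fun κ hκ => Pool.Agent.U847.TI.br_tcls hA κ hκ⟩

end brackets

end Pool.Agent.U847.XP
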