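import Pool.Agent.U847.XC

set_option autoImplicit false

/-! Random integers given by digits with exponential decay of the characters: the sieve. -/

namespace Pool.Agent.U847.XP
open Finset
open Pool.Agent.N625.PT
open Pool.Agent.TH872
open Pool.Agent.Y958.SP (nn)
open Pool.Agent.H807R2.Dav
open Pool.Agent.H373R2.T7 (pz mem_pz nuB PerB nuB_le sieve_gen' es es_le choice card_small card_pz_le sum_pz_le)

set_option maxHeartbeats 2000000 in
open Classical in
/-- the sieve for a random integer with exchangeable blocks -/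
theorem law_sieve (b q₀ : ℕ) (hb : 2 ≤ b) (Cl : ℕ → (ℕ → ℝ) → Prop) (hC : SCls b q₀ Cl) (c E U : ℕ) (hc : 1 ≤ c) :
    ∃ k₀ : ℕ, ∀ k : ℕ, k₀ ≤ k → ∀ p, Cl k p → ∀ z : ℕ, 1 ≤ z → (z : ℝ) ≤ (k : ℝ) ^ E →
    ∀ Q : ℕ → ℕ → Prop, PerB Q c → (∀ q n, Q q n → q₀ < q) →
    |∑ v ∈ (range (b ^ k)).filter (fun v => ∀ q ∈ pz z, ¬ Q q v), p v - ∏ q ∈ pz z, (1 - (nuB Q q : ℝ) / q)| ≤ 1 / (k : ℝ) ^ U := by
  obtain ⟨μ, T, D, hμ0, hμ1, hD, hchar⟩ := hC.rat
  obtain ⟨U', hU'⟩ : ∃ U', U' = U + 1 := ⟨_, rfl⟩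
  obtain ⟨N0, hN0⟩ := choice c E U' 1
  obtain ⟨C', hC'⟩ : ∃ C', C' = 3 * (c * (1 + E)) + U' + 1 := ⟨_, rfl⟩
  obtain ⟨lam, hlam⟩ : ∃ lam, lam = -Real.log μ := ⟨_, rfl⟩
  have hlam0 : 0 < lam := by rw [hlam]; have := Real.log_neg hμ0 hμ1; linarith
  obtain ⟨R0, hR0⟩ : ∃ R0 : ℝ, R0 = 6 * C' := ⟨_, rfl⟩
  have hR00 : 0 ≤ R0 := by rw [hR0]; positivity
  obtain ⟨D1, hD1⟩ : ∃ D1 : ℝ, D1 = R0 * (2 * E + 1) + 1 := ⟨_, rfl⟩
  have hD11 : 1 ≤ D1 := by
    rw [hD1]
    have : 0 ≤ R0 * (2 * E + 1) := by positivity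
    linarith
  obtain ⟨D2, hD2⟩ : ∃ D2 : ℝ, D2 = R0 * (E + 1) + R0 * c + T + U + 1 := ⟨_, rfl⟩
  have hD20 : 0 ≤ D2 := by rw [hD2]; positivity
  obtain ⟨k1, hk1⟩ := ev4 (D1 * D * (D2 / lam + 1 + 1))
  obtain ⟨k2, hk2⟩ := exists_nat_ge (2 * Real.log b)
  refine ⟨max (max N0 k1) (max k2 3), fun k hk p hp z hz hzE Q hQ hQY => ?_⟩
  have b1 : N0 ≤ k := le_trans (le_trans (le_max_left _ _) (le_max_left _ _)) hk
  have b2 : k1 ≤ k := le_trans (le_trans (le_max_right _ _) (le_max_left _ _)) hk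
  have b3 : k2 ≤ k := le_trans (le_trans (le_max_left _ _) (le_max_right _ _)) hk
  have b4 : 3 ≤ k := le_trans (le_trans (le_max_right _ _) (le_max_right _ _)) hk
  obtain ⟨hev1, hev2⟩ := hk1 k b2
  obtain ⟨ℓ, hℓ⟩ : ∃ ℓ, ℓ = Real.log k := ⟨_, rfl⟩
  rw [← hℓ] at hev1 hev2
  have hkr : (3 : ℝ) ≤ k := by exact_mod_cast b4
  have hk0 : (0 : ℝ) < k := by linarith
  have hbr : (2 : ℝ) ≤ b := by exact_mod_cast hb
  have hlb : 0.69 < Real.log b := by
    have := Real.log_two_gt_d9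
    have := Real.log_le_log (by norm_num) hbr
    linarith
  -- the truncation
  obtain ⟨N, hN⟩ : ∃ N, N = b ^ (2 * k) := ⟨_, rfl⟩
  have hNN : N0 ≤ N := by
    have h1 : k < b ^ k := Nat.lt_pow_self (by omega)
    have h2 : b ^ k ≤ b ^ (2 * k) := Nat.pow_le_pow_right (by omega) (by omega)
    omega
  have hlogN : Real.log N = 2 * k * Real.log b := by
    rw [hN]
    push_cast
    rw [Real.log_pow]
    push_cast
    ring
  have hlogN1 : (k : ℝ) ≤ Real.log N := by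
    rw [hlogN]
    nlinarith
  have hlogN2 : Real.log N ≤ (k : ℝ) ^ 2 := by
    rw [hlogN, sq]
    have h1 : 2 * Real.log b ≤ k := hk2.trans (by exact_mod_cast b3)
    nlinarith
  obtain ⟨r, hr1, _, hr3⟩ := hN0 N hNN z (hzE.trans (pow_le_pow_left₀ hk0.le hlogN1 E))
  rw [← hC'] at hr3
  have hr2 : (r : ℝ) ≤ R0 * ℓ := by
    have h1 := hr3 2
    have h2 : (2 : ℝ) ^ r ≤ (k : ℝ) ^ (2 * (C' * 2)) := by
      refine (by exact_mod_cast h1 : (2 : ℝ) ^ r ≤ _).trans ?_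
      rw [pow_mul (k : ℝ) 2]
      exact pow_le_pow_left₀ (by linarith) hlogN2 _
    have h3 := Real.log_le_log (by positivity) h2
    rw [Real.log_pow, Real.log_pow, ← hℓ] at h3
    push_cast at h3
    have h4 := Real.log_two_gt_d9
    have h5 : (0 : ℝ) ≤ r := Nat.cast_nonneg r
    have h6 : (r : ℝ) * 0.69 ≤ r * Real.log 2 := mul_le_mul_of_nonneg_left (by linarith) h5
    rw [hR0]
    have h7 : (0 : ℝ) ≤ C' * ℓ := by
      have : (0 : ℝ) ≤ C' := Nat.cast_nonneg _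
      exact mul_nonneg this (by linarith)
    nlinarith
  -- the modulus
  obtain ⟨m, hm⟩ : ∃ m, m = r * (Nat.log 2 z + 1) + 1 := ⟨_, rfl⟩
  have hm1 : 1 ≤ m := by omega
  have hlz : Real.log z ≤ E * ℓ := by
    have := Real.log_le_log (by exact_mod_cast hz) hzE
    rwa [Real.log_pow, ← hℓ] at this
  have hm2 : (m : ℝ) ≤ D1 * ℓ ^ 2 := by
    have h1 : (Nat.log 2 z : ℝ) ≤ 2 * (E * ℓ) := by
      have g1 : (2 : ℝ) ^ (Nat.log 2 z) ≤ z := by exact_mod_cast Nat.pow_log_le_self 2 (by omega)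
      have g2 := Real.log_le_log (by positivity) g1
      rw [Real.log_pow] at g2
      have g3 := Real.log_two_gt_d9
      have g4 : (0 : ℝ) ≤ (Nat.log 2 z : ℝ) := Nat.cast_nonneg _
      nlinarith
    have h2 : (m : ℝ) = r * ((Nat.log 2 z : ℝ) + 1) + 1 := by rw [hm]; push_cast; ring
    rw [h2]
    have h3 : (r : ℝ) * ((Nat.log 2 z : ℝ) + 1) ≤ (R0 * ℓ) * (2 * (E * ℓ) + ℓ) :=
      mul_le_mul hr2 (by linarith) (by positivity) (by positivity)
    have h4 : 1 ≤ ℓ ^ 2 := one_le_pow₀ hev2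
    calc (r : ℝ) * ((Nat.log 2 z : ℝ) + 1) + 1 ≤ (R0 * ℓ) * (2 * (E * ℓ) + ℓ) + ℓ ^ 2 := by linarith
      _ = D1 * ℓ ^ 2 := by rw [hD1]; ring
  have hℓ2 : (1 : ℝ) ≤ ℓ ^ 2 := one_le_pow₀ hev2
  obtain ⟨m', hm'⟩ : ∃ m', m' = m * D := ⟨_, rfl⟩
  have hm'1 : 1 ≤ m' := by rw [hm']; exact Nat.mul_pos hm1 hD
  have hm0 : (0 : ℝ) < m' := by exact_mod_cast hm'1
  have hDr : (1 : ℝ) ≤ D := by exact_mod_cast hD
  have hm'2 : (m' : ℝ) ≤ D * D1 * ℓ ^ 2 := by
    rw [hm']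
    push_cast
    calc (m : ℝ) * D ≤ (D1 * ℓ ^ 2) * D := mul_le_mul_of_nonneg_right hm2 (by linarith)
      _ = _ := by ring
  have hkm : D2 / lam * ℓ ^ 2 + 1 ≤ ((k / m' : ℕ) : ℝ) := by
    have h1 : (k : ℝ) / m' < ((k / m' : ℕ) : ℝ) + 1 := by
      rw [div_lt_iff₀ hm0]
      have h2 : k < m' * (k / m') + m' := Nat.lt_mul_div_succ k hm'1
      have h3 : (k : ℝ) < m' * ((k / m' : ℕ) : ℝ) + m' := by exact_mod_cast h2
      linarith
    have h2 : D2 / lam * ℓ ^ 2 + 1 + 1 ≤ k / m' := by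
      rw [le_div_iff₀ hm0]
      calc (D2 / lam * ℓ ^ 2 + 1 + 1) * m' ≤ ((D2 / lam + 1 + 1) * ℓ ^ 2) * (D * D1 * ℓ ^ 2) := by
            apply mul_le_mul _ hm'2 hm0.le (by positivity)
            have : (1 + 1 : ℝ) * 1 ≤ (1 + 1) * ℓ ^ 2 := mul_le_mul_of_nonneg_left hℓ2 (by positivity)
            linarith
        _ = D1 * D * (D2 / lam + 1 + 1) * ℓ ^ 4 := by ring
        _ ≤ k := hev1
    linarith
  have hLk : 1 ≤ k / m' := by
    have : (0 : ℝ) ≤ D2 / lam * ℓ ^ 2 := by positivity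
    have h2 : (1 : ℝ) ≤ ((k / m' : ℕ) : ℝ) := by linarith
    exact_mod_cast h2
  have hmk : m * D ≤ k := by
    rw [← hm']
    exact (Nat.one_le_div_iff hm'1).1 hLk
  obtain ⟨Bd, hBd⟩ : ∃ Bd : ℝ, Bd = (k : ℝ) ^ T * μ ^ (k / m' - 1) := ⟨_, rfl⟩
  have hBd0 : 0 ≤ Bd := by rw [hBd]; positivity
  have hcr : (1 : ℝ) ≤ c := by exact_mod_cast hc
  have key := sieve_gen' (range (b ^ k)) p (fun i _ => hC.nonneg _ _ hp i) (fun q n => Q q n) (pz z)
    (fun q => (nuB Q q : ℝ) / q) (fun q hq => by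
      have hq0 : (0 : ℝ) < q := by exact_mod_cast (mem_pz.1 hq).2.pos
      constructor
      · positivity
      · rw [div_le_one hq0]
        exact_mod_cast nuB_le Q q) 1 zero_le_one (fun _ => (c : ℝ) ^ r * Bd) r (by
      intro S hS hr
      have hSp : ∀ q ∈ S, q.Prime := fun q hq => (mem_pz.1 (hS hq)).2
      by_cases hsm : ∃ q ∈ S, q ≤ q₀
      · obtain ⟨q, hq, hqL⟩ := hsm
        have e1 : (range (b ^ k)).filter (fun i => ∀ p ∈ S, Q p i) = ∅ := by
          rw [filter_eq_empty_iff]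
          intro i _ hi
          have := hQY q i (hi q hq)
          omega
        have e2 : nuB Q q = 0 := by
          unfold nuB
          rw [card_eq_zero, filter_eq_empty_iff]
          intro i _ hi
          have := hQY q i hi
          omega
        have e3 : ∏ q ∈ S, (nuB Q q : ℝ) / q = 0 := prod_eq_zero hq (by rw [e2]; simp)
        rw [e1, sum_empty, e3]
        simp only [mul_zero, sub_self, abs_zero]
        positivity
      · push Not at hsm
        obtain ⟨d, hd⟩ : ∃ d, d = ∏ q ∈ S, q := ⟨_, rfl⟩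
        have hd1 : 1 ≤ d := by rw [hd]; exact Nat.one_le_iff_ne_zero.2 (prod_ne_zero_iff.2 fun q hq => (hSp q hq).ne_zero)
        have hdm : ∏ q ∈ S, q < 2 ^ m := by
          calc ∏ q ∈ S, q ≤ ∏ _q ∈ S, z := prod_le_prod' fun q hq => (mem_pz.1 (hS hq)).1
            _ = z ^ S.card := by rw [prod_const]
            _ ≤ z ^ r := Nat.pow_le_pow_right hz hr
            _ ≤ (2 ^ (Nat.log 2 z + 1)) ^ r := Nat.pow_le_pow_left (Nat.lt_pow_succ_log_self (by omega) z).le r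
            _ = 2 ^ (r * (Nat.log 2 z + 1)) := by rw [← pow_mul, mul_comm]
            _ < 2 ^ m := Nat.pow_lt_pow_right (by omega) (by omega)
        have h1 := equi (b ^ k) d hd1 p (hC.sum _ _ hp) Bd (by
          intro a ha1 ha2
          rw [hd] at ha2 ⊢
          rw [hBd]
          rw [hm']
          exact hchar k p hp S (fun q hq => ⟨hSp q hq, hsm q hq⟩) m hm1 hdm hmk a ha1 ha2) hBd0
          ((range d).filter (fun n => ∀ q ∈ S, Q q n)) (filter_subset _ _)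
        have h2 := cls_card Q hQ.per S hSp
        rw [← hd] at h2
        rw [h2] at h1
        have e1 : ∑ i ∈ (range (b ^ k)).filter (fun i => ∀ p ∈ S, Q p i), p i =
            ∑ v ∈ range (b ^ k), (if v % d ∈ (range d).filter (fun n => ∀ q ∈ S, Q q n) then p v else 0) := by
          rw [sum_filter]
          apply sum_congr rfl
          intro v _
          have e2 : (∀ p ∈ S, Q p v) ↔ v % d ∈ (range d).filter (fun n => ∀ q ∈ S, Q q n) := by
            rw [mem_filter, mem_range]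
            constructor
            · intro h
              refine ⟨Nat.mod_lt _ hd1, fun q hq => ?_⟩
              have hqd : q ∣ d := by rw [hd]; exact dvd_prod_of_mem _ hq
              rw [hQ.per, Nat.mod_mod_of_dvd _ hqd, ← hQ.per]
              exact h q hq
            · rintro ⟨_, h⟩ q hq
              have hqd : q ∣ d := by rw [hd]; exact dvd_prod_of_mem _ hq
              have := h q hq
              rw [hQ.per, Nat.mod_mod_of_dvd _ hqd, ← hQ.per] at this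
              exact this
          by_cases h3 : ∀ p ∈ S, Q p v
          · rw [if_pos h3, if_pos (e2.1 h3)]
          · rw [if_neg h3, if_neg (fun h => h3 (e2.2 h))]
        have e3 : (1 : ℝ) * ∏ q ∈ S, (nuB Q q : ℝ) / q = ((∏ q ∈ S, nuB Q q : ℕ) : ℝ) / d := by
          rw [one_mul, prod_div_distrib, hd]
          push_cast
          rfl
        rw [e1, e3]
        refine h1.trans ?_
        apply mul_le_mul_of_nonneg_right _ hBd0
        calc ((∏ q ∈ S, nuB Q q : ℕ) : ℝ) = ∏ q ∈ S, (nuB Q q : ℝ) := by push_cast; rfl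
          _ ≤ ∏ _q ∈ S, (c : ℝ) := by
              apply prod_le_prod (fun _ _ => Nat.cast_nonneg _)
              intro q hq
              exact_mod_cast hQ.few q (hSp q hq)
          _ = (c : ℝ) ^ S.card := by rw [prod_const]
          _ ≤ (c : ℝ) ^ r := pow_le_pow_right₀ hcr hr)
  rw [one_mul] at key
  refine key.trans ?_
  have e1 : ∑ j ∈ range (r + 1), ∑ _S ∈ (pz z).powersetCard j, (c : ℝ) ^ r * Bd =
      ((∑ j ∈ range (r + 1), ((pz z).powersetCard j).card : ℕ) : ℝ) * ((c : ℝ) ^ r * Bd) := by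
    push_cast
    rw [sum_mul]
    apply sum_congr rfl
    intro j _
    rw [sum_const, nsmul_eq_mul]
  rw [e1]
  have h3 := card_small (pz z) r
  have h4 : (((pz z).card : ℝ) + 1) ^ r ≤ ((z : ℝ) + 1) ^ r := by
    have : ((pz z).card : ℝ) ≤ z := by exact_mod_cast card_pz_le z
    gcongr
  have h5 : es (fun q => (nuB Q q : ℝ) / q) (pz z) r ≤ 1 / (k : ℝ) ^ U' := by
    refine (es_le (fun q _ => by positivity) r).trans (le_trans (Real.exp_le_exp.2 ?_) (hr1.trans ?_))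
    · have h6 : ∑ q ∈ pz z, (nuB Q q : ℝ) / q ≤ c * (1 + Real.log z) := by
        have h7 : ∀ q ∈ pz z, (nuB Q q : ℝ) / q ≤ c * (1 / (q : ℝ)) := by
          intro q hq
          rw [mul_one_div]
          apply div_le_div_of_nonneg_right _ (Nat.cast_nonneg _)
          exact_mod_cast hQ.few q (mem_pz.1 hq).2
        refine (sum_le_sum h7).trans ?_
        rw [← mul_sum]
        exact mul_le_mul_of_nonneg_left (sum_pz_le z) (Nat.cast_nonneg _)
      linarith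
    · apply one_div_le_one_div_of_le (by positivity)
      exact pow_le_pow_left₀ hk0.le hlogN1 _
  -- the error terms
  have g1 : ((∑ j ∈ range (r + 1), ((pz z).powersetCard j).card : ℕ) : ℝ) * ((c : ℝ) ^ r * Bd) ≤ 1 / (k : ℝ) ^ U' := by
    have q1 : ((z : ℝ) + 1) ^ r ≤ Real.exp (r * ((E + 1) * ℓ)) := by
      apply pow_le_exp _ _ _ (by positivity)
      have : (z : ℝ) + 1 ≤ (k : ℝ) ^ (E + 1) := by
        rw [pow_succ]
        have : (1 : ℝ) ≤ (k : ℝ) ^ E := one_le_pow₀ (by linarith)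
        nlinarith
      have := Real.log_le_log (by positivity) this
      rw [Real.log_pow, ← hℓ] at this
      exact_mod_cast this
    have q2 : (c : ℝ) ^ r ≤ Real.exp (r * c) := by
      apply pow_le_exp _ _ _ (by positivity)
      have := Real.log_le_sub_one_of_pos (by positivity : (0 : ℝ) < c)
      linarith
    have q3 : (k : ℝ) ^ T = Real.exp (T * ℓ) := by
      rw [hℓ, ← Real.log_pow, Real.exp_log (by positivity)]
    have q4 : μ ^ (k / m' - 1) = Real.exp (-(lam * ((k / m' - 1 : ℕ) : ℝ))) := by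
      rw [hlam, show -(-Real.log μ * ((k / m' - 1 : ℕ) : ℝ)) = ((k / m' - 1 : ℕ) : ℝ) * Real.log μ by ring, ← Real.log_pow,
        Real.exp_log (by positivity)]
    have q5 : 1 / (k : ℝ) ^ U' = Real.exp (-(U' * ℓ)) := by
      rw [Real.exp_neg, hℓ, ← Real.log_pow, Real.exp_log (by positivity), one_div]
    have q6 : D2 * ℓ ^ 2 ≤ lam * ((k / m' - 1 : ℕ) : ℝ) := by
      rw [Nat.cast_sub hLk, Nat.cast_one]
      have h7 : D2 / lam * ℓ ^ 2 ≤ ((k / m' : ℕ) : ℝ) - 1 := by linarith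
      have h8 := mul_le_mul_of_nonneg_left h7 hlam0.le
      have h9 : lam * (D2 / lam * ℓ ^ 2) = D2 * ℓ ^ 2 := by field_simp
      rw [h9] at h8
      exact h8
    have hℓ0 : 0 ≤ ℓ := by linarith
    have hll : ℓ ≤ ℓ ^ 2 := by nlinarith
    have q7 : (r : ℝ) * ((E + 1) * ℓ) + (r * c + (T * ℓ + -(lam * ((k / m' - 1 : ℕ) : ℝ)))) ≤ -(U' * ℓ) := by
      have s1 : (r : ℝ) * ((E + 1) * ℓ) ≤ (R0 * ℓ) * ((E + 1) * ℓ) := mul_le_mul_of_nonneg_right hr2 (by positivity)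
      have s2 : (r : ℝ) * c ≤ (R0 * ℓ) * c := mul_le_mul_of_nonneg_right hr2 (by positivity)
      have s3 : (R0 * ℓ) * c ≤ R0 * c * ℓ ^ 2 := by
        have : R0 * c * ℓ ≤ R0 * c * ℓ ^ 2 := mul_le_mul_of_nonneg_left hll (by positivity)
        linarith
      have s4 : (T : ℝ) * ℓ ≤ T * ℓ ^ 2 := mul_le_mul_of_nonneg_left hll (Nat.cast_nonneg _)
      have s5 : (U' : ℝ) * ℓ ≤ (U + 1) * ℓ ^ 2 := by
        rw [hU']
        push_cast
        exact mul_le_mul_of_nonneg_left hll (by positivity)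
      have s6 : D2 * ℓ ^ 2 = (R0 * ℓ) * ((E + 1) * ℓ) + R0 * c * ℓ ^ 2 + T * ℓ ^ 2 + (U + 1) * ℓ ^ 2 := by rw [hD2]; ring
      linarith
    calc ((∑ j ∈ range (r + 1), ((pz z).powersetCard j).card : ℕ) : ℝ) * ((c : ℝ) ^ r * Bd)
        ≤ ((z : ℝ) + 1) ^ r * ((c : ℝ) ^ r * Bd) := mul_le_mul_of_nonneg_right (h3.trans h4) (by positivity)
      _ ≤ Real.exp (r * ((E + 1) * ℓ)) * (Real.exp (r * c) * (Real.exp (T * ℓ) * Real.exp (-(lam * ((k / m' - 1 : ℕ) : ℝ))))) := by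
          rw [hBd, ← q3, ← q4]
          apply mul_le_mul q1 _ (by positivity) (by positivity)
          exact mul_le_mul_of_nonneg_right q2 (by positivity)
      _ = Real.exp ((r : ℝ) * ((E + 1) * ℓ) + (r * c + (T * ℓ + -(lam * ((k / m' - 1 : ℕ) : ℝ))))) := by
          rw [Real.exp_add, Real.exp_add, Real.exp_add]
      _ ≤ Real.exp (-(U' * ℓ)) := Real.exp_le_exp.2 q7
      _ = _ := q5.symm
  have h6 : (3 : ℝ) * (1 / (k : ℝ) ^ U') ≤ 1 / (k : ℝ) ^ U := by
    rw [hU', pow_succ]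
    have h7 : 0 < (k : ℝ) ^ U := by positivity
    rw [mul_one_div, div_le_div_iff₀ (by positivity) h7]
    nlinarith
  linarith

end Pool.Agent.U847.XP
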