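import Pool.Agent.U847.XD
import Pool.Agent.N625.PT.X4

set_option autoImplicit false

/-! Random integers given by digits with exponential decay of the characters: the rough elements. -/

namespace Pool.Agent.U847.XP
open Finset
open Pool.Agent.N625.PT
open Pool.Agent.H373R2.T7 (pz mem_pz nuB PerB nuB_le)
open Pool.Agent.Y877.SX (mid Vm fd FF mem_mid fac_pos fac_le Vm_pos Vm_le fd_one fac_inv_one one_le_prodR)
open Pool.Agent.H373R2.T7 (pz mem_pz Vz Vz_pos Vz_le_one Vz_inv_small ev_L')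
open Pool.Agent.Y877.SX (mid Vm fd mem_mid fac_pos fac_le Vm_pos Vm_le fd_one fd_mul FF_sum Vz_split)

open Classical in
lemma single_law (b q₀ : ℕ) (hb : 2 ≤ b) (Cl : ℕ → (ℕ → ℝ) → Prop) (hC : SCls b q₀ Cl) (E U : ℕ) :
    ∃ k₀ : ℕ, ∀ k : ℕ, k₀ ≤ k → ∀ p, Cl k p → ∀ y z : ℕ, q₀ ≤ y → 1 ≤ z → (z : ℝ) ≤ (k : ℝ) ^ E →
    ∀ P : Finset ℕ, P ⊆ mid y z → ∀ α β : ℤ, (∀ q ∈ P, ¬ (q : ℤ) ∣ α) →
    VP P - 1 / (k : ℝ) ^ U ≤ ∑ v ∈ (range (b ^ k)).filter (fun v : ℕ => ∀ q ∈ P, ¬ (q : ℤ) ∣ α * v + β), p v := by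
  obtain ⟨k₀, h0⟩ := law_sieve b q₀ hb Cl hC 1 E U le_rfl
  refine ⟨k₀, fun k hk p hp y z hy hz hzE P hP α β hα => ?_⟩
  obtain ⟨Q, hQd⟩ : ∃ Q : ℕ → ℕ → Prop, ∀ q n, Q q n ↔ (q ∈ P ∧ (q : ℤ) ∣ α * (n : ℕ) + β) := ⟨_, fun _ _ => Iff.rfl⟩
  have hQ : PerB Q 1 := by
    refine ⟨fun q n => by rw [hQd, hQd, dvd_modZ], fun q hq => ?_⟩
    unfold nuB
    by_cases h : q ∈ P
    · refine le_trans (card_le_card ?_) (few_oneZ q α β hq (hα q h))
      intro r hr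
      rw [mem_filter] at hr ⊢
      exact ⟨hr.1, ((hQd _ _).1 hr.2).2⟩
    · rw [filter_false_of_mem (fun r _ => by rw [hQd]; tauto), card_empty]
      exact Nat.zero_le _
  have h1 := h0 k hk p hp z hz hzE Q hQ (fun q n hq => by
    have := (mem_mid.1 (hP ((hQd q n).1 hq).1)).1
    omega)
  have hsub : ∀ q ∈ P, q ∈ pz z := fun q hq => mem_pz.2 (mem_mid.1 (hP hq)).2
  have e1 : (range (b ^ k)).filter (fun v : ℕ => ∀ q ∈ pz z, ¬ Q q v) =
      (range (b ^ k)).filter (fun v : ℕ => ∀ q ∈ P, ¬ (q : ℤ) ∣ α * v + β) := by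
    apply filter_congr
    intro n _
    constructor
    · intro h q hq hd
      exact h q (hsub q hq) ((hQd _ _).2 ⟨hq, hd⟩)
    · intro h q _ hq
      obtain ⟨hq, hd⟩ := (hQd _ _).1 hq
      exact h q hq hd
  rw [e1] at h1
  have h2 := (abs_le.1 h1).1
  have h3 : VP P ≤ ∏ q ∈ pz z, (1 - (nuB Q q : ℝ) / q) := by
    have : VP P = ∏ q ∈ pz z, (if q ∈ P then (1 - 1 / (q : ℝ)) else 1) := by
      unfold VP
      rw [← prod_filter]
      apply prod_congr _ (fun _ _ => rfl)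
      ext q
      rw [mem_filter]
      exact ⟨fun h => ⟨hsub q h, h⟩, fun h => h.2⟩
    rw [this]
    apply prod_le_prod
    · intro q hq
      split_ifs
      · exact (fac_pos (mem_pz.1 hq).2).le
      · exact zero_le_one
    · intro q hq
      have hpp := (mem_pz.1 hq).2
      have hp0 : (0 : ℝ) < q := by exact_mod_cast hpp.pos
      split_ifs with hy
      · have : (nuB Q q : ℝ) ≤ 1 := by exact_mod_cast hQ.few q hpp
        gcongr
      · have : nuB Q q = 0 := by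
          unfold nuB
          rw [filter_false_of_mem, card_empty]
          intro r _ hq
          exact hy ((hQd _ _).1 hq).1
        rw [this]
        simp
  linarith

open Classical in
lemma pair_law (b q₀ : ℕ) (hb : 2 ≤ b) (Cl : ℕ → (ℕ → ℝ) → Prop) (hC : SCls b q₀ Cl) (E U : ℕ) :
    ∃ k₀ : ℕ, ∀ k : ℕ, k₀ ≤ k → ∀ p, Cl k p → ∀ y z : ℕ, q₀ ≤ y → 1 ≤ z → (z : ℝ) ≤ (k : ℝ) ^ E →
    ∀ P : Finset ℕ, P ⊆ mid y z → ∀ (α β β' : ℤ) (D : ℕ), (∀ q ∈ P, ¬ (q : ℤ) ∣ α) →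
    (∀ q ∈ P, ∀ v : ℕ, (q : ℤ) ∣ α * v + β → (q : ℤ) ∣ α * v + β' → q ∣ D) →
    ∑ v ∈ (range (b ^ k)).filter (fun v : ℕ => (∀ q ∈ P, ¬ (q : ℤ) ∣ α * v + β) ∧ (∀ q ∈ P, ¬ (q : ℤ) ∣ α * v + β')), p v ≤
      VP P ^ 2 * fd y z D + 1 / (k : ℝ) ^ U := by
  obtain ⟨k₀, h0⟩ := law_sieve b q₀ hb Cl hC 2 E U (by norm_num)
  refine ⟨k₀, fun k hk p hp y z hy hz hzE P hP α β β' D hα hD => ?_⟩
  obtain ⟨Q, hQd⟩ : ∃ Q : ℕ → ℕ → Prop, ∀ q n, Q q n ↔ (q ∈ P ∧ ((q : ℤ) ∣ α * (n : ℕ) + β ∨ (q : ℤ) ∣ α * (n : ℕ) + β')) :=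
    ⟨_, fun _ _ => Iff.rfl⟩
  have hQ : PerB Q 2 := by
    refine ⟨fun q n => by rw [hQd, hQd, dvd_modZ, dvd_modZ q α β'], fun q hq => ?_⟩
    unfold nuB
    by_cases h : q ∈ P
    · have h1 := few_oneZ q α β hq (hα q h)
      have h2 := few_oneZ q α β' hq (hα q h)
      refine le_trans (card_le_card (t := (range q).filter (fun r => (q : ℤ) ∣ α * (r : ℕ) + β) ∪
        (range q).filter (fun r => (q : ℤ) ∣ α * (r : ℕ) + β')) ?_) ?_
      · intro r hr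
        rw [mem_filter] at hr
        rw [mem_union, mem_filter, mem_filter]
        rcases ((hQd _ _).1 hr.2).2 with h | h
        · exact Or.inl ⟨hr.1, h⟩
        · exact Or.inr ⟨hr.1, h⟩
      · exact (card_union_le _ _).trans (by omega)
    · rw [filter_false_of_mem (fun r _ => by rw [hQd]; tauto), card_empty]
      exact Nat.zero_le _
  have h1 := h0 k hk p hp z hz hzE Q hQ (fun q n hq => by
    have := (mem_mid.1 (hP ((hQd q n).1 hq).1)).1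
    omega)
  have hsub : ∀ q ∈ P, q ∈ pz z := fun q hq => mem_pz.2 (mem_mid.1 (hP hq)).2
  have e1 : (range (b ^ k)).filter (fun v : ℕ => ∀ q ∈ pz z, ¬ Q q v) =
      (range (b ^ k)).filter (fun v : ℕ => (∀ q ∈ P, ¬ (q : ℤ) ∣ α * v + β) ∧ (∀ q ∈ P, ¬ (q : ℤ) ∣ α * v + β')) := by
    apply filter_congr
    intro n _
    constructor
    · intro h
      exact ⟨fun q hq hd => h q (hsub q hq) ((hQd _ _).2 ⟨hq, Or.inl hd⟩),
        fun q hq hd => h q (hsub q hq) ((hQd _ _).2 ⟨hq, Or.inr hd⟩)⟩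
    · rintro ⟨ha, hb⟩ q _ hq
      obtain ⟨hq, hd | hd⟩ := (hQd _ _).1 hq
      · exact ha q hq hd
      · exact hb q hq hd
  rw [e1] at h1
  have h2 := (abs_le.1 h1).2
  have h3 : ∏ q ∈ pz z, (1 - (nuB Q q : ℝ) / q) ≤ VP P ^ 2 * fd y z D := by
    have e0 : ∏ q ∈ P.filter (fun q => q ∣ D), (1 - 1 / (q : ℝ))⁻¹ ≤ fd y z D := by
      unfold fd
      have hs2 : P.filter (fun q => q ∣ D) ⊆ (mid y z).filter (fun q => q ∣ D) := filter_subset_filter _ hP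
      rw [← prod_sdiff hs2]
      apply le_mul_of_one_le_left
      · apply prod_nonneg
        intro q hq
        exact zero_le_one.trans (fac_inv_one (mem_mid.1 (hP (mem_filter.1 hq).1)).2.2)
      · apply one_le_prodR
        intro q hq
        exact fac_inv_one (mem_mid.1 (mem_filter.1 (mem_sdiff.1 hq).1).1).2.2
    refine le_trans ?_ (mul_le_mul_of_nonneg_left e0 (by positivity))
    have e2 : VP P ^ 2 * ∏ q ∈ P.filter (fun q => q ∣ D), (1 - 1 / (q : ℝ))⁻¹ = ∏ q ∈ pz z, ((if q ∈ P then (1 - 1 / (q : ℝ)) ^ 2 else 1) *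
        (if q ∈ P ∧ q ∣ D then (1 - 1 / (q : ℝ))⁻¹ else 1)) := by
      unfold VP
      rw [prod_mul_distrib, ← prod_filter, ← prod_filter, ← prod_pow]
      congr 1
      · apply prod_congr _ (fun _ _ => rfl)
        ext q
        rw [mem_filter]
        exact ⟨fun h => ⟨hsub q h, h⟩, fun h => h.2⟩
      · apply prod_congr _ (fun _ _ => rfl)
        ext q
        rw [mem_filter, mem_filter]
        exact ⟨fun h => ⟨hsub q h.1, h⟩, fun h => h.2⟩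
    rw [e2]
    apply prod_le_prod
    · intro q hq
      have hpp := (mem_pz.1 hq).2
      have hp0 : (0 : ℝ) < q := by exact_mod_cast hpp.pos
      have : (nuB Q q : ℝ) / q ≤ 1 := by
        rw [div_le_one hp0]
        exact_mod_cast nuB_le Q q
      linarith
    · intro q hq
      have hpp := (mem_pz.1 hq).2
      have hp0 : (0 : ℝ) < q := by exact_mod_cast hpp.pos
      have hfp := fac_pos hpp
      by_cases hy : q ∈ P
      · obtain ⟨r1, hr1, hd1⟩ := rootZ_ex q α β hpp (hα q hy)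
        obtain ⟨r2, hr2, hd2⟩ := rootZ_ex q α β' hpp (hα q hy)
        have m1 : r1 ∈ (range q).filter (fun r => Q q r) := mem_filter.2 ⟨mem_range.2 hr1, (hQd _ _).2 ⟨hy, Or.inl hd1⟩⟩
        have m2 : r2 ∈ (range q).filter (fun r => Q q r) := mem_filter.2 ⟨mem_range.2 hr2, (hQd _ _).2 ⟨hy, Or.inr hd2⟩⟩
        rw [if_pos hy]
        by_cases hpD : q ∣ D
        · rw [if_pos ⟨hy, hpD⟩]
          have : (1 : ℝ) ≤ nuB Q q := by
            have : 0 < nuB Q q := by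
              unfold nuB
              exact card_pos.2 ⟨r1, m1⟩
            exact_mod_cast this
          have h5 : (1 - 1 / (q : ℝ)) ^ 2 * (1 - 1 / (q : ℝ))⁻¹ = 1 - 1 / (q : ℝ) := by
            field_simp
          rw [h5]
          gcongr
        · rw [if_neg (fun h => hpD h.2), mul_one]
          have hne : r1 ≠ r2 := by
            intro h
            rw [← h] at hd2
            exact hpD (hD q hy r1 hd1 hd2)
          have : (2 : ℝ) ≤ nuB Q q := by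
            have : 1 < nuB Q q := by
              unfold nuB
              rw [one_lt_card]
              exact ⟨r1, m1, r2, m2, hne⟩
            exact_mod_cast this
          have h5 : 2 / (q : ℝ) ≤ (nuB Q q : ℝ) / q := by gcongr
          have h6 : (1 - 1 / (q : ℝ)) ^ 2 = 1 - 2 / q + (1 / (q : ℝ)) ^ 2 := by ring
          rw [h6]
          have h7 : 0 ≤ (1 / (q : ℝ)) ^ 2 := by positivity
          linarith
      · rw [if_neg hy, if_neg (fun h => hy h.1)]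
        have : 0 ≤ (nuB Q q : ℝ) / q := by positivity
        linarith
  linarith

set_option maxHeartbeats 2000000 in
open Classical in
theorem rough_law (b q₀ : ℕ) (hb : 2 ≤ b) (Cl : ℕ → (ℕ → ℝ) → Prop) (hC : SCls b q₀ Cl) (A : ℕ) (δ ε : ℝ) (hδ : 0 < δ)
    (hε : 0 < ε) : ∃ K0 : ℕ, 1 ≤ K0 ∧ ∀ E : ℕ, ∃ k₀ : ℕ, ∀ k : ℕ, k₀ ≤ k → ∀ p, Cl k p →
    ∀ y z : ℕ, K0 * Real.log k ≤ y → y ≤ z → (z : ℝ) ≤ (k : ℝ) ^ E → ∀ P : Finset ℕ, P ⊆ mid y z →
    ∀ (X : ℕ) (S : Finset ℕ), S ⊆ Icc 1 X → (X : ℝ) ≤ S.card * (k : ℝ) ^ A → (k : ℝ) ^ 5 ≤ S.card →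
    ∀ (α : ℤ) (β : ℕ → ℤ), (∀ q ∈ P, ¬ (q : ℤ) ∣ α) →
    (∀ s ∈ S, ∀ t ∈ S, ∀ q v : ℕ, (q : ℤ) ∣ α * v + β s → (q : ℤ) ∣ α * v + β t → q ∣ Nat.dist s t * (s + t)) →
    ∑ v ∈ range (b ^ k), (if ((S.filter (fun s => ∀ q ∈ P, ¬ (q : ℤ) ∣ α * (v : ℕ) + β s)).card : ℝ) <
      (1 - δ) * (S.card * VP P) then p v else 0) ≤ ε := by
  obtain ⟨η, hη⟩ : ∃ η : ℝ, η = ε * δ ^ 2 / 2 := ⟨_, rfl⟩
  have hη0' : 0 < η := by rw [hη]; positivity
  have hlη : 0 < Real.log (1 + η) := Real.log_pos (by linarith)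
  obtain ⟨K0, hK0⟩ := exists_nat_ge (6 * ((A + 2) / Real.log (1 + η) + 1))
  refine ⟨max K0 6, by omega, fun E => ?_⟩
  obtain ⟨G1, hG1⟩ := single_law b q₀ hb Cl hC E 5
  obtain ⟨G2, hG2⟩ := pair_law b q₀ hb Cl hC E 5
  obtain ⟨G3, hG3⟩ := VP_low E
  obtain ⟨x2, hx2⟩ := ev_L' (max 1 (q₀ : ℝ))
  obtain ⟨x3, hx3⟩ := exists_nat_ge (12 / (ε * δ ^ 2))
  refine ⟨max (max G1 G2) (max G3 (max x2 (max x3 1))), fun k hk p hp y z hy hyz hz P hP X S hS hSc hS5 α β hα hβ => ?_⟩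
  have b1 : G1 ≤ k := le_trans (le_trans (le_max_left _ _) (le_max_left _ _)) hk
  have b2 : G2 ≤ k := le_trans (le_trans (le_max_right _ _) (le_max_left _ _)) hk
  have b3 : G3 ≤ k := le_trans (le_trans (le_max_left _ _) (le_max_right _ _)) hk
  have b4 : x2 ≤ k := le_trans (le_trans (le_trans (le_max_left _ _) (le_max_right _ _)) (le_max_right _ _)) hk
  have b5 : x3 ≤ k := le_trans (le_trans (le_trans (le_trans (le_max_left _ _) (le_max_right _ _)) (le_max_right _ _)) (le_max_right _ _)) hk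
  have b6 : 1 ≤ k := le_trans (le_trans (le_trans (le_trans (le_max_right _ _) (le_max_right _ _)) (le_max_right _ _)) (le_max_right _ _)) hk
  have hkr : (1 : ℝ) ≤ k := by exact_mod_cast b6
  have hk0 : (0 : ℝ) < k := by linarith
  have hLL0 := hx2 k b4
  have hLL : 1 ≤ Real.log k := (le_max_left _ _).trans hLL0
  have hLb : (q₀ : ℝ) ≤ Real.log k := (le_max_right _ _).trans hLL0
  have hx3' : 12 / (ε * δ ^ 2) ≤ k := hx3.trans (by exact_mod_cast b5)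
  obtain ⟨lk, hlk⟩ : ∃ lk, lk = Real.log k := ⟨_, rfl⟩
  rw [← hlk] at hy hLL hLb
  have hK : ((max K0 6 : ℕ) : ℝ) * lk ≤ y := hy
  have hK6 : (6 : ℝ) ≤ ((max K0 6 : ℕ) : ℝ) := by exact_mod_cast le_max_right _ _
  have hKK : (K0 : ℝ) ≤ ((max K0 6 : ℕ) : ℝ) := by exact_mod_cast le_max_left _ _
  have h6y : 6 * lk ≤ y := (mul_le_mul_of_nonneg_right hK6 (by linarith)).trans hK
  have hy6 : 6 ≤ y := by
    have : (6 : ℝ) ≤ y := by linarith
    exact_mod_cast this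
  have hbLy : q₀ ≤ y := by
    have : (q₀ : ℝ) ≤ y := by linarith
    exact_mod_cast this
  have hz1 : 1 ≤ z := by omega
  obtain ⟨V, hV⟩ : ∃ V, V = VP P := ⟨_, rfl⟩
  have hV0 : 0 < V := by rw [hV]; exact VP_pos hP
  have hV1 : V ≤ 1 := by rw [hV]; exact VP_le hP
  have hVL : 1 / (k : ℝ) ^ 2 ≤ V := by rw [hV]; exact hG3 k b3 y z hyz hz1 hz P hP
  obtain ⟨m, hm⟩ : ∃ m : ℝ, m = (S.card : ℝ) := ⟨_, rfl⟩
  rw [← hm] at hSc hS5
  have hm0 : 0 < m := lt_of_lt_of_le (by positivity) hS5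
  obtain ⟨n, hn⟩ : ∃ n, y / 6 = n + 1 := ⟨y / 6 - 1, by omega⟩
  have hn6 : 6 * (n + 1) ≤ y := by omega
  have hpow : 4 * (X : ℝ) ≤ (1 + η) ^ (n + 1) * S.card := by
    have h1 : 4 * (k : ℝ) ^ A ≤ (1 + η) ^ (n + 1) := by
      have h2 : ((n + 1 : ℕ) : ℝ) ≥ (y : ℝ) / 6 - 1 := by
        have : y < 6 * (n + 1) + 6 := by omega
        have h3 : (y : ℝ) < 6 * ((n + 1 : ℕ) : ℝ) + 6 := by exact_mod_cast this
        linarith
      have h3 : (y : ℝ) / 6 - 1 ≥ (K0 / 6 - 1) * lk := by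
        have h0 : (K0 : ℝ) * lk ≤ y := le_trans (mul_le_mul_of_nonneg_right hKK (by linarith)) hK
        have h1 : ((K0 : ℝ) / 6 - 1) * lk = (K0 * lk) / 6 - lk := by ring
        rw [h1]
        linarith
      have h4 : (A + 2) / Real.log (1 + η) ≤ K0 / 6 - 1 := by linarith
      have h5 : (A + 2 : ℝ) ≤ (K0 / 6 - 1) * Real.log (1 + η) := by
        rwa [div_le_iff₀ hlη] at h4
      have h6 : Real.log (4 * (k : ℝ) ^ A) ≤ ((n + 1 : ℕ) : ℝ) * Real.log (1 + η) := by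
        rw [Real.log_mul (by norm_num) (by positivity), Real.log_pow, ← hlk]
        have h7 : Real.log 4 ≤ 2 := by
          have : Real.log 4 = 2 * Real.log 2 := by
            rw [show (4 : ℝ) = 2 ^ 2 by norm_num, Real.log_pow]
            norm_num
          rw [this]
          have := Real.log_two_lt_d9
          linarith
        calc Real.log 4 + A * lk ≤ 2 * lk + A * lk := by linarith
          _ = (A + 2) * lk := by ring
          _ ≤ ((K0 / 6 - 1) * Real.log (1 + η)) * lk := by gcongr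
          _ = ((K0 / 6 - 1) * lk) * Real.log (1 + η) := by ring
          _ ≤ ((n + 1 : ℕ) : ℝ) * Real.log (1 + η) := by gcongr; linarith
      rw [← Real.log_pow] at h6
      exact (Real.log_le_log_iff (by positivity) (by positivity)).1 h6
    rw [← hm]
    calc 4 * (X : ℝ) ≤ 4 * (m * (k : ℝ) ^ A) := by gcongr
      _ = 4 * (k : ℝ) ^ A * m := by ring
      _ ≤ _ := by gcongr
  obtain ⟨Pr, hPr⟩ : ∃ Pr : ℕ → ℕ → Prop, ∀ s v, Pr s v ↔ (∀ q ∈ P, ¬ (q : ℤ) ∣ α * (v : ℕ) + β s) := ⟨_, fun _ _ => Iff.rfl⟩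
  obtain ⟨r, hr⟩ : ∃ r : ℝ, r = 1 / (k : ℝ) ^ 5 := ⟨_, rfl⟩
  have c1 : ∀ s ∈ S, V - r ≤ ∑ v ∈ (range (b ^ k)).filter (fun v => Pr s v), p v := by
    intro s _
    have := hG1 k b1 p hp y z hbLy hz1 hz P hP α (β s) hα
    have e1 : (range (b ^ k)).filter (fun v => Pr s v) = (range (b ^ k)).filter (fun v : ℕ => ∀ q ∈ P, ¬ (q : ℤ) ∣ α * v + β s) := by
      ext v
      rw [mem_filter, mem_filter, hPr]
    rw [e1, hV, hr]
    exact this
  have c2 : ∀ s ∈ S, ∀ t ∈ S.erase s, ∑ v ∈ (range (b ^ k)).filter (fun v => Pr s v ∧ Pr t v), p v ≤ V ^ 2 * Pool.Agent.Y877.SX.FF y z s t + r := by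
    intro s hs t ht
    have := hG2 k b2 p hp y z hbLy hz1 hz P hP α (β s) (β t) (Nat.dist s t * (s + t)) hα (by
      intro q _ v h1 h2
      exact hβ s hs t (mem_of_mem_erase ht) q v h1 h2)
    have e1 : (range (b ^ k)).filter (fun v => Pr s v ∧ Pr t v) = (range (b ^ k)).filter (fun v : ℕ =>
        (∀ q ∈ P, ¬ (q : ℤ) ∣ α * v + β s) ∧ (∀ q ∈ P, ¬ (q : ℤ) ∣ α * v + β t)) := by
      ext v
      rw [mem_filter, mem_filter, hPr, hPr]
    rw [e1, hV, hr]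
    refine this.trans ?_
    have h5 : fd y z (Nat.dist s t * (s + t)) ≤ Pool.Agent.Y877.SX.FF y z s t := fd_mul _ _ _ _
    have h6 : VP P ^ 2 * fd y z (Nat.dist s t * (s + t)) ≤ VP P ^ 2 * Pool.Agent.Y877.SX.FF y z s t :=
      mul_le_mul_of_nonneg_left h5 (by positivity)
    linarith
  have c3 : ∀ s ∈ S, ∑ t ∈ S.erase s, Pool.Agent.Y877.SX.FF y z s t ≤ (1 + η) * m := fun s hs => by
    have := FF_sum y z n X (by omega) hn6 S hS η hη0' hpow s hs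
    rwa [← hm] at this
  have hr0 : 0 ≤ r := by rw [hr]; positivity
  have key := chebW S (range (b ^ k)) Pr p (hC.nonneg _ _ hp) (hC.sum _ _ hp) V η δ r m (Pool.Agent.Y877.SX.FF y z) hV0 hV1 hδ hm.symm hr0 c1 c2 c3
  have e2 : ∑ v ∈ range (b ^ k), (if ((S.filter (fun s => ∀ q ∈ P, ¬ (q : ℤ) ∣ α * (v : ℕ) + β s)).card : ℝ) <
      (1 - δ) * (S.card * VP P) then p v else 0) =
      ∑ v ∈ range (b ^ k), (if ((S.filter (fun s => Pr s v)).card : ℝ) < (1 - δ) * (m * V) then p v else 0) := by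
    apply sum_congr rfl
    intro v _
    have e3 : S.filter (fun s => ∀ q ∈ P, ¬ (q : ℤ) ∣ α * (v : ℕ) + β s) = S.filter (fun s => Pr s v) := by
      ext s
      rw [mem_filter, mem_filter, hPr]
    rw [e3, ← hm, ← hV]
  rw [e2]
  obtain ⟨cnt, hcnt⟩ : ∃ cnt, cnt = ∑ v ∈ range (b ^ k), (if ((S.filter (fun s => Pr s v)).card : ℝ) < (1 - δ) * (m * V)
    then p v else 0) := ⟨_, rfl⟩
  rw [← hcnt] at key ⊢
  have hmV : 0 < m * V := by positivity
  have hV4 : 1 / (k : ℝ) ^ 4 ≤ V ^ 2 := by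
    have := pow_le_pow_left₀ (by positivity) hVL 2
    rw [div_pow, one_pow, ← pow_mul] at this
    exact this
  have hc : 3 ≤ ε / 4 * δ ^ 2 * k := by
    rw [div_le_iff₀ (by positivity)] at hx3'
    linarith
  have k1 : m ≤ ε / 4 * δ ^ 2 * (m * V) ^ 2 := by
    have h3 : 1 ≤ ε / 4 * δ ^ 2 * (m * V ^ 2) := by
      have h4 : (k : ℝ) ≤ m * V ^ 2 := by
        calc (k : ℝ) = (k : ℝ) ^ 5 * (1 / (k : ℝ) ^ 4) := by field_simp
          _ ≤ m * V ^ 2 := mul_le_mul hS5 hV4 (by positivity) hm0.le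
      have h5 : ε / 4 * δ ^ 2 * k ≤ ε / 4 * δ ^ 2 * (m * V ^ 2) := mul_le_mul_of_nonneg_left h4 (by positivity)
      linarith
    calc m = m * 1 := by ring
      _ ≤ m * (ε / 4 * δ ^ 2 * (m * V ^ 2)) := mul_le_mul_of_nonneg_left h3 hm0.le
      _ = _ := by ring
  have k2 : 3 * (m ^ 2 * r) ≤ ε / 4 * δ ^ 2 * (m * V) ^ 2 := by
    have h2 : 3 * r ≤ ε / 4 * δ ^ 2 * V ^ 2 := by
      calc 3 * r ≤ (ε / 4 * δ ^ 2 * k) * r := mul_le_mul_of_nonneg_right hc hr0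
        _ = ε / 4 * δ ^ 2 * (1 / (k : ℝ) ^ 4) := by rw [hr]; field_simp
        _ ≤ _ := mul_le_mul_of_nonneg_left hV4 (by positivity)
    calc 3 * (m ^ 2 * r) = m ^ 2 * (3 * r) := by ring
      _ ≤ m ^ 2 * (ε / 4 * δ ^ 2 * V ^ 2) := mul_le_mul_of_nonneg_left h2 (by positivity)
      _ = _ := by ring
  have k3 : cnt * (δ * (m * V)) ^ 2 ≤ ε * (δ * (m * V)) ^ 2 := by
    refine key.trans ?_
    have h1 : η * (m * V) ^ 2 = ε / 2 * δ ^ 2 * (m * V) ^ 2 := by rw [hη]; ring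
    have h2 : ε * (δ * (m * V)) ^ 2 = ε / 2 * δ ^ 2 * (m * V) ^ 2 + ε / 4 * δ ^ 2 * (m * V) ^ 2 +
      ε / 4 * δ ^ 2 * (m * V) ^ 2 := by ring
    rw [h1, h2]
    linarith
  exact le_of_mul_le_mul_right k3 (by positivity)

end Pool.Agent.U847.XP
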