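import Pool.Agent.U847.XG
import Pool.Agent.N625.PT.X19

set_option autoImplicit false

/-! Random integers given by digits with exponential decay of the characters: tuples. -/

namespace Pool.Agent.U847.XP
open Finset
open Pool.Agent.N625.PT
open Pool.Agent.H373R2.T7 (pz mem_pz Vz Vz_pos Vz_le_one ev_L')
open Pool.Agent.Y877.SX (fac_pos fac_le)

set_option maxHeartbeats 4000000 in
open Classical in
/-- tuples for several independent random multiples of a small primorial -/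
theorem tuple_law (b q₀ : ℕ) (hb : 2 ≤ b) (r : ℕ) (Cl : Fin r → ℕ → (ℕ → ℝ) → Prop) (hC : ∀ j, SCls b q₀ (Cl j)) (κ : Fin r → ℤ)
    (hκ : ∀ j, κ j ≠ 0) (B J A C K₁ : ℕ) (θ : ℝ) (hθ : 0 < θ) (ε : ℝ) (hε : 0 < ε) (hε1 : ε ≤ 1) :
    ∃ k₀ : ℕ, ∀ k : ℕ, k₀ ≤ k → ∀ p : Fin r → ℕ → ℝ, (∀ j, Cl j k (p j)) →
    ∀ y : ℕ, θ * Real.log k ≤ y → y ≤ K₁ * Real.log k → ∀ c : Fin r → ℤ, (∀ j, |c j| ≤ B * (b : ℤ) ^ k) →
    ∀ h : Fin r → ℕ, (∀ j, 1 ≤ h j ∧ h j ≤ k ^ J) → ∀ X : ℕ, b ^ k ≤ X * k ^ C → X ≤ b ^ k * k ^ C →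
    ∀ (I : Finset ℕ) (f : Fin r → ℕ → ℕ), (∀ j, Set.InjOn (f j) I) →
    (∀ j, ∀ i ∈ I, 1 ≤ f j i ∧ f j i ≤ X ∧ (f j i).Coprime (primorial y * h j)) → (X : ℝ) ≤ I.card * (k : ℝ) ^ A →
    ∀ σ : Fin r → ℤ, (∀ j, σ j = 1 ∨ σ j = -1) →
    ∑ v ∈ Fintype.piFinset (fun _ : Fin r => range (b ^ k)),
      (if (∀ j, ∀ i ∈ I, 0 < Nm y (h j) (c j) (κ j) (v j) + σ j * (f j i : ℕ)) → ∀ t : ℕ, t ≤ r →
        |((I.filter (fun i => ∀ j : Fin r, (j : ℕ) < t → (Nm y (h j) (c j) (κ j) (v j) + σ j * (f j i : ℕ)).toNat.Prime)).card : ℝ) -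
          I.card / (Vz y * (k * Real.log b)) ^ t| ≤ ε * (I.card / (Vz y * (k * Real.log b)) ^ t) then 0 else ∏ j, p j (v j)) ≤ ε := by
  obtain ⟨δ, hδ⟩ : ∃ δ : ℝ, δ = ε / (2 * (r + 1)) := ⟨_, rfl⟩
  have hr0 : (0 : ℝ) ≤ r := Nat.cast_nonneg r
  have hδ0 : 0 < δ := by rw [hδ]; positivity
  have hrδ : (r + 1 : ℝ) * δ = ε / 2 := by rw [hδ]; field_simp
  have hrδ1 : (r : ℝ) * δ ≤ ε / 2 := by
    have : (r : ℝ) * δ + δ = ε / 2 := by rw [← hrδ]; ring
    linarith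
  have hδ1 : δ ≤ 1 := by
    have : δ ≤ ε / 2 := by
      have : (r : ℝ) * δ + δ = ε / 2 := by rw [← hrδ]; ring
      have : 0 ≤ (r : ℝ) * δ := by positivity
      linarith
    linarith
  have h := fun j : Fin r => law2 b q₀ hb (Cl j) (hC j) (κ j) (hκ j) B J (A + 2 * r + 1) C K₁ θ hθ δ hδ0 hδ1
  choose k₀ hk₀ using h
  obtain ⟨k1, hk1⟩ := exists_nat_ge (Real.log b)
  refine ⟨max (univ.sup k₀) (max k1 2), fun k hk p hp y hy1 hy2 c hc h hh X hX1 hX2 I f hinj hf hIA σ hσ => ?_⟩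
  have b1 : ∀ j, k₀ j ≤ k := fun j => (Finset.le_sup (f := k₀) (mem_univ j)).trans ((le_max_left _ _).trans hk)
  have b2 : Real.log b ≤ k := hk1.trans (by exact_mod_cast (le_max_left _ _).trans ((le_max_right _ _).trans hk))
  have b3 : 2 ≤ k := (le_max_right _ _).trans ((le_max_right _ _).trans hk)
  have hkr : (2 : ℝ) ≤ k := by exact_mod_cast b3
  have hk0 : (0 : ℝ) < k := by linarith
  have hbr : (2 : ℝ) ≤ b := by exact_mod_cast hb
  have hlogb : 0.69 < Real.log b := by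
    have := Real.log_two_gt_d9
    have := Real.log_le_log (by norm_num) hbr
    linarith
  obtain ⟨Q, hQ⟩ : ∃ Q : ℝ, Q = Vz y * (k * Real.log b) := ⟨_, rfl⟩
  have hVy := Vz_pos y
  have hQ0 : 0 < Q := by rw [hQ]; exact mul_pos hVy (mul_pos hk0 (by linarith))
  have hQk : Q ≤ (k : ℝ) ^ 2 := by
    rw [hQ, sq]
    have g1 : (k : ℝ) * Real.log b ≤ k * k := mul_le_mul_of_nonneg_left b2 hk0.le
    have g2 : Vz y * (k * Real.log b) ≤ 1 * (k * Real.log b) := mul_le_mul_of_nonneg_right (Vz_le_one y)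
      (mul_nonneg hk0.le (by linarith))
    linarith
  rw [← hQ]
  obtain ⟨m, hm⟩ : ∃ m : ℝ, m = I.card := ⟨_, rfl⟩
  rw [← hm] at hIA ⊢
  have hm0 : 0 ≤ m := by rw [hm]; exact Nat.cast_nonneg _
  -- the sets
  obtain ⟨It, hIt⟩ : ∃ It : ℕ → (Fin r → ℕ) → Finset ℕ, ∀ t v, It t v =
    I.filter (fun i => ∀ j : Fin r, (j : ℕ) < t → (Nm y (h j) (c j) (κ j) (v j) + σ j * (f j i : ℕ)).toNat.Prime) := ⟨_, fun _ _ => rfl⟩
  have hIsub : ∀ t v, It t v ⊆ I := fun t v => by rw [hIt]; exact filter_subset _ _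
  have hI0 : ∀ v, It 0 v = I := by
    intro v
    rw [hIt]
    apply filter_true_of_mem
    intro i _ j hj
    omega
  have hIs : ∀ (j : Fin r) v, It ((j : ℕ) + 1) v = (It j v).filter (fun i => (Nm y (h j) (c j) (κ j) (v j) + σ j * (f j i : ℕ)).toNat.Prime) := by
    intro j v
    rw [hIt, hIt, filter_filter]
    apply filter_congr
    intro i _
    constructor
    · intro hq
      exact ⟨fun l hl => hq l (by omega), hq j (by omega)⟩
    · rintro ⟨h1, h2⟩ l hl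
      rcases Nat.lt_or_ge l j with h3 | h3
      · exact h1 l h3
      · have : l = j := by
          apply Fin.ext
          omega
        rw [this]
        exact h2
  have hupd : ∀ (j : Fin r) (v : Fin r → ℕ) (w : ℕ), It j (Function.update v j w) = It j v := by
    intro j v w
    rw [hIt, hIt]
    apply filter_congr
    intro i _
    constructor
    · intro hq l hl
      have := hq l hl
      rwa [Function.update_of_ne (by intro h; rw [h] at hl; omega)] at this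
    · intro hq l hl
      rw [Function.update_of_ne (by intro h; rw [h] at hl; omega)]
      exact hq l hl
  -- the bad events
  obtain ⟨Bad, hBad⟩ : ∃ Bad : Fin r → (Fin r → ℕ) → Prop, ∀ j v, Bad j v ↔ (((X : ℝ) ≤ (It j v).card * (k : ℝ) ^ (A + 2 * r + 1)) ∧
    (∀ i ∈ It j v, 0 < Nm y (h j) (c j) (κ j) (v j) + σ j * (f j i : ℕ)) ∧ δ * ((It j v).card / Q) <
      |(((It j v).filter (fun i => (Nm y (h j) (c j) (κ j) (v j) + σ j * (f j i : ℕ)).toNat.Prime)).card : ℝ) - (It j v).card / Q|) :=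
    ⟨_, fun _ _ => Iff.rfl⟩
  have hw0 : ∀ v ∈ Fintype.piFinset (fun _ : Fin r => range (b ^ k)), 0 ≤ ∏ j, p j (v j) := fun v _ =>
    prod_nonneg fun j _ => (hC j).nonneg _ _ (hp j) _
  have hB : ∀ j ∈ (univ : Finset (Fin r)), ∑ v ∈ Fintype.piFinset (fun _ : Fin r => range (b ^ k)),
      (if Bad j v then ∏ j, p j (v j) else 0) ≤ δ := by
    intro j _
    apply cond_one (fun _ : Fin r => range (b ^ k)) p (fun i v _ => (hC i).nonneg _ _ (hp i) v) (fun i => (hC i).sum _ _ (hp i)) j (Bad j) δ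
    intro v _
    by_cases hden : (X : ℝ) ≤ (It j v).card * (k : ℝ) ^ (A + 2 * r + 1)
    · have hinj' : Set.InjOn (f j) (It j v) := (hinj j).mono (by exact_mod_cast hIsub j v)
      obtain ⟨S, hS⟩ : ∃ S, S = (It j v).image (f j) := ⟨_, rfl⟩
      have hSc : S.card = (It j v).card := by rw [hS]; exact card_image_of_injOn hinj'
      have h1 := hk₀ j k (b1 j) (p j) (hp j) y hy1 hy2 (c j) (hc j) (h j) (hh j).1 (hh j).2 X hX1 hX2 S (by
        intro s hs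
        rw [hS, mem_image] at hs
        obtain ⟨i, hi, rfl⟩ := hs
        have := hf j i (hIsub j v hi)
        rw [mem_Icc]
        exact ⟨this.1, this.2.1⟩) (by
        intro s hs
        rw [hS, mem_image] at hs
        obtain ⟨i, hi, rfl⟩ := hs
        exact (hf j i (hIsub j v hi)).2.2) (by rw [hSc]; exact hden) (σ j) (hσ j)
      refine le_trans (sum_le_sum fun w _ => ?_) h1
      have hpw := (hC j).nonneg _ _ (hp j) w
      by_cases hq : Bad j (Function.update v j w)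
      · rw [if_pos hq]
        rw [hBad, hupd] at hq
        simp only [Function.update_self] at hq
        obtain ⟨_, q2, q3⟩ := hq
        rw [if_pos]
        rw [hSc, ← hQ]
        refine ⟨fun s hs => ?_, ?_⟩
        · rw [hS, mem_image] at hs
          obtain ⟨i, hi, rfl⟩ := hs
          exact q2 i hi
        · have e1 : (S.filter (fun s => (((primorial y * h j : ℕ) : ℤ) * (c j + κ j * (w : ℕ)) + σ j * (s : ℕ)).toNat.Prime)).card =
              ((It j v).filter (fun i => (Nm y (h j) (c j) (κ j) w + σ j * (f j i : ℕ)).toNat.Prime)).card := by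
            rw [hS, filter_image, card_image_of_injOn]
            · rfl
            · exact hinj'.mono (by
                intro i hi
                rw [mem_coe, mem_filter] at hi
                exact_mod_cast hi.1)
          rw [e1]
          exact q3
      · rw [if_neg hq]
        split_ifs
        · exact hpw
        · exact le_rfl
    · refine le_trans (le_of_eq ?_) hδ0.le
      apply sum_eq_zero
      intro w _
      rw [if_neg]
      intro hq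
      rw [hBad, hupd] at hq
      exact hden hq.1
  obtain ⟨Qp, hQp⟩ : ∃ Qp : (Fin r → ℕ) → Prop, ∀ v, Qp v ↔ ((∀ j, ∀ i ∈ I, 0 < Nm y (h j) (c j) (κ j) (v j) + σ j * (f j i : ℕ)) → ∀ t : ℕ, t ≤ r →
        |((I.filter (fun i => ∀ j : Fin r, (j : ℕ) < t → (Nm y (h j) (c j) (κ j) (v j) + σ j * (f j i : ℕ)).toNat.Prime)).card : ℝ) -
          m / Q ^ t| ≤ ε * (m / Q ^ t)) := ⟨_, fun _ => Iff.rfl⟩
  have hsub : ∀ v ∈ Fintype.piFinset (fun _ : Fin r => range (b ^ k)), ¬ Qp v → ∃ j ∈ (univ : Finset (Fin r)), Bad j v := by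
    intro v _ hnot
    by_contra hcon
    push Not at hcon
    apply hnot
    rw [hQp]
    intro hpos t ht
    -- induction
    have key : ∀ t : ℕ, t ≤ r → (1 - δ) ^ t * (m / Q ^ t) ≤ (It t v).card ∧ ((It t v).card : ℝ) ≤ (1 + δ) ^ t * (m / Q ^ t) := by
      intro t
      induction t with
      | zero =>
        intro _
        rw [hI0, ← hm]
        simp
      | succ t ih =>
        intro ht
        obtain ⟨g1, g2⟩ := ih (by omega)
        have hnb := hcon ⟨t, by omega⟩ (mem_univ _)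
        rw [hBad] at hnb
        simp only at hnb
        have hmQ : 0 ≤ m / Q ^ t := by positivity
        have hhalf : 1 / 2 ≤ (1 - δ) ^ t := by
          have q1 := pow_dn t δ hδ0.le hδ1
          have q2 : (t : ℝ) * δ ≤ r * δ := mul_le_mul_of_nonneg_right (by exact_mod_cast (by omega : t ≤ r)) hδ0.le
          linarith
        have hden : (X : ℝ) ≤ (It t v).card * (k : ℝ) ^ (A + 2 * r + 1) := by
          have q1 : m / 2 ≤ (It t v).card * (k : ℝ) ^ (2 * r) := by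
            have q2 : Q ^ t ≤ (k : ℝ) ^ (2 * r) := by
              calc Q ^ t ≤ ((k : ℝ) ^ 2) ^ t := pow_le_pow_left₀ hQ0.le hQk t
                _ = (k : ℝ) ^ (2 * t) := by rw [← pow_mul]
                _ ≤ _ := pow_le_pow_right₀ (by linarith) (by omega)
            have q3 : 1 / 2 * (m / Q ^ t) ≤ (It t v).card := (mul_le_mul_of_nonneg_right hhalf hmQ).trans g1
            have q4 : 1 / 2 * (m / Q ^ t) * Q ^ t = m / 2 := by field_simp
            rw [← q4]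
            exact mul_le_mul q3 q2 (by positivity) (Nat.cast_nonneg _)
          calc (X : ℝ) ≤ m * (k : ℝ) ^ A := hIA
            _ = (m / 2) * ((k : ℝ) ^ A * 2) := by ring
            _ ≤ ((It t v).card * (k : ℝ) ^ (2 * r)) * ((k : ℝ) ^ A * k) := by
                apply mul_le_mul q1 _ (by positivity) (by positivity)
                exact mul_le_mul_of_nonneg_left (by linarith) (by positivity)
            _ = _ := by rw [pow_succ, pow_add]; ring
        have hpos' : ∀ i ∈ It t v, 0 < Nm y (h ⟨t, by omega⟩) (c ⟨t, by omega⟩) (κ ⟨t, by omega⟩) (v ⟨t, by omega⟩) +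
            σ ⟨t, by omega⟩ * (f ⟨t, by omega⟩ i : ℕ) := fun i hi => hpos ⟨t, by omega⟩ i (hIsub t v hi)
        have h5 : |((It (t + 1) v).card : ℝ) - (It t v).card / Q| ≤ δ * ((It t v).card / Q) := by
          by_contra hlt
          push Not at hlt
          apply hnb
          refine ⟨hden, hpos', ?_⟩
          have := hIs ⟨t, by omega⟩ v
          simp only at this
          rw [← this]
          exact hlt
        obtain ⟨h6, h7⟩ := abs_le.1 h5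
        have e1 : ∀ a : ℝ, a ^ (t + 1) * (m / Q ^ (t + 1)) = a * ((a ^ t * (m / Q ^ t)) / Q) := by
          intro a
          rw [pow_succ, pow_succ]
          field_simp
        constructor
        · rw [e1]
          have q1 : (1 - δ) * (((1 - δ) ^ t * (m / Q ^ t)) / Q) ≤ (1 - δ) * ((It t v).card / Q) := by
            apply mul_le_mul_of_nonneg_left _ (by linarith)
            exact div_le_div_of_nonneg_right g1 hQ0.le
          linarith
        · rw [e1]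
          have q1 : (1 + δ) * ((It t v).card / Q) ≤ (1 + δ) * (((1 + δ) ^ t * (m / Q ^ t)) / Q) := by
            apply mul_le_mul_of_nonneg_left _ (by linarith)
            exact div_le_div_of_nonneg_right g2 hQ0.le
          linarith
    obtain ⟨g1, g2⟩ := key t ht
    rw [← hIt]
    have hmQ : 0 ≤ m / Q ^ t := by positivity
    have q2 : (t : ℝ) * δ ≤ ε / 2 := (mul_le_mul_of_nonneg_right (by exact_mod_cast ht) hδ0.le).trans hrδ1
    have q3 := pow_dn t δ hδ0.le hδ1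
    have q4 := pow_up t δ hδ0.le (by linarith)
    rw [abs_le]
    constructor
    · have : (1 - ε) * (m / Q ^ t) ≤ (1 - δ) ^ t * (m / Q ^ t) := mul_le_mul_of_nonneg_right (by linarith) hmQ
      linarith
    · have : (1 + δ) ^ t * (m / Q ^ t) ≤ (1 + ε) * (m / Q ^ t) := mul_le_mul_of_nonneg_right (by linarith) hmQ
      linarith
  have main : ∑ v ∈ Fintype.piFinset (fun _ : Fin r => range (b ^ k)), (if Qp v then 0 else ∏ j, p j (v j)) ≤ ε := by
    refine (union_gen (Fintype.piFinset (fun _ : Fin r => range (b ^ k))) (fun v => ∏ j, p j (v j)) hw0 univ Bad Qp hsub δ hB).trans ?_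
    rw [card_univ, Fintype.card_fin]
    linarith
  refine le_trans (le_of_eq ?_) main
  apply sum_congr rfl
  intro v _
  by_cases hq : Qp v
  · rw [if_pos hq, if_pos ((hQp v).1 hq)]
  · rw [if_neg hq, if_neg (fun h => hq ((hQp v).2 h))]

set_option maxHeartbeats 1000000 in
open Classical in
/-- arbitrary dense sets of primes -/
theorem law2P (b q₀ : ℕ) (hb : 2 ≤ b) (Cl : ℕ → (ℕ → ℝ) → Prop) (hC : SCls b q₀ Cl) (κ : ℤ) (hκ : κ ≠ 0)
    (B J A C K₁ : ℕ) (θ : ℝ) (hθ : 0 < θ) (ε : ℝ) (hε : 0 < ε) (hε1 : ε ≤ 1) : ∃ k₀ : ℕ, ∀ k : ℕ, k₀ ≤ k →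
    ∀ p, Cl k p → ∀ y : ℕ, θ * Real.log k ≤ y → y ≤ K₁ * Real.log k → ∀ c : ℤ, |c| ≤ B * (b : ℤ) ^ k →
    ∀ h : ℕ, 1 ≤ h → h ≤ k ^ J → ∀ X : ℕ, b ^ k ≤ X * k ^ C → X ≤ b ^ k * k ^ C →
    ∀ S : Finset ℕ, S ⊆ Icc 1 X → (∀ s ∈ S, s.Prime) → (X : ℝ) ≤ S.card * (k : ℝ) ^ A → ∀ σ : ℤ, (σ = 1 ∨ σ = -1) →
    ∑ v ∈ range (b ^ k), (if (∀ s ∈ S, 0 < Nm y h c κ v + σ * (s : ℕ)) ∧
      ε * (S.card / (Vz y * (k * Real.log b))) <
      |((S.filter (fun s => (Nm y h c κ v + σ * (s : ℕ)).toNat.Prime)).card : ℝ) -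
      S.card / (Vz y * (k * Real.log b))| then p v else 0) ≤ ε := by
  obtain ⟨k1, hk1⟩ := law2 b q₀ hb Cl hC κ hκ B J (A + 1) C K₁ θ hθ (ε / 2) (by linarith) (by linarith)
  obtain ⟨k2, hk2⟩ := big_enough b A C (2 * K₁ + J + 2) hb ε hε
  refine ⟨max (max k1 k2) 3, fun k hk p hp y hy1 hy2 c hc h hh1 hhJ X hX1 hX2 S hS hSp hSA σ hσ => ?_⟩
  obtain ⟨b3, b4, hbig⟩ := hk2 k (by omega)
  have hk3 : 3 ≤ k := by omega
  have hkr : (3 : ℝ) ≤ k := by exact_mod_cast hk3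
  have hk0 : (0 : ℝ) < k := by linarith
  have hbr : (2 : ℝ) ≤ b := by exact_mod_cast hb
  have hlogb : 0.69 < Real.log b := by
    have := Real.log_two_gt_d9
    have := Real.log_le_log (by norm_num) hbr
    linarith
  obtain ⟨Q, hQ⟩ : ∃ Q : ℝ, Q = Vz y * (k * Real.log b) := ⟨_, rfl⟩
  have hVy := Vz_pos y
  have hQ0 : 0 < Q := by rw [hQ]; exact mul_pos hVy (mul_pos hk0 (by linarith))
  have hQk : Q ≤ (k : ℝ) ^ 2 := by
    rw [hQ, sq]
    have g1 : (k : ℝ) * Real.log b ≤ k * k := mul_le_mul_of_nonneg_left b4 hk0.le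
    have g2 : Vz y * (k * Real.log b) ≤ 1 * (k * Real.log b) := mul_le_mul_of_nonneg_right (Vz_le_one y)
      (mul_nonneg hk0.le (by linarith))
    linarith
  have hD := mult_small K₁ J k y h hk3 hy2 hhJ
  have hD1 : 1 ≤ primorial y * h := Nat.mul_pos (primorial_pos y) hh1
  obtain ⟨S', hS'⟩ : ∃ S', S' = S.filter (fun s => ¬ s ∣ primorial y * h) := ⟨_, rfl⟩
  obtain ⟨R, hR⟩ : ∃ R, R = S.filter (fun s => s ∣ primorial y * h) := ⟨_, rfl⟩
  have hsub : S' ⊆ S := by rw [hS']; exact filter_subset _ _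
  have hRc : R.card ≤ k ^ (2 * K₁ + J) := by
    refine (few_dvd _ hD1 R fun q hq => ?_).trans hD
    rw [hR, mem_filter] at hq
    exact ⟨hSp q hq.1, hq.2⟩
  have hcard : ∀ (P : ℕ → Prop) [DecidablePred P], (S.filter P).card ≤ (S'.filter P).card + k ^ (2 * K₁ + J) := by
    intro P _
    have h1 : S.filter P ⊆ S'.filter P ∪ R := by
      intro s hs
      rw [mem_filter] at hs
      rw [mem_union, mem_filter, hS', hR, mem_filter, mem_filter]
      by_cases hd : s ∣ primorial y * h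
      · exact Or.inr ⟨hs.1, hd⟩
      · exact Or.inl ⟨⟨hs.1, hd⟩, hs.2⟩
    exact (card_le_card h1).trans ((card_union_le _ _).trans (by omega))
  have hc1 : (S.card : ℝ) ≤ S'.card + (k : ℝ) ^ (2 * K₁ + J) := by
    have h1 : S ⊆ S' ∪ R := by
      intro s hs
      rw [mem_union, hS', hR, mem_filter, mem_filter]
      by_cases hd : s ∣ primorial y * h
      · exact Or.inr ⟨hs, hd⟩
      · exact Or.inl ⟨hs, hd⟩
    have h2 : S.card ≤ S'.card + k ^ (2 * K₁ + J) := (card_le_card h1).trans ((card_union_le _ _).trans (by omega))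
    exact_mod_cast h2
  have hc2 : (S'.card : ℝ) ≤ S.card := by exact_mod_cast card_le_card hsub
  have hm0 : (0 : ℝ) ≤ S.card := Nat.cast_nonneg _
  have hU := hbig X hX1 S.card hm0 hSA
  have hd1 : (k : ℝ) ^ (2 * K₁ + J) ≤ (k : ℝ) ^ (2 * K₁ + J + 2) := pow_le_pow_right₀ (by linarith) (by omega)
  have hd2 : (k : ℝ) ^ (2 * K₁ + J) * Q ≤ (k : ℝ) ^ (2 * K₁ + J + 2) := by
    rw [pow_add (k : ℝ) (2 * K₁ + J) 2]
    exact mul_le_mul_of_nonneg_left hQk (by positivity)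
  have hdpos : 0 ≤ (k : ℝ) ^ (2 * K₁ + J) := by positivity
  have hSA' : (X : ℝ) ≤ S'.card * (k : ℝ) ^ (A + 1) := by
    have h1 : (S.card : ℝ) ≤ 2 * S'.card := by nlinarith
    calc (X : ℝ) ≤ S.card * (k : ℝ) ^ A := hSA
      _ ≤ (2 * S'.card) * (k : ℝ) ^ A := mul_le_mul_of_nonneg_right h1 (by positivity)
      _ = S'.card * ((k : ℝ) ^ A * 2) := by ring
      _ ≤ S'.card * ((k : ℝ) ^ A * k) := by
          apply mul_le_mul_of_nonneg_left _ (Nat.cast_nonneg _)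
          exact mul_le_mul_of_nonneg_left (by linarith) (by positivity)
      _ = _ := by rw [pow_succ]
  have h5 := hk1 k (by omega) p hp y hy1 hy2 c hc h hh1 hhJ X hX1 hX2 S' (hsub.trans hS) (fun s hs => by
    rw [hS', mem_filter] at hs
    exact (hSp s hs.1).coprime_iff_not_dvd.2 hs.2) hSA' σ hσ
  have hε2 : ε / 2 ≤ ε := by linarith
  refine le_trans (sum_le_sum fun v _ => ?_) (h5.trans hε2)
  have hpv := (hC.nonneg _ _ hp) v
  rw [← hQ]
  obtain ⟨Bad, hBad⟩ : ∃ Bad : Prop, Bad ↔ ((∀ s ∈ S', 0 < ((primorial y * h : ℕ) : ℤ) * (c + κ * (v : ℕ)) + σ * (s : ℕ)) ∧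
      ε / 2 * (S'.card / Q) <
      |((S'.filter (fun s => (((primorial y * h : ℕ) : ℤ) * (c + κ * (v : ℕ)) + σ * (s : ℕ)).toNat.Prime)).card : ℝ) -
      S'.card / Q|) := ⟨_, Iff.rfl⟩
  obtain ⟨Bad', hBad'⟩ : ∃ Bad' : Prop, Bad' ↔ ((∀ s ∈ S, 0 < Nm y h c κ v + σ * (s : ℕ)) ∧
      ε * (S.card / Q) < |((S.filter (fun s => (Nm y h c κ v + σ * (s : ℕ)).toNat.Prime)).card : ℝ) - S.card / Q|) := ⟨_, Iff.rfl⟩
  have himp : Bad' → Bad := by
    intro hq
    rw [hBad'] at hq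
    rw [hBad]
    obtain ⟨q1, q2⟩ := hq
    refine ⟨fun s hs => q1 s (hsub hs), ?_⟩
    by_contra hcon
    push Not at hcon
    have h6 : ((S'.filter (fun s => (Nm y h c κ v + σ * (s : ℕ)).toNat.Prime)).card : ℝ) ≤
        ((S.filter (fun s => (Nm y h c κ v + σ * (s : ℕ)).toNat.Prime)).card : ℝ) := by
      exact_mod_cast card_le_card (filter_subset_filter _ hsub)
    have h7 : ((S.filter (fun s => (Nm y h c κ v + σ * (s : ℕ)).toNat.Prime)).card : ℝ) ≤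
        ((S'.filter (fun s => (Nm y h c κ v + σ * (s : ℕ)).toNat.Prime)).card : ℝ) + (k : ℝ) ^ (2 * K₁ + J) := by
      exact_mod_cast hcard (fun s => (Nm y h c κ v + σ * (s : ℕ)).toNat.Prime)
    have := remove_few (S.card : ℝ) (S'.card : ℝ) _ _ ((k : ℝ) ^ (2 * K₁ + J)) Q ε hQ0 hε hε1 hc2 hc1 h6 h7 hdpos
      (Nat.cast_nonneg _) (by linarith) (by linarith) hcon
    linarith
  have hgoal : (if Bad' then p v else 0) ≤ (if Bad then p v else 0) := by
    by_cases hq : Bad'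
    · rw [if_pos hq, if_pos (himp hq)]
    · rw [if_neg hq]
      split_ifs
      · exact hpv
      · exact le_rfl
  refine le_trans (le_of_eq ?_) (hgoal.trans (le_of_eq ?_))
  · by_cases hq : Bad'
    · rw [if_pos hq, if_pos (hBad'.1 hq)]
    · rw [if_neg hq, if_neg (fun h => hq (hBad'.2 h))]
  · by_cases hq : Bad
    · rw [if_pos hq, if_pos (hBad.1 hq)]
    · rw [if_neg hq, if_neg (fun h => hq (hBad.2 h))]

set_option maxHeartbeats 1000000 in
open Classical in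
/-- all but the last number are primes, the last one is not -/
theorem exact_law (b q₀ : ℕ) (hb : 2 ≤ b) (r : ℕ) (Cl : Fin r → ℕ → (ℕ → ℝ) → Prop) (hC : ∀ j, SCls b q₀ (Cl j)) (hr : 1 ≤ r) (κ : Fin r → ℤ)
    (hκ : ∀ j, κ j ≠ 0) (B J A C K₁ : ℕ) (θ : ℝ) (hθ : 0 < θ) (ε : ℝ) (hε : 0 < ε) (hε1 : ε ≤ 1) :
    ∃ k₀ : ℕ, ∀ k : ℕ, k₀ ≤ k → ∀ p : Fin r → ℕ → ℝ, (∀ j, Cl j k (p j)) →
    ∀ y : ℕ, θ * Real.log k ≤ y → y ≤ K₁ * Real.log k → ∀ c : Fin r → ℤ, (∀ j, |c j| ≤ B * (b : ℤ) ^ k) →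
    ∀ h : Fin r → ℕ, (∀ j, 1 ≤ h j ∧ h j ≤ k ^ J) → ∀ X : ℕ, b ^ k ≤ X * k ^ C → X ≤ b ^ k * k ^ C →
    ∀ (I : Finset ℕ) (f : Fin r → ℕ → ℕ), (∀ j, Set.InjOn (f j) I) →
    (∀ j, ∀ i ∈ I, 1 ≤ f j i ∧ f j i ≤ X ∧ (f j i).Coprime (primorial y * h j)) → (X : ℝ) ≤ I.card * (k : ℝ) ^ A →
    ∀ σ : Fin r → ℤ, (∀ j, σ j = 1 ∨ σ j = -1) →
    ∑ v ∈ Fintype.piFinset (fun _ : Fin r => range (b ^ k)),
      (if (∀ j, ∀ i ∈ I, 0 < Nm y (h j) (c j) (κ j) (v j) + σ j * (f j i : ℕ)) →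
        |((I.filter (fun i => (∀ j : Fin r, (j : ℕ) + 1 < r → (Nm y (h j) (c j) (κ j) (v j) + σ j * (f j i : ℕ)).toNat.Prime) ∧
            ∀ j : Fin r, (j : ℕ) + 1 = r → ¬ (Nm y (h j) (c j) (κ j) (v j) + σ j * (f j i : ℕ)).toNat.Prime)).card : ℝ) -
          I.card / (Vz y * (k * Real.log b)) ^ (r - 1)| ≤ ε * (I.card / (Vz y * (k * Real.log b)) ^ (r - 1)) then 0 else ∏ j, p j (v j)) ≤ ε := by
  obtain ⟨k1, h1⟩ := tuple_law b q₀ hb r Cl hC κ hκ B J A C K₁ θ hθ (ε / 4) (by linarith) (by linarith)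
  obtain ⟨k2, h2⟩ := Q_large b K₁ hb (4 / ε)
  refine ⟨max k1 k2, fun k hk p hp y hy1 hy2 c hc h hh X hX1 hX2 I f hinj hf hIA σ hσ => ?_⟩
  have b2 := h2 k (by omega) y hy2
  have h3 := h1 k (by omega) p hp y hy1 hy2 c hc h hh X hX1 hX2 I f hinj hf hIA σ hσ
  obtain ⟨Q, hQ⟩ : ∃ Q : ℝ, Q = Vz y * (k * Real.log b) := ⟨_, rfl⟩
  rw [← hQ] at b2 h3 ⊢
  have hQ0 : 0 < Q := lt_of_lt_of_le (by positivity) b2
  refine le_trans (sum_le_sum fun v _ => ?_) (h3.trans (by linarith))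
  have hw0 : 0 ≤ ∏ j, p j (v j) := prod_nonneg fun j _ => (hC j).nonneg _ _ (hp j) _
  obtain ⟨G, hG⟩ : ∃ G : Prop, G ↔ ((∀ j, ∀ i ∈ I, 0 < Nm y (h j) (c j) (κ j) (v j) + σ j * (f j i : ℕ)) → ∀ t : ℕ, t ≤ r →
        |((I.filter (fun i => ∀ j : Fin r, (j : ℕ) < t → (Nm y (h j) (c j) (κ j) (v j) + σ j * (f j i : ℕ)).toNat.Prime)).card : ℝ) -
          I.card / Q ^ t| ≤ ε / 4 * (I.card / Q ^ t)) := ⟨_, Iff.rfl⟩
  obtain ⟨G', hG'⟩ : ∃ G' : Prop, G' ↔ ((∀ j, ∀ i ∈ I, 0 < Nm y (h j) (c j) (κ j) (v j) + σ j * (f j i : ℕ)) →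
        |((I.filter (fun i => (∀ j : Fin r, (j : ℕ) + 1 < r → (Nm y (h j) (c j) (κ j) (v j) + σ j * (f j i : ℕ)).toNat.Prime) ∧
            ∀ j : Fin r, (j : ℕ) + 1 = r → ¬ (Nm y (h j) (c j) (κ j) (v j) + σ j * (f j i : ℕ)).toNat.Prime)).card : ℝ) -
          I.card / Q ^ (r - 1)| ≤ ε * (I.card / Q ^ (r - 1))) := ⟨_, Iff.rfl⟩
  have himp : G → G' := by
    intro hg
    rw [hG] at hg
    rw [hG']
    intro hpos
    have g1 := hg hpos (r - 1) (by omega)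
    have g2 := hg hpos r le_rfl
    obtain ⟨m, hm⟩ : ∃ m : ℝ, m = I.card := ⟨_, rfl⟩
    rw [← hm] at g1 g2 ⊢
    have hm0 : 0 ≤ m := by rw [hm]; exact Nat.cast_nonneg _
    obtain ⟨A1, hA1⟩ : ∃ A1, A1 = I.filter (fun i => ∀ j : Fin r, (j : ℕ) < r - 1 → (Nm y (h j) (c j) (κ j) (v j) + σ j * (f j i : ℕ)).toNat.Prime) := ⟨_, rfl⟩
    obtain ⟨A2, hA2⟩ : ∃ A2, A2 = I.filter (fun i => ∀ j : Fin r, (j : ℕ) < r → (Nm y (h j) (c j) (κ j) (v j) + σ j * (f j i : ℕ)).toNat.Prime) := ⟨_, rfl⟩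
    obtain ⟨A3, hA3⟩ : ∃ A3, A3 = I.filter (fun i => (∀ j : Fin r, (j : ℕ) + 1 < r → (Nm y (h j) (c j) (κ j) (v j) + σ j * (f j i : ℕ)).toNat.Prime) ∧
            ∀ j : Fin r, (j : ℕ) + 1 = r → ¬ (Nm y (h j) (c j) (κ j) (v j) + σ j * (f j i : ℕ)).toNat.Prime) := ⟨_, rfl⟩
    rw [← hA1] at g1
    rw [← hA2] at g2
    rw [← hA3]
    have e1 : A1.card = A2.card + A3.card := by
      have hdis : Disjoint A2 A3 := by
        rw [disjoint_left]
        intro i hi2 hi3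
        rw [hA2, mem_filter] at hi2
        rw [hA3, mem_filter] at hi3
        exact hi3.2.2 ⟨r - 1, by omega⟩ (by simp only; omega) (hi2.2 ⟨r - 1, by omega⟩ (by simp only; omega))
      rw [← card_union_of_disjoint hdis]
      congr 1
      ext i
      rw [mem_union, hA1, hA2, hA3, mem_filter, mem_filter, mem_filter]
      constructor
      · rintro ⟨hi, hq⟩
        by_cases hl : (Nm y (h ⟨r - 1, by omega⟩) (c ⟨r - 1, by omega⟩) (κ ⟨r - 1, by omega⟩) (v ⟨r - 1, by omega⟩) +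
            σ ⟨r - 1, by omega⟩ * (f ⟨r - 1, by omega⟩ i : ℕ)).toNat.Prime
        · refine Or.inl ⟨hi, fun j _ => ?_⟩
          by_cases hj : (j : ℕ) < r - 1
          · exact hq j hj
          · have : j = ⟨r - 1, by omega⟩ := by
              apply Fin.ext
              simp only
              omega
            rw [this]
            exact hl
        · refine Or.inr ⟨hi, fun j hj => hq j (by omega), fun j hj => ?_⟩
          have : j = ⟨r - 1, by omega⟩ := by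
            apply Fin.ext
            simp only
            omega
          rw [this]
          exact hl
      · rintro (⟨hi, hq⟩ | ⟨hi, hq, _⟩)
        · exact ⟨hi, fun j _ => hq j j.2⟩
        · exact ⟨hi, fun j hj => hq j (by omega)⟩
    have e2 : (A1.card : ℝ) = A2.card + A3.card := by exact_mod_cast e1
    have hE : m / Q ^ r = (m / Q ^ (r - 1)) / Q := by
      obtain ⟨t, rfl⟩ : ∃ t, r = t + 1 := ⟨r - 1, by omega⟩
      rw [Nat.add_sub_cancel, pow_succ]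
      field_simp
    obtain ⟨E, hEd⟩ : ∃ E, E = m / Q ^ (r - 1) := ⟨_, rfl⟩
    rw [hE] at g2
    rw [← hEd] at g1 g2 ⊢
    have hE0 : 0 ≤ E := by rw [hEd]; positivity
    have hEQ : E / Q ≤ ε / 4 * E := by
      rw [div_le_iff₀ hQ0]
      rw [div_le_iff₀ hε] at b2
      nlinarith
    have hEQ0 : 0 ≤ E / Q := by positivity
    have g3 := (abs_le.1 g2).2
    have g4 : (A2.card : ℝ) ≤ 2 * (E / Q) := by nlinarith
    have g5 : (0 : ℝ) ≤ A2.card := Nat.cast_nonneg _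
    obtain ⟨g6, g7⟩ := abs_le.1 g1
    rw [abs_le]
    constructor <;> linarith
  have hgoal : (if G' then 0 else ∏ j, p j (v j)) ≤ (if G then 0 else ∏ j, p j (v j)) := by
    by_cases hq : G
    · rw [if_pos hq, if_pos (himp hq)]
    · rw [if_neg hq]
      split_ifs
      · exact hw0
      · exact le_rfl
  refine le_trans (le_of_eq ?_) (hgoal.trans (le_of_eq ?_))
  · by_cases hq : G'
    · rw [if_pos hq, if_pos (hG'.1 hq)]
    · rw [if_neg hq, if_neg (fun h => hq (hG'.2 h))]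
  · by_cases hq : G
    · rw [if_pos hq, if_pos (hG.1 hq)]
    · rw [if_neg hq, if_neg (fun h => hq (hG.2 h))]

set_option maxHeartbeats 1000000 in
open Classical in
/-- tuples inside an arbitrary dense set of primes -/
theorem tuple_lawP (b q₀ : ℕ) (hb : 2 ≤ b) (r : ℕ) (Cl : Fin r → ℕ → (ℕ → ℝ) → Prop) (hC : ∀ j, SCls b q₀ (Cl j)) (κ : Fin r → ℤ)
    (hκ : ∀ j, κ j ≠ 0) (B J A C K₁ : ℕ) (θ : ℝ) (hθ : 0 < θ) (ε : ℝ) (hε : 0 < ε) (hε1 : ε ≤ 1) :
    ∃ k₀ : ℕ, ∀ k : ℕ, k₀ ≤ k → ∀ p : Fin r → ℕ → ℝ, (∀ j, Cl j k (p j)) →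
    ∀ y : ℕ, θ * Real.log k ≤ y → y ≤ K₁ * Real.log k → ∀ c : Fin r → ℤ, (∀ j, |c j| ≤ B * (b : ℤ) ^ k) →
    ∀ h : Fin r → ℕ, (∀ j, 1 ≤ h j ∧ h j ≤ k ^ J) → ∀ X : ℕ, b ^ k ≤ X * k ^ C → X ≤ b ^ k * k ^ C →
    ∀ S : Finset ℕ, S ⊆ Icc 1 X → (∀ s ∈ S, s.Prime) → (X : ℝ) ≤ S.card * (k : ℝ) ^ A →
    ∀ σ : Fin r → ℤ, (∀ j, σ j = 1 ∨ σ j = -1) →
    ∑ v ∈ Fintype.piFinset (fun _ : Fin r => range (b ^ k)),
      (if (∀ j, ∀ s ∈ S, 0 < Nm y (h j) (c j) (κ j) (v j) + σ j * (s : ℕ)) → ∀ t : ℕ, t ≤ r →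
        |((S.filter (fun s => ∀ j : Fin r, (j : ℕ) < t → (Nm y (h j) (c j) (κ j) (v j) + σ j * (s : ℕ)).toNat.Prime)).card : ℝ) -
          S.card / (Vz y * (k * Real.log b)) ^ t| ≤ ε * (S.card / (Vz y * (k * Real.log b)) ^ t) then 0 else ∏ j, p j (v j)) ≤ ε := by
  obtain ⟨k1, hk1⟩ := tuple_law b q₀ hb r Cl hC κ hκ B J (A + 1) C K₁ θ hθ (ε / 2) (by linarith) (by linarith)
  obtain ⟨k2, hk2⟩ := big_enough b A C (2 * K₁ + J + 1 + 2 * r) hb ε hε
  refine ⟨max (max k1 k2) (max 3 r), fun k hk p hp y hy1 hy2 c hc h hh X hX1 hX2 S hS hSp hSA σ hσ => ?_⟩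
  obtain ⟨b3, b4, hbig⟩ := hk2 k (by omega)
  have hk3 : 3 ≤ k := by omega
  have hrk : r ≤ k := by omega
  have hkr : (3 : ℝ) ≤ k := by exact_mod_cast hk3
  have hk0 : (0 : ℝ) < k := by linarith
  have hbr : (2 : ℝ) ≤ b := by exact_mod_cast hb
  have hlogb : 0.69 < Real.log b := by
    have := Real.log_two_gt_d9
    have := Real.log_le_log (by norm_num) hbr
    linarith
  obtain ⟨Q, hQ⟩ : ∃ Q : ℝ, Q = Vz y * (k * Real.log b) := ⟨_, rfl⟩
  have hVy := Vz_pos y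
  have hQ0 : 0 < Q := by rw [hQ]; exact mul_pos hVy (mul_pos hk0 (by linarith))
  have hQk : Q ≤ (k : ℝ) ^ 2 := by
    rw [hQ, sq]
    have g1 : (k : ℝ) * Real.log b ≤ k * k := mul_le_mul_of_nonneg_left b4 hk0.le
    have g2 : Vz y * (k * Real.log b) ≤ 1 * (k * Real.log b) := mul_le_mul_of_nonneg_right (Vz_le_one y)
      (mul_nonneg hk0.le (by linarith))
    linarith
  obtain ⟨R, hR⟩ : ∃ R, R = S.filter (fun s => ∃ j : Fin r, s ∣ primorial y * h j) := ⟨_, rfl⟩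
  obtain ⟨S', hS'⟩ : ∃ S', S' = S.filter (fun s => ¬ ∃ j : Fin r, s ∣ primorial y * h j) := ⟨_, rfl⟩
  have hsub : S' ⊆ S := by rw [hS']; exact filter_subset _ _
  have hRc : R.card ≤ k ^ (2 * K₁ + J + 1) := by
    have h1 : R ⊆ (univ : Finset (Fin r)).biUnion (fun j => S.filter (fun s => s ∣ primorial y * h j)) := by
      intro s hs
      rw [hR, mem_filter] at hs
      obtain ⟨hs1, j, hj⟩ := hs
      rw [mem_biUnion]
      exact ⟨j, mem_univ _, mem_filter.2 ⟨hs1, hj⟩⟩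
    have h2 : ∀ j ∈ (univ : Finset (Fin r)), (S.filter (fun s => s ∣ primorial y * h j)).card ≤ k ^ (2 * K₁ + J) := by
      intro j _
      refine (few_dvd _ (Nat.mul_pos (primorial_pos y) (hh j).1) _ fun q hq => ?_).trans (mult_small K₁ J k y (h j) hk3 hy2 (hh j).2)
      rw [mem_filter] at hq
      exact ⟨hSp q hq.1, hq.2⟩
    refine (card_le_card h1).trans (card_biUnion_le.trans ((sum_le_sum h2).trans ?_))
    rw [sum_const, card_univ, Fintype.card_fin, smul_eq_mul, pow_succ, mul_comm]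
    exact Nat.mul_le_mul_left _ hrk
  have hcard : ∀ (P : ℕ → Prop) [DecidablePred P], (S.filter P).card ≤ (S'.filter P).card + k ^ (2 * K₁ + J + 1) := by
    intro P _
    have h1 : S.filter P ⊆ S'.filter P ∪ R := by
      intro s hs
      rw [mem_filter] at hs
      rw [mem_union, mem_filter, hS', hR, mem_filter, mem_filter]
      by_cases hd : ∃ j : Fin r, s ∣ primorial y * h j
      · exact Or.inr ⟨hs.1, hd⟩
      · exact Or.inl ⟨⟨hs.1, hd⟩, hs.2⟩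
    exact (card_le_card h1).trans ((card_union_le _ _).trans (by omega))
  have hc1 : (S.card : ℝ) ≤ S'.card + (k : ℝ) ^ (2 * K₁ + J + 1) := by
    have h1 : S ⊆ S' ∪ R := by
      intro s hs
      rw [mem_union, hS', hR, mem_filter, mem_filter]
      by_cases hd : ∃ j : Fin r, s ∣ primorial y * h j
      · exact Or.inr ⟨hs, hd⟩
      · exact Or.inl ⟨hs, hd⟩
    have h2 : S.card ≤ S'.card + k ^ (2 * K₁ + J + 1) := (card_le_card h1).trans ((card_union_le _ _).trans (by omega))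
    exact_mod_cast h2
  have hc2 : (S'.card : ℝ) ≤ S.card := by exact_mod_cast card_le_card hsub
  have hm0 : (0 : ℝ) ≤ S.card := Nat.cast_nonneg _
  have hU := hbig X hX1 S.card hm0 hSA
  have hd1 : (k : ℝ) ^ (2 * K₁ + J + 1) ≤ (k : ℝ) ^ (2 * K₁ + J + 1 + 2 * r) := pow_le_pow_right₀ (by linarith) (by omega)
  have hd2 : ∀ t ≤ r, (k : ℝ) ^ (2 * K₁ + J + 1) * Q ^ t ≤ (k : ℝ) ^ (2 * K₁ + J + 1 + 2 * r) := by
    intro t ht
    rw [pow_add (k : ℝ) (2 * K₁ + J + 1) (2 * r)]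
    apply mul_le_mul_of_nonneg_left _ (by positivity)
    calc Q ^ t ≤ ((k : ℝ) ^ 2) ^ t := pow_le_pow_left₀ hQ0.le hQk t
      _ = (k : ℝ) ^ (2 * t) := by rw [← pow_mul]
      _ ≤ _ := pow_le_pow_right₀ (by linarith) (by omega)
  have hdpos : 0 ≤ (k : ℝ) ^ (2 * K₁ + J + 1) := by positivity
  have hSA' : (X : ℝ) ≤ S'.card * (k : ℝ) ^ (A + 1) := by
    have h1 : (S.card : ℝ) ≤ 2 * S'.card := by nlinarith
    calc (X : ℝ) ≤ S.card * (k : ℝ) ^ A := hSA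
      _ ≤ (2 * S'.card) * (k : ℝ) ^ A := mul_le_mul_of_nonneg_right h1 (by positivity)
      _ = S'.card * ((k : ℝ) ^ A * 2) := by ring
      _ ≤ S'.card * ((k : ℝ) ^ A * k) := by
          apply mul_le_mul_of_nonneg_left _ (Nat.cast_nonneg _)
          exact mul_le_mul_of_nonneg_left (by linarith) (by positivity)
      _ = _ := by rw [pow_succ]
  have h5 := hk1 k (by omega) p hp y hy1 hy2 c hc h hh X hX1 hX2 S' (fun _ s => s) (fun _ a _ b _ hab => hab) (fun j s hs => by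
    rw [hS', mem_filter] at hs
    have h6 := mem_Icc.1 (hS hs.1)
    refine ⟨h6.1, h6.2, (hSp s hs.1).coprime_iff_not_dvd.2 fun hd => hs.2 ⟨j, hd⟩⟩) hSA' σ hσ
  refine le_trans (sum_le_sum fun v _ => ?_) (h5.trans (by linarith))
  have hw0 : 0 ≤ ∏ j, p j (v j) := prod_nonneg fun j _ => (hC j).nonneg _ _ (hp j) _
  rw [← hQ]
  obtain ⟨G, hG⟩ : ∃ G : Prop, G ↔ ((∀ j, ∀ s ∈ S', 0 < Nm y (h j) (c j) (κ j) (v j) + σ j * (s : ℕ)) → ∀ t : ℕ, t ≤ r →
        |((S'.filter (fun s => ∀ j : Fin r, (j : ℕ) < t → (Nm y (h j) (c j) (κ j) (v j) + σ j * (s : ℕ)).toNat.Prime)).card : ℝ) -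
          S'.card / Q ^ t| ≤ ε / 2 * (S'.card / Q ^ t)) := ⟨_, Iff.rfl⟩
  obtain ⟨G', hG'⟩ : ∃ G' : Prop, G' ↔ ((∀ j, ∀ s ∈ S, 0 < Nm y (h j) (c j) (κ j) (v j) + σ j * (s : ℕ)) → ∀ t : ℕ, t ≤ r →
        |((S.filter (fun s => ∀ j : Fin r, (j : ℕ) < t → (Nm y (h j) (c j) (κ j) (v j) + σ j * (s : ℕ)).toNat.Prime)).card : ℝ) -
          S.card / Q ^ t| ≤ ε * (S.card / Q ^ t)) := ⟨_, Iff.rfl⟩
  have himp : G → G' := by
    intro hg
    rw [hG] at hg
    rw [hG']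
    intro hpos t ht
    have g1 := hg (fun j s hs => hpos j s (hsub hs)) t ht
    have h6 : ((S'.filter (fun s => ∀ j : Fin r, (j : ℕ) < t → (Nm y (h j) (c j) (κ j) (v j) + σ j * (s : ℕ)).toNat.Prime)).card : ℝ) ≤
        ((S.filter (fun s => ∀ j : Fin r, (j : ℕ) < t → (Nm y (h j) (c j) (κ j) (v j) + σ j * (s : ℕ)).toNat.Prime)).card : ℝ) := by
      exact_mod_cast card_le_card (filter_subset_filter _ hsub)
    have h7 : ((S.filter (fun s => ∀ j : Fin r, (j : ℕ) < t → (Nm y (h j) (c j) (κ j) (v j) + σ j * (s : ℕ)).toNat.Prime)).card : ℝ) ≤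
        ((S'.filter (fun s => ∀ j : Fin r, (j : ℕ) < t → (Nm y (h j) (c j) (κ j) (v j) + σ j * (s : ℕ)).toNat.Prime)).card : ℝ) + (k : ℝ) ^ (2 * K₁ + J + 1) := by
      exact_mod_cast hcard (fun s => ∀ j : Fin r, (j : ℕ) < t → (Nm y (h j) (c j) (κ j) (v j) + σ j * (s : ℕ)).toNat.Prime)
    have q1 := hd2 t ht
    exact remove_few (S.card : ℝ) (S'.card : ℝ) _ _ ((k : ℝ) ^ (2 * K₁ + J + 1)) (Q ^ t) ε (by positivity) hε hε1 hc2 hc1 h6 h7 hdpos
      (Nat.cast_nonneg _) (by linarith) (by linarith) g1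
  have hgoal : (if G' then 0 else ∏ j, p j (v j)) ≤ (if G then 0 else ∏ j, p j (v j)) := by
    by_cases hq : G
    · rw [if_pos hq, if_pos (himp hq)]
    · rw [if_neg hq]
      split_ifs
      · exact hw0
      · exact le_rfl
  refine le_trans (le_of_eq ?_) (hgoal.trans (le_of_eq ?_))
  · by_cases hq : G'
    · rw [if_pos hq, if_pos (hG'.1 hq)]
    · rw [if_neg hq, if_neg (fun h => hq (hG'.2 h))]
  · by_cases hq : G
    · rw [if_pos hq, if_pos (hG.1 hq)]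
    · rw [if_neg hq, if_neg (fun h => hq (hG.2 h))]

set_option maxHeartbeats 1000000 in
open Classical in
/-- the first `t - 1` numbers are primes, the next one is not -/
theorem exact_all (b q₀ : ℕ) (hb : 2 ≤ b) (r : ℕ) (Cl : Fin r → ℕ → (ℕ → ℝ) → Prop) (hC : ∀ j, SCls b q₀ (Cl j)) (κ : Fin r → ℤ)
    (hκ : ∀ j, κ j ≠ 0) (B J A C K₁ : ℕ) (θ : ℝ) (hθ : 0 < θ) (ε : ℝ) (hε : 0 < ε) (hε1 : ε ≤ 1) :
    ∃ k₀ : ℕ, ∀ k : ℕ, k₀ ≤ k → ∀ p : Fin r → ℕ → ℝ, (∀ j, Cl j k (p j)) →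
    ∀ y : ℕ, θ * Real.log k ≤ y → y ≤ K₁ * Real.log k → ∀ c : Fin r → ℤ, (∀ j, |c j| ≤ B * (b : ℤ) ^ k) →
    ∀ h : Fin r → ℕ, (∀ j, 1 ≤ h j ∧ h j ≤ k ^ J) → ∀ X : ℕ, b ^ k ≤ X * k ^ C → X ≤ b ^ k * k ^ C →
    ∀ (I : Finset ℕ) (f : Fin r → ℕ → ℕ), (∀ j, Set.InjOn (f j) I) →
    (∀ j, ∀ i ∈ I, 1 ≤ f j i ∧ f j i ≤ X ∧ (f j i).Coprime (primorial y * h j)) → (X : ℝ) ≤ I.card * (k : ℝ) ^ A →
    ∀ σ : Fin r → ℤ, (∀ j, σ j = 1 ∨ σ j = -1) →
    ∑ v ∈ Fintype.piFinset (fun _ : Fin r => range (b ^ k)),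
      (if (∀ j, ∀ i ∈ I, 0 < Nm y (h j) (c j) (κ j) (v j) + σ j * (f j i : ℕ)) →
        ∀ t : ℕ, 1 ≤ t → t ≤ r → |((I.filter (fun i => (∀ j : Fin r, (j : ℕ) + 1 < t → (Nm y (h j) (c j) (κ j) (v j) + σ j * (f j i : ℕ)).toNat.Prime) ∧
            ∀ j : Fin r, (j : ℕ) + 1 = t → ¬ (Nm y (h j) (c j) (κ j) (v j) + σ j * (f j i : ℕ)).toNat.Prime)).card : ℝ) -
          I.card / (Vz y * (k * Real.log b)) ^ (t - 1)| ≤ ε * (I.card / (Vz y * (k * Real.log b)) ^ (t - 1)) then 0 else ∏ j, p j (v j)) ≤ ε := by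
  obtain ⟨k1, h1⟩ := tuple_law b q₀ hb r Cl hC κ hκ B J A C K₁ θ hθ (ε / 4) (by linarith) (by linarith)
  obtain ⟨k2, h2⟩ := Q_large b K₁ hb (4 / ε)
  refine ⟨max k1 k2, fun k hk p hp y hy1 hy2 c hc h hh X hX1 hX2 I f hinj hf hIA σ hσ => ?_⟩
  have b2 := h2 k (by omega) y hy2
  have h3 := h1 k (by omega) p hp y hy1 hy2 c hc h hh X hX1 hX2 I f hinj hf hIA σ hσ
  obtain ⟨Q, hQ⟩ : ∃ Q : ℝ, Q = Vz y * (k * Real.log b) := ⟨_, rfl⟩
  rw [← hQ] at b2 h3 ⊢
  have hQ0 : 0 < Q := lt_of_lt_of_le (by positivity) b2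
  refine le_trans (sum_le_sum fun v _ => ?_) (h3.trans (by linarith))
  have hw0 : 0 ≤ ∏ j, p j (v j) := prod_nonneg fun j _ => (hC j).nonneg _ _ (hp j) _
  obtain ⟨G, hG⟩ : ∃ G : Prop, G ↔ ((∀ j, ∀ i ∈ I, 0 < Nm y (h j) (c j) (κ j) (v j) + σ j * (f j i : ℕ)) → ∀ t : ℕ, t ≤ r →
        |((I.filter (fun i => ∀ j : Fin r, (j : ℕ) < t → (Nm y (h j) (c j) (κ j) (v j) + σ j * (f j i : ℕ)).toNat.Prime)).card : ℝ) -
          I.card / Q ^ t| ≤ ε / 4 * (I.card / Q ^ t)) := ⟨_, Iff.rfl⟩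
  obtain ⟨G', hG'⟩ : ∃ G' : Prop, G' ↔ ((∀ j, ∀ i ∈ I, 0 < Nm y (h j) (c j) (κ j) (v j) + σ j * (f j i : ℕ)) →
        ∀ t : ℕ, 1 ≤ t → t ≤ r → |((I.filter (fun i => (∀ j : Fin r, (j : ℕ) + 1 < t → (Nm y (h j) (c j) (κ j) (v j) + σ j * (f j i : ℕ)).toNat.Prime) ∧
            ∀ j : Fin r, (j : ℕ) + 1 = t → ¬ (Nm y (h j) (c j) (κ j) (v j) + σ j * (f j i : ℕ)).toNat.Prime)).card : ℝ) -
          I.card / Q ^ (t - 1)| ≤ ε * (I.card / Q ^ (t - 1))) := ⟨_, Iff.rfl⟩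
  have himp : G → G' := by
    intro hg
    rw [hG] at hg
    rw [hG']
    intro hpos t ht1 ht
    have g1 := hg hpos (t - 1) (by omega)
    have g2 := hg hpos t ht
    obtain ⟨m, hm⟩ : ∃ m : ℝ, m = I.card := ⟨_, rfl⟩
    rw [← hm] at g1 g2 ⊢
    have hm0 : 0 ≤ m := by rw [hm]; exact Nat.cast_nonneg _
    obtain ⟨A1, hA1⟩ : ∃ A1, A1 = I.filter (fun i => ∀ j : Fin r, (j : ℕ) < t - 1 → (Nm y (h j) (c j) (κ j) (v j) + σ j * (f j i : ℕ)).toNat.Prime) := ⟨_, rfl⟩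
    obtain ⟨A2, hA2⟩ : ∃ A2, A2 = I.filter (fun i => ∀ j : Fin r, (j : ℕ) < t → (Nm y (h j) (c j) (κ j) (v j) + σ j * (f j i : ℕ)).toNat.Prime) := ⟨_, rfl⟩
    obtain ⟨A3, hA3⟩ : ∃ A3, A3 = I.filter (fun i => (∀ j : Fin r, (j : ℕ) + 1 < t → (Nm y (h j) (c j) (κ j) (v j) + σ j * (f j i : ℕ)).toNat.Prime) ∧
            ∀ j : Fin r, (j : ℕ) + 1 = t → ¬ (Nm y (h j) (c j) (κ j) (v j) + σ j * (f j i : ℕ)).toNat.Prime) := ⟨_, rfl⟩
    rw [← hA1] at g1
    rw [← hA2] at g2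
    rw [← hA3]
    have e1 : A1.card = A2.card + A3.card := by
      have hdis : Disjoint A2 A3 := by
        rw [disjoint_left]
        intro i hi2 hi3
        rw [hA2, mem_filter] at hi2
        rw [hA3, mem_filter] at hi3
        exact hi3.2.2 ⟨t - 1, by omega⟩ (by simp only; omega) (hi2.2 ⟨t - 1, by omega⟩ (by simp only; omega))
      rw [← card_union_of_disjoint hdis]
      congr 1
      ext i
      rw [mem_union, hA1, hA2, hA3, mem_filter, mem_filter, mem_filter]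
      constructor
      · rintro ⟨hi, hq⟩
        by_cases hl : (Nm y (h ⟨t - 1, by omega⟩) (c ⟨t - 1, by omega⟩) (κ ⟨t - 1, by omega⟩) (v ⟨t - 1, by omega⟩) +
            σ ⟨t - 1, by omega⟩ * (f ⟨t - 1, by omega⟩ i : ℕ)).toNat.Prime
        · refine Or.inl ⟨hi, fun j hjt => ?_⟩
          by_cases hj : (j : ℕ) < t - 1
          · exact hq j hj
          · have : j = ⟨t - 1, by omega⟩ := by
              apply Fin.ext
              simp only
              omega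
            rw [this]
            exact hl
        · refine Or.inr ⟨hi, fun j hj => hq j (by omega), fun j hj => ?_⟩
          have : j = ⟨t - 1, by omega⟩ := by
            apply Fin.ext
            simp only
            omega
          rw [this]
          exact hl
      · rintro (⟨hi, hq⟩ | ⟨hi, hq, _⟩)
        · exact ⟨hi, fun j hj => hq j (by omega)⟩
        · exact ⟨hi, fun j hj => hq j (by omega)⟩
    have e2 : (A1.card : ℝ) = A2.card + A3.card := by exact_mod_cast e1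
    have hE : m / Q ^ t = (m / Q ^ (t - 1)) / Q := by
      obtain ⟨u, rfl⟩ : ∃ u, t = u + 1 := ⟨t - 1, by omega⟩
      rw [Nat.add_sub_cancel, pow_succ]
      field_simp
    obtain ⟨E, hEd⟩ : ∃ E, E = m / Q ^ (t - 1) := ⟨_, rfl⟩
    rw [hE] at g2
    rw [← hEd] at g1 g2 ⊢
    have hE0 : 0 ≤ E := by rw [hEd]; positivity
    have hEQ : E / Q ≤ ε / 4 * E := by
      rw [div_le_iff₀ hQ0]
      rw [div_le_iff₀ hε] at b2
      nlinarith
    have hEQ0 : 0 ≤ E / Q := by positivity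
    have g3 := (abs_le.1 g2).2
    have g4 : (A2.card : ℝ) ≤ 2 * (E / Q) := by nlinarith
    have g5 : (0 : ℝ) ≤ A2.card := Nat.cast_nonneg _
    obtain ⟨g6, g7⟩ := abs_le.1 g1
    rw [abs_le]
    constructor <;> linarith
  have hgoal : (if G' then 0 else ∏ j, p j (v j)) ≤ (if G then 0 else ∏ j, p j (v j)) := by
    by_cases hq : G
    · rw [if_pos hq, if_pos (himp hq)]
    · rw [if_neg hq]
      split_ifs
      · exact hw0
      · exact le_rfl
  refine le_trans (le_of_eq ?_) (hgoal.trans (le_of_eq ?_))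
  · by_cases hq : G'
    · rw [if_pos hq, if_pos (hG'.1 hq)]
    · rw [if_neg hq, if_neg (fun h => hq (hG'.2 h))]
  · by_cases hq : G
    · rw [if_pos hq, if_pos (hG.1 hq)]
    · rw [if_neg hq, if_neg (fun h => hq (hG.2 h))]

/-- two independent random multiples, one of them added to primes -/
theorem pair_all (b q₀ : ℕ) (hb : 2 ≤ b) (Cl Cl' : ℕ → (ℕ → ℝ) → Prop) (hC : SCls b q₀ Cl) (hC' : SCls b q₀ Cl') (κ κ' : ℤ)
    (hκ : κ ≠ 0) (hκ' : κ' ≠ 0) (B J A C K₁ : ℕ) (θ : ℝ) (hθ : 0 < θ) (ε : ℝ) (hε : 0 < ε) (hε1 : ε ≤ 1) :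
    ∃ k₀ : ℕ, ∀ k : ℕ, k₀ ≤ k → ∀ μ μ' : ℕ → ℝ, Cl k μ → Cl' k μ' →
    ∀ y : ℕ, θ * Real.log k ≤ y → y ≤ K₁ * Real.log k → ∀ c c' : ℤ, |c| ≤ B * (b : ℤ) ^ k → |c'| ≤ B * (b : ℤ) ^ k →
    ∀ h h' : ℕ, 1 ≤ h → h ≤ k ^ J → 1 ≤ h' → h' ≤ k ^ J → ∀ X : ℕ, b ^ k ≤ X * k ^ C → X ≤ b ^ k * k ^ C →
    ∀ (I : Finset ℕ) (f g : ℕ → ℕ), Set.InjOn f I → Set.InjOn g I →
    (∀ i ∈ I, 1 ≤ f i ∧ f i ≤ X ∧ (f i).Coprime (primorial y * h)) → (∀ i ∈ I, (g i).Prime ∧ g i ≤ X) →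
    (X : ℝ) ≤ I.card * (k : ℝ) ^ A →
    ∑ v ∈ range (b ^ k), ∑ v' ∈ range (b ^ k),
      (if 0 < Nm y h c κ v → 0 < Nm y h' c' κ' v' →
        |((I.filter (fun i => (Nm y h c κ v + (f i : ℕ)).toNat.Prime ∧ (Nm y h' c' κ' v' + (g i : ℕ)).toNat.Prime)).card : ℝ) -
          I.card / (Vz y * (k * Real.log b)) ^ 2| ≤ ε * (I.card / (Vz y * (k * Real.log b)) ^ 2) then 0 else μ v * μ' v') ≤ ε := by
  obtain ⟨k1, h1⟩ := tuple_law b q₀ hb 2 ![Cl, Cl'] (by
    intro j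
    fin_cases j
    · exact hC
    · exact hC') ![κ, κ'] (by
    intro j
    fin_cases j
    · exact hκ
    · exact hκ') B J (A + 1) C K₁ θ hθ (ε / 2) (by linarith) (by linarith)
  obtain ⟨k2, h2⟩ := big_enough b A C (2 * K₁ + J + 4) hb ε hε
  refine ⟨max (max k1 k2) 3, fun k hk μ μ' hμ hμ' y hy1 hy2 c c' hc hc' h h' hh1 hhJ hh1' hhJ' X hX1 hX2 I f g hf hg hfI hgI hIA => ?_⟩
  obtain ⟨b3, b4, hbig⟩ := h2 k (by omega)
  have hk3 : 3 ≤ k := by omega
  have hkr : (3 : ℝ) ≤ k := by exact_mod_cast hk3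
  have hk0 : (0 : ℝ) < k := by linarith
  have hbr : (2 : ℝ) ≤ b := by exact_mod_cast hb
  have hlogb : 0 < Real.log b := Real.log_pos (by linarith)
  have hV0 : 0 < Vz y := Pool.Agent.H373R2.T7.Vz_pos y
  have hV1 : Vz y ≤ 1 := Pool.Agent.H373R2.T7.Vz_le_one y
  obtain ⟨Q, hQ⟩ : ∃ Q, Q = (Vz y * (k * Real.log b)) ^ 2 := ⟨_, rfl⟩
  have hQ0 : 0 < Q := by rw [hQ]; positivity
  have hQk : Q ≤ (k : ℝ) ^ 4 := by
    rw [hQ]
    have e1 : Vz y * (k * Real.log b) ≤ (k : ℝ) ^ 2 := by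
      calc Vz y * (k * Real.log b) ≤ 1 * (k * k) := mul_le_mul hV1 (mul_le_mul_of_nonneg_left b4 hk0.le) (by positivity) zero_le_one
        _ = _ := by ring
    calc (Vz y * (k * Real.log b)) ^ 2 ≤ ((k : ℝ) ^ 2) ^ 2 := pow_le_pow_left₀ (by positivity) e1 _
      _ = _ := by ring
  obtain ⟨D, hD⟩ : ∃ D, D = primorial y * h' := ⟨_, rfl⟩
  have hD1 : 1 ≤ D := by rw [hD]; exact Nat.mul_pos (primorial_pos y) hh1'
  have hDk : (D : ℝ) ≤ (k : ℝ) ^ (2 * K₁ + J) := by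
    rw [hD]
    exact_mod_cast mult_small K₁ J k y h' hk3 hy2 hhJ'
  have hbigI := hbig X hX1 I.card (Nat.cast_nonneg _) hIA
  obtain ⟨I', hI'⟩ : ∃ I', I' = I.filter (fun i => ¬ g i ∣ D) := ⟨_, rfl⟩
  have hsub : I' ⊆ I := by rw [hI']; exact filter_subset _ _
  have hcard1 : I'.card ≤ I.card := card_le_card hsub
  have hcard2 : I.card ≤ I'.card + D := by
    have e1 := card_filter_add_card_filter_not (s := I) (fun i => g i ∣ D)
    rw [← hI'] at e1
    have e2 : (I.filter (fun i => g i ∣ D)).card ≤ D := by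
      rw [← card_image_of_injOn (hg.mono (by
        intro i hi
        rw [mem_coe, mem_filter] at hi
        exact_mod_cast hi.1))]
      apply few_dvd D hD1
      intro q hq
      rw [mem_image] at hq
      obtain ⟨i, hi, rfl⟩ := hq
      rw [mem_filter] at hi
      exact ⟨(hgI i hi.1).1, hi.2⟩
    omega
  have hkU : (1 : ℝ) ≤ (k : ℝ) ^ 4 := one_le_pow₀ (by linarith)
  have hDU : (D : ℝ) * (k : ℝ) ^ 4 ≤ (k : ℝ) ^ (2 * K₁ + J + 4) := by
    calc (D : ℝ) * (k : ℝ) ^ 4 ≤ (k : ℝ) ^ (2 * K₁ + J) * (k : ℝ) ^ 4 := mul_le_mul_of_nonneg_right hDk (by positivity)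
      _ = _ := by rw [← pow_add]
  have hD0 : (0 : ℝ) ≤ D := Nat.cast_nonneg _
  have hbD : 4 * (D : ℝ) ≤ ε * I.card := by
    have : (D : ℝ) ≤ D * (k : ℝ) ^ 4 := le_mul_of_one_le_right hD0 hkU
    linarith
  have hbDQ : 4 * (D : ℝ) * Q ≤ ε * I.card := by
    have : (D : ℝ) * Q ≤ D * (k : ℝ) ^ 4 := mul_le_mul_of_nonneg_left hQk hD0
    linarith
  have hI0 : (0 : ℝ) ≤ I.card := Nat.cast_nonneg _
  have hhalf : (I.card : ℝ) ≤ 2 * I'.card := by
    have e1 : (I.card : ℝ) ≤ I'.card + D := by exact_mod_cast hcard2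
    have e2 : ε * (I.card : ℝ) ≤ I.card := mul_le_of_le_one_left hI0 hε1
    linarith
  have h5 := h1 k (by omega) ![μ, μ'] (by
    intro j
    fin_cases j
    · exact hμ
    · exact hμ') y hy1 hy2 ![c, c'] (by
    intro j
    fin_cases j
    · exact hc
    · exact hc') ![h, h'] (by
    intro j
    fin_cases j
    · exact ⟨hh1, hhJ⟩
    · exact ⟨hh1', hhJ'⟩) X hX1 hX2 I' ![f, g] (by
    intro j
    fin_cases j
    · exact hf.mono (by exact_mod_cast hsub)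
    · exact hg.mono (by exact_mod_cast hsub)) (by
    intro j i hi
    have hi2 := hsub hi
    fin_cases j
    · exact hfI i hi2
    · refine ⟨(hgI i hi2).1.pos, (hgI i hi2).2, ?_⟩
      rw [hI', mem_filter, hD] at hi
      exact ((hgI i hi2).1.coprime_iff_not_dvd).2 hi.2) (by
    calc (X : ℝ) ≤ I.card * (k : ℝ) ^ A := hIA
      _ ≤ (2 * I'.card) * (k : ℝ) ^ A := mul_le_mul_of_nonneg_right hhalf (by positivity)
      _ = I'.card * (2 * (k : ℝ) ^ A) := by ring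
      _ ≤ I'.card * (k * (k : ℝ) ^ A) := by
          apply mul_le_mul_of_nonneg_left _ (Nat.cast_nonneg _)
          exact mul_le_mul_of_nonneg_right (by linarith) (by positivity)
      _ = _ := by rw [← pow_succ']) ![1, 1] (by
    intro j
    fin_cases j <;> exact Or.inl rfl)
  rw [← sum_two (range (b ^ k)) (fun v v' => if 0 < Nm y h c κ v → 0 < Nm y h' c' κ' v' →
        |((I.filter (fun i => (Nm y h c κ v + (f i : ℕ)).toNat.Prime ∧ (Nm y h' c' κ' v' + (g i : ℕ)).toNat.Prime)).card : ℝ) -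
          I.card / (Vz y * (k * Real.log b)) ^ 2| ≤ ε * (I.card / (Vz y * (k * Real.log b)) ^ 2) then 0 else μ v * μ' v')]
  refine le_trans (sum_le_sum fun v _ => ?_) (h5.trans (by linarith))
  have hm0 : ∀ v : ℕ, 0 ≤ μ v := hC.nonneg _ _ hμ
  have hm0' : ∀ v : ℕ, 0 ≤ μ' v := hC'.nonneg _ _ hμ'
  have hprod : ∏ j : Fin 2, (![μ, μ'] : Fin 2 → ℕ → ℝ) j (v j) = μ (v 0) * μ' (v 1) := by
    rw [Fin.prod_univ_two]
    rfl
  rw [hprod]
  by_cases hq : 0 < Nm y h c κ (v 0) → 0 < Nm y h' c' κ' (v 1) →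
        |((I.filter (fun i => (Nm y h c κ (v 0) + (f i : ℕ)).toNat.Prime ∧ (Nm y h' c' κ' (v 1) + (g i : ℕ)).toNat.Prime)).card : ℝ) -
          I.card / (Vz y * (k * Real.log b)) ^ 2| ≤ ε * (I.card / (Vz y * (k * Real.log b)) ^ 2)
  · rw [if_pos hq]
    split_ifs
    · exact le_rfl
    · exact mul_nonneg (hm0 _) (hm0' _)
  · rw [if_neg hq, if_neg]
    intro hall
    apply hq
    intro q1 q2
    have h6 := hall (by
      intro j i hi
      fin_cases j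
      · have : (0 : ℤ) ≤ (f i : ℤ) := Int.natCast_nonneg _
        show 0 < Nm y h c κ (v 0) + 1 * (f i : ℤ)
        linarith
      · have : (0 : ℤ) ≤ (g i : ℤ) := Int.natCast_nonneg _
        show 0 < Nm y h' c' κ' (v 1) + 1 * (g i : ℤ)
        linarith) 2 le_rfl
    have hset : (I.filter (fun i => (Nm y h c κ (v 0) + (f i : ℕ)).toNat.Prime ∧ (Nm y h' c' κ' (v 1) + (g i : ℕ)).toNat.Prime)) =
        (I'.filter (fun i => ∀ j : Fin 2, (j : ℕ) < 2 → (Nm y ((![h, h'] : Fin 2 → ℕ) j) ((![c, c'] : Fin 2 → ℤ) j) ((![κ, κ'] : Fin 2 → ℤ) j) (v j) +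
          (![1, 1] : Fin 2 → ℤ) j * ((![f, g] : Fin 2 → ℕ → ℕ) j i : ℕ)).toNat.Prime)) := by
      ext i
      rw [mem_filter, mem_filter, hI', mem_filter]
      constructor
      · rintro ⟨hi, g1, g2⟩
        refine ⟨⟨hi, ?_⟩, ?_⟩
        · intro hdvd
          have f1 : ((g i : ℕ) : ℤ) ∣ Nm y h' c' κ' (v 1) + (g i : ℕ) := by
            apply dvd_add _ (dvd_refl _)
            unfold Nm
            rw [← hD]
            exact (by exact_mod_cast hdvd : ((g i : ℕ) : ℤ) ∣ (D : ℤ)).mul_right _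
          have f0 : (0 : ℤ) ≤ ((g i : ℕ) : ℤ) := Int.natCast_nonneg _
          have f2 : (0 : ℤ) ≤ Nm y h' c' κ' (v 1) + (g i : ℕ) := by linarith
          have f3 : g i ∣ (Nm y h' c' κ' (v 1) + (g i : ℕ)).toNat := by
            rw [← Int.natCast_dvd_natCast, Int.toNat_of_nonneg f2]
            exact f1
          have f4 := (Nat.prime_dvd_prime_iff_eq (hgI i hi).1 g2).1 f3
          have f5 : ((g i : ℕ) : ℤ) = Nm y h' c' κ' (v 1) + (g i : ℕ) := by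
            conv_lhs => rw [f4]
            rw [Int.toNat_of_nonneg f2]
          linarith
        · intro j _
          fin_cases j
          · show (Nm y h c κ (v 0) + 1 * (f i : ℤ)).toNat.Prime
            rw [one_mul]
            exact g1
          · show (Nm y h' c' κ' (v 1) + 1 * (g i : ℤ)).toNat.Prime
            rw [one_mul]
            exact g2
      · rintro ⟨⟨hi, _⟩, g1⟩
        have g2 := g1 0 (by norm_num)
        have g3 := g1 1 (by norm_num)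
        refine ⟨hi, ?_, ?_⟩
        · have : (Nm y h c κ (v 0) + 1 * (f i : ℤ)).toNat.Prime := g2
          rwa [one_mul] at this
        · have : (Nm y h' c' κ' (v 1) + 1 * (g i : ℤ)).toNat.Prime := g3
          rwa [one_mul] at this
    rw [hset]
    rw [← hQ] at h6 ⊢
    exact remove_few I.card I'.card _ _ D Q ε hQ0 hε hε1 (by exact_mod_cast hcard1) (by exact_mod_cast hcard2) le_rfl (by linarith)
      hD0 (Nat.cast_nonneg _) hbD hbDQ h6

end Pool.Agent.U847.XP
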