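import Pool.Agent.U847.XH

set_option autoImplicit false

/-! Random integers given by digits with exponential decay of the characters: tuples, arbitrary dense families. -/

namespace Pool.Agent.U847.XP
open Finset
open Pool.Agent.N625.PT
open Pool.Agent.H373R2.T7 (pz mem_pz Vz Vz_pos Vz_le_one ev_L')
open Pool.Agent.Y877.SX (fac_pos fac_le)

set_option maxHeartbeats 1000000 in
open Classical in
/-- tuples inside an arbitrary dense set of primes -/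
theorem tuple_f (b q₀ : ℕ) (hb : 2 ≤ b) (r : ℕ) (Cl : Fin r → ℕ → (ℕ → ℝ) → Prop) (hC : ∀ j, SCls b q₀ (Cl j)) (κ : Fin r → ℤ)
    (hκ : ∀ j, κ j ≠ 0) (B J A C K₁ : ℕ) (θ : ℝ) (hθ : 0 < θ) (ε : ℝ) (hε : 0 < ε) (hε1 : ε ≤ 1) :
    ∃ k₀ : ℕ, ∀ k : ℕ, k₀ ≤ k → ∀ p : Fin r → ℕ → ℝ, (∀ j, Cl j k (p j)) →
    ∀ y : ℕ, θ * Real.log k ≤ y → y ≤ K₁ * Real.log k → ∀ c : Fin r → ℤ, (∀ j, |c j| ≤ B * (b : ℤ) ^ k) →
    ∀ h : Fin r → ℕ, (∀ j, 1 ≤ h j ∧ h j ≤ k ^ J) → ∀ X : ℕ, b ^ k ≤ X * k ^ C → X ≤ b ^ k * k ^ C →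
    ∀ (S : Finset ℕ) (f : Fin r → ℕ → ℕ), (∀ j, Set.InjOn (f j) S) →
    (∀ j, ∀ s ∈ S, 1 ≤ f j s ∧ f j s ≤ X ∧ ((f j s).Coprime (primorial y * h j) ∨ (f j s).Prime)) →
    (X : ℝ) ≤ S.card * (k : ℝ) ^ A → ∀ σ : Fin r → ℤ, (∀ j, σ j = 1 ∨ σ j = -1) →
    ∑ v ∈ Fintype.piFinset (fun _ : Fin r => range (b ^ k)),
      (if (∀ j, ∀ s ∈ S, 0 < Nm y (h j) (c j) (κ j) (v j) + σ j * (f j s : ℕ)) → ∀ t : ℕ, t ≤ r →
        |((S.filter (fun s => ∀ j : Fin r, (j : ℕ) < t → (Nm y (h j) (c j) (κ j) (v j) + σ j * (f j s : ℕ)).toNat.Prime)).card : ℝ) -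
          S.card / (Vz y * (k * Real.log b)) ^ t| ≤ ε * (S.card / (Vz y * (k * Real.log b)) ^ t) then 0 else ∏ j, p j (v j)) ≤ ε := by
  obtain ⟨k1, hk1⟩ := tuple_law b q₀ hb r Cl hC κ hκ B J (A + 1) C K₁ θ hθ (ε / 2) (by linarith) (by linarith)
  obtain ⟨k2, hk2⟩ := big_enough b A C (2 * K₁ + J + 1 + 2 * r) hb ε hε
  refine ⟨max (max k1 k2) (max 3 r), fun k hk p hp y hy1 hy2 c hc h hh X hX1 hX2 S f hinj hf hSA σ hσ => ?_⟩
  obtain ⟨b3, b4, hbig⟩ := hk2 k (by omega)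
  have hk3 : 3 ≤ k := by omega
  have hrk : r ≤ k := by omega
  have hkr : (3 : ℝ) ≤ k := by exact_mod_cast hk3
  have hk0 : (0 : ℝ) < k := by linarith
  have hbr : (2 : ℝ) ≤ b := by exact_mod_cast hb
  have hlogb : 0.69 < Real.log b := by
    have := Real.log_two_gt_d9
    have := Real.log_le_log (by norm_num) hbr
    linarith
  obtain ⟨Q, hQ⟩ : ∃ Q : ℝ, Q = Vz y * (k * Real.log b) := ⟨_, rfl⟩
  have hVy := Vz_pos y
  have hQ0 : 0 < Q := by rw [hQ]; exact mul_pos hVy (mul_pos hk0 (by linarith))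
  have hQk : Q ≤ (k : ℝ) ^ 2 := by
    rw [hQ, sq]
    have g1 : (k : ℝ) * Real.log b ≤ k * k := mul_le_mul_of_nonneg_left b4 hk0.le
    have g2 : Vz y * (k * Real.log b) ≤ 1 * (k * Real.log b) := mul_le_mul_of_nonneg_right (Vz_le_one y)
      (mul_nonneg hk0.le (by linarith))
    linarith
  obtain ⟨R, hR⟩ : ∃ R, R = S.filter (fun s => ∃ j : Fin r, ¬ (f j s).Coprime (primorial y * h j)) := ⟨_, rfl⟩
  obtain ⟨S', hS'⟩ : ∃ S', S' = S.filter (fun s => ¬ ∃ j : Fin r, ¬ (f j s).Coprime (primorial y * h j)) := ⟨_, rfl⟩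
  have hsub : S' ⊆ S := by rw [hS']; exact filter_subset _ _
  have hRc : R.card ≤ k ^ (2 * K₁ + J + 1) := by
    have h1 : R ⊆ (univ : Finset (Fin r)).biUnion (fun j => S.filter (fun s => ¬ (f j s).Coprime (primorial y * h j))) := by
      intro s hs
      rw [hR, mem_filter] at hs
      obtain ⟨hs1, j, hj⟩ := hs
      rw [mem_biUnion]
      exact ⟨j, mem_univ _, mem_filter.2 ⟨hs1, hj⟩⟩
    have h2 : ∀ j ∈ (univ : Finset (Fin r)), (S.filter (fun s => ¬ (f j s).Coprime (primorial y * h j))).card ≤ k ^ (2 * K₁ + J) := by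
      intro j _
      have e1 : ((S.filter (fun s => ¬ (f j s).Coprime (primorial y * h j))).image (f j)).card =
          (S.filter (fun s => ¬ (f j s).Coprime (primorial y * h j))).card :=
        card_image_of_injOn ((hinj j).mono (by
          intro i hi
          rw [mem_coe, mem_filter] at hi
          exact_mod_cast hi.1))
      rw [← e1]
      refine (few_dvd _ (Nat.mul_pos (primorial_pos y) (hh j).1) _ fun q hq => ?_).trans (mult_small K₁ J k y (h j) hk3 hy2 (hh j).2)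
      rw [mem_image] at hq
      obtain ⟨i, hi, rfl⟩ := hq
      rw [mem_filter] at hi
      have e2 := (hf j i hi.1).2.2.resolve_left hi.2
      refine ⟨e2, ?_⟩
      by_contra hcon
      exact hi.2 (e2.coprime_iff_not_dvd.2 hcon)
    refine (card_le_card h1).trans (card_biUnion_le.trans ((sum_le_sum h2).trans ?_))
    rw [sum_const, card_univ, Fintype.card_fin, smul_eq_mul, pow_succ, mul_comm]
    exact Nat.mul_le_mul_left _ hrk
  have hcard : ∀ (P : ℕ → Prop) [DecidablePred P], (S.filter P).card ≤ (S'.filter P).card + k ^ (2 * K₁ + J + 1) := by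
    intro P _
    have h1 : S.filter P ⊆ S'.filter P ∪ R := by
      intro s hs
      rw [mem_filter] at hs
      rw [mem_union, mem_filter, hS', hR, mem_filter, mem_filter]
      by_cases hd : ∃ j : Fin r, ¬ (f j s).Coprime (primorial y * h j)
      · exact Or.inr ⟨hs.1, hd⟩
      · exact Or.inl ⟨⟨hs.1, hd⟩, hs.2⟩
    exact (card_le_card h1).trans ((card_union_le _ _).trans (by omega))
  have hc1 : (S.card : ℝ) ≤ S'.card + (k : ℝ) ^ (2 * K₁ + J + 1) := by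
    have h1 : S ⊆ S' ∪ R := by
      intro s hs
      rw [mem_union, hS', hR, mem_filter, mem_filter]
      by_cases hd : ∃ j : Fin r, ¬ (f j s).Coprime (primorial y * h j)
      · exact Or.inr ⟨hs, hd⟩
      · exact Or.inl ⟨hs, hd⟩
    have h2 : S.card ≤ S'.card + k ^ (2 * K₁ + J + 1) := (card_le_card h1).trans ((card_union_le _ _).trans (by omega))
    exact_mod_cast h2
  have hc2 : (S'.card : ℝ) ≤ S.card := by exact_mod_cast card_le_card hsub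
  have hm0 : (0 : ℝ) ≤ S.card := Nat.cast_nonneg _
  have hU := hbig X hX1 S.card hm0 hSA
  have hd1 : (k : ℝ) ^ (2 * K₁ + J + 1) ≤ (k : ℝ) ^ (2 * K₁ + J + 1 + 2 * r) := pow_le_pow_right₀ (by linarith) (by omega)
  have hd2 : ∀ t ≤ r, (k : ℝ) ^ (2 * K₁ + J + 1) * Q ^ t ≤ (k : ℝ) ^ (2 * K₁ + J + 1 + 2 * r) := by
    intro t ht
    rw [pow_add (k : ℝ) (2 * K₁ + J + 1) (2 * r)]
    apply mul_le_mul_of_nonneg_left _ (by positivity)
    calc Q ^ t ≤ ((k : ℝ) ^ 2) ^ t := pow_le_pow_left₀ hQ0.le hQk t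
      _ = (k : ℝ) ^ (2 * t) := by rw [← pow_mul]
      _ ≤ _ := pow_le_pow_right₀ (by linarith) (by omega)
  have hdpos : 0 ≤ (k : ℝ) ^ (2 * K₁ + J + 1) := by positivity
  have hSA' : (X : ℝ) ≤ S'.card * (k : ℝ) ^ (A + 1) := by
    have h1 : (S.card : ℝ) ≤ 2 * S'.card := by nlinarith
    calc (X : ℝ) ≤ S.card * (k : ℝ) ^ A := hSA
      _ ≤ (2 * S'.card) * (k : ℝ) ^ A := mul_le_mul_of_nonneg_right h1 (by positivity)
      _ = S'.card * ((k : ℝ) ^ A * 2) := by ring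
      _ ≤ S'.card * ((k : ℝ) ^ A * k) := by
          apply mul_le_mul_of_nonneg_left _ (Nat.cast_nonneg _)
          exact mul_le_mul_of_nonneg_left (by linarith) (by positivity)
      _ = _ := by rw [pow_succ]
  have h5 := hk1 k (by omega) p hp y hy1 hy2 c hc h hh X hX1 hX2 S' f (fun j => (hinj j).mono (by
      intro i hi
      rw [mem_coe] at hi ⊢
      exact hsub hi)) (fun j s hs => by
    rw [hS', mem_filter] at hs
    have h6 := hf j s hs.1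
    refine ⟨h6.1, h6.2.1, ?_⟩
    by_contra hcon
    exact hs.2 ⟨j, hcon⟩) hSA' σ hσ
  refine le_trans (sum_le_sum fun v _ => ?_) (h5.trans (by linarith))
  have hw0 : 0 ≤ ∏ j, p j (v j) := prod_nonneg fun j _ => (hC j).nonneg _ _ (hp j) _
  rw [← hQ]
  obtain ⟨G, hG⟩ : ∃ G : Prop, G ↔ ((∀ j, ∀ s ∈ S', 0 < Nm y (h j) (c j) (κ j) (v j) + σ j * (f j s : ℕ)) → ∀ t : ℕ, t ≤ r →
        |((S'.filter (fun s => ∀ j : Fin r, (j : ℕ) < t → (Nm y (h j) (c j) (κ j) (v j) + σ j * (f j s : ℕ)).toNat.Prime)).card : ℝ) -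
          S'.card / Q ^ t| ≤ ε / 2 * (S'.card / Q ^ t)) := ⟨_, Iff.rfl⟩
  obtain ⟨G', hG'⟩ : ∃ G' : Prop, G' ↔ ((∀ j, ∀ s ∈ S, 0 < Nm y (h j) (c j) (κ j) (v j) + σ j * (f j s : ℕ)) → ∀ t : ℕ, t ≤ r →
        |((S.filter (fun s => ∀ j : Fin r, (j : ℕ) < t → (Nm y (h j) (c j) (κ j) (v j) + σ j * (f j s : ℕ)).toNat.Prime)).card : ℝ) -
          S.card / Q ^ t| ≤ ε * (S.card / Q ^ t)) := ⟨_, Iff.rfl⟩
  have himp : G → G' := by
    intro hg
    rw [hG] at hg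
    rw [hG']
    intro hpos t ht
    have g1 := hg (fun j s hs => hpos j s (hsub hs)) t ht
    have h6 : ((S'.filter (fun s => ∀ j : Fin r, (j : ℕ) < t → (Nm y (h j) (c j) (κ j) (v j) + σ j * (f j s : ℕ)).toNat.Prime)).card : ℝ) ≤
        ((S.filter (fun s => ∀ j : Fin r, (j : ℕ) < t → (Nm y (h j) (c j) (κ j) (v j) + σ j * (f j s : ℕ)).toNat.Prime)).card : ℝ) := by
      exact_mod_cast card_le_card (filter_subset_filter _ hsub)
    have h7 : ((S.filter (fun s => ∀ j : Fin r, (j : ℕ) < t → (Nm y (h j) (c j) (κ j) (v j) + σ j * (f j s : ℕ)).toNat.Prime)).card : ℝ) ≤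
        ((S'.filter (fun s => ∀ j : Fin r, (j : ℕ) < t → (Nm y (h j) (c j) (κ j) (v j) + σ j * (f j s : ℕ)).toNat.Prime)).card : ℝ) + (k : ℝ) ^ (2 * K₁ + J + 1) := by
      exact_mod_cast hcard (fun s => ∀ j : Fin r, (j : ℕ) < t → (Nm y (h j) (c j) (κ j) (v j) + σ j * (f j s : ℕ)).toNat.Prime)
    have q1 := hd2 t ht
    exact remove_few (S.card : ℝ) (S'.card : ℝ) _ _ ((k : ℝ) ^ (2 * K₁ + J + 1)) (Q ^ t) ε (by positivity) hε hε1 hc2 hc1 h6 h7 hdpos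
      (Nat.cast_nonneg _) (by linarith) (by linarith) g1
  have hgoal : (if G' then 0 else ∏ j, p j (v j)) ≤ (if G then 0 else ∏ j, p j (v j)) := by
    by_cases hq : G
    · rw [if_pos hq, if_pos (himp hq)]
    · rw [if_neg hq]
      split_ifs
      · exact hw0
      · exact le_rfl
  refine le_trans (le_of_eq ?_) (hgoal.trans (le_of_eq ?_))
  · by_cases hq : G'
    · rw [if_pos hq, if_pos (hG'.1 hq)]
    · rw [if_neg hq, if_neg (fun h => hq (hG'.2 h))]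
  · by_cases hq : G
    · rw [if_pos hq, if_pos (hG.1 hq)]
    · rw [if_neg hq, if_neg (fun h => hq (hG.2 h))]

open Classical in
/-- two translates -/
theorem pair_f (b q₀ : ℕ) (hb : 2 ≤ b) (Cl : Fin 2 → ℕ → (ℕ → ℝ) → Prop) (hC : ∀ j, SCls b q₀ (Cl j)) (κ : Fin 2 → ℤ)
    (hκ : ∀ j, κ j ≠ 0) (B J A C K₁ : ℕ) (θ : ℝ) (hθ : 0 < θ) (ε : ℝ) (hε : 0 < ε) (hε1 : ε ≤ 1) :
    ∃ k₀ : ℕ, ∀ k : ℕ, k₀ ≤ k → ∀ p : Fin 2 → ℕ → ℝ, (∀ j, Cl j k (p j)) →
    ∀ y : ℕ, θ * Real.log k ≤ y → y ≤ K₁ * Real.log k → ∀ c : Fin 2 → ℤ, (∀ j, |c j| ≤ B * (b : ℤ) ^ k) →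
    ∀ h : Fin 2 → ℕ, (∀ j, 1 ≤ h j ∧ h j ≤ k ^ J) → ∀ X : ℕ, b ^ k ≤ X * k ^ C → X ≤ b ^ k * k ^ C →
    ∀ (I : Finset ℕ) (f g : ℕ → ℕ), Set.InjOn f I → Set.InjOn g I →
    (∀ i ∈ I, 1 ≤ f i ∧ f i ≤ X ∧ ((f i).Coprime (primorial y * h 0) ∨ (f i).Prime)) →
    (∀ i ∈ I, 1 ≤ g i ∧ g i ≤ X ∧ ((g i).Coprime (primorial y * h 1) ∨ (g i).Prime)) →
    (X : ℝ) ≤ I.card * (k : ℝ) ^ A →
    ∑ v ∈ Fintype.piFinset (fun _ : Fin 2 => range (b ^ k)),
      (if (∀ j, 0 < Nm y (h j) (c j) (κ j) (v j)) →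
        |((I.filter (fun i => (Nm y (h 0) (c 0) (κ 0) (v 0) + (f i : ℕ)).toNat.Prime ∧
            (Nm y (h 1) (c 1) (κ 1) (v 1) + (g i : ℕ)).toNat.Prime)).card : ℝ) -
          I.card / (Vz y * (k * Real.log b)) ^ 2| ≤ ε * (I.card / (Vz y * (k * Real.log b)) ^ 2) then 0 else ∏ j, p j (v j)) ≤ ε := by
  obtain ⟨k1, h1⟩ := tuple_f b q₀ hb 2 Cl hC κ hκ B J A C K₁ θ hθ ε hε hε1
  refine ⟨k1, fun k hk p hp y hy1 hy2 c hc h hh X hX1 hX2 I f g hf hg hfI hgI hIA => ?_⟩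
  have h5 := h1 k hk p hp y hy1 hy2 c hc h hh X hX1 hX2 I ![f, g] (by
    intro j
    fin_cases j
    · exact hf
    · exact hg) (by
    intro j i hi
    fin_cases j
    · exact hfI i hi
    · exact hgI i hi) hIA (fun _ => 1) (fun _ => Or.inl rfl)
  refine le_trans (sum_le_sum fun v _ => ?_) h5
  have hw0 : 0 ≤ ∏ j, p j (v j) := prod_nonneg fun j _ => (hC j).nonneg _ _ (hp j) _
  by_cases hq : (∀ j, 0 < Nm y (h j) (c j) (κ j) (v j)) →
        |((I.filter (fun i => (Nm y (h 0) (c 0) (κ 0) (v 0) + (f i : ℕ)).toNat.Prime ∧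
            (Nm y (h 1) (c 1) (κ 1) (v 1) + (g i : ℕ)).toNat.Prime)).card : ℝ) -
          I.card / (Vz y * (k * Real.log b)) ^ 2| ≤ ε * (I.card / (Vz y * (k * Real.log b)) ^ 2)
  · rw [if_pos hq]
    split_ifs
    · exact le_rfl
    · exact hw0
  · rw [if_neg hq, if_neg]
    intro hall
    apply hq
    intro hpos
    have h6 := hall (fun j i hi => by
      have := hpos j
      have h7 : (0 : ℤ) ≤ (((![f, g] : Fin 2 → ℕ → ℕ) j i : ℕ) : ℤ) := Int.natCast_nonneg _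
      linarith) 2 le_rfl
    refine le_trans (le_of_eq ?_) h6
    congr 3
    congr 1
    apply filter_congr
    intro i _
    rw [Fin.forall_fin_two]
    simp

end Pool.Agent.U847.XP
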