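import Pool.Agent.U847.XL

set_option autoImplicit false

/-! Chains of primes for affine maps with random translations. -/

namespace Pool.Agent.U847.XP
open Finset
open Pool.Agent.N625.PT
open Pool.Agent.H373R2.T7 (pz mem_pz Vz Vz_pos Vz_le_one ev_L')

/-- the orbit of `p` under the maps `x ↦ α x + β + N j` -/
def orb (α : ℕ) (β : ℤ) (N : ℕ → ℤ) (p : ℤ) : ℕ → ℤ
  | 0 => p
  | j + 1 => α * orb α β N p j + β + N j

lemma orb_sub (α : ℕ) (β : ℤ) (N : ℕ → ℤ) (p p' : ℤ) (j : ℕ) : orb α β N p j - orb α β N p' j = (α : ℤ) ^ j * (p - p') := by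
  induction j with
  | zero => simp [orb]
  | succ j ih =>
    have e : orb α β N p (j + 1) - orb α β N p' (j + 1) = α * (orb α β N p j - orb α β N p' j) := by
      simp only [orb]
      ring
    rw [e, ih, pow_succ]
    ring

lemma orb_congr (α : ℕ) (β : ℤ) (N N' : ℕ → ℤ) (p : ℤ) (j : ℕ) (h : ∀ l < j, N l = N' l) : orb α β N p j = orb α β N' p j := by
  induction j with
  | zero => rfl
  | succ j ih =>
    simp only [orb]
    rw [ih (fun l hl => h l (by omega)), h j (by omega)]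

lemma orb_mod (α : ℕ) (β : ℤ) (N : ℕ → ℤ) (p : ℤ) (D : ℤ) (j : ℕ) (h : ∀ l < j, D ∣ N l) :
    D ∣ orb α β N p j - orb α β (fun _ => 0) p j := by
  induction j with
  | zero => simp [orb]
  | succ j ih =>
    have e : orb α β N p (j + 1) - orb α β (fun _ => 0) p (j + 1) = α * (orb α β N p j - orb α β (fun _ => 0) p j) + N j := by
      simp only [orb]
      ring
    rw [e]
    exact dvd_add ((ih (fun l hl => h l (by omega))).mul_left _) (h j (by omega))

lemma orb_pos (α : ℕ) (β : ℤ) (hα : 1 ≤ α) (hβ : 1 ≤ α + β) (N : ℕ → ℤ) (p : ℤ) (hp : 1 ≤ p) (j : ℕ) (h : ∀ l < j, 0 ≤ N l) :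
    1 ≤ orb α β N p j := by
  induction j with
  | zero => exact hp
  | succ j ih =>
    have h1 := ih (fun l hl => h l (by omega))
    have h2 := h j (by omega)
    have h3 : (α : ℤ) * 1 ≤ α * orb α β N p j := mul_le_mul_of_nonneg_left h1 (by positivity)
    simp only [orb]
    linarith

lemma orb_le (α : ℕ) (β : ℤ) (N : ℕ → ℤ) (p W : ℤ) (hW : 1 ≤ W) (hp : p ≤ W) (j : ℕ)
    (h : ∀ l < j, N l ≤ W) : orb α β N p j ≤ (α + |β| + 1) ^ j * W := by
  induction j with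
  | zero => simpa [orb] using hp
  | succ j ih =>
    have h1 := ih (fun l hl => h l (by omega))
    have h2 := h j (by omega)
    have hG : 1 ≤ ((α : ℤ) + |β| + 1) ^ j := one_le_pow₀ (by have := abs_nonneg β; have : (0 : ℤ) ≤ α := (by positivity); linarith)
    have h3 : (α : ℤ) * orb α β N p j ≤ α * ((α + |β| + 1) ^ j * W) := mul_le_mul_of_nonneg_left h1 (by positivity)
    have h4 : β ≤ |β| * ((α + |β| + 1) ^ j * W) := by
      calc β ≤ |β| := le_abs_self β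
        _ = |β| * (1 * 1) := by ring
        _ ≤ |β| * ((α + |β| + 1) ^ j * W) := by gcongr
    have h5 : W ≤ 1 * ((α + |β| + 1) ^ j * W) := by
      calc W = 1 * (1 * W) := by ring
        _ ≤ 1 * ((α + |β| + 1) ^ j * W) := by gcongr
    simp only [orb]
    calc (α : ℤ) * orb α β N p j + β + N j ≤ α * ((α + |β| + 1) ^ j * W) + |β| * ((α + |β| + 1) ^ j * W) +
          1 * ((α + |β| + 1) ^ j * W) := by linarith
      _ = _ := by ring

lemma orb_step_le (α : ℕ) (β : ℤ) (N : ℕ → ℤ) (p W : ℤ) (hW : 1 ≤ W) (hp : p ≤ W) (j : ℕ)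
    (h : ∀ l < j, N l ≤ W) : α * orb α β N p j + β ≤ (α + |β| + 1) ^ (j + 1) * W := by
  have h1 := orb_le α β N p W hW hp j h
  have hG : 1 ≤ ((α : ℤ) + |β| + 1) ^ j := one_le_pow₀ (by have := abs_nonneg β; have : (0 : ℤ) ≤ α := (by positivity); linarith)
  have h3 : (α : ℤ) * orb α β N p j ≤ α * ((α + |β| + 1) ^ j * W) := mul_le_mul_of_nonneg_left h1 (by positivity)
  have h4 : β ≤ |β| * ((α + |β| + 1) ^ j * W) := by
    calc β ≤ |β| := le_abs_self β
      _ = |β| * (1 * 1) := by ring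
      _ ≤ |β| * ((α + |β| + 1) ^ j * W) := by gcongr
  have h5 : 0 ≤ (α + |β| + 1) ^ j * W := by positivity
  calc (α : ℤ) * orb α β N p j + β ≤ α * ((α + |β| + 1) ^ j * W) + |β| * ((α + |β| + 1) ^ j * W) +
        1 * ((α + |β| + 1) ^ j * W) := by linarith
    _ = _ := by ring

/-- the random translations -/
def Nr {r : ℕ} (y h : ℕ) (c κ : Fin r → ℤ) (v : Fin r → ℕ) (l : ℕ) : ℤ :=
  if hl : l < r then Nm y h (c ⟨l, hl⟩) (κ ⟨l, hl⟩) (v ⟨l, hl⟩) else 0

open Classical in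
/-- chains -/
theorem chain_law (b q₀ : ℕ) (hb : 2 ≤ b) (r : ℕ) (Cl : Fin r → ℕ → (ℕ → ℝ) → Prop) (hC : ∀ j, SCls b q₀ (Cl j)) (κ : Fin r → ℤ)
    (hκ : ∀ j, κ j ≠ 0) (α : ℕ) (β : ℤ) (hα : 1 ≤ α) (hβ : 1 ≤ α + β) (B J A C K₁ : ℕ) (θ : ℝ) (hθ : 0 < θ) (ε : ℝ) (hε : 0 < ε)
    (hε1 : ε ≤ 1) :
    ∃ k₀ : ℕ, ∀ k : ℕ, k₀ ≤ k → ∀ p : Fin r → ℕ → ℝ, (∀ j, Cl j k (p j)) →
    ∀ y : ℕ, θ * Real.log k ≤ y → y ≤ K₁ * Real.log k → ∀ c : Fin r → ℤ, (∀ j, |c j| ≤ B * (b : ℤ) ^ k) →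
    ∀ h : ℕ, 1 ≤ h → h ≤ k ^ J → ∀ X : ℕ, b ^ k ≤ X * k ^ C → X ≤ b ^ k * k ^ C → ∀ s : ℕ, 1 ≤ s → s ≤ r →
    ∀ I : Finset ℕ, I ⊆ Icc 1 X → (∀ i ∈ I, ∀ j : ℕ, 1 ≤ j → j ≤ s → IsCoprime (orb α β (fun _ => 0) (i : ℤ) j) ((primorial y * h : ℕ) : ℤ)) →
    (X : ℝ) ≤ I.card * (k : ℝ) ^ A →
    ∑ v ∈ Fintype.piFinset (fun _ : Fin r => range (b ^ k)),
      (if (∀ j, 0 < Nm y h (c j) (κ j) (v j)) → ∀ t : ℕ, t ≤ s →
        |((I.filter (fun i : ℕ => ∀ j : ℕ, 1 ≤ j → j ≤ t → (orb α β (Nr y h c κ v) (i : ℤ) j).toNat.Prime)).card : ℝ) -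
          I.card / (Vz y * (k * Real.log b)) ^ t| ≤ ε * (I.card / (Vz y * (k * Real.log b)) ^ t) then 0 else ∏ j, p j (v j)) ≤ ε := by
  obtain ⟨E, hE⟩ : ∃ E, E = 2 * K₁ + J + C + 3 := ⟨_, rfl⟩
  obtain ⟨k₀, h0⟩ := adapt_law b q₀ hb r Cl hC κ hκ B J (A + E) (C + E) K₁ θ hθ ε hε hε1
  obtain ⟨G, hG⟩ : ∃ G : ℕ, G = α + β.natAbs + 1 := ⟨_, rfl⟩
  obtain ⟨κm, hκm⟩ : ∃ κm : ℕ, κm = B + ∑ j, (κ j).natAbs + 1 := ⟨_, rfl⟩
  refine ⟨max k₀ (max (G ^ r) (max κm 3)), fun k hk p hp y hy1 hy2 c hc h hh1 hhJ X hX1 hX2 s hs1 hsr I hI hcop hIA => ?_⟩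
  have b1 : G ^ r ≤ k := by omega
  have b2 : κm ≤ k := by omega
  have b3 : 3 ≤ k := by omega
  have hD := mult_small K₁ J k y h b3 hy2 hhJ
  have hD1 : 1 ≤ primorial y * h := Nat.mul_pos (primorial_pos y) hh1
  have hX1' : b ^ k ≤ (X * k ^ E) * k ^ (C + E) := by
    calc b ^ k ≤ X * k ^ C := hX1
      _ ≤ X * k ^ (E + (C + E)) := Nat.mul_le_mul_left _ (Nat.pow_le_pow_right (by omega) (by omega))
      _ = _ := by rw [mul_assoc, ← pow_add]
  have hX2' : X * k ^ E ≤ b ^ k * k ^ (C + E) := by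
    calc X * k ^ E ≤ (b ^ k * k ^ C) * k ^ E := Nat.mul_le_mul_right _ hX2
      _ = _ := by rw [mul_assoc, ← pow_add]
  have hXA : ((X * k ^ E : ℕ) : ℝ) ≤ I.card * (k : ℝ) ^ (A + E) := by
    push_cast
    calc (X : ℝ) * (k : ℝ) ^ E ≤ (I.card * (k : ℝ) ^ A) * (k : ℝ) ^ E := mul_le_mul_of_nonneg_right hIA (by positivity)
      _ = _ := by rw [mul_assoc, ← pow_add]
  obtain ⟨gN, hgN⟩ : ∃ gN : Fin r → (Fin r → ℕ) → ℕ → ℤ, ∀ j v, gN j v = if (j : ℕ) < s then Nr y h c κ v else fun _ => 0 := ⟨_, fun _ _ => rfl⟩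
  obtain ⟨gm, hgm⟩ : ∃ gm : Fin r → ℕ, ∀ j, gm j = if (j : ℕ) < s then (j : ℕ) else s - 1 := ⟨_, fun _ => rfl⟩
  have hgs : ∀ j, gm j < s := by
    intro j
    rw [hgm]
    split_ifs with hj
    · exact hj
    · omega
  obtain ⟨f, hf⟩ : ∃ f : Fin r → (Fin r → ℕ) → ℕ → ℕ, ∀ j v i, f j v i = (α * orb α β (gN j v) (i : ℤ) (gm j) + β).toNat := ⟨_, fun _ _ _ => rfl⟩
  -- the size of the translations
  obtain ⟨W, hW⟩ : ∃ W : ℕ, W = X + k ^ (2 * K₁ + J) * (κm * b ^ k) := ⟨_, rfl⟩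
  have hWX : G ^ r * W ≤ X * k ^ E := by
    have e1 : k ^ (2 * K₁ + J) * (κm * b ^ k) ≤ X * k ^ (2 * K₁ + J + C + 1) := by
      calc k ^ (2 * K₁ + J) * (κm * b ^ k) ≤ k ^ (2 * K₁ + J) * (κm * (X * k ^ C)) :=
            Nat.mul_le_mul_left _ (Nat.mul_le_mul_left _ hX1)
        _ ≤ k ^ (2 * K₁ + J) * (k * (X * k ^ C)) := Nat.mul_le_mul_left _ (Nat.mul_le_mul_right _ b2)
        _ = _ := by ring
    have e2 : X * 1 ≤ X * k ^ (2 * K₁ + J + C + 1) := Nat.mul_le_mul_left _ (Nat.one_le_pow _ _ (by omega))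
    have e3 : W ≤ X * k ^ (2 * K₁ + J + C + 1) * k := by
      calc W ≤ X * k ^ (2 * K₁ + J + C + 1) * 2 := by rw [hW]; omega
        _ ≤ _ := Nat.mul_le_mul_left _ (by omega)
    calc G ^ r * W ≤ k * (X * k ^ (2 * K₁ + J + C + 1) * k) := Nat.mul_le_mul b1 e3
      _ = X * k ^ E := by rw [hE]; ring
  have hWr : ((G ^ r * W : ℕ) : ℤ) ≤ ((X * k ^ E : ℕ) : ℤ) := by exact_mod_cast hWX
  have had : ∀ j l : Fin r, j ≤ l → ∀ v w, f j (Function.update v l w) = f j v := by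
    intro j l hjl v w
    funext i
    rw [hf, hf, orb_congr α β (gN j (Function.update v l w)) (gN j v) (i : ℤ) (gm j)]
    intro m hm
    rw [hgN, hgN]
    rw [hgm] at hm
    split_ifs at hm ⊢ with hj
    · have hmr : m < r := by have := j.2; omega
      unfold Nr
      rw [dif_pos hmr, dif_pos hmr, Function.update_of_ne]
      intro heq
      have h1 : (l : ℕ) = m := by rw [← heq]
      have h2 : (j : ℕ) ≤ l := hjl
      omega
    · rfl
  have h5 := h0 k (by omega) p hp y hy1 hy2 c hc (fun _ => h) (fun _ => ⟨hh1, hhJ⟩) (X * k ^ E) hX1' hX2' I f had hXA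
  refine le_trans (sum_le_sum fun v hv => ?_) h5
  have hw0 : 0 ≤ ∏ j, p j (v j) := prod_nonneg fun j _ => (hC j).nonneg _ _ (hp j) _
  by_cases hq : (∀ j, 0 < Nm y h (c j) (κ j) (v j)) → ∀ t : ℕ, t ≤ s →
        |((I.filter (fun i : ℕ => ∀ j : ℕ, 1 ≤ j → j ≤ t → (orb α β (Nr y h c κ v) (i : ℤ) j).toNat.Prime)).card : ℝ) -
          I.card / (Vz y * (k * Real.log b)) ^ t| ≤ ε * (I.card / (Vz y * (k * Real.log b)) ^ t)
  · rw [if_pos hq]
    split_ifs
    · exact le_rfl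
    · exact hw0
  · rw [if_neg hq, if_neg]
    intro hall
    apply hq
    intro hpos t ht
    have hDz : (0 : ℤ) < ((primorial y * h : ℕ) : ℤ) := by exact_mod_cast hD1
    have hN0 : ∀ l, 0 ≤ Nr y h c κ v l := by
      intro l
      unfold Nr
      split_ifs with hl
      · exact (hpos _).le
      · exact le_rfl
    have hND : ∀ l, ((primorial y * h : ℕ) : ℤ) ∣ Nr y h c κ v l := by
      intro l
      unfold Nr
      split_ifs with hl
      · unfold Nm
        exact dvd_mul_right _ _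
      · exact dvd_zero _
    have hNW : ∀ l, Nr y h c κ v l ≤ W := by
      intro l
      unfold Nr
      split_ifs with hl
      · have hv2 : v ⟨l, hl⟩ < b ^ k := by
          have := Fintype.mem_piFinset.1 hv ⟨l, hl⟩
          exact mem_range.1 this
        have g1 : c ⟨l, hl⟩ + κ ⟨l, hl⟩ * (v ⟨l, hl⟩ : ℕ) ≤ κm * (b : ℤ) ^ k := by
          have g2 : c ⟨l, hl⟩ ≤ B * (b : ℤ) ^ k := (le_abs_self _).trans (hc _)
          have g3 : κ ⟨l, hl⟩ * ((v ⟨l, hl⟩ : ℕ) : ℤ) ≤ |κ ⟨l, hl⟩| * (b : ℤ) ^ k := by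
            calc κ ⟨l, hl⟩ * ((v ⟨l, hl⟩ : ℕ) : ℤ) ≤ |κ ⟨l, hl⟩| * ((v ⟨l, hl⟩ : ℕ) : ℤ) :=
                  mul_le_mul_of_nonneg_right (le_abs_self _) (Int.natCast_nonneg _)
              _ ≤ |κ ⟨l, hl⟩| * (b : ℤ) ^ k := by
                  apply mul_le_mul_of_nonneg_left _ (abs_nonneg _)
                  exact_mod_cast hv2.le
          have g4 : |κ ⟨l, hl⟩| ≤ ((∑ j, (κ j).natAbs : ℕ) : ℤ) := by
            rw [Int.abs_eq_natAbs]
            exact_mod_cast single_le_sum (f := fun j => (κ j).natAbs) (fun _ _ => Nat.zero_le _) (mem_univ (⟨l, hl⟩ : Fin r))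
          have g5 : (κm : ℤ) = B + ((∑ j, (κ j).natAbs : ℕ) : ℤ) + 1 := by rw [hκm]; push_cast; ring
          have g6 : (0 : ℤ) ≤ (b : ℤ) ^ k := by positivity
          rw [g5]
          nlinarith
        unfold Nm
        have g2 : ((primorial y * h : ℕ) : ℤ) * (c ⟨l, hl⟩ + κ ⟨l, hl⟩ * (v ⟨l, hl⟩ : ℕ)) ≤ ((primorial y * h : ℕ) : ℤ) * (κm * (b : ℤ) ^ k) :=
          mul_le_mul_of_nonneg_left g1 hDz.le
        have g3 : ((primorial y * h : ℕ) : ℤ) * (κm * (b : ℤ) ^ k) ≤ ((k ^ (2 * K₁ + J) : ℕ) : ℤ) * (κm * (b : ℤ) ^ k) :=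
          mul_le_mul_of_nonneg_right (by exact_mod_cast hD) (by positivity)
        have g4 : ((k ^ (2 * K₁ + J) : ℕ) : ℤ) * (κm * (b : ℤ) ^ k) ≤ (W : ℤ) := by
          rw [hW]
          push_cast
          have : (0 : ℤ) ≤ X := Int.natCast_nonneg _
          linarith
        linarith
      · exact Int.natCast_nonneg _
    have hgN0 : ∀ j l, 0 ≤ gN j v l := by
      intro j l
      rw [hgN]
      split_ifs
      · exact hN0 l
      · exact le_rfl
    have hgND : ∀ j l, ((primorial y * h : ℕ) : ℤ) ∣ gN j v l := by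
      intro j l
      rw [hgN]
      split_ifs
      · exact hND l
      · exact dvd_zero _
    have hgNW : ∀ j l, gN j v l ≤ W := by
      intro j l
      rw [hgN]
      split_ifs
      · exact hNW l
      · exact Int.natCast_nonneg _
    have hval : ∀ j : Fin r, ∀ i ∈ I, 1 ≤ α * orb α β (gN j v) (i : ℤ) (gm j) + β := by
      intro j i hi
      have hi1 : (1 : ℤ) ≤ (i : ℤ) := by exact_mod_cast (mem_Icc.1 (hI hi)).1
      have g1 := orb_pos α β hα hβ (gN j v) i hi1 (gm j) (fun l _ => hgN0 j l)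
      have g2 : (α : ℤ) * 1 ≤ α * orb α β (gN j v) (i : ℤ) (gm j) := mul_le_mul_of_nonneg_left g1 (by positivity)
      linarith
    have h6 := hall (fun j => ⟨⟨fun i hi i' hi' heq => ?_, fun i hi => ⟨?_, ?_, ?_⟩⟩, hpos j⟩) t (ht.trans hsr)
    · have e1 : (I.filter (fun i : ℕ => ∀ j : ℕ, 1 ≤ j → j ≤ t → (orb α β (Nr y h c κ v) (i : ℤ) j).toNat.Prime)) =
          (I.filter (fun i : ℕ => ∀ j : Fin r, (j : ℕ) < t → (Nm y h (c j) (κ j) (v j) + (f j v i : ℕ)).toNat.Prime)) := by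
        apply filter_congr
        intro i hi
        have hstep : ∀ (j : ℕ) (hj : j < r), j < s → Nm y h (c ⟨j, hj⟩) (κ ⟨j, hj⟩) (v ⟨j, hj⟩) + (f ⟨j, hj⟩ v i : ℕ) =
            orb α β (Nr y h c κ v) (i : ℤ) (j + 1) := by
          intro j hj hjs
          have g1 := hval ⟨j, hj⟩ i hi
          rw [hf, Int.toNat_of_nonneg (by linarith), hgN, hgm]
          simp only
          rw [if_pos hjs, if_pos hjs]
          simp only [orb]
          have g2 : Nr y h c κ v j = Nm y h (c ⟨j, hj⟩) (κ ⟨j, hj⟩) (v ⟨j, hj⟩) := by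
            unfold Nr
            rw [dif_pos hj]
          rw [g2]
          ring
        constructor
        · intro hp' j hj
          have := hp' (j + 1) (by omega) (by omega)
          rw [← hstep j j.2 (by omega)] at this
          exact this
        · intro hp' j hj1 hj2
          have h7 : j - 1 < r := by omega
          have := hp' ⟨j - 1, h7⟩ (by simp only; omega)
          rw [hstep (j - 1) h7 (by omega)] at this
          rwa [Nat.sub_add_cancel hj1] at this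
      rw [e1]
      exact h6
    · rw [hf, hf] at heq
      have g1 := hval j i (by exact_mod_cast hi)
      have g2 := hval j i' (by exact_mod_cast hi')
      have g3 : α * orb α β (gN j v) (i : ℤ) (gm j) + β = α * orb α β (gN j v) (i' : ℤ) (gm j) + β := by
        rw [← Int.toNat_of_nonneg (by linarith : 0 ≤ α * orb α β (gN j v) (i : ℤ) (gm j) + β), heq,
          Int.toNat_of_nonneg (by linarith)]
      have g4 : (α : ℤ) * (orb α β (gN j v) (i : ℤ) (gm j) - orb α β (gN j v) (i' : ℤ) (gm j)) = 0 := by linarith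
      rw [orb_sub] at g4
      have hα0 : (α : ℤ) ≠ 0 := by
        have : (1 : ℤ) ≤ α := by exact_mod_cast hα
        omega
      rcases mul_eq_zero.1 g4 with g5 | g5
      · exact absurd g5 hα0
      · rcases mul_eq_zero.1 g5 with g6 | g6
        · exact absurd g6 (pow_ne_zero _ hα0)
        · have : (i : ℤ) = i' := by linarith
          exact_mod_cast this
    · rw [hf]
      have g1 := hval j i hi
      have : (0 : ℤ) ≤ α * orb α β (gN j v) (i : ℤ) (gm j) + β := by linarith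
      omega
    · rw [hf]
      have g0 : (1 : ℤ) ≤ W := by
        have hi2 := mem_Icc.1 (hI hi)
        have : 1 ≤ W := by rw [hW]; omega
        exact_mod_cast this
      have g1 := orb_step_le α β (gN j v) (i : ℤ) W g0 (by
        have hi2 := mem_Icc.1 (hI hi)
        have : i ≤ W := by rw [hW]; omega
        exact_mod_cast this) (gm j) (fun l _ => hgNW j l)
      have g2 : ((α : ℤ) + |β| + 1) ^ (gm j + 1) * W ≤ ((G ^ r * W : ℕ) : ℤ) := by
        have g3 : (α : ℤ) + |β| + 1 = (G : ℤ) := by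
          rw [hG, Int.abs_eq_natAbs]
          push_cast
          ring
        rw [g3]
        push_cast
        apply mul_le_mul_of_nonneg_right _ (by positivity)
        have hG1 : (1 : ℤ) ≤ G := by exact_mod_cast (by omega : 1 ≤ G)
        exact pow_le_pow_right₀ hG1 (by have := hgs j; omega)
      have g3 := (g1.trans g2).trans hWr
      exact Int.toNat_le.2 g3
    · rw [hf]
      have g1 := hval j i hi
      rw [← Nat.isCoprime_iff_coprime, Int.toNat_of_nonneg (by linarith)]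
      have g2 := hcop i hi (gm j + 1) (by omega) (by have := hgs j; omega)
      have g3 := orb_mod α β (gN j v) (i : ℤ) ((primorial y * h : ℕ) : ℤ) (gm j + 1) (fun l _ => hgND j l)
      obtain ⟨e, he⟩ := g3
      obtain ⟨e', he'⟩ := hgND j (gm j)
      have g4 : (α : ℤ) * orb α β (gN j v) (i : ℤ) (gm j) + β = orb α β (fun _ => 0) (i : ℤ) (gm j + 1) + ((primorial y * h : ℕ) : ℤ) * (e - e') := by
        have : orb α β (gN j v) (i : ℤ) (gm j + 1) = α * orb α β (gN j v) (i : ℤ) (gm j) + β + gN j v (gm j) := rfl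
        linarith
      rw [g4]
      exact IsCoprime.add_mul_left_left g2 _

end Pool.Agent.U847.XP
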